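import Pool.Agent.H889.PS.Covc

/-!
# Existence of the Gauss valuation
-/

set_option autoImplicit false
set_option linter.all false

open Polynomial FF

namespace Pool.Agent.H889.PS

open Pool.Agent.Y157.PS Pool.Agent.Y155.PS

section disc
variable {ℓ : ℕ} [hℓi : Fact ℓ.Prime] {κ R M : Type} [Field κ] [IsAlgClosed κ] [CharZero κ]
  [Field R] [Field M] [Algebra κ R] [Algebra R M] [Algebra κ M] [IsScalarTower κ R M] {x : R}
  {B : Finset κ} {ε : κ → ℕ} {ι : ℕ} {N₀ : IntermediateField R M}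
  {F : Type} [Field F] {V : ValuationSubring κ} {r : V →+* F}

theorem gauss_of_emb (hr : Res V r) (D : Disc ℓ V r) (X : D.E) (hX : X ∈ D.O)
    (htrF : Transcendental F (D.ρ ⟨X, hX⟩)) (j : M →ₐ[κ] D.E) (hj : j (algebraMap R M x) = X) :
    Gauss V (algebraMap R M x) (D.O.comap j.toRingHom) := by
  have jc : ∀ c : κ, j (algebraMap κ M c) = algebraMap κ D.E c := fun c => j.commutes c
  have hconst : ∀ c : κ, algebraMap κ D.E c ∈ D.O ↔ c ∈ V := by
    intro c
    constructor
    · intro h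
      by_contra hcV
      have hc0 : c ≠ 0 := by
        rintro rfl
        exact hcV (zero_mem V)
      have h1 : c⁻¹ ∈ V.nonunits := V.inv_mem_nonunits_iff.2 (Or.inr hcV)
      have h2 : c⁻¹ ∈ V := V.nonunits_subset h1
      have h3 : D.ρ ⟨algebraMap κ D.E c⁻¹, D.memV _ h2⟩ = 0 := by
        rw [D.ρV _ h2, (hr.ker ⟨_, h2⟩).2 h1, map_zero]
      have h4 := (D.ker _).1 h3
      change algebraMap κ D.E c⁻¹ ∈ D.O.nonunits at h4
      rw [map_inv₀, D.O.inv_mem_nonunits_iff] at h4
      rcases h4 with h4 | h4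
      · exact hc0 ((_root_.map_eq_zero _).1 h4)
      · exact h4 h
    · exact D.memV c
  have hcnon : ∀ c : V, D.ρ ⟨algebraMap κ D.E c, D.memV _ c.2⟩ = HahnSeries.C (r c) := fun c =>
    D.ρV c.1 c.2
  -- the Gauss valuation
  have hGauss : Gauss V (algebraMap R M x) (D.O.comap j.toRingHom) := by
    refine ⟨fun c => ?_, fun p hp hp1 => ?_⟩
    · rw [← hconst c, ← jc]
      rfl
    · obtain ⟨n, hn⟩ := hp1
      have hlift : p ∈ lifts (V.subtype) := by
        rw [lifts_iff_coeff_lifts]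
        intro m
        exact ⟨⟨p.coeff m, hp m⟩, rfl⟩
      obtain ⟨q, hq⟩ := (mem_lifts p).1 hlift
      let ψ : V →+* D.O := ((algebraMap κ D.E).comp V.subtype).codRestrict D.O.toSubring
        (fun c => D.memV c.1 c.2)
      have h1 : j (aeval (algebraMap R M x) p) = D.O.subtype (q.eval₂ ψ ⟨X, hX⟩) := by
        have h2 : j (aeval (algebraMap R M x) p) = aeval X p := by
          rw [← hj]
          exact (aeval_algHom_apply j (algebraMap R M x) p).symm
        rw [h2, aeval_def, ← hq, eval₂_map, hom_eval₂]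
        rfl
      have h4 : D.ρ (q.eval₂ ψ ⟨X, hX⟩) ≠ 0 := by
        rw [hom_eval₂]
        have h5 : D.ρ.comp ψ = (algebraMap F (LaurentSeries F)).comp r := by
          ext1 c
          rw [RingHom.comp_apply (algebraMap F (LaurentSeries F)), lsC]
          exact hcnon c
        rw [h5, ← eval₂_map, ← aeval_def]
        intro h0
        have h6 := (transcendental_iff.1 htrF) _ h0
        have h9 : r (q.coeff n) = 0 := by
          rw [← coeff_map, h6, coeff_zero]
        have h10 := (hr.ker _).1 h9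
        have h11 : ((q.coeff n : V) : κ) = p.coeff n := by
          rw [← hq, coeff_map]
          rfl
        rw [h11] at h10
        exact not_isU_of_non V h10 hn
      have h6 : IsU D.O (j (aeval (algebraMap R M x) p)) := by
        rw [h1]
        rcases isU_or_non D.O (q.eval₂ ψ ⟨X, hX⟩ : D.O).2 with h | h
        · exact h
        · exact absurd ((D.ker _).2 h) h4
      refine ⟨?_, ?_, ?_⟩
      · intro h
        rw [h, map_zero] at h6
        exact h6.1 rfl
      · exact h6.2.1
      · change j _ ∈ D.O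
        rw [map_inv₀]
        exact h6.2.2
  exact hGauss

theorem gauss_exists (hC : GCov ℓ κ R M x B ε ι N₀) (hr : Res V r) (hg : Good V B)
    (D : Disc ℓ V r) : ∃ O : ValuationSubring M, Gauss V (algebraMap R M x) O := by
  have hℓ : ℓ.Prime := Fact.out
  obtain ⟨n, hn⟩ : ∃ n : ℕ, n = ℓ ^ ι := ⟨_, rfl⟩
  have hnpos : 0 < n := by rw [hn]; exact pow_pos hℓ.pos _
  have hn0 : (n : ℤ) ≠ 0 := by exact_mod_cast hnpos.ne'
  have hnZ : (n : ℤ) = (ℓ : ℤ) ^ ι := by rw [hn]; push_cast; rfl
  have hu0 := u_ne D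
  have huU : IsU D.O D.u := by
    rcases isU_or_non D.O D.memu with h | h
    · exact h
    · have := (D.ker ⟨D.u, D.memu⟩).2 h
      rw [D.ρu] at this
      exact absurd this (single_ne F)
  set X : D.E := (D.u ^ n)⁻¹ with hXd
  have hun0 : D.u ^ n ≠ 0 := pow_ne_zero _ hu0
  have hX : X ∈ D.O := by
    rw [hXd, ← inv_pow]
    exact pow_mem huU.2.2 n
  have htr : Transcendental κ X := D.P0.transcendental_of_ord_ne (by
    rw [hXd, D.P0.ord_inv, D.P0.ord_pow, D.P0u, mul_one]; omega)
  have hXa : ∀ P ∈ D.pts, ∀ a : κ, 0 < P.ord (X - algebraMap κ D.E a) →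
      (ℓ : ℤ) ^ ε a ∣ P.ord (X - algebraMap κ D.E a) := by
    intro P hP a ha
    by_cases haB : a ∈ B
    · exfalso
      have e1 : X - algebraMap κ D.E a =
          X * (algebraMap κ D.E 1 + algebraMap κ D.E (-a) * D.u ^ n) := by
        rw [hXd, map_one, map_neg]; field_simp; ring
      have e2 : algebraMap κ D.E 1 + algebraMap κ D.E (-a) * D.u ^ n ≠ 0 := by
        intro h
        rw [e1, h, mul_zero, P.ord_zero] at ha
        exact lt_irrefl _ ha
      rw [e1, P.ord_mul (inv_ne_zero hun0) e2, P.ord_inv, P.ord_pow,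
        D.unit P hP 1 (-a) ⟨one_ne_zero, one_mem _, by rw [inv_one]; exact one_mem _⟩
          (neg_mem (hg.1 a haB)) n hnpos, add_zero] at ha
      have h1 := pts_u D hP
      have h2 : 0 ≤ (n : ℤ) * P.ord D.u := by positivity
      omega
    · rw [hC.supp a haB, pow_zero]
      exact one_dvd _
  have hXi : ∀ P ∈ D.pts, P.ord X < 0 → (ℓ : ℤ) ^ ι ∣ P.ord X := by
    intro P hP hneg
    rw [hXd, P.ord_inv, P.ord_pow, hnZ, dvd_neg]
    exact dvd_mul_right _ _
  have hρ : D.ρ ⟨X, hX⟩ = ((HahnSeries.single 1 1) ^ n)⁻¹ := by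
    apply eq_inv_of_mul_eq_one_left
    rw [← D.ρu, ← map_pow, ← map_mul, ← map_one D.ρ]
    congr 1
    exact Subtype.ext (inv_mul_cancel₀ hun0)
  have hord : (lsP F).ord (D.ρ ⟨X, hX⟩) = -n := by
    rw [hρ, (lsP F).ord_inv, (lsP F).ord_pow, lsP_single, mul_one]
  have htrF : Transcendental F (D.ρ ⟨X, hX⟩) := (lsP F).transcendental_of_ord_ne (by
    rw [hord]; omega)
  obtain ⟨j, hj⟩ := emb hC D.E D.pts D.root X htr hXa hXi
  exact ⟨_, gauss_of_emb hr D X hX htrF j hj⟩

end disc

end Pool.Agent.H889.PS
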