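import Pool.Agent.H889.PS.Bad

/-!
# Ramification of the Gauss valuation and the action of inertia (2)
-/

set_option autoImplicit false
set_option linter.all false

open Polynomial FF

namespace Pool.Agent.H889.PS

open Pool.Agent.Y157.PS

section fixed

variable {k κ R M : Type} [Field k] [Field κ] [Field R] [Field M] [Algebra k κ] [Algebra κ R]
  [Algebra R M] [Algebra κ M] [IsScalarTower κ R M] {x : R} {s : (κ ≃ₐ[k] κ) →* RingAut M}

/-- the action on `κ(x)` -/
theorem exists_resR (hx : RatF κ x) (hs : GSec k κ R M x s) (σ : κ ≃ₐ[k] κ) :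
    ∃ f : R →+* R, ∀ a, s σ (algebraMap R M a) = algebraMap R M (f a) := by
  choose f hf using sec_R hx hs σ
  have hinj := (algebraMap R M).injective
  refine ⟨{ toFun := f, map_one' := ?_, map_mul' := ?_, map_zero' := ?_, map_add' := ?_ }, hf⟩
  · apply hinj
    rw [← hf, map_one, map_one]
  · intro a b
    apply hinj
    rw [← hf, map_mul, map_mul, hf, hf, map_mul]
  · apply hinj
    rw [← hf, map_zero, map_zero]
  · intro a b
    apply hinj
    rw [← hf, map_add, map_add, hf, hf, map_add]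

theorem minpoly_fixed [Algebra.IsAlgebraic R M] (hx : RatF κ x) (hs : GSec k κ R M x s) (z : M)
    (hz : ∀ σ, s σ z = z) (n : ℕ) (σ : κ ≃ₐ[k] κ) :
    s σ (algebraMap R M ((minpoly R z).coeff n)) = algebraMap R M ((minpoly R z).coeff n) := by
  obtain ⟨f, hf⟩ := exists_resR hx hs σ
  have hint : IsIntegral R z := (Algebra.IsAlgebraic.isAlgebraic z).isIntegral
  have hmon := minpoly.monic hint
  have h1 : aeval z ((minpoly R z).map f) = 0 := by
    rw [aeval_def, eval₂_map]
    have h2 : (algebraMap R M).comp f = ((s σ : M ≃+* M) : M →+* M).comp (algebraMap R M) := by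
      ext a
      exact (hf a).symm
    have h5 : ((s σ : M ≃+* M) : M →+* M) z = z := hz σ
    have h4 : ((s σ : M ≃+* M) : M →+* M) ((minpoly R z).eval₂ (algebraMap R M) z) =
        (minpoly R z).eval₂ (((s σ : M ≃+* M) : M →+* M).comp (algebraMap R M)) z := by
      rw [hom_eval₂, h5]
    rw [h2, ← h4, ← aeval_def, minpoly.aeval, map_zero]
  have h3 : (minpoly R z).map f = minpoly R z :=
    eq_of_monic_of_dvd_of_natDegree_le hmon (hmon.map f) (minpoly.dvd R z h1)
      (by rw [natDegree_map])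
  rw [hf]
  congr 1
  conv_rhs => rw [← h3]
  rw [coeff_map]

/-- the value of the constant coefficient of the minimal polynomial -/
theorem minpoly_val [IsGalois R M] {O : ValuationSubring M}
    (hst : ∀ (γ : M ≃ₐ[R] M) z, γ z ∈ O ↔ z ∈ O) (z : M) (c : κ)
    (hz : IsU O (z / algebraMap κ M c)) :
    IsU O (algebraMap R M ((minpoly R z).coeff 0) /
      algebraMap κ M c ^ (minpoly R z).natDegree) := by
  have hint : IsIntegral R z := (Algebra.IsAlgebraic.isAlgebraic z).isIntegral
  have hmon := minpoly.monic hint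
  have hspl : ((minpoly R z).map (algebraMap R M)).Splits := Normal.splits inferInstance z
  have hc0 : algebraMap κ M c ≠ 0 := by
    intro h
    rw [h, div_zero] at hz
    exact hz.1 rfl
  have h1 := hspl.coeff_zero_eq_prod_roots_of_monic (hmon.map _)
  rw [coeff_map] at h1
  have h2 : Multiset.card ((minpoly R z).map (algebraMap R M)).roots = (minpoly R z).natDegree := by
    rw [← hspl.natDegree_eq_card_roots, natDegree_map]
  have h3 : ∀ S : Multiset M, (∀ a ∈ S, IsU O (a / algebraMap κ M c)) →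
      IsU O (S.prod / algebraMap κ M c ^ (Multiset.card S)) := by
    intro S
    induction S using Multiset.induction_on with
    | empty =>
      intro _
      rw [Multiset.prod_zero, Multiset.card_zero, pow_zero, div_one]
      exact isU_one
    | cons a S ih =>
      intro h
      have h4 := (h a (Multiset.mem_cons_self a S)).mul
        (ih fun b hb => h b (Multiset.mem_cons_of_mem hb))
      rw [Multiset.prod_cons, Multiset.card_cons, pow_succ']
      have h5 : a * S.prod / (algebraMap κ M c * algebraMap κ M c ^ (Multiset.card S)) =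
          a / algebraMap κ M c * (S.prod / algebraMap κ M c ^ (Multiset.card S)) := by
        rw [mul_div_mul_comm]
      rw [h5]
      exact h4
  have h6 := h3 ((minpoly R z).map (algebraMap R M)).roots (by
    intro a ha
    have h7 : aeval a (minpoly R z) = 0 := by
      rw [mem_roots (map_ne_zero hmon.ne_zero), IsRoot.def, eval_map] at ha
      exact ha
    obtain ⟨g, hg⟩ := isConjRoot_iff_exists_algEquiv.1
      ((isConjRoot_iff_aeval_eq_zero hint).2 h7).symm
    have hgc : g (algebraMap κ M c) = algebraMap κ M c := by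
      rw [IsScalarTower.algebraMap_apply κ R M, g.commutes]
    have h8 : a / algebraMap κ M c = g (z / algebraMap κ M c) := by
      rw [map_div₀, hg, hgc]
    rw [h8]
    refine ⟨(_root_.map_ne_zero g).2 hz.1, (hst g _).2 hz.2.1, ?_⟩
    rw [← map_inv₀]
    exact (hst g _).2 hz.2.2)
  rw [h2] at h6
  rw [h1, mul_div_assoc]
  refine IsU.mul ?_ h6
  rcases neg_one_pow_eq_or M ((minpoly R z).map (algebraMap R M)).natDegree with h | h
  · rw [h]; exact isU_one
  · rw [h]
    refine ⟨neg_ne_zero.2 one_ne_zero, neg_mem (one_mem _), ?_⟩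
    rw [inv_neg, inv_one]
    exact neg_mem (one_mem _)

end fixed

section bad

variable {A k κ R M : Type} [CommRing A] [IsDomain A]
    [IsDiscreteValuationRing A] [Field k] [Field κ] [Algebra A k] [Algebra k κ] [Algebra A κ]
    [IsScalarTower A k κ] [IsFractionRing A k] [CharZero k] [IsAlgClosure k κ]
    [Finite (IsLocalRing.ResidueField A)] [Field R] [Field M] [Algebra κ R] [Algebra R M]
    [Algebra κ M] [IsScalarTower κ R M] {ℓ : ℕ} [Fact ℓ.Prime]
    {V : ValuationSubring κ} {ϖ : A} {x : R} {B : Finset κ} {ε : κ → ℕ} {ι : ℕ}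
    {N₀ : IntermediateField R M} {s : (κ ≃ₐ[k] κ) →* RingAut M} {O : ValuationSubring M}

/-- if the Gauss valuation is ramified, then the inertia group acts nontrivially on the residue
field -/
theorem bad (hB : IB ℓ A k κ V ϖ) (hC : GCov ℓ κ R M x B ε ι N₀) (hGood : Good V B)
    (hs : GSec k κ R M x s) (hO : Gauss V (algebraMap R M x) O)
    (z : M) (hz0 : z ≠ 0) (hz : ∀ σ, s σ z = z)
    (hram : ∀ c : k, c ≠ 0 → ¬ IsU O (z / algebraMap κ M (algebraMap k κ c))) :
    ∃ σ : κ ≃ₐ[k] κ, Ine V σ ∧ ∃ z ∈ O, s σ z - z ∉ O.nonunits := by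
  by_contra hcon
  push Not at hcon
  haveI : IsAlgClosed κ := IsAlgClosure.isAlgClosed k
  haveI : CharZero κ := charZero_of_injective_algebraMap (algebraMap k κ).injective
  haveI : Normal k κ := IsAlgClosure.normal k κ
  haveI : IsGalois k κ := ⟨⟩
  haveI := hC.gal
  haveI : CharZero R := charZero_of_injective_algebraMap (algebraMap κ R).injective
  have hp := (Fact.out : ℓ.Prime).pos
  have hℓ : IsU V (ℓ : κ) := hB.ell
  have hR := hC.rat
  have hu : ∀ O' : ValuationSubring M, Gauss V (algebraMap R M x) O' → O' = O :=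
    fun O' h => gun hC V hGood O' O h hO
  have gt : ∀ (γ : M ≃ₐ[R] M) z, γ z ∈ O ↔ z ∈ O := fun γ => hO.stable' hu γ
  have hfix : ∀ c : κ, (∀ σ : κ ≃ₐ[k] κ, σ c = c) → ∃ c' : k, algebraMap k κ c' = c := by
    intro c hc
    have h5 := (InfiniteGalois.mem_bot_iff_fixed c).2 hc
    exact IntermediateField.mem_bot.1 h5
  have hπ0 := hB.pi0
  have hπk : algebraMap k κ (algebraMap A k ϖ) = algebraMap A κ ϖ :=
    (IsScalarTower.algebraMap_apply A k κ ϖ).symm
  have hπk0 : algebraMap A k ϖ ≠ 0 := by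
    intro h
    rw [h, map_zero] at hπk
    exact hπ0 hπk.symm
  -- `z` has the value of a constant
  obtain ⟨c, hc0, hc⟩ := (g2 hC V O hO).1 z hz0
  have hcM0 : algebraMap κ M c ≠ 0 := (_root_.map_ne_zero _).2 hc0
  -- the degree of `z`
  have hint : IsIntegral R z := (Algebra.IsAlgebraic.isAlgebraic z).isIntegral
  obtain ⟨N, hzN, hN⟩ := hC.pow z
  obtain ⟨m, hm⟩ := hN.card
  haveI := hN.fin
  have hdvd : (minpoly R z).natDegree ∣ ℓ ^ m := by
    have h1 : minpoly R z = minpoly R (⟨z, hzN⟩ : N) :=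
      minpoly.algebraMap_eq (B := N) (algebraMap N M).injective (⟨z, hzN⟩ : N)
    rw [h1, ← hm]
    exact minpoly.degree_dvd (Algebra.IsIntegral.isIntegral _)
  obtain ⟨r, -, hr⟩ := (Nat.dvd_prime_pow (Fact.out : ℓ.Prime)).1 hdvd
  -- the constant coefficient
  have h1 := minpoly_val gt z c hc
  rw [hr] at h1
  obtain ⟨b, hb⟩ : ∃ b, b = (minpoly R z).coeff 0 := ⟨_, rfl⟩
  rw [← hb] at h1
  have hb0 : b ≠ 0 := by
    rintro rfl
    rw [map_zero, zero_div] at h1
    exact h1.1 rfl
  obtain ⟨c', hc'0, hc'⟩ := fixed_val hO hR hs hfix b hb0 (fun σ => by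
    rw [hb]; exact minpoly_fixed hR hs z hz 0 σ)
  have hc'κ0 : algebraMap k κ c' ≠ 0 := (_root_.map_ne_zero _).2 hc'0
  -- the value of `c`
  have h2 : IsU V (c ^ (ℓ ^ r) / algebraMap k κ c') := by
    rw [← hO.isU, map_div₀, map_pow]
    have h3 := hc'.div h1
    have h4 : algebraMap R M b / algebraMap κ M (algebraMap k κ c') /
        (algebraMap R M b / algebraMap κ M c ^ (ℓ ^ r)) =
        algebraMap κ M c ^ (ℓ ^ r) / algebraMap κ M (algebraMap k κ c') := by
      have hbM : algebraMap R M b ≠ 0 := (_root_.map_ne_zero _).2 hb0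
      have h5 : algebraMap κ M (algebraMap k κ c') ≠ 0 := (_root_.map_ne_zero _).2 hc'κ0
      have h6 : algebraMap κ M c ^ (ℓ ^ r) ≠ 0 := pow_ne_zero _ hcM0
      field_simp
    rwa [h4] at h3
  obtain ⟨n, hn⟩ := hB.ine (algebraMap k κ c') hc'κ0 (fun σ _ => σ.commutes c')
  have hvπ : V.valuation (algebraMap A κ ϖ) ≠ 0 := (Valuation.ne_zero_iff _).2 hπ0
  have h3 : IsU V (c ^ (ℓ ^ r) / algebraMap A κ ϖ ^ n) := by
    rw [Pool.Agent.Y948.PS.isU_iff] at h2 ⊢
    rw [map_div₀] at h2 ⊢
    rw [map_zpow₀, ← hn]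
    exact h2
  obtain ⟨δ, hδ⟩ := IsAlgClosed.exists_pow_nat_eq (algebraMap A κ ϖ) (pow_pos hp r)
  have hδ0 : δ ≠ 0 := by
    rintro rfl
    rw [zero_pow (pow_pos hp r).ne'] at hδ
    exact hπ0 hδ.symm
  have hδn0 : δ ^ n ≠ 0 := zpow_ne_zero _ hδ0
  have h4 : IsU V (c / δ ^ n) := by
    refine Pool.Agent.Y157.PS.isU_of_pow (pow_pos hp r) ?_
    have h5 : (c / δ ^ n) ^ (ℓ ^ r) = c ^ (ℓ ^ r) / algebraMap A κ ϖ ^ n := by
      rw [div_pow, ← hδ, ← zpow_natCast (δ ^ n), ← zpow_natCast δ, ← zpow_mul, ← zpow_mul,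
        mul_comm n]
    rw [h5]
    exact h3
  -- the action of inertia
  have hcV : IsU V (c / δ ^ n) := h4
  have key : ∀ σ : κ ≃ₐ[k] κ, Ine V σ → σ (δ ^ n) = δ ^ n := by
    intro σ hσ
    have hσc0 : σ c ≠ 0 := (_root_.map_ne_zero σ).2 hc0
    -- `c / σ c` is congruent to one
    have h5 : c / σ c - 1 ∈ V.nonunits := by
      have h6 := hcon σ hσ _ hc.2.1
      rw [map_div₀, hz, hs.const] at h6
      have h7 : algebraMap κ M (c / σ c - 1) = (z / algebraMap κ M c)⁻¹ *
          (z / algebraMap κ M (σ c) - z / algebraMap κ M c) := by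
        have h8 : algebraMap κ M (σ c) ≠ 0 := (_root_.map_ne_zero _).2 hσc0
        rw [map_sub, map_div₀, map_one]
        field_simp
      rw [← hO.nonunit, h7]
      exact non_mul hc.2.2 h6
    -- `u = c / δ ^ n`
    have h6 : σ (c / δ ^ n) / (c / δ ^ n) - 1 ∈ V.nonunits := by
      have h7 := hσ.2 _ hcV.2.1
      have h8 : σ (c / δ ^ n) / (c / δ ^ n) - 1 = (c / δ ^ n)⁻¹ *
          (σ (c / δ ^ n) - c / δ ^ n) := by
        have := hcV.1
        field_simp
      rw [h8]
      exact non_mul hcV.2.2 h7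
    have hσδ0 : σ (δ ^ n) ≠ 0 := (_root_.map_ne_zero σ).2 hδn0
    -- the quotient
    have h7 : δ ^ n / σ (δ ^ n) = (c / σ c) * (σ (c / δ ^ n) / (c / δ ^ n)) := by
      rw [map_div₀]
      field_simp
    have h8 : δ ^ n / σ (δ ^ n) - 1 ∈ V.nonunits := by
      rw [h7]
      have h9 : (c / σ c) * (σ (c / δ ^ n) / (c / δ ^ n)) - 1 =
          (c / σ c) * (σ (c / δ ^ n) / (c / δ ^ n) - 1) + (c / σ c - 1) := by ring
      rw [h9]
      refine non_add (non_mul ?_ h6) h5
      have h10 := add_mem (non_mem h5) (one_mem V)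
      rwa [sub_add_cancel] at h10
    have h9 : (δ ^ n / σ (δ ^ n)) ^ (ℓ ^ r) = 1 := by
      have h10 : (δ ^ n) ^ (ℓ ^ r) = algebraMap A κ ϖ ^ n := by
        rw [← hδ, ← zpow_natCast (δ ^ n), ← zpow_natCast δ, ← zpow_mul, ← zpow_mul, mul_comm n]
      rw [div_pow, ← map_pow, h10, map_zpow₀, hB.pi_fix, div_self (zpow_ne_zero _ hπ0)]
    have h10 : δ ^ n / σ (δ ^ n) = 1 := by
      refine Pool.Agent.Y748.PS.rou_eq_one (m := ℓ ^ r) ?_ h9 h8
      have h11 := Pool.Agent.Y748.PS.isU_pow hℓ r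
      push_cast
      exact h11
    rw [div_eq_one_iff_eq hσδ0] at h10
    exact h10.symm
  obtain ⟨i, hi⟩ := hB.ine (δ ^ n) hδn0 key
  -- contradiction
  apply hram (algebraMap A k ϖ ^ i) (zpow_ne_zero _ hπk0)
  have h5 : IsU V (c / algebraMap A κ ϖ ^ i) := by
    rw [Pool.Agent.Y948.PS.isU_iff, map_div₀] at h4 ⊢
    rw [map_zpow₀, ← hi]
    exact h4
  rw [← hO.isU] at h5
  have h6 := hc.mul h5
  have h7 : z / algebraMap κ M c * algebraMap κ M (c / algebraMap A κ ϖ ^ i) =
      z / algebraMap κ M (algebraMap k κ (algebraMap A k ϖ ^ i)) := by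
    rw [map_div₀, map_zpow₀ (algebraMap k κ), hπk]
    have h8 : algebraMap κ M (algebraMap A κ ϖ ^ i) ≠ 0 :=
      (_root_.map_ne_zero _).2 (zpow_ne_zero _ hπ0)
    field_simp
  rwa [h7] at h6

end bad

end Pool.Agent.H889.PS
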