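import Pool.Agent.H889.PS.Dsc
import Pool.Graph.R_seed8.Y157.PS.GeoC

/-! # Sections of the geometrically pro-`ℓ` fundamental group: abstract form -/

set_option autoImplicit false
set_option linter.all false

open Polynomial FF

namespace Pool.Agent.H889.PS

open Pool.Agent.Y157.PS

theorem isU_place {κ M : Type} [Field κ] [Field M] [Algebra κ M] (W : Place κ M) {z t : M}
    (hz : z ≠ 0) (ht : t ≠ 0) : IsU W.O (z / t) ↔ W.ord z = W.ord t := by
  have h0 : z / t ≠ 0 := div_ne_zero hz ht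
  have h1 : W.ord (z / t) = W.ord z - W.ord t := W.ord_div hz ht
  constructor
  · rintro ⟨-, h2, h3⟩
    rw [O_iff W h0, h1] at h2
    rw [O_iff W (inv_ne_zero h0), W.ord_inv, h1] at h3
    omega
  · intro h
    refine ⟨h0, ?_, ?_⟩
    · rw [O_iff W h0, h1]; omega
    · rw [O_iff W (inv_ne_zero h0), W.ord_inv, h1]; omega

theorem comap_isU {M N : Type} [Field M] [Field N] (e : N →+* M) (O : ValuationSubring M) (z : N) :
    IsU (O.comap e) z ↔ IsU O (e z) := by
  unfold IsU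
  rw [ValuationSubring.mem_comap, ValuationSubring.mem_comap, map_inv₀, _root_.map_ne_zero]

section absM

variable {A k κ R F M N : Type} [CommRing A] [IsDomain A] [IsDiscreteValuationRing A]
    [Finite (IsLocalRing.ResidueField A)] [Field k] [CharZero k] [Algebra A k] [IsFractionRing A k]
    [Field κ] [Algebra k κ] [Algebra A κ] [IsScalarTower A k κ] [IsAlgClosure k κ]
    [Field R] [Field F] [Field M] [Field N] [Algebra κ R] [Algebra R M] [Algebra κ M]
    [IsScalarTower κ R M] [Algebra F N] [Algebra k F]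
    {B : Finset κ} {ε : κ → ℕ} {ι : ℕ} {N₀ : IntermediateField R M}

/-- the abstract form: `M` is the covering field and `N` is isomorphic to `M` -/
theorem geoM' {ℓ : ℕ} [Fact ℓ.Prime] {V : ValuationSubring κ} {ϖ : A} (hBase : IB ℓ A k κ V ϖ)
    (x' : R) (hCov : GCov ℓ κ R M x' B ε ι N₀) (hGood : Good V B) (Kf : Set M)
    (hπ : ∀ W : Place κ M, ∃ π ∈ Kf, W.ord π = 1) (eqv : M ≃+* N) (x : F)
    (hx : eqv (algebraMap R M x') = algebraMap F N x)
    (hkF : ∀ c : k, eqv (algebraMap κ M (algebraMap k κ c)) = algebraMap F N (algebraMap k F c))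
    (S : (κ ≃ₐ[k] κ) →* (N ≃ₐ[F] N))
    (hcont : ∀ z : N, ∃ E : IntermediateField k κ, FiniteDimensional k E ∧
      ∀ σ ∈ E.fixingSubgroup, S σ z = z)
    (hcompat : ∀ σ c, S σ (eqv (algebraMap κ M c)) = eqv (algebraMap κ M (σ c)))
    (O' : ValuationSubring F)
    (h1 : ∀ p : A[X], (∃ n, IsUnit (p.coeff n)) →
      IsU O' (p.eval₂ ((algebraMap k F).comp (algebraMap A k)) x))
    (h2 : ∀ a ∈ IsLocalRing.maximalIdeal A, algebraMap k F (algebraMap A k a) ∈ O'.nonunits)
    (z₀ : F) (hz₀ : z₀ ≠ 0) (hram : ∀ c : k, c ≠ 0 → ¬ IsU O' (z₀ / algebraMap k F c)) :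
    ∃ W : ValuationSubring N,
      ((∀ c : κ, eqv (algebraMap κ M c) ∈ W) ∧
       (∀ z ∈ W, ∃ c : κ, z - eqv (algebraMap κ M c) ∈ W.nonunits) ∧
       (∃ z ∈ Kf, z ≠ 0 ∧ ∀ t : R, t ≠ 0 → ¬ IsU W (eqv z / eqv (algebraMap R M t))) ∧
       ∀ σ : κ ≃ₐ[k] κ, Dec V σ → ∀ z, S σ z ∈ W ↔ z ∈ W) ∧
      ∀ W' : ValuationSubring N, (∀ c : κ, eqv (algebraMap κ M c) ∈ W') →
        (∃ z ∈ Kf, z ≠ 0 ∧ ∀ t : R, t ≠ 0 → ¬ IsU W' (eqv z / eqv (algebraMap R M t))) →
        (∀ σ : κ ≃ₐ[k] κ, Dec V σ → ∀ z, S σ z ∈ W' ↔ z ∈ W') → W' = W := by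
  classical
  have hkb : IsAlgClosed κ := IsAlgClosure.isAlgClosed k
  have hch : CharZero κ := charZero_of_injective_algebraMap (algebraMap k κ).injective
  haveI hgal := hCov.gal
  haveI halgRM : Algebra.IsAlgebraic R M := inferInstance
  let s' : (κ ≃ₐ[k] κ) →* RingAut M := conjSec eqv S
  have hs' : ∀ σ z, eqv (s' σ z) = S σ (eqv z) := fun σ z => conjSec_apply eqv S σ z
  have hconst : ∀ σ c, s' σ (algebraMap κ M c) = algebraMap κ M (σ c) := by
    intro σ c
    apply eqv.injective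
    rw [hs', hcompat]
  have hbase : ∀ σ (z : F) (w : M), eqv w = algebraMap F N z → s' σ w = w := by
    intro σ z w hw
    apply eqv.injective
    rw [hs', hw]
    exact (S σ).commutes z
  have hSec : GSec k κ R M x' s' := by
    refine ⟨hconst, fun σ => hbase σ x _ hx, fun z => ?_⟩
    obtain ⟨E, hE, hE'⟩ := hcont (eqv z)
    refine ⟨E, hE, fun σ hσ => eqv.injective ?_⟩
    rw [hs', hE' σ hσ]
  obtain ⟨F0, iF0, r, hr, ⟨D⟩⟩ := a_ndisc A k κ V hBase.mem hBase.non ℓ hBase.lunit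
  -- the Gauss valuation
  let i : F →+* M := (eqv.symm : N →+* M).comp (algebraMap F N)
  have hi : ∀ z, eqv (i z) = algebraMap F N z := fun z => eqv.apply_symm_apply _
  obtain ⟨O, hO, hOF⟩ := gauss_desc hBase i (fun c => eqv.injective (by rw [hi, hkF])) x
    (eqv.injective (by rw [hi, hx])) hSec (fun σ z => hbase σ z _ (hi z)) O' h1 h2
  have hbad := bad hBase hCov hGood hSec hO (i z₀) ((_root_.map_ne_zero i).2 hz₀)
    (fun σ => hbase σ z₀ _ (hi z₀)) (by
      intro c hc hu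
      apply hram c hc
      have h3 : i z₀ / algebraMap κ M (algebraMap k κ c) = i (z₀ / algebraMap k F c) := by
        rw [map_div₀]
        congr 1
        apply eqv.injective
        rw [hi, hkF]
      rw [h3] at hu
      refine ⟨(_root_.map_ne_zero i).1 hu.1, (hOF _).1 hu.2.1, ?_⟩
      rw [← hOF, map_inv₀]
      exact hu.2.2)
  obtain ⟨Q, hQram, hfix, hQfix, hQun⟩ := loc hBase hCov hGood F0 r hr D hSec hO hbad
  have htrans : Transcendental κ (algebraMap R M x') :=
    (transcendental_algebraMap_iff (algebraMap R M).injective).2 hCov.rat.trans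
  have halg : Algebra.IsAlgebraic (IntermediateField.adjoin κ {algebraMap R M x'}) M :=
    Pool.Agent.Y31.PS.alg_adjoin hCov.rat
  have hmem : ∀ z : N, z ∈ Q.O.comap (eqv.symm : N →+* M) ↔ eqv.symm z ∈ Q.O := fun z => Iff.rfl
  refine ⟨Q.O.comap (eqv.symm : N →+* M), ⟨?_, ?_, ?_, ?_⟩, ?_⟩
  · intro c
    rw [hmem, eqv.symm_apply_apply, Place.mem_O]
    exact Q.reg_const c
  · intro z hz
    rw [hmem] at hz
    by_cases hz0 : z = 0
    · refine ⟨0, ?_⟩
      rw [comap_non, hz0, map_zero, map_zero, sub_zero, map_zero]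
      exact nonunits_iff.2 ⟨zero_mem _, Or.inl rfl⟩
    have hz0' : eqv.symm z ≠ 0 := (map_ne_zero_iff _ eqv.symm.injective).2 hz0
    rw [O_iff Q hz0'] at hz
    obtain ⟨c, hc⟩ := Pool.Agent.Y536.PS.res_const κ M (algebraMap R M x') halg Q _ hz
    refine ⟨c, ?_⟩
    rw [comap_non, map_sub, eqv.symm_apply_apply]
    rcases hc with hc | hc
    · rw [hc, sub_self]
      exact nonunits_iff.2 ⟨zero_mem _, Or.inl rfl⟩
    · have h0 : eqv.symm z - algebraMap κ M c ≠ 0 := by
        intro h0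
        rw [h0, Q.ord_zero] at hc
        exact lt_irrefl _ hc
      exact (O_non_iff Q h0).2 hc
  · obtain ⟨z, hz, hz0, hzt⟩ := (isRam_iff hCov Kf Q (hπ Q)).1 hQram
    refine ⟨z, hz, hz0, fun t ht hu => hzt t ht ?_⟩
    rw [← map_div₀, comap_isU] at hu
    have h3 : ((eqv.symm : N →+* M)) (eqv (z / algebraMap R M t)) = z / algebraMap R M t :=
      eqv.symm_apply_apply _
    rw [h3, isU_place Q hz0 ((_root_.map_ne_zero _).2 ht)] at hu
    exact hu
  · intro σ hσ z
    rw [hmem, hmem]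
    have h3 : eqv.symm (S σ z) = s' σ (eqv.symm z) := by
      apply eqv.injective
      rw [hs', eqv.apply_symm_apply, eqv.apply_symm_apply]
    rw [h3]
    exact O_of_fixes Q (s' σ) (hQfix σ hσ) _
  · rintro W' hW'1 ⟨z, hz, hz0, hzt⟩ hW'3
    have hmem' : ∀ z : M, z ∈ W'.comap (eqv : M →+* N) ↔ eqv z ∈ W' := fun z => Iff.rfl
    have htop : W'.comap (eqv : M →+* N) ≠ ⊤ := by
      intro h0
      have h3 : ∀ w : M, eqv w ∈ W' := fun w => by
        rw [← hmem', h0]
        trivial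
      apply hzt 1 one_ne_zero
      have h4 : eqv z / eqv (algebraMap R M 1) = eqv z := by
        rw [map_one, map_one, div_one]
      rw [h4]
      refine ⟨(map_ne_zero_iff _ eqv.injective).2 hz0, h3 z, ?_⟩
      rw [← map_inv₀]
      exact h3 _
    obtain ⟨Q', hQ', -⟩ := hCov.loc _ (fun c => (hmem' _).2 (hW'1 c)) htop
    have h4 : Q' = Q := by
      refine hQun Q' ((isRam_iff hCov Kf Q' (hπ Q')).2 ⟨z, hz, hz0, fun t ht h5 => ?_⟩)
        fun σ hσ => ?_
      · apply hzt t ht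
        rw [← isU_place Q' hz0 ((_root_.map_ne_zero _).2 ht), hQ', comap_isU] at h5
        rw [← map_div₀]
        exact h5
      · refine fixes_of_O Q' (s' σ) (σ : κ ≃+* κ) (fun c => hconst σ c) fun z => ?_
        rw [hQ', hmem', hmem', hs']
        exact hW'3 σ hσ _
    ext z
    rw [hmem, ← h4, hQ', hmem', eqv.apply_symm_apply]

end absM

end Pool.Agent.H889.PS
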