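import Pool.Agent.H889.PS.Gex

/-!
# Ramification of the Gauss valuation and the action of inertia
-/

set_option autoImplicit false
set_option linter.all false

open Polynomial FF

namespace Pool.Agent.H889.PS

open Pool.Agent.Y157.PS

section fixed

variable {k κ R M : Type} [Field k] [Field κ] [Field R] [Field M] [Algebra k κ] [Algebra κ R]
  [Algebra R M] [Algebra κ M] [IsScalarTower κ R M] {x : R} {s : (κ ≃ₐ[k] κ) →* RingAut M}

theorem sec_poly (hs : GSec k κ R M x s) (σ : κ ≃ₐ[k] κ) (p : κ[X]) :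
    s σ (aeval (algebraMap R M x) p) = aeval (algebraMap R M x) (p.map (σ : κ →+* κ)) := by
  have h3 : (s σ : M →+* M) (p.eval₂ (algebraMap κ M) (algebraMap R M x)) =
      p.eval₂ (((s σ : M ≃+* M) : M →+* M).comp (algebraMap κ M))
        (((s σ : M ≃+* M) : M →+* M) (algebraMap R M x)) := hom_eval₂ _ _ _ _
  rw [aeval_def, aeval_def, eval₂_map]
  change (s σ : M →+* M) _ = _
  rw [h3]
  change p.eval₂ _ (s σ (algebraMap R M x)) = _
  rw [hs.fixx]
  congr 1
  ext c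
  exact hs.const σ c

/-- an element of `κ(x)` fixed by the section is in `k(x)` -/
theorem fixed_rat (hx : RatF κ x) (hs : GSec k κ R M x s) (b : R) (hb0 : b ≠ 0)
    (hb : ∀ σ, s σ (algebraMap R M b) = algebraMap R M b) :
    ∃ P Q : κ[X], P ≠ 0 ∧ Q ≠ 0 ∧
      algebraMap R M b = aeval (algebraMap R M x) P / aeval (algebraMap R M x) Q ∧
      (∀ σ : κ ≃ₐ[k] κ, P.map (σ : κ →+* κ) = P) ∧ (∀ σ : κ ≃ₐ[k] κ, Q.map (σ : κ →+* κ) = Q) := by
  classical
  have htr : Transcendental κ (algebraMap R M x) := by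
    rw [transcendental_algebraMap_iff (algebraMap R M).injective]
    exact hx.trans
  have haev : ∀ p : κ[X], aeval (algebraMap R M x) p = 0 → p = 0 := (transcendental_iff.1 htr)
  obtain ⟨P0, Q0, hQ0, hPQ⟩ := hx.exists_div b
  have hQ0' : Q0 ≠ 0 := by rintro rfl; exact hQ0 (map_zero _)
  have hP0' : P0 ≠ 0 := by
    rintro rfl
    apply hb0
    rw [hPQ, map_zero, zero_div]
  -- reduced form
  set g := EuclideanDomain.gcd P0 Q0 with hg
  have hg0 : g ≠ 0 := by
    intro h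
    exact hP0' (EuclideanDomain.gcd_eq_zero_iff.1 h).1
  obtain ⟨P1, hP1⟩ := EuclideanDomain.gcd_dvd_left P0 Q0
  obtain ⟨Q1, hQ1⟩ := EuclideanDomain.gcd_dvd_right P0 Q0
  rw [← hg] at hP1 hQ1
  have hcop : IsCoprime P1 Q1 := by
    have h1 := EuclideanDomain.gcd_eq_gcd_ab P0 Q0
    refine ⟨EuclideanDomain.gcdA P0 Q0, EuclideanDomain.gcdB P0 Q0, ?_⟩
    rw [← hg] at h1
    apply mul_left_cancel₀ hg0
    rw [mul_one]
    conv_rhs => rw [h1]
    obtain ⟨u, hu⟩ : ∃ u, u = EuclideanDomain.gcdA P0 Q0 := ⟨_, rfl⟩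
    obtain ⟨v, hv⟩ : ∃ v, v = EuclideanDomain.gcdB P0 Q0 := ⟨_, rfl⟩
    rw [← hu, ← hv, hP1, hQ1]
    ring
  have hQ1' : Q1 ≠ 0 := by rintro rfl; exact hQ0' (by rw [hQ1, mul_zero])
  have hP1' : P1 ≠ 0 := by rintro rfl; exact hP0' (by rw [hP1, mul_zero])
  have hlc : Q1.leadingCoeff ≠ 0 := leadingCoeff_ne_zero.2 hQ1'
  -- normalised
  set Q := C Q1.leadingCoeff⁻¹ * Q1 with hQ
  set P := C Q1.leadingCoeff⁻¹ * P1 with hP
  have hci : (C Q1.leadingCoeff⁻¹ : κ[X]) ≠ 0 := by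
    rw [Ne, C_eq_zero]
    exact inv_ne_zero hlc
  have hunit : IsUnit (C Q1.leadingCoeff⁻¹ : κ[X]) := isUnit_C.2 (IsUnit.mk0 _ (inv_ne_zero hlc))
  have hcopPQ : IsCoprime P Q := by
    rw [hP, hQ]
    exact (isCoprime_mul_unit_left hunit _ _).2 hcop
  have hQmonic : Q.Monic := by
    rw [hQ, mul_comm]
    exact monic_mul_leadingCoeff_inv hQ1'
  have hb1 : algebraMap R M b = aeval (algebraMap R M x) P / aeval (algebraMap R M x) Q := by
    rw [hPQ, map_div₀, ← aeval_algebraMap_apply, ← aeval_algebraMap_apply, hP1, hQ1, hP, hQ,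
      map_mul, map_mul, map_mul, map_mul, mul_div_mul_left _ _ (fun h => hg0 (haev _ h)),
      mul_div_mul_left _ _ (fun h => hci (haev _ h))]
  have hPne : P ≠ 0 := mul_ne_zero hci hP1'
  have hQne : Q ≠ 0 := hQmonic.ne_zero
  have key : ∀ σ : κ ≃ₐ[k] κ, P * Q.map (σ : κ →+* κ) = P.map (σ : κ →+* κ) * Q := by
    intro σ
    have h1 := hb σ
    rw [hb1, map_div₀, sec_poly hs, sec_poly hs, div_eq_div_iff, ← map_mul, ← map_mul] at h1
    · have h2 := haev (P.map (σ : κ →+* κ) * Q - P * Q.map (σ : κ →+* κ)) (by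
        rw [map_sub, h1, sub_self])
      exact (sub_eq_zero.1 h2).symm
    · intro h
      exact hQne ((Polynomial.map_eq_zero _).1 (haev _ h))
    · intro h
      exact hQne (haev _ h)
  have hQσ : ∀ σ : κ ≃ₐ[k] κ, Q.map (σ : κ →+* κ) = Q := by
    intro σ
    have h1 : Q ∣ Q.map (σ : κ →+* κ) := by
      have h3 : Q ∣ P * Q.map (σ : κ →+* κ) := by
        rw [key σ]
        exact dvd_mul_left _ _
      exact hcopPQ.symm.dvd_of_dvd_mul_left h3
    have h2 : (Q.map (σ : κ →+* κ)).Monic := hQmonic.map _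
    refine eq_of_monic_of_dvd_of_natDegree_le hQmonic h2 h1 ?_
    rw [natDegree_map]
  refine ⟨P, Q, hPne, hQne, hb1, fun σ => ?_, hQσ⟩
  have h1 := key σ
  rw [hQσ σ] at h1
  exact (mul_right_cancel₀ hQne h1).symm

/-- a polynomial with coefficients in `k` has the Gauss value of an element of `k` -/
theorem poly_val {V : ValuationSubring κ} {O : ValuationSubring M}
    (hO : Gauss V (algebraMap R M x) O)
    (hfix : ∀ c : κ, (∀ σ : κ ≃ₐ[k] κ, σ c = c) → ∃ c' : k, algebraMap k κ c' = c)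
    (P : κ[X]) (hP : P ≠ 0) (hPσ : ∀ σ : κ ≃ₐ[k] κ, P.map (σ : κ →+* κ) = P) :
    ∃ c : k, c ≠ 0 ∧ IsU O (aeval (algebraMap R M x) P / algebraMap κ M (algebraMap k κ c)) := by
  classical
  obtain ⟨i, hi, hmax⟩ := Finset.exists_max_image P.support (fun n => V.valuation (P.coeff n))
    (by rwa [Finset.nonempty_iff_ne_empty, Ne, support_eq_empty])
  have hi0 : P.coeff i ≠ 0 := mem_support_iff.1 hi
  obtain ⟨c, hc⟩ := hfix (P.coeff i) fun σ => by
    conv_rhs => rw [← hPσ σ]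
    rw [coeff_map]
    rfl
  have hc0 : c ≠ 0 := by
    rintro rfl
    rw [map_zero] at hc
    exact hi0 hc.symm
  refine ⟨c, hc0, ?_⟩
  have hck : algebraMap k κ c ≠ 0 := (_root_.map_ne_zero _).2 hc0
  have h1 : aeval (algebraMap R M x) P / algebraMap κ M (algebraMap k κ c) =
      aeval (algebraMap R M x) (C (algebraMap k κ c)⁻¹ * P) := by
    rw [map_mul, aeval_C, map_inv₀, div_eq_mul_inv, mul_comm]
  rw [h1]
  refine hO.2 _ (fun n => ?_) ⟨i, ?_⟩
  · rw [coeff_C_mul]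
    by_cases hn : n ∈ P.support
    · rw [← V.valuation_le_one_iff, map_mul, map_inv₀, hc]
      have h2 := hmax n hn
      have h3 : V.valuation (P.coeff i) ≠ 0 := (Valuation.ne_zero_iff _).2 hi0
      calc (V.valuation (P.coeff i))⁻¹ * V.valuation (P.coeff n)
          ≤ (V.valuation (P.coeff i))⁻¹ * V.valuation (P.coeff i) := by gcongr
        _ = 1 := inv_mul_cancel₀ h3
    · rw [notMem_support_iff.1 hn, mul_zero]
      exact zero_mem _
  · rw [coeff_C_mul, hc, inv_mul_cancel₀ hi0]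
    exact isU_one

theorem fixed_val {V : ValuationSubring κ} {O : ValuationSubring M}
    (hO : Gauss V (algebraMap R M x) O) (hx : RatF κ x) (hs : GSec k κ R M x s)
    (hfix : ∀ c : κ, (∀ σ : κ ≃ₐ[k] κ, σ c = c) → ∃ c' : k, algebraMap k κ c' = c)
    (b : R) (hb0 : b ≠ 0) (hb : ∀ σ, s σ (algebraMap R M b) = algebraMap R M b) :
    ∃ c : k, c ≠ 0 ∧ IsU O (algebraMap R M b / algebraMap κ M (algebraMap k κ c)) := by
  obtain ⟨P, Q, hP, hQ, hPQ, hPσ, hQσ⟩ := fixed_rat hx hs b hb0 hb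
  obtain ⟨c, hc, h1⟩ := poly_val hO hfix P hP hPσ
  obtain ⟨d, hd, h2⟩ := poly_val hO hfix Q hQ hQσ
  refine ⟨c / d, div_ne_zero hc hd, ?_⟩
  have h3 := h1.div h2
  have hc' : algebraMap κ M (algebraMap k κ c) ≠ 0 := by
    rw [Ne, map_eq_zero, map_eq_zero]; exact hc
  have hd' : algebraMap κ M (algebraMap k κ d) ≠ 0 := by
    rw [Ne, map_eq_zero, map_eq_zero]; exact hd
  have h4 : algebraMap R M b / algebraMap κ M (algebraMap k κ (c / d)) =
      aeval (algebraMap R M x) P / algebraMap κ M (algebraMap k κ c) /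
        (aeval (algebraMap R M x) Q / algebraMap κ M (algebraMap k κ d)) := by
    rw [hPQ, map_div₀, map_div₀]
    have hQ' := h2.1
    have hQ'' : aeval (algebraMap R M x) Q ≠ 0 := fun h => hQ' (by rw [h, zero_div])
    field_simp
  rw [h4]
  exact h3

end fixed

end Pool.Agent.H889.PS
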