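import Pool.Agent.H889.PS.Bad2

/-!
# The covering field is infinite as soon as it is not the function field
-/

set_option autoImplicit false
set_option linter.all false

open Polynomial FF

namespace Pool.Agent.H889.PS

open Pool.Agent.Y157.PS Pool.Agent.Y31.PS Pool.Agent.Y948.PS

section fin

variable {ℓ : ℕ} [hℓ : Fact ℓ.Prime] {κ R M : Type} [Field κ] [IsAlgClosed κ] [CharZero κ]
  [Field R] [Field M] [Algebra κ R] [Algebra R M] [Algebra κ M] [IsScalarTower κ R M] {x : R}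

/-- an automorphism of order `ℓ` of a finite Galois `ℓ`-extension which is closed under the
extraction of unramified `ℓ`-th roots fixes a place -/
theorem exf_fin (hx : RatF κ x) [FiniteDimensional R M] [IsGalois R M]
    (hcard : ∃ m : ℕ, Module.finrank R M = ℓ ^ m)
    (hroot : ∀ g : M, g ≠ 0 → (∀ W : Place κ M, (ℓ : ℤ) ∣ W.ord g) → ∃ h : M, h ^ ℓ = g)
    (g : M ≃ₐ[R] M) (hg1 : g ^ ℓ = 1) (hg2 : g ≠ 1) : ∃ W : Place κ M, Fixes W g := by
  haveI i3 : IsFF κ M := hx.isFF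
  by_contra hcon
  push Not at hcon
  have hfree : ∀ w : Place κ M, pl w g ≠ w := fun w hw => hcon w ((fixes_iff w g).mpr hw)
  have : NeZero ℓ := ⟨hℓ.out.ne_zero⟩
  obtain ⟨ζ, hζ⟩ := HasEnoughRootsOfUnity.exists_primitiveRoot κ ℓ
  have hζ0 : ζ ≠ 0 := hζ.ne_zero hℓ.out.ne_zero
  obtain ⟨z, hz0, hz⟩ := exists_eigen g hg1 hg2 (algebraMap κ M ζ)
    (by rw [← map_pow, hζ.pow_eq_one, map_one]) (aut_const g ζ)
  have hzi : ∀ i : ℕ, (g ^ i) z = algebraMap κ M (ζ ^ i) * z := by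
    intro i
    induction i with
    | zero => simp
    | succ i ih =>
      rw [pow_succ', AlgEquiv.mul_apply, ih, map_mul, aut_const, hz, pow_succ, map_mul]
      ring
  have hzo : ∀ (w : Place κ M) (i : ℕ), w.ord ((g ^ i) z) = w.ord z := by
    intro w i
    rw [hzi, w.ord_mul _ hz0, w.ord_const (pow_ne_zero _ hζ0), zero_add]
    rw [_root_.map_ne_zero]
    exact pow_ne_zero _ hζ0
  obtain ⟨D, hD0, hD⟩ := orbit_div g hg1 hfree z hzo
  obtain ⟨z1, hz10, hz1⟩ := a_t1 ℓ κ R M x hx hcard (-D) (by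
    have : (-D).sum (fun _ n => n) = -(D.sum fun _ n => n) := by
      rw [Finsupp.sum_neg_index (fun _ => rfl), Finsupp.sum, Finsupp.sum, Finset.sum_neg_distrib]
    rw [this, hD0]
    simp)
  set G : M := z * ∏ i ∈ Finset.range ℓ, (g ^ i) z1 with hG
  have hprod0 : ∏ i ∈ Finset.range ℓ, (g ^ i) z1 ≠ 0 :=
    Finset.prod_ne_zero_iff.mpr fun i _ => (_root_.map_ne_zero _).mpr hz10
  have hG0 : G ≠ 0 := mul_ne_zero hz0 hprod0
  have hordG : ∀ w : Place κ M, (ℓ : ℤ) ∣ w.ord G := by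
    intro w
    have h2 : w.ord (∏ i ∈ Finset.range ℓ, (g ^ i) z1) =
        ∑ i ∈ Finset.range ℓ, w.ord ((g ^ i) z1) := by
      have : ∀ n : ℕ, w.ord (∏ i ∈ Finset.range n, (g ^ i) z1) =
          ∑ i ∈ Finset.range n, w.ord ((g ^ i) z1) := by
        intro n
        induction n with
        | zero => simp [w.ord_one]
        | succ n ih =>
          rw [Finset.prod_range_succ, w.ord_mul, ih, Finset.sum_range_succ]
          · exact Finset.prod_ne_zero_iff.mpr fun i _ => (_root_.map_ne_zero _).mpr hz10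
          · exact (_root_.map_ne_zero _).mpr hz10
      exact this ℓ
    rw [hG, w.ord_mul hz0 hprod0, h2, ← hD w, ← Finset.sum_add_distrib]
    apply Finset.dvd_sum
    intro i _
    have h3 := hz1 (pl w (g ^ i))
    rw [pl_ord, Finsupp.neg_apply] at h3
    have h4 : D (pl w (g ^ i)) + w.ord ((g ^ i) z1) = w.ord ((g ^ i) z1) - -D (pl w (g ^ i)) := by
      ring
    rw [h4]
    exact h3
  -- the root
  obtain ⟨u, hu⟩ := hroot G hG0 hordG
  have hu0 : u ≠ 0 := by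
    rintro rfl
    rw [zero_pow hℓ.out.ne_zero] at hu
    exact hG0 hu.symm
  have hgG : g G = algebraMap κ M ζ * G := by
    rw [hG, map_mul, hz, prod_shift g hg1 z1 hz10]
    ring
  have h5 : (g u / u) ^ ℓ = algebraMap κ M ζ := by
    rw [div_pow, ← map_pow, hu, hgG, mul_div_cancel_right₀ _ hG0]
  obtain ⟨d, hd, hdl⟩ := root_const hℓ.out.pos h5
  have hγu : g u = algebraMap κ M d * u := by
    rw [← hd, div_mul_cancel₀ _ hu0]
  have hγn : ∀ n : ℕ, (g ^ n) u = algebraMap κ M (d ^ n) * u := by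
    intro n
    induction n with
    | zero => simp
    | succ n ih =>
      rw [pow_succ', AlgEquiv.mul_apply, ih, map_mul, aut_const, hγu, pow_succ, map_mul]
      ring
  have h6 := hγn ℓ
  rw [hg1, hdl, AlgEquiv.one_apply] at h6
  have h7 : algebraMap κ M ζ = 1 := by
    have : (1 : M) * u = algebraMap κ M ζ * u := by rw [one_mul]; exact h6
    exact (mul_right_cancel₀ hu0 this).symm
  have h8 : ζ = 1 := (algebraMap κ M).injective (by rw [h7, map_one])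
  exact hζ.ne_one hℓ.out.one_lt h8

end fin

section big

variable {κ R Ω : Type} [Field κ] [IsAlgClosed κ] [CharZero κ] [Field R] [Field Ω] [Algebra κ R]
  [Algebra R Ω] [Algebra κ Ω] [IsScalarTower κ R Ω] {x : R} {ℓ : ℕ} [Fact ℓ.Prime]
  {N0 Kf : IntermediateField R Ω} [IsAlgClosure R Ω]

theorem root_M (hx : RatF κ x) (hN : Lev ℓ N0) (hle : Kf ≤ N0) (hu : UnrLev κ Kf N0)
    (M : IntermediateField R Ω) (hM : ∀ z, z ∈ M ↔ z ∈ maxPro ℓ κ Kf Ω)
    (g : M) (hg : g ≠ 0) (hall : ∀ W : Place κ M, (ℓ : ℤ) ∣ W.ord g) : ∃ h : M, h ^ ℓ = g := by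
  haveI : CharZero R := charZero_of_injective_algebraMap (algebraMap κ R).injective
  haveI : IsAlgClosed Ω := IsAlgClosure.isAlgClosed R
  have hℓ0 : ℓ ≠ 0 := (Fact.out : ℓ.Prime).ne_zero
  have hμ : ∀ ζ : Ω, ζ ^ ℓ = 1 → ∃ c : R, algebraMap R Ω c = ζ := fun ζ => muR (κ := κ) hℓ0 ζ
  have hMm : ∀ z, z ∈ M ↔ Mem ℓ κ N0 z := fun z => by
    rw [hM z]
    exact mem_maxPro hx hN hle hu z
  have hNM : N0 ≤ M := fun z hz => by
    rw [hMm]
    exact ⟨Pro_lev hN z hz, fun W h1 h2 => Apx.of_mem hz⟩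
  have hApx : ∀ W : ValuationSubring Ω, (∀ c : κ, algebraMap κ Ω c ∈ W) → W ≠ ⊤ →
      ∀ z ∈ M, Apx N0 W z := fun W hκ hW z hz =>
    ((hMm z).1 hz).2 W hκ hW
  obtain ⟨h, hh⟩ := IsAlgClosed.exists_pow_nat_eq (g : Ω) (Nat.pos_of_ne_zero hℓ0)
  have hg0 : (g : Ω) ≠ 0 := by simpa using hg
  have hgm := (hMm g).1 g.2
  have hhM : h ∈ M := by
    rw [hMm]
    refine ⟨Pro.root hμ (by rw [hh]; exact hgm.1), fun W hκ hW => ?_⟩
    obtain ⟨π, hπ⟩ := HU_lev (κ := κ) hx hN W hκ hW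
    obtain ⟨P, hP, hord⟩ := place (κ := κ) hNM W hκ hπ (hApx W hκ hW)
    obtain ⟨n, hn⟩ := (hgm.2 W hκ hW).val' hπ hg0
    have h1 : P.ord g = n := hord g n hn
    obtain ⟨m, hm⟩ := hall P
    rw [h1] at hm
    subst hm
    exact Apx.root hπ (hres hx _ W hκ hW) hℓ0 (vl hℓ0 W hκ) h
      (by rw [hh]; exact hgm.2 W hκ hW) m (by rw [hh]; exact hn)
  exact ⟨⟨h, hhM⟩, Subtype.ext (by push_cast; exact hh)⟩

/-- if the maximal unramified pro-`ℓ` extension of `Kf` is different from `Kf`, then it is not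
contained in `N0` -/
theorem big_of (hx : RatF κ x) (hN : Lev ℓ N0) (hle : Kf ≤ N0) (hu : UnrLev κ Kf N0)
    (M : IntermediateField R Ω) (hM : ∀ z, z ∈ M ↔ z ∈ maxPro ℓ κ Kf Ω)
    (h : ∃ z ∈ M, z ∉ Kf) : ∃ z ∈ M, z ∉ N0 := by
  by_contra hcon
  push Not at hcon
  have hMm : ∀ z, z ∈ M ↔ Mem ℓ κ N0 z := fun z => by
    rw [hM z]
    exact mem_maxPro hx hN hle hu z
  have hNM : N0 ≤ M := fun z hz => by
    rw [hMm]
    exact ⟨Pro_lev hN z hz, fun W h1 h2 => Apx.of_mem hz⟩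
  have hMN : M = N0 := le_antisymm (fun z hz => hcon z hz) hNM
  obtain ⟨z, hz, hzK⟩ := h
  have hroot := root_M hx hN hle hu M hM
  subst hMN
  haveI := hN.fin
  haveI := hN.gal
  obtain ⟨j, hj⟩ := hN.card
  -- an automorphism of `M` over `Kf` which moves `z`
  obtain ⟨γ, hγK, hγz⟩ : ∃ γ : M ≃ₐ[R] M, (∀ t (ht : t ∈ Kf), γ ⟨t, hle ht⟩ = ⟨t, hle ht⟩) ∧
      γ ⟨z, hz⟩ ≠ ⟨z, hz⟩ := by
    by_contra hno
    push Not at hno
    apply hzK
    have h1 : (⟨z, hz⟩ : M) ∈ IntermediateField.fixedField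
        (IntermediateField.restrict hle).fixingSubgroup := by
      rw [IntermediateField.mem_fixedField_iff]
      intro γ hγ
      refine hno γ fun t ht => ?_
      rw [IntermediateField.mem_fixingSubgroup_iff] at hγ
      exact hγ _ ((IntermediateField.mem_restrict hle _).2 ht)
    rw [IsGalois.fixedField_fixingSubgroup] at h1
    exact (IntermediateField.mem_restrict hle _).1 h1
  have hγj : γ ^ (ℓ ^ j) = 1 := by
    rw [← hj, ← IsGalois.card_aut_eq_finrank]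
    exact pow_card_eq_one'
  have hγ1 : γ ≠ 1 := by
    rintro rfl
    exact hγz rfl
  obtain ⟨n, hn1, hn2⟩ := exists_order j γ hγj hγ1
  obtain ⟨W, hW⟩ := exf_fin hx ⟨j, hj⟩ hroot _ hn1 hn2
  obtain ⟨π, hπ0, hπ⟩ := W.surj
  obtain ⟨W', hW'⟩ := a_extv M Ω W.O
  have hmem : ∀ z : M, (z : Ω) ∈ W' ↔ z ∈ W.O := by
    intro z
    rw [← hW']
    rfl
  obtain ⟨t, ht, ht0, hval⟩ := hu W' (fun c => (hmem (algebraMap κ M c)).2 (W.reg_const c))
    (π : Ω) π.2 (fun h => hπ0 (Subtype.ext h))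
  have htM0 : (⟨t, hle ht⟩ : M) ≠ 0 := fun h => ht0 (congrArg Subtype.val h)
  have h1 : W.ord (⟨t, hle ht⟩ : M) = 1 := by
    have h2 : W'.valuation ((π / ⟨t, hle ht⟩ : M) : Ω) = 1 := by
      have h3 : ((π / ⟨t, hle ht⟩ : M) : Ω) = (π : Ω) / t := rfl
      rw [h3, map_div₀, hval, div_self]
      exact (Valuation.ne_zero_iff _).2 ht0
    have h3 := Pool.Agent.Y948.PS.isU_iff W' |>.2 h2
    have h4 := (hmem _).1 h3.2.1
    have h5 : (π / ⟨t, hle ht⟩ : M)⁻¹ ∈ W.O := (hmem _).1 h3.2.2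
    have h6 : (π / ⟨t, hle ht⟩ : M) ≠ 0 := div_ne_zero hπ0 htM0
    rw [Place.mem_O, W.reg_iff h6] at h4
    rw [Place.mem_O, W.reg_iff (inv_ne_zero h6), W.ord_inv] at h5
    rw [W.ord_div hπ0 htM0, hπ] at h4 h5
    omega
  apply hn2
  refine stab_triv a_stab hx W _ hW h1 ?_
  have h7 : ∀ i : ℕ, (γ ^ i) ⟨t, hle ht⟩ = ⟨t, hle ht⟩ := by
    intro i
    induction i with
    | zero => rfl
    | succ i ih => rw [pow_succ', AlgEquiv.mul_apply, ih, hγK t ht]
  exact h7 _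

end big

end Pool.Agent.H889.PS
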