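import Pool.Agent.H889.PS.Loc

/-!
# Construction of the covering field (1): places of the finite level
-/

set_option autoImplicit false
set_option linter.all false

open Polynomial FF

namespace Pool.Agent.H889.PS

open Pool.Agent.Y157.PS
open Pool.Agent.Y903.PS (tt ratF_tt fund pull pull_ordR trans_of)

section places

variable {κ R N : Type} [Field κ] [IsAlgClosed κ] [CharZero κ] [Field R] [Field N] [Algebra κ R]
  [Algebra κ N] [Algebra R N] [IsScalarTower κ R N] [FiniteDimensional R N] [IsGalois R N]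
  {x : R}

/-- there are places over every point, and the ramification index is a power of `ℓ` which depends
only on the point -/
theorem exists_exp {ℓ : ℕ} [Fact ℓ.Prime] (hx : RatF κ x)
    (hm : ∃ m : ℕ, Module.finrank R N = ℓ ^ m) (c : Option κ) :
    (∃ w : Place κ N, 0 < w.ord (algebraMap R N (tt x c))) ∧
    ∃ s : ℕ, ∀ w : Place κ N, 0 < w.ord (algebraMap R N (tt x c)) →
      w.ord (algebraMap R N (tt x c)) = (ℓ : ℤ) ^ s := by
  haveI : IsFF κ N := hx.isFF
  have ht := ratF_tt hx c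
  obtain ⟨S, hS, hsum⟩ := fund (N := N) ht
  obtain ⟨m, hm⟩ := hm
  have hcard : (Fintype.card (N ≃ₐ[R] N) : ℤ) = (ℓ : ℤ) ^ m := by
    rw [← Nat.card_eq_fintype_card, IsGalois.card_aut_eq_finrank, hm]
    push_cast
    rfl
  have hpos : (0 : ℤ) < (ℓ : ℤ) ^ m := by
    have := (Fact.out : ℓ.Prime).pos
    positivity
  rw [hcard] at hsum
  have hne : S.Nonempty := by
    by_contra h
    rw [Finset.not_nonempty_iff_eq_empty] at h
    rw [h, Finset.sum_empty] at hsum
    omega
  obtain ⟨w0, hw0⟩ := hne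
  have h0 := (hS w0).1 hw0
  refine ⟨⟨w0, h0⟩, ?_⟩
  have he : ∀ w ∈ S, w.ord (algebraMap R N (tt x c)) = w0.ord (algebraMap R N (tt x c)) := by
    intro w hw
    obtain ⟨g, rfl⟩ := trans_of a_conj ht w0 w h0 ((hS w).1 hw)
    exact pull_ordR g w0 _
  rw [Finset.sum_congr rfl he, Finset.sum_const, nsmul_eq_mul] at hsum
  obtain ⟨n, hn⟩ : ∃ n : ℕ, w0.ord (algebraMap R N (tt x c)) = n := ⟨_, (Int.toNat_of_nonneg h0.le).symm⟩
  have hdvd : n ∣ ℓ ^ m := by
    refine ⟨S.card, ?_⟩
    rw [hn] at hsum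
    have h1 : ((n * S.card : ℕ) : ℤ) = ((ℓ ^ m : ℕ) : ℤ) := by
      push_cast
      rw [← hsum]
      ring
    exact_mod_cast h1.symm
  obtain ⟨s, -, hs⟩ := (Nat.dvd_prime_pow (Fact.out : ℓ.Prime)).1 hdvd
  refine ⟨s, fun w hw => ?_⟩
  rw [he w ((hS w).2 hw), hn, hs]
  push_cast
  rfl

end places

section trace

variable {κ R Ω : Type} [Field κ] [Field R] [Field Ω] [Algebra κ R] [Algebra R Ω] [Algebra κ Ω]
  [IsScalarTower κ R Ω] {t : R}

theorem val_poly0 (p : κ[X]) (hp : p ≠ 0) : ∃ n : ℕ, ∀ W : ValuationSubring Ω,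
    (∀ c : κ, algebraMap κ Ω c ∈ W) → W.valuation (algebraMap R Ω t) < 1 →
    W.valuation (aeval (algebraMap R Ω t) p) = W.valuation (algebraMap R Ω t) ^ n := by
  obtain ⟨q, hq, hq'⟩ := exists_eq_pow_rootMultiplicity_mul_and_not_dvd p hp 0
  refine ⟨p.rootMultiplicity 0, fun W hc ht => ?_⟩
  have hq0 : q.coeff 0 ≠ 0 := by
    intro h
    apply hq'
    rw [dvd_iff_isRoot, IsRoot.def, ← coeff_zero_eq_eval_zero, h]
  have htW : algebraMap R Ω t ∈ W := (W.valuation_le_one_iff _).1 ht.le
  have h1 : W.valuation (aeval (algebraMap R Ω t) q) = 1 := by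
    have h2 : aeval (algebraMap R Ω t) q = algebraMap κ Ω (q.coeff 0) +
        algebraMap R Ω t * aeval (algebraMap R Ω t) q.divX := by
      conv_lhs => rw [← divX_mul_X_add q]
      rw [map_add, map_mul, aeval_X, aeval_C]
      ring
    have h3 : aeval (algebraMap R Ω t) q.divX ∈ W := by
      rw [aeval_eq_sum_range]
      refine sum_mem fun i _ => ?_
      rw [Algebra.smul_def]
      exact mul_mem (hc _) (pow_mem htW i)
    have h4 := Pool.Agent.Y809.PS.val_const hc (W := W) hq0
    rw [h2, Valuation.map_add_eq_of_lt_left _ (by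
      rw [h4, map_mul]
      calc W.valuation (algebraMap R Ω t) * W.valuation (aeval (algebraMap R Ω t) q.divX)
          ≤ W.valuation (algebraMap R Ω t) * 1 := by
            gcongr
            exact (W.valuation_le_one_iff _).2 h3
        _ < 1 := by rw [mul_one]; exact ht), h4]
  have h5 := congrArg (aeval (algebraMap R Ω t)) hq
  rw [C_0, sub_zero, map_mul, map_pow, aeval_X] at h5
  rw [h5, map_mul, h1, mul_one, map_pow]

/-- the values of the elements of `κ(x)` at the valuation rings over a point -/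
theorem val_univ (ht : RatF κ t) (z : R) (hz : z ≠ 0) : ∃ n : ℤ, ∀ W : ValuationSubring Ω,
    (∀ c : κ, algebraMap κ Ω c ∈ W) → W.valuation (algebraMap R Ω t) < 1 →
    W.valuation (algebraMap R Ω z) = W.valuation (algebraMap R Ω t) ^ n := by
  obtain ⟨r, s, hrs⟩ := Pool.Agent.Y809.PS.RatF_rep ht z
  have hr : r ≠ 0 := by
    rintro rfl
    apply hz
    rw [hrs, map_zero, zero_div]
  have hs : s ≠ 0 := by
    rintro rfl
    apply hz
    rw [hrs, map_zero, div_zero]
  obtain ⟨n, hn⟩ := val_poly0 (Ω := Ω) (t := t) r hr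
  obtain ⟨m, hm⟩ := val_poly0 (Ω := Ω) (t := t) s hs
  refine ⟨n - m, fun W hc h1 => ?_⟩
  have h0 : W.valuation (algebraMap R Ω t) ≠ 0 := by
    rw [Ne, map_eq_zero, map_eq_zero]
    rintro rfl
    exact ht.trans isAlgebraic_zero
  rw [hrs, map_div₀, ← aeval_algebraMap_apply, ← aeval_algebraMap_apply, map_div₀, hn W hc h1,
    hm W hc h1, zpow_sub₀ h0, zpow_natCast, zpow_natCast]

/-- two valuation rings over the same point have the same trace on `κ(x)` -/
theorem trace_val (ht : RatF κ t) {W W' : ValuationSubring Ω}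
    (hc : ∀ c : κ, algebraMap κ Ω c ∈ W) (hc' : ∀ c : κ, algebraMap κ Ω c ∈ W')
    (h : W.valuation (algebraMap R Ω t) < 1) (h' : W'.valuation (algebraMap R Ω t) < 1) :
    W.comap (algebraMap R Ω) = W'.comap (algebraMap R Ω) := by
  have h0 : ∀ W : ValuationSubring Ω, W.valuation (algebraMap R Ω t) ≠ 0 := by
    intro W
    rw [Ne, map_eq_zero, map_eq_zero]
    rintro rfl
    exact ht.trans isAlgebraic_zero
  ext z
  rw [ValuationSubring.mem_comap, ValuationSubring.mem_comap]
  by_cases hz : z = 0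
  · rw [hz, map_zero]
    exact ⟨fun _ => zero_mem _, fun _ => zero_mem _⟩
  obtain ⟨n, hn⟩ := val_univ (Ω := Ω) ht z hz
  rw [← W.valuation_le_one_iff, ← W'.valuation_le_one_iff, hn W hc h, hn W' hc' h']
  have key : ∀ (V : ValuationSubring Ω), V.valuation (algebraMap R Ω t) < 1 →
      (V.valuation (algebraMap R Ω t) ^ n ≤ 1 ↔ 0 ≤ n) := by
    intro V hV
    constructor
    · intro h1
      by_contra h2
      push Not at h2
      have := Pool.Agent.Y809.PS.zpow_lt (h0 V) hV h2
      rw [zpow_zero] at this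
      exact absurd h1 (not_le.2 this)
    · intro h1
      have := Pool.Agent.Y809.PS.zpow_le (h0 V) hV h1
      rwa [zpow_zero] at this
  rw [key W h, key W' h']

/-- every nontrivial valuation ring lies over a point -/
theorem exists_point [IsAlgClosed κ] [Algebra.IsAlgebraic R Ω] {x : R} (hx : RatF κ x)
    (W : ValuationSubring Ω) (hc : ∀ c : κ, algebraMap κ Ω c ∈ W) (hW : W ≠ ⊤) :
    ∃ c : Option κ, W.valuation (algebraMap R Ω (tt x c)) < 1 := by
  have hRW : ∃ z : R, algebraMap R Ω z ∉ W := by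
    by_contra h
    push Not at h
    exact hW (Pool.Agent.Y948.PS.top_of_R W h)
  rcases Pool.Agent.Y809.PS.place_or hc hx hRW with ⟨b, hb, -⟩ | ⟨h1, -⟩
  · refine ⟨some b, ?_⟩
    have h2 : algebraMap R Ω (tt x (some b)) = algebraMap R Ω x - algebraMap κ Ω b := by
      change algebraMap R Ω (x - algebraMap κ R b) = _
      rw [map_sub, ← IsScalarTower.algebraMap_apply]
    rw [h2]
    exact hb
  · refine ⟨none, ?_⟩
    have h2 : algebraMap R Ω (tt (κ := κ) x none) = (algebraMap R Ω x)⁻¹ := by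
      change algebraMap R Ω (x⁻¹) = _
      rw [map_inv₀]
    rw [h2, map_inv₀]
    exact inv_lt_one_of_one_lt₀ h1

end trace

end Pool.Agent.H889.PS
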