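import Pool.Agent.H889.PS.Cova

/-!
# Construction of the covering field (2): the maximal unramified pro-`ℓ` extension
-/

set_option autoImplicit false
set_option linter.all false

open Polynomial FF

namespace Pool.Agent.H889.PS

open Pool.Agent.Y157.PS Pool.Agent.Y948.PS
open Pool.Agent.Y903.PS (tt ratF_tt fund pull pull_ordR trans_of)

section level

variable {κ R Ω : Type} [Field κ] [IsAlgClosed κ] [CharZero κ] [Field R] [Field Ω] [Algebra κ R]
  [Algebra R Ω] [Algebra κ Ω] [IsScalarTower κ R Ω] {x : R} {ℓ : ℕ} [Fact ℓ.Prime]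

/-- the valuation ring of the finite level comes from a place -/
theorem exists_place_level (hx : RatF κ x) (N0 : IntermediateField R Ω) (hN : Lev ℓ N0)
    (W : ValuationSubring Ω) (hc : ∀ c : κ, algebraMap κ Ω c ∈ W) (c : Option κ)
    (hW : W.valuation (algebraMap R Ω (tt x c)) < 1) :
    ∃ w : Place κ N0, w.O = W.comap (algebraMap N0 Ω) ∧
      0 < w.ord (algebraMap R N0 (tt x c)) := by
  haveI := hN.fin
  haveI := hN.gal
  haveI : Normal R N0 := hN.gal.to_normal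
  obtain ⟨⟨w1, hw1⟩, -⟩ := exists_exp (N := N0) hx hN.card c
  obtain ⟨V1, hV1⟩ := a_extv N0 Ω w1.O
  have ht := ratF_tt hx c
  have hmem1 : ∀ z : N0, (z : Ω) ∈ V1 ↔ z ∈ w1.O := by
    intro z
    rw [← hV1]
    rfl
  have hc1 : ∀ a : κ, algebraMap κ Ω a ∈ V1 := by
    intro a
    have h1 := (hmem1 (algebraMap κ N0 a)).2 (w1.reg_const a)
    exact h1
  have ht0 : algebraMap R N0 (tt x c) ≠ 0 := by
    intro h
    rw [h, w1.ord_zero] at hw1
    exact lt_irrefl _ hw1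
  have hV1lt : V1.valuation (algebraMap R Ω (tt x c)) < 1 := by
    rw [← ValuationSubring.mem_nonunits_iff, nonunits_iff]
    refine ⟨(hmem1 (algebraMap R N0 (tt x c))).2 ((w1.reg_iff ht0).2 hw1.le), Or.inr ?_⟩
    intro h
    have h2 : (algebraMap R N0 (tt x c))⁻¹ ∈ w1.O := (hmem1 _).1 h
    rw [Place.mem_O, w1.reg_iff (inv_ne_zero ht0), w1.ord_inv] at h2
    omega
  have htr := trace_val ht hc hc1 hW hV1lt
  obtain ⟨γ, hγ⟩ := a_conj R N0 w1.O (W.comap (algebraMap N0 Ω)) (by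
    ext z
    have h1 : z ∈ W.comap (algebraMap R Ω) ↔ z ∈ V1.comap (algebraMap R Ω) := by rw [htr]
    rw [ValuationSubring.mem_comap, ← hmem1, ValuationSubring.mem_comap,
      ValuationSubring.mem_comap]
    exact h1.symm)
  refine ⟨pull γ w1, ?_, ?_⟩
  · ext z
    rw [hγ, Place.mem_O, Place.mem_O]
    unfold Place.Reg
    change z = 0 ∨ 0 ≤ w1.ord (γ z) ↔ γ z = 0 ∨ _
    rw [map_eq_zero_iff γ γ.injective]
  · rw [pull_ordR]
    exact hw1

theorem exists_unf (hx : RatF κ x) (N0 : IntermediateField R Ω) (hN : Lev ℓ N0)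
    (W : ValuationSubring Ω) (hc : ∀ c : κ, algebraMap κ Ω c ∈ W) (c : Option κ)
    (hW : W.valuation (algebraMap R Ω (tt x c)) < 1) :
    ∃ w : Place κ N0, 0 < w.ord (algebraMap R N0 (tt x c)) ∧
      ∃ π : N0, w.ord π = 1 ∧ Unf N0 W (π : Ω) ∧
        ∀ z : N0, z ≠ 0 → W.valuation (z : Ω) = W.valuation (π : Ω) ^ (w.ord z) := by
  obtain ⟨w, hw, hwt⟩ := exists_place_level hx N0 hN W hc c hW
  have hmem : ∀ z : N0, (z : Ω) ∈ W ↔ z ∈ w.O := by
    intro z
    rw [hw]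
    rfl
  obtain ⟨π, hπ0, hπ⟩ := w.surj
  have hπΩ : (π : Ω) ≠ 0 := fun h => hπ0 (Subtype.ext h)
  have h1 : ∀ z : N0, z ≠ 0 → w.ord z = 0 → W.valuation (z : Ω) = 1 := by
    intro z hz h0
    rw [← Pool.Agent.Y948.PS.isU_iff]
    refine ⟨fun h => hz (Subtype.ext h), ?_, ?_⟩
    · rw [hmem, Place.mem_O, w.reg_iff hz, h0]
    · have h2 : z⁻¹ ∈ w.O := by
        rw [Place.mem_O, w.reg_iff (inv_ne_zero hz), w.ord_inv, h0, neg_zero]
      exact (hmem _).2 h2
  have h2 : ∀ z : N0, z ≠ 0 → W.valuation (z : Ω) = W.valuation (π : Ω) ^ (w.ord z) := by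
    intro z hz
    have hπz : π ^ (w.ord z) ≠ 0 := zpow_ne_zero _ hπ0
    have h3 := h1 (z / π ^ (w.ord z)) (div_ne_zero hz hπz) (by
      rw [w.ord_div hz hπz, w.ord_zpow, hπ, mul_one, sub_self])
    have h4 : ((z / π ^ (w.ord z) : N0) : Ω) = (z : Ω) / (π : Ω) ^ (w.ord z) := by push_cast; rfl
    rw [h4, map_div₀, map_zpow₀] at h3
    have h5 : W.valuation (π : Ω) ^ (w.ord z) ≠ 0 := zpow_ne_zero _ ((Valuation.ne_zero_iff _).2 hπΩ)
    rw [div_eq_one_iff_eq h5] at h3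
    exact h3
  refine ⟨w, hwt, π, hπ, ⟨π.2, hπΩ, ?_, ?_⟩, h2⟩
  · rw [← ValuationSubring.mem_nonunits_iff, nonunits_iff]
    refine ⟨?_, Or.inr ?_⟩
    · rw [hmem, Place.mem_O, w.reg_iff hπ0, hπ]
      norm_num
    · intro h
      have h3 : π⁻¹ ∈ w.O := (hmem _).1 h
      rw [Place.mem_O, w.reg_iff (inv_ne_zero hπ0), w.ord_inv, hπ] at h3
      omega
  · intro z hz hz0
    exact ⟨_, h2 ⟨z, hz⟩ fun h => hz0 (congrArg Subtype.val h)⟩

theorem lev_stable [Normal R Ω] {N0 : IntermediateField R Ω} (hN : Lev ℓ N0)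
    (γ : Ω ≃ₐ[R] Ω) (t : Ω) (ht : t ∈ N0) : γ t ∈ N0 := by
  haveI := hN.gal
  haveI : Normal R N0 := hN.gal.to_normal
  have h1 := AlgEquiv.restrictNormal_commutes γ N0 ⟨t, ht⟩
  change ((γ.restrictNormal N0 ⟨t, ht⟩ : N0) : Ω) = γ t at h1
  rw [← h1]
  exact (γ.restrictNormal N0 ⟨t, ht⟩).2

theorem lev_pow [Normal R Ω] {N0 : IntermediateField R Ω} {m : ℕ} (hN : Lev ℓ N0)
    (hm : Module.finrank R N0 = ℓ ^ m) (γ : Ω ≃ₐ[R] Ω) (t : Ω) (ht : t ∈ N0) :
    (γ ^ (ℓ ^ m)) t = t := by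
  haveI := hN.fin
  haveI := hN.gal
  haveI : Normal R N0 := hN.gal.to_normal
  have h4 : (AlgEquiv.restrictNormalHom N0 γ) ^ (ℓ ^ m) = 1 := by
    rw [← hm, ← IsGalois.card_aut_eq_finrank]
    exact pow_card_eq_one'
  rw [← map_pow] at h4
  have h1 := AlgEquiv.restrictNormal_commutes (γ ^ (ℓ ^ m)) N0 ⟨t, ht⟩
  have h6 : (γ ^ (ℓ ^ m)).restrictNormal N0 = 1 := h4
  rw [h6] at h1
  exact h1.symm

theorem Pro_lev [Normal R Ω] {N0 : IntermediateField R Ω} (hN : Lev ℓ N0) (t : Ω)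
    (ht : t ∈ N0) : Pro ℓ R t := by
  obtain ⟨m, hm⟩ := hN.card
  exact ⟨m, fun σ γ => lev_pow hN hm σ _ (lev_stable hN γ t ht)⟩

end level

section cov

variable {κ R Ω : Type} [Field κ] [IsAlgClosed κ] [CharZero κ] [Field R] [Field Ω] [Algebra κ R]
  [Algebra R Ω] [Algebra κ Ω] [IsScalarTower κ R Ω] {x : R} {ℓ : ℕ} [Fact ℓ.Prime]
  {N0 Kf : IntermediateField R Ω}

/-- every nonzero element of `N0` has the value of an element of `Kf` -/
def UnrLev (κ : Type) {R Ω : Type} [Field κ] [Field R] [Field Ω] [Algebra R Ω] [Algebra κ Ω]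
    (Kf N0 : IntermediateField R Ω) : Prop :=
  ∀ W : ValuationSubring Ω, (∀ c : κ, algebraMap κ Ω c ∈ W) → ∀ z ∈ N0, z ≠ 0 →
    ∃ t ∈ Kf, t ≠ 0 ∧ W.valuation z = W.valuation t

theorem unf_base (hu : UnrLev κ Kf N0) (hle : Kf ≤ N0) {W : ValuationSubring Ω}
    (hc : ∀ c : κ, algebraMap κ Ω c ∈ W) {π : Ω} (hπ : Unf N0 W π) : ∃ π', Unf Kf W π' := by
  obtain ⟨t, ht, ht0, h1⟩ := hu W hc π hπ.mem hπ.ne
  refine ⟨t, ht, ht0, by rw [← h1]; exact hπ.lt, fun z hz hz0 => ?_⟩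
  obtain ⟨n, hn⟩ := hπ.val z (hle hz) hz0
  exact ⟨n, by rw [hn, h1]⟩

theorem Apx_up (hu : UnrLev κ Kf N0) (hle : Kf ≤ N0) {W : ValuationSubring Ω}
    (hc : ∀ c : κ, algebraMap κ Ω c ∈ W) {z : Ω} (hz : Apx Kf W z) : Apx N0 W z := by
  intro s hs hs0
  obtain ⟨s', hs', hs0', h1⟩ := hu W hc s hs hs0
  obtain ⟨t, ht, h2⟩ := hz s' hs' hs0'
  exact ⟨t, hle ht, by rw [h1]; exact h2⟩

variable [Algebra.IsAlgebraic R Ω] [Normal R Ω]

theorem HU_lev (hx : RatF κ x) (hN : Lev ℓ N0) : HU κ N0 := by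
  intro W hc hW
  obtain ⟨c, hc'⟩ := exists_point hx W hc hW
  obtain ⟨w, -, π, -, hπ, -⟩ := exists_unf hx N0 hN W hc c hc'
  exact ⟨π, hπ⟩

/-- the maximal unramified pro-`ℓ` extension of `Kf` -/
theorem mem_maxPro (hx : RatF κ x) (hN : Lev ℓ N0) (hle : Kf ≤ N0) (hu : UnrLev κ Kf N0)
    (z : Ω) : z ∈ maxPro ℓ κ Kf Ω ↔ Mem ℓ κ N0 z := by
  haveI : CharZero R := charZero_of_injective_algebraMap (algebraMap κ R).injective
  have hU := HU_lev (κ := κ) hx hN
  obtain ⟨m, hm⟩ := hN.card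
  constructor
  · intro hz
    have hP0 : ∀ t ∈ Kf, Mem ℓ κ N0 t := fun t ht =>
      ⟨Pro_lev hN t (hle ht), fun W h1 h2 => Apx.of_mem (hle ht)⟩
    let MK : IntermediateField Kf Ω :=
      { (MF ℓ κ N0).toSubfield with
        algebraMap_mem' := fun r => hP0 _ r.2
        inv_mem' := fun a ha => (MF ℓ κ N0).inv_mem ha }
    have hle' : maxPro ℓ κ Kf Ω ≤ MK := by
      refine iSup_le ?_
      rintro ⟨L, hL, hLu⟩ y hy
      change Mem ℓ κ N0 y
      constructor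
      · obtain ⟨a, ha⟩ := hL.card
        haveI := hL.fin
        haveI := hL.gal
        refine ⟨m + a, fun σ γ => ?_⟩
        obtain ⟨τ, hτ⟩ : ∃ τ : Ω ≃ₐ[R] Ω, τ = γ⁻¹ * σ * γ := ⟨_, rfl⟩
        have h2 : τ ^ (ℓ ^ m) ∈ Kf.fixingSubgroup := by
          rw [IntermediateField.mem_fixingSubgroup_iff]
          intro t ht
          exact lev_pow hN hm τ t (hle ht)
        let τ' : Ω ≃ₐ[Kf] Ω := IntermediateField.fixingSubgroupEquiv Kf ⟨τ ^ (ℓ ^ m), h2⟩
        have h3 : ∀ (j : ℕ) (w : Ω), (τ' ^ j) w = ((τ ^ (ℓ ^ m)) ^ j) w := by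
          intro j
          induction j with
          | zero => intro w; simp
          | succ j ih =>
            intro w
            rw [pow_succ, AlgEquiv.mul_apply, ih, pow_succ, AlgEquiv.mul_apply]
            rfl
        have h4 : (AlgEquiv.restrictNormalHom L τ') ^ (ℓ ^ a) = 1 := by
          rw [← ha, ← IsGalois.card_aut_eq_finrank]
          exact pow_card_eq_one'
        rw [← map_pow] at h4
        have h5 : (τ' ^ (ℓ ^ a)) y = y := by
          have := AlgEquiv.restrictNormal_commutes (τ' ^ (ℓ ^ a)) L ⟨y, hy⟩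
          have h6 : (τ' ^ (ℓ ^ a)).restrictNormal L = 1 := h4
          rw [h6] at this
          exact this.symm
        rw [h3, ← pow_mul, ← pow_add] at h5
        have h7 : γ⁻¹ * σ ^ (ℓ ^ (m + a)) * γ = τ ^ (ℓ ^ (m + a)) := by
          rw [hτ]
          have := _root_.conj_pow (i := ℓ ^ (m + a)) (a := γ⁻¹) (b := σ)
          rw [inv_inv] at this
          exact this.symm
        rw [← h7] at h5
        have h8 : γ (γ⁻¹ ((σ ^ (ℓ ^ (m + a))) (γ y))) = γ y := by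
          congr 1
        have h9 : ∀ w, γ (γ⁻¹ w) = w := fun w => by
          rw [← AlgEquiv.mul_apply, mul_inv_cancel, AlgEquiv.one_apply]
        rwa [h9] at h8
      · intro W hκ hW
        obtain ⟨π, hπ⟩ := hU W hκ hW
        obtain ⟨π', hπ'⟩ := unf_base hu hle hκ hπ
        refine Apx_up hu hle hκ (Apx.of_unr hπ' (hres hx Kf W hκ hW) L.toSubfield
          (fun t ht => L.algebraMap_mem ⟨t, ht⟩) ?_ hy)
        intro w hw hw0
        obtain ⟨t, ht0, ht⟩ := hLu W hκ w hw hw0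
        have ht0' : (t : Ω) ≠ 0 := by simpa using ht0
        refine ⟨t, t.2, ht0', ?_⟩
        have h1 := (Pool.Agent.Y948.PS.isU_iff W).1 ht
        have h2 : algebraMap Kf Ω t = (t : Ω) := rfl
        rw [h2, map_div₀] at h1
        rwa [div_eq_one_iff_eq] at h1
        exact ((Valuation.pos_iff _).2 ht0').ne'
    exact hle' hz
  · intro hz
    have hK : ∀ (γ : Ω ≃ₐ[R] Ω), ∀ t ∈ N0, γ t ∈ N0 := fun γ t ht => lev_stable hN γ t ht
    have hle2 : Kf ≤ MF ℓ κ N0 := fun t ht =>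
      ⟨Pro_lev hN t (hle ht), fun W h1 h2 => Apx.of_mem (hle ht)⟩
    haveI : CharZero Kf := charZero_of_injective_algebraMap (algebraMap R Kf).injective
    haveI : Normal Kf Ω := Normal.tower_top_of_normal R Kf Ω
    let S : IntermediateField Kf Ω := IntermediateField.extendScalars hle2
    have hS : ∀ y, y ∈ S ↔ Mem ℓ κ N0 y := fun y => IntermediateField.mem_extendScalars hle2
    have hres' : ∀ (σ : Ω ≃ₐ[Kf] Ω) (j : ℕ) (w : Ω), (σ ^ j) w = ((σ.restrictScalars R) ^ j) w := by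
      intro σ j
      induction j with
      | zero => intro w; simp
      | succ j ih =>
        intro w
        rw [pow_succ, AlgEquiv.mul_apply, ih, pow_succ, AlgEquiv.mul_apply]
        rfl
    obtain ⟨N, hzN, hNS, hN'⟩ := exists_lev (ℓ := ℓ) S
      (fun σ y hy => (hS _).2 (((hS y).1 hy).conj hK (σ.restrictScalars R)))
      (fun θ hθ σ => by
        obtain ⟨k, hk⟩ := ((hS θ).1 hθ).1
        refine ⟨k, ?_⟩
        rw [hres']
        exact hk (σ.restrictScalars R) 1)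
      ((hS z).2 hz)
    have hNu : Unr κ Kf Ω N := by
      intro W hκ w hw hw0
      by_cases hW : W = ⊤
      · refine ⟨1, one_ne_zero, ?_, ?_, ?_⟩
        · rw [map_one, div_one]; exact hw0
        · rw [hW]; trivial
        · rw [hW]; trivial
      · obtain ⟨π, hπ⟩ := hU W hκ hW
        obtain ⟨t, ht, ht0, h1⟩ := (((hS w).1 (hNS hw)).2 W hκ hW).val hπ hw0
        obtain ⟨t', ht', ht0', h2⟩ := hu W hκ t ht ht0
        refine ⟨⟨t', ht'⟩, fun h => ht0' (congrArg Subtype.val h), ?_⟩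
        rw [Pool.Agent.Y948.PS.isU_iff]
        have h3 : algebraMap Kf Ω ⟨t', ht'⟩ = t' := rfl
        rw [h3, map_div₀, h1, h2, div_self]
        exact ((Valuation.pos_iff _).2 ht0').ne'
    have h3 : N ≤ maxPro ℓ κ Kf Ω :=
      le_iSup (fun L : {L : IntermediateField Kf Ω // Lev ℓ L ∧ Unr κ Kf Ω L} => L.1) ⟨N, hN', hNu⟩
    exact h3 hzN

end cov

end Pool.Agent.H889.PS
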