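import Pool.Agent.H889.PS.Covb

/-!
# Construction of the covering field (3)
-/

set_option autoImplicit false
set_option linter.all false

open Polynomial FF

namespace Pool.Agent.H889.PS

open Pool.Agent.Y157.PS Pool.Agent.Y948.PS
open Pool.Agent.Y903.PS (tt ratF_tt fund pull pull_ordR trans_of)

section cov

variable {κ R Ω : Type} [Field κ] [IsAlgClosed κ] [CharZero κ] [Field R] [Field Ω] [Algebra κ R]
  [Algebra R Ω] [Algebra κ Ω] [IsScalarTower κ R Ω] {x : R} {ℓ : ℕ} [Fact ℓ.Prime]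
  {N0 Kf : IntermediateField R Ω} [IsAlgClosure R Ω]

theorem lev_restrict {M : IntermediateField R Ω} (h : N0 ≤ M) (hN : Lev ℓ N0) :
    Lev ℓ (IntermediateField.restrict h) := by
  let e := IntermediateField.restrictAlgEquiv h
  haveI := hN.fin
  haveI := hN.gal
  obtain ⟨m, hm⟩ := hN.card
  exact ⟨Module.Finite.equiv e.toLinearEquiv, IsGalois.of_algEquiv e, m, by
    rw [← hm]
    exact e.toLinearEquiv.finrank_eq.symm⟩

/-- the maximal unramified pro-`ℓ` extension is a covering field -/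
theorem gcov (hx : RatF κ x) (hN : Lev ℓ N0) (hle : Kf ≤ N0) (hu : UnrLev κ Kf N0)
    (B : Finset κ)
    (hB : ∀ W : ValuationSubring Ω, (∀ c : κ, algebraMap κ Ω c ∈ W) → algebraMap R Ω x ∈ W →
      (∀ e ∈ B, algebraMap R Ω x - algebraMap κ Ω e ∉ W.nonunits) → ∀ z ∈ N0, z ≠ 0 →
        ∃ t : R, t ≠ 0 ∧ W.valuation z = W.valuation (algebraMap R Ω t))
    (M : IntermediateField R Ω) (hM : ∀ z, z ∈ M ↔ z ∈ maxPro ℓ κ Kf Ω)
    (hbig : ∃ z ∈ M, z ∉ N0) :
    ∃ (hNM : N0 ≤ M) (ε : κ → ℕ) (ι : ℕ),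
      GCov ℓ κ R M x B ε ι (IntermediateField.restrict hNM) := by
  haveI : CharZero R := charZero_of_injective_algebraMap (algebraMap κ R).injective
  haveI : IsAlgClosed Ω := IsAlgClosure.isAlgClosed R
  have hℓ0 : ℓ ≠ 0 := (Fact.out : ℓ.Prime).ne_zero
  have hμ : ∀ ζ : Ω, ζ ^ ℓ = 1 → ∃ c : R, algebraMap R Ω c = ζ := fun ζ => muR (κ := κ) hℓ0 ζ
  have hK : ∀ (γ : Ω ≃ₐ[R] Ω), ∀ t ∈ N0, γ t ∈ N0 := fun γ t ht => lev_stable hN γ t ht
  have hMm : ∀ z, z ∈ M ↔ Mem ℓ κ N0 z := fun z => by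
    rw [hM z]
    exact mem_maxPro hx hN hle hu z
  have hNM : N0 ≤ M := fun z hz => by
    rw [hMm]
    exact ⟨Pro_lev hN z hz, fun W h1 h2 => Apx.of_mem hz⟩
  have hApx : ∀ W : ValuationSubring Ω, (∀ c : κ, algebraMap κ Ω c ∈ W) → W ≠ ⊤ →
      ∀ z ∈ M, Apx N0 W z := fun W hκ hW z hz =>
    ((hMm z).1 hz).2 W hκ hW
  haveI := hN.fin
  haveI := hN.gal
  have hexp : ∀ c : Option κ, ∃ s : ℕ, ∀ w : Place κ N0,
      0 < w.ord (algebraMap R N0 (tt x c)) → w.ord (algebraMap R N0 (tt x c)) = (ℓ : ℤ) ^ s :=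
    fun c => (exists_exp hx hN.card c).2
  choose s hs using hexp
  have hlp : (0 : ℤ) < ℓ := by
    have := (Fact.out : ℓ.Prime).pos
    exact_mod_cast this
  -- `M / R` is Galois
  haveI hnorm : Normal R M := by
    rw [IntermediateField.normal_iff_forall_map_le']
    rintro σ _ ⟨z, hz, rfl⟩
    exact (hMm _).2 (((hMm z).1 hz).conj hK σ)
  haveI : Algebra.IsSeparable R M := Algebra.IsAlgebraic.isSeparable_of_perfectField
  haveI hgal : IsGalois R M := ⟨⟩
  refine ⟨hNM, fun a => s (some a), s none, hx, hgal, ?_, lev_restrict hNM hN, ?_, ?_, ?_, ?_⟩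
  · -- pow
    intro z
    obtain ⟨N, h1, _, h2⟩ := exists_lev (ℓ := ℓ) (⊤ : IntermediateField R M)
      (fun σ y _ => trivial)
      (fun θ _ σ => by
        obtain ⟨k, hk⟩ := ((hMm θ).1 θ.2).1
        refine ⟨k, ?_⟩
        have h1 : ∀ (j : ℕ) (z : M), ((σ.liftNormal Ω) ^ j) (z : Ω) = ((σ ^ j) z : M) := by
          intro j
          induction j with
          | zero => intro z; simp
          | succ j ih =>
            intro z
            rw [pow_succ, AlgEquiv.mul_apply, pow_succ, AlgEquiv.mul_apply, ← ih]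
            congr 1
            exact AlgEquiv.liftNormal_commutes σ Ω z
        apply Subtype.ext
        rw [← h1]
        exact hk (σ.liftNormal Ω) 1)
      (z := z) trivial
    exact ⟨N, h1, h2⟩
  · -- supp
    intro a ha
    obtain ⟨w0, hw0⟩ := (exists_exp (N := N0) hx hN.card (some a)).1
    obtain ⟨W, hW⟩ := a_extv N0 Ω w0.O
    have hmem : ∀ z : N0, (z : Ω) ∈ W ↔ z ∈ w0.O := by
      intro z
      rw [← hW]
      rfl
    have hc : ∀ a : κ, algebraMap κ Ω a ∈ W := fun a =>
      (hmem (algebraMap κ N0 a)).2 (w0.reg_const a)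
    have ht0 : algebraMap R N0 (tt x (some a)) ≠ 0 := by
      intro h
      rw [h, w0.ord_zero] at hw0
      exact lt_irrefl _ hw0
    have hlt : W.valuation (algebraMap R Ω (tt x (some a))) < 1 := by
      rw [← ValuationSubring.mem_nonunits_iff, nonunits_iff]
      refine ⟨(hmem (algebraMap R N0 (tt x (some a)))).2 ((w0.reg_iff ht0).2 hw0.le),
        Or.inr ?_⟩
      intro h
      have h2 : (algebraMap R N0 (tt x (some a)))⁻¹ ∈ w0.O := (hmem _).1 h
      rw [Place.mem_O, w0.reg_iff (inv_ne_zero ht0), w0.ord_inv] at h2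
      omega
    obtain ⟨w, hw, π, hπ1, hπ, hval⟩ := exists_unf hx N0 hN W hc (some a) hlt
    have htt : algebraMap R Ω (tt x (some a)) = algebraMap R Ω x - algebraMap κ Ω a := by
      change algebraMap R Ω (x - algebraMap κ R a) = _
      rw [map_sub, ← IsScalarTower.algebraMap_apply]
    have hxa : algebraMap R Ω x - algebraMap κ Ω a ∈ W.nonunits := by
      rw [← htt]
      exact (ValuationSubring.mem_nonunits_iff _).2 hlt
    have hxW : algebraMap R Ω x ∈ W := by
      have h1 := add_mem (non_mem hxa) (hc a)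
      rwa [sub_add_cancel] at h1
    obtain ⟨t, ht, htv⟩ := hB W hc hxW (by
      intro e he hen
      have hae : e ≠ a := by
        rintro rfl
        exact ha he
      have h1 := non_sub hxa hen
      have h2 : (algebraMap R Ω x - algebraMap κ Ω a) - (algebraMap R Ω x - algebraMap κ Ω e) =
          algebraMap κ Ω (e - a) := by rw [map_sub]; ring
      rw [h2, ValuationSubring.mem_nonunits_iff,
        Pool.Agent.Y809.PS.val_const hc (W := W) (sub_ne_zero.2 hae)] at h1
      exact lt_irrefl _ h1) (π : Ω) π.2 hπ.ne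
    have htN0 : algebraMap R N0 t ≠ 0 := (_root_.map_ne_zero _).2 ht
    have h3 : W.valuation (algebraMap R Ω t) =
        W.valuation (π : Ω) ^ (w.ord (algebraMap R N0 t)) := hval (algebraMap R N0 t) htN0
    have h4 : w.ord (algebraMap R N0 t) = 1 := by
      refine (Pool.Agent.Y809.PS.zpow_inj hπ.pos.ne' hπ.lt (m := 1) ?_).symm
      rw [zpow_one, ← h3, ← htv]
    obtain ⟨n, hn⟩ := ord_ratF (M := N0) hx a t ht
    have h5 : algebraMap R N0 (tt x (some a)) = algebraMap R N0 x - algebraMap κ N0 a := by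
      change algebraMap R N0 (x - algebraMap κ R a) = _
      rw [map_sub, ← IsScalarTower.algebraMap_apply]
    have h6 := hn w (by rw [← h5]; exact hw)
    rw [h4, ← h5, hs (some a) w hw] at h6
    by_contra h0
    have h7 : (ℓ : ℤ) ∣ 1 := by
      rw [h6]
      exact Dvd.dvd.mul_left (dvd_pow_self _ h0) _
    have h8 : ℓ ∣ 1 := by exact_mod_cast h7
    exact (Fact.out : ℓ.Prime).one_lt.ne' (Nat.dvd_one.mp h8)
  · -- loc
    intro V hV hVtop
    obtain ⟨W, hW⟩ := a_extv M Ω V
    have hκ : ∀ c : κ, algebraMap κ Ω c ∈ W := by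
      intro c
      have h1 := hV c
      rw [← hW, ValuationSubring.mem_comap] at h1
      exact h1
    have hWtop : W ≠ ⊤ := by
      rintro rfl
      apply hVtop
      rw [← hW]
      ext z
      simp [ValuationSubring.mem_comap]
    obtain ⟨c, hc⟩ := exists_point hx W hκ hWtop
    obtain ⟨w, hw, π, hπ1, hπ, hval⟩ := exists_unf hx N0 hN W hκ c hc
    obtain ⟨P, hP, hord⟩ := place (κ := κ) hNM W hκ hπ (hApx W hκ hWtop)
    refine ⟨P, by rw [hP, hW], ?_, ⟨⟨(π : Ω), hNM π.2⟩, ?_, ?_⟩⟩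
    · have ht0 : algebraMap R N0 (tt x c) ≠ 0 := by
        intro h
        rw [h, w.ord_zero] at hw
        exact lt_irrefl _ hw
      have h1 : P.ord (algebraMap R M (tt x c)) = (ℓ : ℤ) ^ (s c) := by
        refine hord _ _ ?_
        rw [← hs c w hw]
        exact hval (algebraMap R N0 (tt x c)) ht0
      rcases c with _ | a
      · right
        have h2 : algebraMap R M (tt (κ := κ) x none) = (algebraMap R M x)⁻¹ := by
          change algebraMap R M (x⁻¹) = _
          rw [map_inv₀]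
        rw [h2, P.ord_inv] at h1
        omega
      · left
        refine ⟨a, ?_⟩
        have h2 : algebraMap R M (tt x (some a)) = algebraMap R M x - algebraMap κ M a := by
          change algebraMap R M (x - algebraMap κ R a) = _
          rw [map_sub, ← IsScalarTower.algebraMap_apply]
        rw [← h2, h1]
    · exact (IntermediateField.mem_restrict hNM _).2 π.2
    · refine hord _ _ ?_
      rw [zpow_one]
  · -- root
    intro g hg hall
    obtain ⟨h, hh⟩ := IsAlgClosed.exists_pow_nat_eq (g : Ω) (Nat.pos_of_ne_zero hℓ0)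
    have hg0 : (g : Ω) ≠ 0 := by simpa using hg
    have hgm := (hMm g).1 g.2
    have hhM : h ∈ M := by
      rw [hMm]
      refine ⟨Pro.root hμ (by rw [hh]; exact hgm.1), fun W hκ hW => ?_⟩
      obtain ⟨π, hπ⟩ := HU_lev (κ := κ) hx hN W hκ hW
      obtain ⟨P, hP, hord⟩ := place (κ := κ) hNM W hκ hπ (hApx W hκ hW)
      obtain ⟨n, hn⟩ := (hgm.2 W hκ hW).val' hπ hg0
      have h1 : P.ord g = n := hord g n hn
      obtain ⟨m, hm⟩ := hall P
      rw [h1] at hm
      subst hm
      exact Apx.root hπ (hres hx _ W hκ hW) hℓ0 (vl hℓ0 W hκ) h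
        (by rw [hh]; exact hgm.2 W hκ hW) m (by rw [hh]; exact hn)
    exact ⟨⟨h, hhM⟩, Subtype.ext (by push_cast; exact hh)⟩
  · -- big
    intro h
    obtain ⟨z, hz, hz'⟩ := hbig
    apply hz'
    have h1 : (⟨z, hz⟩ : M) ∈ IntermediateField.restrict hNM := by rw [h]; trivial
    exact (IntermediateField.mem_restrict hNM _).1 h1

end cov

end Pool.Agent.H889.PS
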