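import Pool.Graph.R_seed8.Y157.PS.All

/-!
# Pro-`ℓ` coverings of the line by curves that are `ℓ`-group coverings: definitions

(helper889.)  `κ` is an algebraically closed field, `R = κ(x)`, `N₀ / R` is a Galois extension of
degree a power of `ℓ` and `M` is the maximal pro-`ℓ` extension of `N₀` which is unramified.
-/

set_option autoImplicit false
set_option linter.all false

open Polynomial FF

namespace Pool.Agent.H889.PS

open Pool.Agent.Y157.PS
open Pool.Agent.Y496.PS (resPlace compPlace mem_O_res mem_O_comp)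

/-- `M` is a pro-`ℓ` Galois extension of `R = κ(x)` which contains the finite level `N₀`, is
unramified over `N₀` and closed under the extraction of `ℓ`-th roots with this property; the
ramification index over `a` is `ℓ ^ ε a` (it is `1` outside `B`) and over infinity it is `ℓ ^ ι` -/
structure GCov (ℓ : ℕ) (κ R M : Type) [Field κ] [Field R] [Field M] [Algebra κ R] [Algebra R M]
    [Algebra κ M] [IsScalarTower κ R M] (x : R) (B : Finset κ) (ε : κ → ℕ) (ι : ℕ)
    (N₀ : IntermediateField R M) : Prop where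
  rat : RatF κ x
  gal : IsGalois R M
  pow : ∀ z : M, ∃ N : IntermediateField R M, z ∈ N ∧ Lev ℓ N
  lev : Lev ℓ N₀
  supp : ∀ a, a ∉ B → ε a = 0
  loc : ∀ V : ValuationSubring M, (∀ c : κ, algebraMap κ M c ∈ V) → V ≠ ⊤ →
    ∃ W : Place κ M, W.O = V ∧
      ((∃ a, W.ord (algebraMap R M x - algebraMap κ M a) = (ℓ : ℤ) ^ ε a) ∨
        W.ord (algebraMap R M x) = - (ℓ : ℤ) ^ ι) ∧
      ∃ π ∈ N₀, W.ord π = 1
  root : ∀ g : M, g ≠ 0 → (∀ W : Place κ M, (ℓ : ℤ) ∣ W.ord g) → ∃ h : M, h ^ ℓ = g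
  big : N₀ ≠ ⊤

section basics

variable {κ R M : Type} [Field κ] [Field R] [Field M] [Algebra κ R] [Algebra R M] [Algebra κ M]
  [IsScalarTower κ R M] {ℓ : ℕ} {x : R} {B : Finset κ} {ε : κ → ℕ} {ι : ℕ}
  {N₀ : IntermediateField R M}

theorem GCov.loc' (h : GCov ℓ κ R M x B ε ι N₀) (W : Place κ M) :
    ((∃ a, W.ord (algebraMap R M x - algebraMap κ M a) = (ℓ : ℤ) ^ ε a) ∨
      W.ord (algebraMap R M x) = - (ℓ : ℤ) ^ ι) ∧ ∃ π ∈ N₀, W.ord π = 1 := by
  obtain ⟨W', hW', h'⟩ := h.loc W.O (fun c => W.reg_const c) (Place.O_ne_top W)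
  rwa [Place.ext_O hW'] at h'

/-- every level above `N₀` contains a uniformiser of every place -/
theorem exists_unif (h : GCov ℓ κ R M x B ε ι N₀) (N : IntermediateField R M) (hY : N₀ ≤ N)
    (W : Place κ M) : ∃ t : M, t ∈ N ∧ t ≠ 0 ∧ W.ord t = 1 := by
  obtain ⟨-, π, hπ, h1⟩ := h.loc' W
  refine ⟨π, hY hπ, ?_, h1⟩
  intro h0
  rw [h0, W.ord_zero] at h1
  omega

theorem res (h : GCov ℓ κ R M x B ε ι N₀) (N : IntermediateField R M)
    (hfin : FiniteDimensional R N) (hY : N₀ ≤ N) :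
    (∀ W : Place κ M, ∃ w : Place κ N, ∀ z : N, W.ord (z : M) = w.ord z) ∧
    (∀ w : Place κ N, ∃ W : Place κ M, ∀ z : N, W.ord (z : M) = w.ord z) ∧
    (∀ W W' : Place κ M, (∀ z : N, W.ord (z : M) = W'.ord (z : M)) →
      ∃ γ : M ≃ₐ[R] M, (∀ z ∈ N, γ z = z) ∧ ∀ z, W'.ord z = W.ord (γ z)) := by
  refine ⟨?_, ?_, ?_⟩
  · intro W
    exact ⟨resPlace N W (exists_unif h N hY W), fun z => rfl⟩
  · intro w
    obtain ⟨V, hV⟩ := Pool.Agent.Y536.PS.extv N M w.O
    have hmem : ∀ z : N, z ∈ w.O ↔ (z : M) ∈ V := by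
      intro z
      rw [← hV]
      rfl
    obtain ⟨W, hW, -⟩ := h.loc V (by
      intro c
      exact (hmem (algebraMap κ N c)).1 (w.reg_const c)) (by
      intro htop
      apply Place.O_ne_top w
      rw [eq_top_iff]
      intro z _
      rw [hmem, htop]
      trivial)
    refine ⟨W, ?_⟩
    have h1 : resPlace N W (exists_unif h N hY W) = w := by
      apply Place.ext_O
      ext z
      rw [mem_O_res, hmem, hW]
    intro z
    exact congrFun (congrArg Place.ord h1) z
  · intro W W' hWW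
    have hgal := h.gal
    have hnor : Normal N M := IsGalois.to_normal
    obtain ⟨γ, hγ⟩ := Pool.Agent.Y536.PS.conj N M W.O W'.O (by
      ext z
      change (z : M) ∈ W.O ↔ (z : M) ∈ W'.O
      rw [Place.mem_O, Place.mem_O]
      unfold Place.Reg
      rw [hWW z])
    refine ⟨γ.restrictScalars R, ?_, ?_⟩
    · intro z hz
      exact γ.commutes ⟨z, hz⟩
    · have h1 : compPlace W ((γ.restrictScalars R).restrictScalars κ) = W' := by
        apply Place.ext_O
        ext z
        rw [mem_O_comp, hγ]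
        rfl
      intro z
      exact (congrFun (congrArg Place.ord h1) z).symm

end basics

end Pool.Agent.H889.PS
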