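import Pool.Agent.H889.PS.Gau
import Pool.Graph.R_seed8.Y157.PS.Fin

/-!
# Descent of the Gauss valuation to the function field, and ramified places
-/

set_option autoImplicit false
set_option linter.all false

open Polynomial FF

namespace Pool.Agent.H889.PS

open Pool.Agent.Y157.PS

section dsc

variable {A k κ R M : Type} [CommRing A] [IsDomain A]
    [IsDiscreteValuationRing A] [Field k] [Field κ] [Algebra A k] [Algebra k κ] [Algebra A κ]
    [IsScalarTower A k κ] [IsFractionRing A k] [CharZero k] [IsAlgClosure k κ]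
    [Finite (IsLocalRing.ResidueField A)] [Field R] [Field M] [Algebra κ R] [Algebra R M]
    [Algebra κ M] [IsScalarTower κ R M] {ℓ : ℕ} [Fact ℓ.Prime]
    {V : ValuationSubring κ} {ϖ : A} {x : R}

/-- a valuation ring of `κ` above `A` has the trace `A` on `k` -/
theorem trace_A (V : ValuationSubring κ) (h1 : ∀ a : A, algebraMap A κ a ∈ V)
    (h2 : ∀ a ∈ IsLocalRing.maximalIdeal A, algebraMap A κ a ∈ V.nonunits) (c : k) :
    algebraMap k κ c ∈ V ↔ ∃ a : A, algebraMap A k a = c := by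
  constructor
  · intro hc
    by_contra hno
    have hc0 : c ≠ 0 := by
      rintro rfl
      exact hno ⟨0, map_zero _⟩
    -- `c⁻¹` is in the maximal ideal of `A`
    have h3 : ∃ a : A, algebraMap A k a = c⁻¹ := by
      rcases ValuationRing.isInteger_or_isInteger A c with ⟨a, ha⟩ | ⟨a, ha⟩
      · exact absurd ⟨a, ha⟩ hno
      · exact ⟨a, ha⟩
    obtain ⟨a, ha⟩ := h3
    have ham : a ∈ IsLocalRing.maximalIdeal A := by
      rw [IsLocalRing.mem_maximalIdeal]
      intro hu
      obtain ⟨u, hu⟩ := hu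
      apply hno
      refine ⟨((u⁻¹ : Aˣ) : A), ?_⟩
      have h4 : algebraMap A k ((u⁻¹ : Aˣ) : A) * c⁻¹ = 1 := by
        rw [← ha, ← map_mul, ← hu, Units.inv_mul, map_one]
      exact (mul_inv_eq_one₀ hc0).1 h4
    have h5 := h2 a ham
    rw [IsScalarTower.algebraMap_apply A k κ, ha, map_inv₀, V.inv_mem_nonunits_iff] at h5
    rcases h5 with h5 | h5
    · exact hc0 ((_root_.map_eq_zero _).1 h5)
    · exact h5 hc
  · rintro ⟨a, rfl⟩
    rw [← IsScalarTower.algebraMap_apply]
    exact h1 a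

/-- the Gauss valuation of `F` is induced by the one of `M` -/
theorem gauss_desc (hB : IB ℓ A k κ V ϖ) {F : Type} [Field F] [Algebra k F] (i : F →+* M)
    (hik : ∀ c : k, i (algebraMap k F c) = algebraMap κ M (algebraMap k κ c)) (xF : F)
    (hix : i xF = algebraMap R M x) {s : (κ ≃ₐ[k] κ) →* RingAut M} (hs : GSec k κ R M x s)
    (hsi : ∀ σ z, s σ (i z) = i z) (O' : ValuationSubring F)
    (h1 : ∀ p : A[X], (∃ n, IsUnit (p.coeff n)) →
      IsU O' (p.eval₂ ((algebraMap k F).comp (algebraMap A k)) xF))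
    (h2 : ∀ a ∈ IsLocalRing.maximalIdeal A, algebraMap k F (algebraMap A k a) ∈ O'.nonunits) :
    ∃ P : ValuationSubring M, Gauss V (algebraMap R M x) P ∧ ∀ z : F, i z ∈ P ↔ z ∈ O' := by
  haveI : Normal k κ := IsAlgClosure.normal k κ
  letI : Algebra F M := i.toAlgebra
  obtain ⟨P0, hP0⟩ := a_extv F M O'
  have hP0' : ∀ z : F, i z ∈ P0 ↔ z ∈ O' := fun z => by
    rw [← hP0]
    rfl
  have hO'A : ∀ a : A, algebraMap k F (algebraMap A k a) ∈ O' := by
    intro a
    by_cases ha : IsUnit a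
    · have h3 := h1 (C a) ⟨0, by rw [coeff_C_zero]; exact ha⟩
      rw [eval₂_C] at h3
      exact h3.2.1
    · exact (nonunits_iff.1 (h2 a ((IsLocalRing.mem_maximalIdeal _).2 ha))).1
  have hP0n : ∀ z : F, z ∈ O'.nonunits → i z ∈ P0.nonunits := by
    intro z hz
    have h0 := nonunits_iff.1 hz
    refine nonunits_iff.2 ⟨(hP0' _).2 h0.1, ?_⟩
    rcases h0.2 with h3 | h3
    · left; rw [h3, map_zero]
    · right
      rw [← map_inv₀, hP0']
      exact h3
  -- the trace on `κ`
  obtain ⟨V0, hV0⟩ : ∃ V0 : ValuationSubring κ, V0 = P0.comap (algebraMap κ M) := ⟨_, rfl⟩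
  have hV0m : ∀ c : κ, c ∈ V0 ↔ algebraMap κ M c ∈ P0 := fun c => by
    rw [hV0]
    rfl
  have hAκ : ∀ a : A, algebraMap κ M (algebraMap A κ a) = i (algebraMap k F (algebraMap A k a)) := by
    intro a
    rw [hik, ← IsScalarTower.algebraMap_apply A k κ]
  have hV01 : ∀ a : A, algebraMap A κ a ∈ V0 := by
    intro a
    rw [hV0m, hAκ, hP0']
    exact hO'A a
  have hV02 : ∀ a ∈ IsLocalRing.maximalIdeal A, algebraMap A κ a ∈ V0.nonunits := by
    intro a ha
    rw [hV0, non_incl, hAκ]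
    exact hP0n _ (h2 a ha)
  have htr : V0.comap (algebraMap k κ) = V.comap (algebraMap k κ) := by
    ext c
    rw [ValuationSubring.mem_comap, ValuationSubring.mem_comap, trace_A V0 hV01 hV02,
      trace_A V hB.mem hB.non]
  obtain ⟨σ, hσ⟩ := a_conj k κ V0 V htr
  -- the conjugate of `P0`
  obtain ⟨P, hP⟩ : ∃ P : ValuationSubring M, ∀ z, z ∈ P ↔ s σ z ∈ P0 :=
    ⟨P0.comap ((s σ : M ≃+* M) : M →+* M), fun z => Iff.rfl⟩
  have hPF : ∀ z : F, i z ∈ P ↔ z ∈ O' := by
    intro z
    rw [hP, hsi, hP0']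
  refine ⟨P, gauss_of_A hB P _ (fun c => ?_) (fun p hp => ?_), hPF⟩
  · rw [hP, hs.const, ← hV0m, hσ]
  · have h3 := h1 p hp
    have h4 : p.eval₂ ((algebraMap κ M).comp (algebraMap A κ)) (algebraMap R M x) =
        i (p.eval₂ ((algebraMap k F).comp (algebraMap A k)) xF) := by
      rw [hom_eval₂, hix]
      congr 1
      ext a
      exact hAκ a
    rw [h4]
    refine ⟨(_root_.map_ne_zero i).2 h3.1, (hPF _).2 h3.2.1, ?_⟩
    rw [← map_inv₀]
    exact (hPF _).2 h3.2.2

end dsc

section ram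

variable {ℓ : ℕ} [Fact ℓ.Prime] {κ R M : Type} [Field κ] [IsAlgClosed κ] [CharZero κ]
  [Field R] [Field M] [Algebra κ R] [Algebra R M] [Algebra κ M] [IsScalarTower κ R M] {x : R}
  {B : Finset κ} {ε : κ → ℕ} {ι : ℕ} {N₀ : IntermediateField R M}

/-- ramified places of `Kf` over `κ(x)` -/
theorem isRam_iff (hC : GCov ℓ κ R M x B ε ι N₀) (Kf : Set M) (W : Place κ M)
    (hπ : ∃ π ∈ Kf, W.ord π = 1) :
    IsRam ε ι x W ↔ ∃ z ∈ Kf, z ≠ 0 ∧ ∀ t : R, t ≠ 0 → W.ord z ≠ W.ord (algebraMap R M t) := by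
  constructor
  · intro h
    obtain ⟨π, hπK, hπ1⟩ := hπ
    refine ⟨π, hπK, ?_, fun t ht h1 => ?_⟩
    · rintro rfl
      rw [W.ord_zero] at hπ1
      exact zero_ne_one hπ1
    · have h2 := ram_div hC h t ht
      rw [← h1, hπ1] at h2
      have h3 : ℓ ∣ 1 := by exact_mod_cast h2
      exact (Fact.out : ℓ.Prime).one_lt.ne' (Nat.dvd_one.mp h3)
  · rintro ⟨z, hz, hz0, hzt⟩
    have hpos : ∀ n : ℕ, (0 : ℤ) < (ℓ : ℤ) ^ n := fun n => by
      have := (Fact.out : ℓ.Prime).pos
      positivity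
    -- an element of `R` of order one
    have key : ∀ u : R, u ≠ 0 → W.ord (algebraMap R M u) ≠ 1 := by
      intro u hu h1
      apply hzt (u ^ (W.ord z)) (zpow_ne_zero _ hu)
      rw [map_zpow₀, W.ord_zpow, h1, mul_one]
    have hx0 : ∀ a : κ, x - algebraMap κ R a ≠ 0 := by
      intro a h0
      apply hC.rat.trans
      rw [sub_eq_zero.1 h0]
      exact isAlgebraic_algebraMap _
    have hxa : ∀ a : κ, algebraMap R M (x - algebraMap κ R a) =
        algebraMap R M x - algebraMap κ M a := fun a => by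
      rw [map_sub, ← IsScalarTower.algebraMap_apply]
    rcases (hC.loc' W).1 with ⟨a, ha⟩ | h1
    · left
      refine ⟨a, ?_, by rw [ha]; exact hpos _⟩
      by_contra h0
      have h2 : ε a = 0 := by omega
      rw [h2, pow_zero, ← hxa] at ha
      exact key _ (hx0 a) ha
    · right
      have h3 := hpos ι
      refine ⟨?_, by rw [h1]; omega⟩
      by_contra h0
      have h2 : ι = 0 := by omega
      rw [h2, pow_zero] at h1
      have hx0' : x ≠ 0 := by
        have := hx0 0
        rwa [map_zero, sub_zero] at this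
      refine key x⁻¹ (inv_ne_zero hx0') ?_
      rw [map_inv₀, W.ord_inv, h1, neg_neg]

end ram

end Pool.Agent.H889.PS
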