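import Pool.Agent.H889.PS.Fins

/-!
# Embedding of `M` in the field of functions on a disc
-/

set_option autoImplicit false
set_option linter.all false

open Polynomial FF

namespace Pool.Agent.H889.PS

open Pool.Agent.Y157.PS Pool.Agent.Y275.PS

variable {ℓ : ℕ} [hℓ : Fact ℓ.Prime] {κ R M : Type} [Field κ] [IsAlgClosed κ] [CharZero κ]
  [Field R] [Field M] [Algebra κ R] [Algebra R M] [Algebra κ M] [IsScalarTower κ R M] {x : R}
  {B : Finset κ} {ε : κ → ℕ} {ι : ℕ} {N₀ : IntermediateField R M}

theorem emb (h : GCov ℓ κ R M x B ε ι N₀) (E : Type) [Field E] [Algebra κ E]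
    (pts : Set (Place κ E))
    (hroot : ∀ g : E, g ≠ 0 → (∀ P ∈ pts, (ℓ : ℤ) ∣ P.ord g) → ∃ h : E, h ^ ℓ = g)
    (X : E) (hX : Transcendental κ X)
    (hXa : ∀ P ∈ pts, ∀ a : κ, 0 < P.ord (X - algebraMap κ E a) →
      (ℓ : ℤ) ^ ε a ∣ P.ord (X - algebraMap κ E a))
    (hXi : ∀ P ∈ pts, P.ord X < 0 → (ℓ : ℤ) ^ ι ∣ P.ord X) :
    ∃ j : M →ₐ[κ] E, j (algebraMap R M x) = X := by
  have hℓ0 : ℓ ≠ 0 := hℓ.out.ne_zero
  haveI : CharZero R := charZero_of_injective_algebraMap (algebraMap κ R).injective
  haveI : NeZero ℓ := ⟨hℓ0⟩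
  obtain ⟨i, hi⟩ := exists_hom h.rat hX
  -- the extension to the algebraic closure
  obtain ⟨J, hJ⟩ : ∃ J : M →+* AlgebraicClosure E,
      ∀ r : R, J (algebraMap R M r) = algebraMap E (AlgebraicClosure E) (i r) := by
    letI : Algebra R (AlgebraicClosure E) :=
      ((algebraMap E (AlgebraicClosure E)).comp i.toRingHom).toAlgebra
    haveI := h.gal
    haveI : Algebra.IsAlgebraic R M := inferInstance
    let j : M →ₐ[R] AlgebraicClosure E := IsAlgClosed.lift
    exact ⟨j.toRingHom, fun r => j.commutes r⟩
  have hinj : Function.Injective (algebraMap E (AlgebraicClosure E)) :=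
    (algebraMap E (AlgebraicClosure E)).injective
  have hJκ : ∀ c : κ, J (algebraMap κ M c) =
      algebraMap E (AlgebraicClosure E) (algebraMap κ E c) := by
    intro c
    rw [IsScalarTower.algebraMap_apply κ R M, hJ, i.commutes]
  have hJx : J (algebraMap R M x) = algebraMap E (AlgebraicClosure E) X := by rw [hJ, hi]
  -- roots of unity
  obtain ⟨ζ, hζ⟩ : ∃ ζ : κ, IsPrimitiveRoot ζ ℓ := by
    haveI : NeZero (ℓ : κ) := ⟨by exact_mod_cast hℓ0⟩
    exact HasEnoughRootsOfUnity.exists_primitiveRoot κ ℓ
  have hζR : ∃ ζ : R, IsPrimitiveRoot ζ ℓ :=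
    ⟨algebraMap κ R ζ, hζ.map_of_injective (algebraMap κ R).injective⟩
  have hζE : IsPrimitiveRoot (algebraMap E (AlgebraicClosure E) (algebraMap κ E ζ)) ℓ :=
    (hζ.map_of_injective (algebraMap κ E).injective).map_of_injective hinj
  have hrt : ∀ (w : AlgebraicClosure E) (G : E), G ≠ 0 →
      w ^ ℓ = algebraMap E (AlgebraicClosure E) (G ^ ℓ) →
      ∃ g, algebraMap E (AlgebraicClosure E) g = w := by
    intro w G hG hw
    have hG' : algebraMap E (AlgebraicClosure E) G ≠ 0 := by
      rw [Ne, map_eq_zero_iff _ hinj]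
      exact hG
    have h1 : (w / algebraMap E (AlgebraicClosure E) G) ^ ℓ = 1 := by
      rw [div_pow, hw, map_pow, div_self (pow_ne_zero _ hG')]
    obtain ⟨a, -, ha⟩ := hζE.eq_pow_of_pow_eq_one h1
    refine ⟨algebraMap κ E ζ ^ a * G, ?_⟩
    rw [map_mul, map_pow, ha, div_mul_cancel₀ _ hG']
  -- the intermediate field
  obtain ⟨S, hS⟩ : ∃ S : IntermediateField R M, ∀ z, z ∈ S ↔
      ∃ g, algebraMap E (AlgebraicClosure E) g = J z :=
    ⟨((algebraMap E (AlgebraicClosure E)).fieldRange.comap J).toIntermediateField
      (fun r => ⟨i r, (hJ r).symm⟩), fun z => Iff.rfl⟩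
  have hκS : ∀ c : κ, algebraMap κ M c ∈ S := fun c => (hS _).2 ⟨algebraMap κ E c, (hJκ c).symm⟩
  have hxS : algebraMap R M x ∈ S := S.algebraMap_mem x
  -- the map from `S` to `E`
  obtain ⟨e, he⟩ : ∃ e : S →+* E, ∀ z : S,
      algebraMap E (AlgebraicClosure E) (e z) = J (z : M) := by
    have hex : ∀ z : S, ∃ g, algebraMap E (AlgebraicClosure E) g = J (z : M) :=
      fun z => (hS _).1 z.2
    choose e0 he0 using hex
    refine ⟨{ toFun := e0, map_one' := ?_, map_mul' := ?_, map_zero' := ?_, map_add' := ?_ }, he0⟩
    · apply hinj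
      rw [he0, map_one]
      exact map_one J
    · intro a b
      apply hinj
      rw [he0, map_mul, he0, he0]
      exact map_mul J _ _
    · apply hinj
      rw [he0, map_zero]
      exact map_zero J
    · intro a b
      apply hinj
      rw [he0, map_add, he0, he0]
      exact map_add J _ _
  have heinj : Function.Injective e := e.injective
  have heκ : ∀ (c : κ) (hc : algebraMap κ M c ∈ S), e ⟨algebraMap κ M c, hc⟩ = algebraMap κ E c := by
    intro c hc
    apply hinj
    rw [he]
    exact hJκ c
  have hcl : ∀ g : M, g ^ ℓ ∈ S → g ∈ S := by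
    intro g hg
    by_cases hg0 : g = 0
    · rw [hg0]
      exact zero_mem S
    obtain ⟨z, hz⟩ : ∃ z : S, z = ⟨g ^ ℓ, hg⟩ := ⟨_, rfl⟩
    have hz0 : z ≠ 0 := by
      intro h0
      have h1 := congrArg (fun w : S => (w : M)) h0
      simp only [hz] at h1
      exact pow_ne_zero ℓ hg0 h1
    have hez0 : e z ≠ 0 := by
      rw [Ne, map_eq_zero_iff _ heinj]
      exact hz0
    have hdvd : ∀ P ∈ pts, (ℓ : ℤ) ∣ P.ord (e z) := by
      intro P hP
      by_cases hV : P.O.comap e = ⊤
      · have h1 : z ∈ P.O.comap e := by rw [hV]; trivial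
        have h2 : z⁻¹ ∈ P.O.comap e := by rw [hV]; trivial
        have h1' : e z ∈ P.O := h1
        have h2' : e z⁻¹ ∈ P.O := h2
        rw [map_inv₀] at h2'
        rw [ord_zero_of P hez0 h1' h2']
        exact dvd_zero _
      · obtain ⟨V, hVV⟩ := a_extv S M (P.O.comap e)
        have hmem : ∀ w : S, (w : M) ∈ V ↔ e w ∈ P.O := by
          intro w
          have h1 : w ∈ V.comap (algebraMap S M) ↔ w ∈ P.O.comap e := by rw [hVV]
          exact h1
        have hVκ : ∀ c : κ, algebraMap κ M c ∈ V := by
          intro c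
          have h1 := (hmem ⟨algebraMap κ M c, hκS c⟩).2
          apply h1
          rw [heκ]
          exact P.reg_const c
        have hVt : V ≠ ⊤ := by
          intro ht
          apply hV
          rw [eq_top_iff]
          intro w _
          have h1 : (w : M) ∈ V := by rw [ht]; trivial
          exact (hmem w).1 h1
        obtain ⟨W, hW, hcase, -⟩ := h.loc V hVκ hVt
        -- the two valuations are proportional
        have hprop : ∀ (t : S), (t : M) ≠ 0 → ∀ n q : ℤ, W.ord (t : M) = q → n = W.ord (z : M) →
            q * P.ord (e z) = n * P.ord (e t) := by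
          intro t ht0 n q hq hn
          have ht0' : t ≠ 0 := by
            intro h0
            apply ht0
            rw [h0]
            rfl
          have hzM0 : (z : M) ≠ 0 := by
            intro h0
            exact hz0 (Subtype.ext h0)
          have het : e t ≠ 0 := by
            rw [Ne, map_eq_zero_iff _ heinj]
            exact ht0'
          have hq0 : ((z : M) ^ q / (t : M) ^ n) ≠ 0 :=
            div_ne_zero (zpow_ne_zero _ hzM0) (zpow_ne_zero _ ht0)
          have hord : W.ord ((z : M) ^ q / (t : M) ^ n) = 0 := by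
            rw [W.ord_div (zpow_ne_zero _ hzM0) (zpow_ne_zero _ ht0), W.ord_zpow, W.ord_zpow, hq,
              ← hn]
            ring
          have hqS : (z : M) ^ q / (t : M) ^ n = ((z ^ q / t ^ n : S) : M) := by
            push_cast
            rfl
          have hq1 : ((z ^ q / t ^ n : S) : M) ∈ V := by
            rw [← hqS, ← hW]
            exact mem_of_ord_zero W hq0 hord
          have hq2 : (((z ^ q / t ^ n)⁻¹ : S) : M) ∈ V := by
            have h1 : (((z ^ q / t ^ n)⁻¹ : S) : M) = ((z : M) ^ q / (t : M) ^ n)⁻¹ := by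
              rw [hqS]
              push_cast
              rfl
            rw [h1, ← hW]
            refine mem_of_ord_zero W (inv_ne_zero hq0) ?_
            rw [W.ord_inv, hord, neg_zero]
          have h1 := (hmem _).1 hq1
          have h2 := (hmem _).1 hq2
          rw [map_inv₀] at h2
          have h3 : e (z ^ q / t ^ n) ≠ 0 := by
            rw [map_div₀, map_zpow₀, map_zpow₀]
            exact div_ne_zero (zpow_ne_zero _ hez0) (zpow_ne_zero _ het)
          have h4 := ord_zero_of P h3 h1 h2
          rw [map_div₀, map_zpow₀, map_zpow₀, P.ord_div (zpow_ne_zero _ hez0)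
            (zpow_ne_zero _ het), P.ord_zpow, P.ord_zpow, sub_eq_zero] at h4
          exact h4
        have hzg : W.ord (z : M) = ℓ * W.ord g := by
          rw [hz]
          exact W.ord_pow g ℓ
        have hpos : ∀ n : ℕ, (0 : ℤ) < (ℓ : ℤ) ^ n := fun n => by
          have := hℓ.out.pos
          positivity
        have hfin : ∀ (t : S), (t : M) ≠ 0 → ∀ (n : ℕ), (W.ord (t : M) = (ℓ : ℤ) ^ n ∨
            W.ord (t : M) = -(ℓ : ℤ) ^ n) → (ℓ : ℤ) ^ n ∣ P.ord (e t) → (ℓ : ℤ) ∣ P.ord (e z) := by
          intro t ht0 n hn ⟨m, hm⟩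
          rcases hn with hn | hn
          · have h1 := hprop t ht0 _ _ hn rfl
            rw [hm, hzg] at h1
            have h2 : (ℓ : ℤ) ^ n * P.ord (e z) = (ℓ : ℤ) ^ n * (ℓ * W.ord g * m) := by
              rw [h1]; ring
            rw [mul_left_cancel₀ (hpos n).ne' h2, mul_assoc]
            exact dvd_mul_right _ _
          · have h1 := hprop t ht0 _ _ hn rfl
            rw [hm, hzg] at h1
            have h2 : (ℓ : ℤ) ^ n * P.ord (e z) = (ℓ : ℤ) ^ n * (ℓ * (-(W.ord g) * m)) := by
              linear_combination -h1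
            rw [mul_left_cancel₀ (hpos n).ne' h2]
            exact dvd_mul_right _ _
        rcases hcase with ⟨a, ha⟩ | ha
        · have ht0 : (algebraMap R M x - algebraMap κ M a) ≠ 0 := by
            intro h0
            rw [h0, W.ord_zero] at ha
            exact (hpos _).ne ha
          set t : S := ⟨algebraMap R M x - algebraMap κ M a, sub_mem hxS (hκS a)⟩ with ht
          have het : e t = X - algebraMap κ E a := by
            have h1 : t = ⟨algebraMap R M x, hxS⟩ - ⟨algebraMap κ M a, hκS a⟩ := rfl
            rw [h1, map_sub, heκ]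
            congr 1
            apply hinj
            rw [he]
            exact hJx
          have hXne : X - algebraMap κ E a ≠ 0 := by
            rw [← het, Ne, map_eq_zero_iff _ heinj]
            intro h0
            exact ht0 (congrArg Subtype.val h0)
          have hXpos : 0 < P.ord (X - algebraMap κ E a) := by
            by_contra hle
            push Not at hle
            have h1 : e t⁻¹ ∈ P.O := by
              rw [map_inv₀, het, Place.mem_O, P.reg_iff (inv_ne_zero hXne), P.ord_inv]
              omega
            have h2 := (hmem _).2 h1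
            rw [← hW, Place.mem_O] at h2
            have h3 : ((t⁻¹ : S) : M) = (algebraMap R M x - algebraMap κ M a)⁻¹ := rfl
            rw [h3, W.reg_iff (inv_ne_zero ht0), W.ord_inv, ha] at h2
            have := hpos (ε a)
            omega
          refine hfin t ht0 (ε a) (Or.inl ha) ?_
          rw [het]
          exact hXa P hP a hXpos
        · have ht0 : (algebraMap R M x) ≠ 0 := by
            intro h0
            rw [h0, W.ord_zero] at ha
            have := hpos ι
            omega
          set t : S := ⟨algebraMap R M x, hxS⟩ with ht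
          have het : e t = X := by
            apply hinj
            rw [he]
            exact hJx
          have hXne : X ≠ 0 := by
            rw [← het, Ne, map_eq_zero_iff _ heinj]
            intro h0
            exact ht0 (congrArg Subtype.val h0)
          have hXneg : P.ord X < 0 := by
            by_contra hle
            push Not at hle
            have h1 : e t ∈ P.O := by
              rw [het, Place.mem_O, P.reg_iff hXne]
              exact hle
            have h2 := (hmem _).2 h1
            rw [← hW, Place.mem_O, W.reg_iff ht0, ha] at h2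
            have := hpos ι
            omega
          refine hfin t ht0 ι (Or.inr ha) ?_
          rw [het]
          exact hXi P hP hXneg
    obtain ⟨G, hG⟩ := hroot _ hez0 hdvd
    have hG0 : G ≠ 0 := by
      rintro rfl
      rw [zero_pow hℓ0] at hG
      exact hez0 hG.symm
    rw [hS]
    refine hrt _ G hG0 ?_
    rw [hG, he, hz, ← map_pow]
  have htop : S = ⊤ := a_prol ℓ R M hζR h.gal h.pow S hcl
  have hall : ∀ z : M, z ∈ S := fun z => by rw [htop]; trivial
  refine ⟨⟨⟨⟨⟨fun z => e ⟨z, hall z⟩, ?_⟩, ?_⟩, ?_, ?_⟩, ?_⟩, ?_⟩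
  · exact map_one e
  · intro a b
    exact map_mul e ⟨a, hall a⟩ ⟨b, hall b⟩
  · exact map_zero e
  · intro a b
    exact map_add e ⟨a, hall a⟩ ⟨b, hall b⟩
  · intro c
    exact heκ c _
  · change e ⟨algebraMap R M x, hall _⟩ = X
    apply hinj
    rw [he]
    exact hJx

end Pool.Agent.H889.PS
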