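import Pool.Agent.H889.PS.Unq

/-!
# The group of `ℓ`-power torsion classes is divisible with finite `ℓ`-torsion
-/

set_option autoImplicit false
set_option linter.all false

open Polynomial FF

namespace Pool.Agent.H889.PS

open Pool.Agent.Y157.PS Pool.Agent.Y496.PS Pool.Agent.Y494.PS

variable {ℓ : ℕ} [hℓ : Fact ℓ.Prime] {κ R M : Type} [Field κ] [IsAlgClosed κ] [CharZero κ]
  [Field R] [Field M] [Algebra κ R] [Algebra R M] [Algebra κ M] [IsScalarTower κ R M] {x : R}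
  {B : Finset κ} {ε : κ → ℕ} {ι : ℕ} {N₀ : IntermediateField R M}

theorem divs (hcov : GCov ℓ κ R M x B ε ι N₀) (N : IntermediateField R M) (hlev : Lev ℓ N)
    (hY : N₀ ≤ N) (h : M) (n : ℕ) (h0 : h ≠ 0) (hN : h ^ (ℓ ^ n) ∈ N) :
    ∃ z ∈ N, ∃ g : M, z ≠ 0 ∧ h = z * g ^ ℓ := by
  haveI := hlev.fin
  haveI := hlev.gal
  haveI hff : IsFF κ N := RatF.isFF hcov.rat
  obtain ⟨hr1, hr2, hr3⟩ := res hcov N hlev.fin hY
  have hl0 : ((ℓ ^ n : ℕ) : ℤ) ≠ 0 := by
    have := (Fact.out : ℓ.Prime).pos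
    positivity
  -- the order of `h` depends only on the restriction
  have key : ∀ W W' : Place κ M, (∀ z : N, W.ord (z : M) = W'.ord (z : M)) →
      W.ord h = W'.ord h := by
    intro W W' hWW
    obtain ⟨γ, hγ1, hγ2⟩ := hr3 W W' hWW
    have hγ0 : γ h ≠ 0 := (map_ne_zero γ).2 h0
    have h1 : (γ h / h) ^ (ℓ ^ n) = 1 := by
      rw [div_pow, ← map_pow, hγ1 _ hN, div_self (pow_ne_zero _ h0)]
    have h2 := W.ord_pow (γ h / h) (ℓ ^ n)
    rw [h1, W.ord_one] at h2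
    have h3 : W.ord (γ h / h) = 0 := by
      rcases mul_eq_zero.1 h2.symm with h4 | h4
      · exact absurd h4 hl0
      · exact h4
    rw [W.ord_div hγ0 h0] at h3
    rw [hγ2]
    omega
  choose up hup using hr2
  have hpow : ∀ w : Place κ N, ((ℓ ^ n : ℕ) : ℤ) * (up w).ord h = w.ord ⟨h ^ (ℓ ^ n), hN⟩ := by
    intro w
    rw [← hup w ⟨h ^ (ℓ ^ n), hN⟩, (up w).ord_pow]
  have hfin : (Function.support fun w : Place κ N => (up w).ord h).Finite := by
    refine (finite_support (k := κ) (K := N) ⟨h ^ (ℓ ^ n), hN⟩).subset ?_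
    intro w hw
    simp only [Set.mem_setOf_eq]
    rw [← hpow w]
    exact mul_ne_zero hl0 hw
  let D : Place κ N →₀ ℤ := Finsupp.ofSupportFinite (fun w : Place κ N => (up w).ord h) hfin
  have hD : ∀ w, D w = (up w).ord h := fun w => rfl
  have hdeg : ∀ E : Place κ N →₀ ℤ, ddeg E = E.sum fun _ n => n := by
    intro E
    unfold ddeg
    refine Finsupp.sum_congr fun w _ => ?_
    rw [deg_one w]
    simp
  have hsum : D.sum (fun _ n => n) = 0 := by
    have h1 : (ℓ ^ n) • D = divisor κ (⟨h ^ (ℓ ^ n), hN⟩ : N) := by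
      ext w
      rw [Finsupp.smul_apply, divisor_apply, ← hpow w, hD, nsmul_eq_mul]
    have h2 := ddeg_nsmul (ℓ ^ n) D
    rw [h1, ddeg_divisor] at h2
    rw [← hdeg]
    rcases mul_eq_zero.1 h2.symm with h4 | h4
    · exact absurd h4 hl0
    · exact h4
  obtain ⟨z, hz0, hz⟩ := a_t1 ℓ κ R N x hcov.rat hlev.card D (by rw [hsum]; exact dvd_zero _)
  have hz0' : (z : M) ≠ 0 := fun h => hz0 (Subtype.ext h)
  obtain ⟨g, hg⟩ := hcov.root (h / (z : M)) (div_ne_zero h0 hz0') (by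
    intro W
    obtain ⟨w, hw⟩ := hr1 W
    have h1 : W.ord h = D w := by
      rw [hD]
      refine key W (up w) ?_
      intro z'
      rw [hw, hup]
    rw [W.ord_div h0 hz0', h1, hw]
    have := hz w
    rw [← dvd_neg] at this
    have h2 : -(w.ord z - D w) = D w - w.ord z := by ring
    rwa [h2] at this)
  refine ⟨(z : M), z.2, g, hz0', ?_⟩
  rw [hg, mul_div_cancel₀ _ hz0']

/-- **finiteness of the `ℓ`-torsion** -/
theorem fins (hcov : GCov ℓ κ R M x B ε ι N₀) (N : IntermediateField R M) (hN : Lev ℓ N)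
    (hY : N₀ ≤ N) : FinCls N.toSubfield (fun h => h ^ ℓ ∈ N) := by
  classical
  have hp : ℓ.Prime := Fact.out
  haveI := hN.fin
  haveI := hN.gal
  obtain ⟨m, hm⟩ := hN.card
  have hfin := finA_all hcov.rat hp m N hm ∅ Set.finite_empty
  obtain ⟨-, hplace, -⟩ := res hcov N hN.fin hY
  unfold FinA at hfin
  haveI : NeZero (ℓ : κ) := ⟨by exact_mod_cast hp.ne_zero⟩
  obtain ⟨ζ, hζ⟩ := HasEnoughRootsOfUnity.exists_primitiveRoot κ ℓ
  have hζM : IsPrimitiveRoot (algebraMap κ M ζ) ℓ := hζ.map_of_injective (algebraMap κ M).injective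
  let u : M → Nˣ := fun h => if hh : h ≠ 0 ∧ h ^ ℓ ∈ N then
    Units.mk0 (⟨h ^ ℓ, hh.2⟩ : N) (fun h0 => pow_ne_zero ℓ hh.1 (congrArg Subtype.val h0)) else 1
  have hu : ∀ h : M, h ≠ 0 ∧ h ^ ℓ ∈ N → (((u h : N) : M) = h ^ ℓ) := by
    intro h hh
    have e : u h = Units.mk0 (⟨h ^ ℓ, hh.2⟩ : N)
      (fun h0 => pow_ne_zero ℓ hh.1 (congrArg Subtype.val h0)) := dif_pos hh
    rw [e]
    rfl
  refine ⟨hfin.toFinset.card, fun T hT hcard => ?_⟩
  obtain ⟨h, hh, h', hh', hne, heq⟩ := Finset.exists_ne_map_eq_of_card_lt_of_maps_to hcard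
    (f := fun h => qq ℓ N (u h)) (by
      intro h hh
      show qq ℓ N (u h) ∈ (hfin.toFinset : Set (QQ ℓ N))
      rw [Set.Finite.coe_toFinset]
      refine ⟨u h, ?_, rfl⟩
      intro w _
      obtain ⟨W, hW⟩ := hplace w
      rw [← hW, hu h (hT h hh), W.ord_pow]
      exact dvd_mul_right _ _)
  refine ⟨h, hh, h', hh', hne, ?_⟩
  obtain ⟨s, hs⟩ := qq_eq_iff.1 heq
  have e1 : h' ^ ℓ = h ^ ℓ * ((s : N) : M) ^ ℓ := by
    rw [← hu h (hT h hh), ← hu h' (hT h' hh'), hs]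
    rfl
  have hs0 : ((s : N) : M) ≠ 0 := fun h0 => s.ne_zero (Subtype.ext h0)
  have h0 := (hT h hh).1
  have h0' := (hT h' hh').1
  have e2 : (h' / (h * ((s : N) : M))) ^ ℓ = 1 := by
    rw [div_pow, e1, mul_pow, div_self]
    exact mul_ne_zero (pow_ne_zero _ h0) (pow_ne_zero _ hs0)
  obtain ⟨i, -, hi⟩ := hζM.eq_pow_of_pow_eq_one e2
  have e3 : h / h' = ((algebraMap κ M ζ) ^ i * ((s : N) : M))⁻¹ := by
    rw [hi]
    field_simp
  rw [e3]
  refine N.toSubfield.inv_mem (N.toSubfield.mul_mem (N.toSubfield.pow_mem ?_ i) (s : N).2)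
  rw [IsScalarTower.algebraMap_apply κ R M]
  exact N.algebraMap_mem _

end Pool.Agent.H889.PS
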