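import Pool.Agent.H889.PS.G4

/-!
# Classes fixed by a Frobenius lift
-/

set_option autoImplicit false
set_option linter.all false

open Polynomial FF

namespace Pool.Agent.H889.PS

open Pool.Agent.Y157.PS Pool.Agent.Y419.PS

section fincls

open Pool.Agent.Y705.PS

theorem pre_finite {Q : Type} [CommGroup Q] {ℓ : ℕ} (h1 : {a : Q | a ^ ℓ = 1}.Finite) (E : ℕ)
    {B : Set Q} (hB : B.Finite) : {a : Q | a ^ (ℓ ^ E) ∈ B}.Finite := by
  have htE := tor_finite h1 E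
  refine Set.Finite.preimage' (f := fun a : Q => a ^ (ℓ ^ E)) hB fun b _ => ?_
  by_cases hb : ∃ a₀ : Q, a₀ ^ (ℓ ^ E) = b
  · obtain ⟨a₀, ha₀⟩ := hb
    refine (htE.image fun t => a₀ * t).subset fun a ha => ?_
    rw [Set.mem_preimage, Set.mem_singleton_iff] at ha
    refine ⟨a₀⁻¹ * a, ?_, by simp⟩
    rw [Set.mem_ofPred_eq, mul_pow, ha, inv_pow, ha₀, inv_mul_cancel]
  · refine Set.Finite.subset Set.finite_empty fun a ha => ?_
    exact hb ⟨a, ha⟩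

variable {M : Type} [Field M] {N : Subfield M}

theorem fincls_finite {P : M → Prop} (h : FinCls N P) (T : Set (Mˣ ⧸ NU N))
    (hT : ∀ q ∈ T, ∃ u : Mˣ, (u : Mˣ ⧸ NU N) = q ∧ P u) : T.Finite := by
  classical
  by_contra hinf
  obtain ⟨C, hC⟩ := h
  obtain ⟨t, ht, htc⟩ := (show T.Infinite from hinf).exists_subset_card_eq (C + 1)
  choose! r hr1 hr2 using hT
  have hinj : Set.InjOn (fun q => ((r q : Mˣ) : M)) t := by
    intro q hq q' hq' hqq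
    have h1 : r q = r q' := Units.ext hqq
    rw [← hr1 q (ht hq), h1, hr1 q' (ht hq')]
  obtain ⟨a, ha, b, hb, hab, hN⟩ := hC (t.image fun q => ((r q : Mˣ) : M)) (by
    intro a ha
    obtain ⟨q, hq, rfl⟩ := Finset.mem_image.mp ha
    exact ⟨Units.ne_zero _, hr2 q (ht hq)⟩) (by
      rw [Finset.card_image_of_injOn hinj, htc]; exact Nat.lt_succ_self C)
  obtain ⟨q, hq, rfl⟩ := Finset.mem_image.mp ha
  obtain ⟨q', hq', rfl⟩ := Finset.mem_image.mp hb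
  apply hab
  have h1 : ((r q / r q' : Mˣ) : Mˣ ⧸ NU N) = 1 := by
    rw [cl_eq_one, Units.val_div_eq_div_val]
    exact hN
  rw [QuotientGroup.mk_div, hr1 q (ht hq), hr1 q' (ht hq'), div_eq_one] at h1
  rw [h1]

theorem fincls_of_finite {P : M → Prop}
    (h : {q : Mˣ ⧸ NU N | ∃ u : Mˣ, (u : Mˣ ⧸ NU N) = q ∧ P u}.Finite) : FinCls N P := by
  classical
  refine ⟨h.toFinset.card, fun T hT hcard => ?_⟩
  let f : M → Mˣ ⧸ NU N := fun z => if hz : z ≠ 0 then ((Units.mk0 z hz : Mˣ) : Mˣ ⧸ NU N) else 1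
  have hf : ∀ (z : M) (hz : z ≠ 0), f z = ((Units.mk0 z hz : Mˣ) : Mˣ ⧸ NU N) := fun z hz => dif_pos hz
  obtain ⟨a, ha, b, hb, hab, he⟩ := Finset.exists_ne_map_eq_of_card_lt_of_maps_to hcard (f := f) (by
    intro z hz
    obtain ⟨hz0, hzP⟩ := hT z hz
    show f z ∈ (h.toFinset : Set (Mˣ ⧸ NU N))
    rw [Set.Finite.coe_toFinset, hf z hz0]
    exact ⟨_, rfl, hzP⟩)
  refine ⟨a, ha, b, hb, hab, ?_⟩
  have ha0 := (hT a ha).1
  have hb0 := (hT b hb).1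
  rw [hf a ha0, hf b hb0, ← div_eq_one, ← QuotientGroup.mk_div, cl_eq_one,
    Units.val_div_eq_div_val] at he
  exact he

theorem fincls_pow {ℓ : ℕ} {P Q : M → Prop} (E : ℕ) (hQ : FinCls N Q)
    (h1 : FinCls N (fun h => h ^ ℓ ∈ N)) (hPQ : ∀ h, P h → Q (h ^ (ℓ ^ E))) : FinCls N P := by
  apply fincls_of_finite
  have hpow : ∀ (u : Mˣ) (m : ℕ), (u : Mˣ ⧸ NU N) ^ m = 1 ↔ (u : M) ^ m ∈ N := by
    intro u m
    rw [← QuotientGroup.mk_pow, cl_eq_one, Units.val_pow_eq_pow_val]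
  have ht : {a : Mˣ ⧸ NU N | a ^ ℓ = 1}.Finite := FinCls.finite h1 _ fun u hu => by
    rw [Set.mem_ofPred_eq] at hu
    exact (hpow _ _).mp hu
  have hB : {q : Mˣ ⧸ NU N | ∃ u : Mˣ, (u : Mˣ ⧸ NU N) = q ∧ Q u}.Finite :=
    fincls_finite hQ _ fun q hq => hq
  refine (pre_finite ht E hB).subset ?_
  rintro q ⟨u, rfl, hu⟩
  exact ⟨u ^ (ℓ ^ E), by rw [QuotientGroup.mk_pow], by
    rw [Units.val_pow_eq_pow_val]; exact hPQ _ hu⟩

end fincls

variable {ℓ : ℕ} [hℓi : Fact ℓ.Prime] {κ R M : Type} [Field κ] [IsAlgClosed κ] [CharZero κ]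
  [Field R] [Field M] [Algebra κ R] [Algebra R M] [Algebra κ M] [IsScalarTower κ R M] {x : R}
  {B : Finset κ} {ε : κ → ℕ} {ι : ℕ} {N₀ : IntermediateField R M}

lemma core (hcov : GCov ℓ κ R M x B ε ι N₀)
    (E : ℕ) (hεE : ∀ a, ε a ≤ E) (hιE : ι ≤ E)
    (F : Type) [Field F] (V : ValuationSubring κ) (r : V →+* F) (hr : Res V r) (hgood : Good V B)
    (hℓ : IsU V (ℓ : κ)) (D : Disc ℓ V r)
    (p : ℕ) [Fact p.Prime] [CharP F p] (q a : ℕ) (ha : 0 < a) (hq : q = p ^ a)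
    (hF : ∀ c : F, ∃ m : ℕ, 0 < m ∧ c ^ (q ^ m) = c)
    (O : ValuationSubring M) (hO : Gauss V (algebraMap R M x) O)
    (hOu : ∀ O' : ValuationSubring M, Gauss V (algebraMap R M x) O' → O' = O)
    (N : IntermediateField R M) (hN : Lev ℓ N)
    (φ : M ≃+* M) (φ₀ : κ ≃+* κ) (hφc : ∀ c, φ (algebraMap κ M c) = algebraMap κ M (φ₀ c))
    (hφx : φ (algebraMap R M x) = algebraMap R M x) (hφN : ∀ z, φ z ∈ N ↔ z ∈ N)
    (hφV : ∀ c, φ₀ c ∈ V ↔ c ∈ V) (hφq : ∀ c ∈ V, φ₀ c - c ^ q ∈ V.nonunits)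
    (k : Type) [Field k] [Algebra F k] (s : O →+* k) (hs : Res O s)
    (hfr : ∀ (c : κ) (hc : c ∈ V) (hc' : algebraMap κ M c ∈ O), s ⟨_, hc'⟩ = algebraMap F k (r ⟨c, hc⟩))
    (Φ : k ≃+* k) (hΦ : ∀ (z : M) (hz : z ∈ O) (hz' : φ z ∈ O), Φ (s ⟨z, hz⟩) = s ⟨φ z, hz'⟩)
    (hφO : ∀ z, φ z ∈ O ↔ z ∈ O) :
    FinCls N.toSubfield (fun h => ∃ h₁ : M, h = h₁ ^ (ℓ ^ E) ∧ (∃ n : ℕ, h₁ ^ (ℓ ^ n) ∈ N) ∧
      φ h₁ / h₁ ∈ N) := by
  classical
  haveI := hcov.gal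
  haveI : IsAlgClosed F := algClosed_res V r hr
  have hVO : ∀ c ∈ V, algebraMap κ M c ∈ O := fun c hc => (hO.1 c).2 hc
  have hκN : ∀ c : κ, algebraMap κ M c ∈ N := fun c => by
    rw [IsScalarTower.algebraMap_apply κ R M]
    exact N.algebraMap_mem _
  have hxU : IsU O (algebraMap R M x) := by
    have h1 := hO.2 (Polynomial.X : κ[X]) (fun n => by
      rw [Polynomial.coeff_X]
      split_ifs
      · exact one_mem _
      · exact zero_mem _) ⟨1, by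
      rw [Polynomial.coeff_X_one]
      exact ⟨one_ne_zero, one_mem _, by rw [inv_one]; exact one_mem _⟩⟩
    rwa [Polynomial.aeval_X] at h1
  obtain ⟨htr, hlev⟩ := g5 hcov F V r hr hℓ O hO hOu k s hs hfr
    (s ⟨algebraMap R M x, hxU.2.1⟩) (fun _ => rfl)
  set xb := s ⟨algebraMap R M x, hxU.2.1⟩ with hxb
  have hΦx : Φ xb = xb := by
    rw [hxb, hΦ _ _ (by rw [hφx]; exact hxU.2.1)]
    congr 1
    exact Subtype.ext hφx
  have hΦc : ∀ c : F, Φ (algebraMap F k c) = algebraMap F k (c ^ q) := by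
    intro c
    obtain ⟨⟨v, hv⟩, rfl⟩ := hr.surj c
    have h1 : φ (algebraMap κ M v) ∈ O := by rw [hφc]; exact hVO _ ((hφV _).2 hv)
    rw [← hfr v hv (hVO v hv), hΦ _ _ h1]
    have h2 : (⟨φ (algebraMap κ M v), h1⟩ : O) = ⟨algebraMap κ M (φ₀ v), hVO _ ((hφV _).2 hv)⟩ :=
      Subtype.ext (hφc v)
    rw [h2, hfr _ ((hφV _).2 hv)]
    congr 1
    have h3 : r (⟨φ₀ v, (hφV _).2 hv⟩ - ⟨v, hv⟩ ^ q) = 0 := (hr.ker _).2 (hφq v hv)
    rw [map_sub, map_pow, sub_eq_zero] at h3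
    exact h3
  obtain ⟨Nb, hNb⟩ := exists_Nb hr hs hVO hfr N
  obtain ⟨hfin, hsep⟩ := hlev N hN Nb hNb
  have hper : ∀ z : k, ∃ m : ℕ, 0 < m ∧ (Φ ^ m) z = z := by
    intro z
    obtain ⟨⟨z', hz'⟩, rfl⟩ := hs.surj z
    obtain ⟨N', hzN', hN'⟩ := hcov.pow z'
    obtain ⟨Nb', hNb'⟩ := exists_Nb hr hs hVO hfr N'
    obtain ⟨-, hsep'⟩ := hlev N' hN' Nb' hNb'
    have h1 := (hsep' _ ((hNb' _).2 ⟨z', hz', hzN', rfl⟩)).isIntegral
    exact per_of_alg Φ q hF hΦc xb hΦx _ h1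
  have hxNb : xb ∈ Nb := (hNb xb).2 ⟨_, hxU.2.1, N.algebraMap_mem x, rfl⟩
  have hΦNb : ∀ z, Φ z ∈ Nb ↔ z ∈ Nb := by
    intro z
    constructor
    · intro h
      obtain ⟨w, hw, hwN, hwz⟩ := (hNb _).1 h
      have h1 : φ (φ.symm w) ∈ O := by rw [RingEquiv.apply_symm_apply]; exact hw
      have h2 : φ.symm w ∈ O := (hφO _).1 h1
      refine (hNb _).2 ⟨φ.symm w, h2, ?_, ?_⟩
      · rw [← hφN, RingEquiv.apply_symm_apply]; exact hwN
      · apply Φ.injective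
        rw [hΦ _ _ h1, ← hwz]
        congr 1
        exact Subtype.ext (RingEquiv.apply_symm_apply _ _)
    · intro h
      obtain ⟨w, hw, hwN, rfl⟩ := (hNb _).1 h
      rw [hΦ _ _ ((hφO w).2 hw)]
      exact (hNb _).2 ⟨φ w, (hφO w).2 hw, (hφN w).2 hwN, rfl⟩
  have hℓp : ℓ ≠ p := by
    rintro rfl
    have h6 : r (⟨(ℓ : κ), hℓ.2.1⟩ : V) ≠ 0 := (res_ne_zero hr _).2 hℓ
    have h7 : r (⟨(ℓ : κ), hℓ.2.1⟩ : V) = (ℓ : F) := by
      have : (⟨(ℓ : κ), hℓ.2.1⟩ : V) = ((ℓ : ℕ) : V) := by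
        apply Subtype.ext
        push_cast
        rfl
      rw [this, map_natCast]
    rw [h7] at h6
    exact h6 (CharP.cast_eq_zero F ℓ)
  obtain ⟨C, hC⟩ := a_clf ℓ q F k p a ha hq hℓp hF xb htr Nb hxNb hfin hsep Φ hΦc hΦx hΦNb hper
  refine ⟨C, fun T hT hcard => ?_⟩
  have hnorm := (g2 hcov V O hO).1
  have hℓpr : ℓ.Prime := Fact.out
  have hT' : ∀ h ∈ T, ∃ (h₁ : M) (c : κ), h₁ ≠ 0 ∧ h = h₁ ^ (ℓ ^ E) ∧ (∃ n : ℕ, h₁ ^ (ℓ ^ n) ∈ N) ∧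
      φ h₁ / h₁ ∈ N ∧ c ≠ 0 ∧ IsU O (h₁ / algebraMap κ M c) := by
    intro h hh
    obtain ⟨hh0, h₁, hh₁, hn, hφ⟩ := hT h hh
    have h₁0 : h₁ ≠ 0 := by
      rintro rfl
      rw [zero_pow (pow_ne_zero _ hℓpr.ne_zero)] at hh₁
      exact hh0 hh₁
    obtain ⟨c, hc, hcU⟩ := hnorm h₁ h₁0
    exact ⟨h₁, c, h₁0, hh₁, hn, hφ, hc, hcU⟩
  choose! hh₁ dd hh₁0 hh₁E hh₁n hh₁φ hdd0 hddU using hT'
  have hdM : ∀ h ∈ T, algebraMap κ M (dd h) ≠ 0 := fun h hh => (_root_.map_ne_zero _).2 (hdd0 h hh)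
  set cc : M → κ := fun h => dd h ^ (ℓ ^ E) with hcc
  have hccd : ∀ h ∈ T, h / algebraMap κ M (cc h) =
      (hh₁ h / algebraMap κ M (dd h)) ^ (ℓ ^ E) := by
    intro h hh
    rw [div_pow, ← hh₁E h hh, hcc, map_pow]
  have hcc0 : ∀ h ∈ T, cc h ≠ 0 := fun h hh => pow_ne_zero _ (hdd0 h hh)
  have hccU : ∀ h ∈ T, IsU O (h / algebraMap κ M (cc h)) := by
    intro h hh
    rw [hccd h hh]
    obtain ⟨e1, e2, e3⟩ := hddU h hh
    exact ⟨pow_ne_zero _ e1, pow_mem e2 _, by rw [← inv_pow]; exact pow_mem e3 _⟩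
  have hTn : ∀ h ∈ T, ∃ n : ℕ, h ^ (ℓ ^ n) ∈ N := by
    intro h hh
    obtain ⟨n, hn⟩ := hh₁n h hh
    refine ⟨n, ?_⟩
    rw [hh₁E h hh, ← pow_mul, mul_comm, pow_mul]
    exact pow_mem hn _
  have hTφ : ∀ h ∈ T, φ h / h ∈ N := by
    intro h hh
    have e1 : φ h / h = (φ (hh₁ h) / hh₁ h) ^ (ℓ ^ E) := by
      conv_lhs => rw [hh₁E h hh]
      rw [map_pow, div_pow]
    rw [e1]
    exact pow_mem (hh₁φ h hh) _
  set g : M → k := fun h => if hh : h / algebraMap κ M (cc h) ∈ O then s ⟨_, hh⟩ else 0 with hg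
  have hgs : ∀ h ∈ T, ∀ hh : h / algebraMap κ M (cc h) ∈ O, g h = s ⟨_, hh⟩ := by
    intro h hhT hh
    rw [hg]
    exact dif_pos hh
  have hg0 : ∀ h ∈ T, g h ≠ 0 := by
    intro h hhT
    have h1 := hccU h hhT
    rw [hgs h hhT h1.2.1]
    exact (res_ne_zero hs _).2 h1
  -- powers of the normalised elements
  have hpow : ∀ h ∈ T, ∃ n : ℕ, (h / algebraMap κ M (cc h)) ^ (ℓ ^ n) ∈ N := by
    intro h hhT
    obtain ⟨n, hn⟩ := hTn h hhT
    refine ⟨n, ?_⟩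
    rw [div_pow]
    exact div_mem hn (pow_mem (hκN _) _)
  have hkey : ∀ h ∈ T, ∀ h' ∈ T, g h / g h' ∈ Nb → h / h' ∈ N := by
    intro h hhT h' hhT' hmem
    obtain ⟨v, hv, hvN, hvs⟩ := (hNb _).1 hmem
    have hu := hccU h hhT
    have hu' := hccU h' hhT'
    have hc := hcc0 h hhT
    have hc' := hcc0 h' hhT'
    obtain ⟨n, hn⟩ := hpow h hhT
    obtain ⟨n', hn'⟩ := hpow h' hhT'
    have hvU : IsU O v := (res_ne_zero hs ⟨v, hv⟩).1 (by
      rw [hvs]; exact div_ne_zero (hg0 h hhT) (hg0 h' hhT'))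
    have hgh := hgs h hhT hu.2.1
    have hgh' := hgs h' hhT' hu'.2.1
    set u := h / algebraMap κ M (cc h) with hud
    set u' := h' / algebraMap κ M (cc h') with hud'
    have ht : u * u'⁻¹ * v⁻¹ ∈ O := mul_mem (mul_mem hu.2.1 hu'.2.2) hvU.2.2
    have hst : s ⟨u * u'⁻¹ * v⁻¹, ht⟩ = 1 := by
      have h1 : (⟨u * u'⁻¹ * v⁻¹, ht⟩ * (⟨u', hu'.2.1⟩ * ⟨v, hv⟩) : O) = ⟨u, hu.2.1⟩ := by
        apply Subtype.ext
        show u * u'⁻¹ * v⁻¹ * (u' * v) = u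
        have := hu'.1
        have := hvU.1
        field_simp
      have h2 := congrArg s h1
      rw [map_mul, map_mul, ← hgh, ← hgh', hvs, mul_div_cancel₀ _ (hg0 h' hhT')] at h2
      exact mul_right_cancel₀ (hg0 h hhT) (h2.trans (one_mul _).symm)
    have htN := mem_of_res_one hr (Fact.out : ℓ.Prime).pos hℓ hO hOu hs N _ ht hst (n + n') (by
      rw [mul_pow, mul_pow, pow_add, pow_mul u, mul_comm (ℓ ^ n), pow_mul u'⁻¹]
      refine mul_mem (mul_mem (pow_mem hn _) (pow_mem ?_ _)) (pow_mem (inv_mem hvN) _)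
      rw [inv_pow]
      exact inv_mem hn')
    have h3 : h / h' = (u * u'⁻¹ * v⁻¹) * v * (algebraMap κ M (cc h) / algebraMap κ M (cc h')) := by
      have e1 : algebraMap κ M (cc h) ≠ 0 := (_root_.map_ne_zero _).2 hc
      have e2 : algebraMap κ M (cc h') ≠ 0 := (_root_.map_ne_zero _).2 hc'
      have e3 := (hT h' hhT').1
      have e4 := hvU.1
      rw [hud, hud']
      field_simp
    rw [h3]
    exact mul_mem (mul_mem htN hvN) (div_mem (hκN _) (hκN _))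
  have hprop : ∀ h ∈ T, g h ≠ 0 ∧ (∃ (n : ℕ) (hn : g h ^ (ℓ ^ n) ∈ Nb),
        ∀ w : Place F Nb, ((ℓ : ℤ) ^ n) ∣ w.ord ⟨_, hn⟩) ∧ Φ (g h) / g h ∈ Nb := by
    intro h hhT
    have hu := hccU h hhT
    have hc := hcc0 h hhT
    obtain ⟨n, hn⟩ : ∃ n : ℕ, (hh₁ h / algebraMap κ M (dd h)) ^ (ℓ ^ n) ∈ N := by
      obtain ⟨n, hn⟩ := hh₁n h hhT
      refine ⟨n, ?_⟩
      rw [div_pow]
      exact div_mem hn (pow_mem (hκN _) _)
    have hgh := hgs h hhT hu.2.1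
    have hφh := hTφ h hhT
    have hh0 := (hT h hhT).1
    have hu₁ := hddU h hhT
    have hy₁ : s ⟨hh₁ h / algebraMap κ M (dd h), hu₁.2.1⟩ ^ (ℓ ^ n) ∈ Nb :=
      (hNb _).2 ⟨_, pow_mem hu₁.2.1 _, hn, by rw [← map_pow]; rfl⟩
    have hgE : g h = s ⟨hh₁ h / algebraMap κ M (dd h), hu₁.2.1⟩ ^ (ℓ ^ E) := by
      rw [hgh, ← map_pow]
      congr 1
      exact Subtype.ext (hccd h hhT)
    have hgn : g h ^ (ℓ ^ n) = (s ⟨hh₁ h / algebraMap κ M (dd h), hu₁.2.1⟩ ^ (ℓ ^ n)) ^ (ℓ ^ E) := by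
      rw [hgE, ← pow_mul, ← pow_mul, mul_comm]
    refine ⟨hg0 h hhT, ⟨n, ?_, ?_⟩, ?_⟩
    · rw [hgn]
      exact pow_mem hy₁ _
    · intro w
      have h1 := g4 hcov F V r hr hgood D O hO hOu k s hs hfr E hεE hιE N hN Nb hNb
        (hh₁ h / algebraMap κ M (dd h)) hu₁.2.1 n hu₁.2.2 hu₁.1 hn w ⟨_, hy₁⟩ rfl
      have h2 : (⟨g h ^ (ℓ ^ n), by rw [hgn]; exact pow_mem hy₁ _⟩ : Nb) = (⟨_, hy₁⟩ : Nb) ^ (ℓ ^ E) :=
        Subtype.ext hgn
      have h3 : w.ord (⟨g h ^ (ℓ ^ n), by rw [hgn]; exact pow_mem hy₁ _⟩ : Nb) =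
          (ℓ : ℤ) ^ E * w.ord ⟨_, hy₁⟩ := by
        rw [h2, w.ord_pow]
        push_cast
        rfl
      rw [h3]
      exact h1
    · rw [hgh]
      set u := h / algebraMap κ M (cc h) with hud
      have hφu : φ u ∈ O := (hφO u).2 hu.2.1
      rw [hΦ _ _ hφu]
      have h1 : φ u * u⁻¹ ∈ O := mul_mem hφu hu.2.2
      refine (hNb _).2 ⟨φ u * u⁻¹, h1, ?_, ?_⟩
      · have h2 : φ u * u⁻¹ = (φ h / h) * (algebraMap κ M (cc h) / φ (algebraMap κ M (cc h))) := by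
          have e1 : algebraMap κ M (cc h) ≠ 0 := (_root_.map_ne_zero _).2 hc
          have e2 : φ (algebraMap κ M (cc h)) ≠ 0 := (map_ne_zero_iff φ φ.injective).2 e1
          rw [hud, map_div₀]
          field_simp
        rw [h2, hφc]
        exact mul_mem hφh (div_mem (hκN _) (hκN _))
      · rw [eq_div_iff (by rw [← hgh]; exact hg0 h hhT), ← map_mul]
        congr 1
        apply Subtype.ext
        show φ u * u⁻¹ * u = φ u
        rw [mul_assoc, inv_mul_cancel₀ hu.1, mul_one]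
  by_cases hinj : Set.InjOn g T
  · have h1 := hC (T.image g) (fun y hy => by
      obtain ⟨h, hhT, rfl⟩ := Finset.mem_image.1 hy
      exact hprop h hhT) (by rw [Finset.card_image_of_injOn hinj]; exact hcard)
    obtain ⟨y, hy, y', hy', hne, hmem⟩ := h1
    obtain ⟨h, hhT, rfl⟩ := Finset.mem_image.1 hy
    obtain ⟨h', hhT', rfl⟩ := Finset.mem_image.1 hy'
    exact ⟨h, hhT, h', hhT', fun e => hne (by rw [e]), hkey h hhT h' hhT' hmem⟩
  · unfold Set.InjOn at hinj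
    push Not at hinj
    obtain ⟨h, hhT, h', hhT', he, hne⟩ := hinj
    refine ⟨h, hhT, h', hhT', hne, hkey h hhT h' hhT' ?_⟩
    rw [he, div_self (hg0 h' hhT')]
    exact one_mem _

/-- finiteness of the classes fixed by a lift of Frobenius -/
theorem fixf (hcov : GCov ℓ κ R M x B ε ι N₀)
    (E : ℕ) (hεE : ∀ a, ε a ≤ E) (hιE : ι ≤ E)
    (F : Type) [Field F] (V : ValuationSubring κ) (r : V →+* F) (hr : Res V r) (hgood : Good V B)
    (hℓ : IsU V (ℓ : κ)) (D : Disc ℓ V r)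
    (p : ℕ) [Fact p.Prime] [CharP F p] (q a : ℕ) (ha : 0 < a) (hq : q = p ^ a)
    (hF : ∀ c : F, ∃ m : ℕ, 0 < m ∧ c ^ (q ^ m) = c)
    (O : ValuationSubring M) (hO : Gauss V (algebraMap R M x) O)
    (hOu : ∀ O' : ValuationSubring M, Gauss V (algebraMap R M x) O' → O' = O)
    (N : IntermediateField R M) (hN : Lev ℓ N) (hY : N₀ ≤ N)
    (φ : M ≃+* M) (φ₀ : κ ≃+* κ) (hφc : ∀ c, φ (algebraMap κ M c) = algebraMap κ M (φ₀ c))
    (hφx : φ (algebraMap R M x) = algebraMap R M x) (hφN : ∀ z, φ z ∈ N ↔ z ∈ N)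
    (hφV : ∀ c, φ₀ c ∈ V ↔ c ∈ V) (hφq : ∀ c ∈ V, φ₀ c - c ^ q ∈ V.nonunits) :
    FinCls N.toSubfield (fun h => (∃ n : ℕ, h ^ (ℓ ^ n) ∈ N) ∧ φ h / h ∈ N) := by
  have hVO : ∀ c ∈ V, algebraMap κ M c ∈ O := fun c hc => (hO.1 c).2 hc
  have hφO : ∀ z, φ z ∈ O ↔ z ∈ O := by
    intro z
    have h1 := hOu _ (gauss_comap hO φ φ₀ hφc hφx hφV)
    rw [show (φ z ∈ O) = (z ∈ O.comap (φ : M →+* M)) from rfl, h1]
  let iV : V →+* O := ((algebraMap κ M).comp V.subtype).codRestrict O.toSubring (fun c => hVO c c.2)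
  have hker : RingHom.ker r ≤ RingHom.ker ((IsLocalRing.residue O).comp iV) := by
    intro c hc
    rw [RingHom.mem_ker, hr.ker, ValuationSubring.mem_nonunits_iff_or] at hc
    rw [RingHom.mem_ker, RingHom.comp_apply, (res_residue O).ker, ValuationSubring.mem_nonunits_iff_or]
    show algebraMap κ M c = 0 ∨ (algebraMap κ M c)⁻¹ ∉ O
    rcases hc with hc | hc
    · left; rw [hc, map_zero]
    · right; rw [← map_inv₀, hO.1]; exact hc
  let f : F →+* IsLocalRing.ResidueField O :=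
    (r.liftOfSurjective hr.surj) ⟨(IsLocalRing.residue O).comp iV, hker⟩
  letI : Algebra F (IsLocalRing.ResidueField O) := f.toAlgebra
  have hfr : ∀ (c : κ) (hc : c ∈ V) (hc' : algebraMap κ M c ∈ O),
      IsLocalRing.residue O ⟨_, hc'⟩ = algebraMap F (IsLocalRing.ResidueField O) (r ⟨c, hc⟩) := by
    intro c hc hc'
    exact (RingHom.liftOfSurjective_comp_apply r hr.surj ⟨(IsLocalRing.residue O).comp iV, hker⟩ ⟨c, hc⟩).symm
  let φO : O ≃+* O :=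
    { toFun := fun z => ⟨φ z, (hφO z).2 z.2⟩
      invFun := fun z => ⟨φ.symm z, (hφO _).1 (by rw [RingEquiv.apply_symm_apply]; exact z.2)⟩
      left_inv := fun z => Subtype.ext (RingEquiv.symm_apply_apply _ _)
      right_inv := fun z => Subtype.ext (RingEquiv.apply_symm_apply _ _)
      map_mul' := fun z w => Subtype.ext (map_mul φ _ _)
      map_add' := fun z w => Subtype.ext (map_add φ _ _) }
  have h1 := core hcov E hεE hιE F V r hr hgood hℓ D p q a ha hq hF O hO hOu N hN φ φ₀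
    hφc hφx hφN hφV hφq (IsLocalRing.ResidueField O) (IsLocalRing.residue O) (res_residue O) hfr
    (IsLocalRing.ResidueField.mapEquiv φO) (fun z hz hz' => rfl) hφO
  exact fincls_pow E h1 (fins hcov N hN hY) (fun h hh => ⟨h, rfl, hh.1, hh.2⟩)

end Pool.Agent.H889.PS
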