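import Pool.Agent.H889.PS.Gun2

/-!
# Value group and residue field of the Gauss valuation
-/

set_option autoImplicit false
set_option linter.all false

open Polynomial FF

namespace Pool.Agent.H889.PS

open Pool.Agent.Y157.PS Pool.Agent.Y155.PS

variable {ℓ : ℕ} [hℓi : Fact ℓ.Prime] {κ R M : Type} [Field κ] [IsAlgClosed κ] [CharZero κ]
  [Field R] [Field M] [Algebra κ R] [Algebra R M] [Algebra κ M] [IsScalarTower κ R M] {x : R}
  {B : Finset κ} {ε : κ → ℕ} {ι : ℕ} {N₀ : IntermediateField R M}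

theorem g2 (hC : GCov ℓ κ R M x B ε ι N₀) (V : ValuationSubring κ) (O : ValuationSubring M)
    (hG : Gauss V (algebraMap R M x) O) :
    (∀ z : M, z ≠ 0 → ∃ c : κ, c ≠ 0 ∧ IsU O (z / algebraMap κ M c)) ∧
    (IsU V (ℓ : κ) → ∀ N : IntermediateField R M, Lev ℓ N → ∀ γ : M ≃ₐ[R] M,
      (∀ z ∈ O, z ∈ N → γ z - z ∈ O.nonunits) → ∀ z ∈ N, γ z = z) := by
  have := hC.gal
  have part1 : ∀ z : M, z ≠ 0 → ∃ c : κ, c ≠ 0 ∧ IsU O (z / algebraMap κ M c) := by
    intro z hz
    obtain ⟨c, hc, h⟩ := M_val hC.rat hG hz (Algebra.IsAlgebraic.isAlgebraic (R := R) z)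
    refine ⟨c, hc, ?_⟩
    have h0 : O.valuation (algebraMap κ M c) ≠ 0 :=
      (Valuation.ne_zero_iff _).2 ((_root_.map_ne_zero _).2 hc)
    rw [isU_iff, map_div₀, h, div_self h0]
  refine ⟨part1, fun hℓ N hN γ hγ => ?_⟩
  have hℓp : ℓ.Prime := Fact.out
  have := hN.gal
  have := hN.fin
  by_contra hcon
  push Not at hcon
  obtain ⟨y, hy, hne⟩ := hcon
  set g : N ≃ₐ[R] N := γ.restrictNormal N with hg
  have hgc : ∀ (n : ℕ) (z : N), (((g ^ n) z : N) : M) = (γ ^ n) (z : M) := by
    intro n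
    induction n with
    | zero => intro z; rfl
    | succ n ih =>
      intro z
      rw [pow_succ, pow_succ, AlgEquiv.mul_apply, AlgEquiv.mul_apply, ih (g z)]
      congr 1
      exact AlgEquiv.restrictNormal_commutes γ N z
  have hmem : ∀ (n : ℕ) (z : M), z ∈ N → (γ ^ n) z ∈ N := fun n z hz => by
    rw [← hgc n ⟨z, hz⟩]; exact ((g ^ n) _).2
  have hnon : ∀ (n : ℕ) (z : M), z ∈ O → z ∈ N → (γ ^ n) z - z ∈ O.nonunits := by
    intro n
    induction n with
    | zero => intro z _ _; rw [pow_zero, AlgEquiv.one_apply, sub_self]; exact zero_mem _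
    | succ n ih =>
      intro z hz hzN
      have h1 := ih z hz hzN
      have h2 : (γ ^ n) z ∈ O := by
        have := add_mem (O.nonunits_subset h1) hz
        rwa [sub_add_cancel] at this
      have h3 := hγ _ h2 (hmem n z hzN)
      have := add_mem h3 h1
      rw [pow_succ', AlgEquiv.mul_apply]
      rwa [sub_add_sub_cancel] at this
  -- the order of `g`
  have g1 : g ≠ 1 := by
    intro h
    apply hne
    have := hgc 1 ⟨y, hy⟩
    rw [pow_one, pow_one, h] at this
    exact this.symm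
  obtain ⟨m, hm⟩ := hN.card
  have hcard : g ^ (ℓ ^ m) = 1 := by
    rw [← hm, ← IsGalois.card_aut_eq_finrank R N]
    exact pow_card_eq_one'
  have hpow : ∃ a : ℕ, g ^ (ℓ ^ a) ≠ 1 ∧ g ^ (ℓ ^ (a + 1)) = 1 := by
    classical
    have hex : ∃ a : ℕ, g ^ (ℓ ^ a) = 1 := ⟨m, hcard⟩
    have hf := Nat.find_spec hex
    have hpos : Nat.find hex ≠ 0 := by
      intro h
      rw [h, pow_zero, pow_one] at hf
      exact g1 hf
    refine ⟨Nat.find hex - 1, Nat.find_min hex (by omega), ?_⟩
    rwa [Nat.sub_add_cancel (by omega)]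
  obtain ⟨a, ha1, ha2⟩ := hpow
  obtain ⟨ζ, hζ⟩ := HasEnoughRootsOfUnity.exists_primitiveRoot κ ℓ
  let T : Module.End κ N := (g ^ (ℓ ^ a)).toAlgHom.toLinearMap.restrictScalars κ
  have hT : ∀ z, T z = (g ^ (ℓ ^ a)) z := fun z => rfl
  have hTn : ∀ (n : ℕ) z, (T ^ n) z = ((g ^ (ℓ ^ a)) ^ n) z := by
    intro n
    induction n with
    | zero => intro z; rfl
    | succ n ih =>
      intro z
      rw [pow_succ, pow_succ, Module.End.mul_apply, AlgEquiv.mul_apply, ih, hT]
  obtain ⟨c, hc1, hc2, z, hz0, hz⟩ := exists_eig hℓp.pos hζ T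
    (by ext z; rw [hTn, ← pow_mul, ← pow_succ, ha2]; rfl)
    (fun h => ha1 (by ext z; rw [← hT, h]; rfl))
  have hz0' : (z : M) ≠ 0 := fun h => hz0 (Subtype.ext h)
  obtain ⟨d, hd, hu⟩ := part1 z hz0'
  have hdN : (z : M) / algebraMap κ M d ∈ N := by
    have : algebraMap κ M d ∈ N := by
      rw [IsScalarTower.algebraMap_apply κ R M]
      exact N.algebraMap_mem _
    exact div_mem z.2 this
  have h5 := hnon (ℓ ^ a) _ hu.2.1 hdN
  have h6 : (γ ^ (ℓ ^ a)) (z : M) = algebraMap κ M c * z := by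
    have h7 : (((g ^ (ℓ ^ a)) z : N) : M) = algebraMap κ M c * z := by
      rw [← hT, hz, Algebra.smul_def]
      rw [IsScalarTower.algebraMap_apply κ R N, IsScalarTower.algebraMap_apply κ R M]
      rfl
    rw [← hgc, h7]
  have h7 : (γ ^ (ℓ ^ a)) (algebraMap κ M d) = algebraMap κ M d := by
    rw [IsScalarTower.algebraMap_apply κ R M]
    exact AlgEquiv.commutes _ _
  rw [map_div₀, h6, h7] at h5
  have h8 : algebraMap κ M c * (z : M) / algebraMap κ M d - (z : M) / algebraMap κ M d =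
      algebraMap κ M (c - 1) * ((z : M) / algebraMap κ M d) := by
    rw [map_sub, map_one]; ring
  rw [h8, non_iff, map_mul, (isU_iff O).1 hu, mul_one, g_lt hG, ← non_iff] at h5
  exact hc2 (root_congr V hℓ hc1 h5)

theorem g3 (hC : GCov ℓ κ R M x B ε ι N₀) (V : ValuationSubring κ) (O : ValuationSubring M)
    (hG : Gauss V (algebraMap R M x) O)
    (hu : ∀ O' : ValuationSubring M, Gauss V (algebraMap R M x) O' → O' = O)
    (k : Type) [Field k] (r : O →+* k) (hr : Res O r)
    (τ : k ≃+* k) (hτ1 : ∀ (c : κ) (hc : algebraMap κ M c ∈ O), τ (r ⟨_, hc⟩) = r ⟨_, hc⟩)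
    (hτ2 : ∀ hx : algebraMap R M x ∈ O, τ (r ⟨_, hx⟩) = r ⟨_, hx⟩) :
    ∃ γ : M ≃ₐ[R] M, ∀ (z : M) (hz : z ∈ O) (hγ : γ z ∈ O), r ⟨γ z, hγ⟩ = τ (r ⟨z, hz⟩) := by
  have hgal := hC.gal
  have st := stab_O hG hu
  letI act : MulSemiringAction (M ≃ₐ[R] M) O :=
    { smul := fun g z => ⟨g z, (st g z).2 z.2⟩
      one_smul := fun z => rfl
      mul_smul := fun g h z => rfl
      smul_zero := fun g => Subtype.ext (map_zero g)
      smul_add := fun g a b => Subtype.ext (map_add g _ _)
      smul_one := fun g => Subtype.ext (map_one g)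
      smul_mul := fun g a b => Subtype.ext (map_mul g _ _) }
  have hsm : ∀ (g : M ≃ₐ[R] M) (z : O), ((g • z : O) : M) = g z := fun g z => rfl
  let A : Subring R := (O.comap (algebraMap R M)).toSubring
  let i : A →+* O := ((algebraMap R M).comp A.subtype).codRestrict O.toSubring (fun a => a.2)
  letI : Algebra A O := i.toAlgebra
  have hi : ∀ a : A, ((algebraMap A O a : O) : M) = algebraMap R M a := fun a => rfl
  haveI : SMulCommClass (M ≃ₐ[R] M) A O := ⟨fun g a z => by
    apply Subtype.ext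
    rw [hsm, Algebra.smul_def, Algebra.smul_def]
    change g (algebraMap R M a * z) = algebraMap R M a * g z
    rw [map_mul, AlgEquiv.commutes]⟩
  letI : TopologicalSpace O := ⊥
  haveI : DiscreteTopology O := ⟨rfl⟩
  haveI : ContinuousSMul (M ≃ₐ[R] M) O := by
    rw [continuousSMul_iff_stabilizer_isOpen]
    intro z
    have h := stabilizer_isOpen_of_isIntegral (K := R) (L := M) (z : M)
    have e : (MulAction.stabilizer (M ≃ₐ[R] M) z : Set (M ≃ₐ[R] M)) =
        MulAction.stabilizer (M ≃ₐ[R] M) (z : M) := by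
      ext g
      simp only [SetLike.mem_coe, MulAction.mem_stabilizer_iff]
      rw [Subtype.ext_iff, hsm]
      rfl
    rw [e]
    exact h
  haveI : Algebra.IsInvariant A O (M ≃ₐ[R] M) := ⟨fun z hz => by
    have h1 : (z : M) ∈ Set.range (algebraMap R M) := by
      rw [InfiniteGalois.mem_range_algebraMap_iff_fixed]
      intro g
      rw [← hsm, hz g]
    obtain ⟨a, ha⟩ := h1
    refine ⟨⟨a, ?_⟩, ?_⟩
    · change algebraMap R M a ∈ O
      rw [ha]; exact z.2
    · apply Subtype.ext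
      rw [hi]; exact ha⟩
  -- the fixed ring
  let S : Subring M := (((τ : k →+* k).comp r).eqLocus r).map O.subtype
  have hS : ∀ (z : M) (hz : z ∈ O), z ∈ S ↔ τ (r ⟨z, hz⟩) = r ⟨z, hz⟩ := by
    intro z hz
    constructor
    · rintro ⟨w, hw, h⟩
      have : w = ⟨z, hz⟩ := Subtype.ext h
      rw [← this]; exact hw
    · intro h
      exact ⟨⟨z, hz⟩, h, rfl⟩
  have hfix : ∀ a : A, τ (r (algebraMap A O a)) = r (algebraMap A O a) := by
    intro a
    have ha : algebraMap R M a ∈ O := a.2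
    have h1 := R_in hC.rat hG S (fun c hc => (hS _ ((hG.1 c).2 hc)).2 (hτ1 c _))
      ((hS _ (x_mem hG)).2 (hτ2 _)) (fun z hz hzu => by
        have h3 := (hS z hzu.2.1).1 hz
        rw [hS z⁻¹ hzu.2.2]
        have h4 : r ⟨z, hzu.2.1⟩ * r ⟨z⁻¹, hzu.2.2⟩ = 1 := by
          rw [← map_mul, ← map_one r]
          congr 1
          exact Subtype.ext (mul_inv_cancel₀ hzu.1)
        have h5 : r ⟨z⁻¹, hzu.2.2⟩ = (r ⟨z, hzu.2.1⟩)⁻¹ := eq_inv_of_mul_eq_one_right h4
        rw [h5, map_inv₀, h3]) a ha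
    exact (hS _ ha).1 h1
  obtain ⟨g, hg⟩ := lift_aut (A := A) (G := M ≃ₐ[R] M) r hr.surj τ hfix
  exact ⟨g, fun z hz hγ => hg ⟨z, hz⟩⟩

theorem g5 (hC : GCov ℓ κ R M x B ε ι N₀)
    (F : Type) [Field F] (V : ValuationSubring κ) (r : V →+* F) (hr : Res V r)
    (hℓ : IsU V (ℓ : κ))
    (O : ValuationSubring M) (hG : Gauss V (algebraMap R M x) O)
    (hu : ∀ O' : ValuationSubring M, Gauss V (algebraMap R M x) O' → O' = O)
    (k : Type) [Field k] [Algebra F k] (s : O →+* k) (hs : Res O s)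
    (hsr : ∀ (c : κ) (hc : c ∈ V) (hc' : algebraMap κ M c ∈ O),
      s ⟨_, hc'⟩ = algebraMap F k (r ⟨c, hc⟩))
    (xb : k) (hxb : ∀ hx : algebraMap R M x ∈ O, s ⟨_, hx⟩ = xb) : Transcendental F xb ∧
    ∀ N : IntermediateField R M, Lev ℓ N →
    ∀ Nb : IntermediateField F k, (∀ y, y ∈ Nb ↔ ∃ (z : M) (hz : z ∈ O), z ∈ N ∧ s ⟨z, hz⟩ = y) →
      (∃ b : Finset k, ∀ z ∈ Nb, z ∈ Submodule.span (IntermediateField.adjoin F {xb}) (b : Set k)) ∧
      (∀ z ∈ Nb, IsSeparable (IntermediateField.adjoin F {xb}) z) := by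
  refine ⟨xb_trans hr hG hs hsr hxb, fun N hN Nb hNb => ?_⟩
  have hgal := hC.gal
  have := hN.gal
  have := hN.fin
  have st := stab_O hG hu
  have hLN := adjoin_le hC.rat hG hxb N Nb hNb
  let E : IntermediateField (IntermediateField.adjoin F {xb}) k :=
    IntermediateField.extendScalars hLN
  have hE : ∀ y, y ∈ E ↔ y ∈ Nb := fun y => Iff.rfl
  obtain ⟨hfin, hrank⟩ := rank_res hC.rat hG hs hsr hxb N E (fun y hy => (hNb y).1 hy)
  constructor
  · have h1 : (IntermediateField.toSubalgebra E).toSubmodule.FG := by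
      rw [← Module.Finite.iff_fg]
      exact hfin
    obtain ⟨b, hb⟩ := h1
    refine ⟨b, fun z hz => ?_⟩
    rw [hb]
    exact hz
  · -- separability
    choose τ hτ using fun g : N ≃ₐ[R] N => exists_red hs (g.liftNormal M).toRingEquiv
      (fun z => st (g.liftNormal M) z)
    have hfix : ∀ g, ∀ y ∈ IntermediateField.adjoin F {xb}, τ g y = y := fun g =>
      red_fix hr hG hsr hxb (g.liftNormal M) (fun z => st (g.liftNormal M) z) (τ g) (hτ g)
    let φ : (N ≃ₐ[R] N) → (E →ₐ[IntermediateField.adjoin F {xb}] AlgebraicClosure k) := fun g =>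
      (IsScalarTower.toAlgHom (IntermediateField.adjoin F {xb}) k (AlgebraicClosure k)).comp
        { toRingHom := ((τ g : k ≃+* k) : k →+* k).comp (algebraMap E k)
          commutes' := fun y => hfix g y y.2 }
    have hφ : Function.Injective φ := by
      intro g g' hgg
      have h1 : ∀ y ∈ Nb, τ g y = τ g' y := by
        intro y hy
        have := AlgHom.congr_fun hgg (⟨y, hy⟩ : E)
        exact (algebraMap k (AlgebraicClosure k)).injective this
      have h2 : ∀ z ∈ O, z ∈ N → ((g'.liftNormal M)⁻¹ * g.liftNormal M) z - z ∈ O.nonunits := by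
        intro z hz hzN
        have h3 := h1 (s ⟨z, hz⟩) ((hNb _).2 ⟨z, hz, hzN, rfl⟩)
        rw [hτ, hτ, s_eq_iff hs] at h3
        rw [← non_map (g'.liftNormal M).toRingEquiv (fun z => st _ z)]
        have h4 : (g'.liftNormal M).toRingEquiv (((g'.liftNormal M)⁻¹ * g.liftNormal M) z - z) =
            (g.liftNormal M) z - (g'.liftNormal M) z := by
          rw [map_sub]
          congr 1
          exact (g'.liftNormal M).apply_symm_apply _
        rw [h4]
        exact h3
      have h3 := (g2 hC V O hG).2 hℓ N hN _ h2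
      ext z
      have h4 := h3 (z : M) z.2
      have h5 : (g.liftNormal M) (z : M) = (g'.liftNormal M) (z : M) := by
        have h6 := congrArg (g'.liftNormal M) h4
        rw [← h6]
        exact ((g'.liftNormal M).apply_symm_apply _).symm
      have h6 : ((g z : N) : M) = g.liftNormal M (z : M) := (g.liftNormal_commutes M z).symm
      have h7 : ((g' z : N) : M) = g'.liftNormal M (z : M) := (g'.liftNormal_commutes M z).symm
      rw [h6, h7, h5]
    have h1 : Nat.card (N ≃ₐ[R] N) ≤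
        Nat.card (E →ₐ[IntermediateField.adjoin F {xb}] AlgebraicClosure k) :=
      Nat.card_le_card_of_injective φ hφ
    rw [IsGalois.card_aut_eq_finrank, ← Field.finSepDegree_eq_of_isAlgClosed] at h1
    have h2 := Field.finSepDegree_le_finrank (IntermediateField.adjoin F {xb}) E
    have h3 : Field.finSepDegree (IntermediateField.adjoin F {xb}) E =
      Module.finrank (IntermediateField.adjoin F {xb}) E := by omega
    rw [Field.finSepDegree_eq_finrank_iff] at h3
    exact fun z hz => sep_of E h3 z hz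

end Pool.Agent.H889.PS
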