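import Pool.Agent.H889.PS.G4a

/-!
# The residue field of `M` is almost unramified over the residue field of a level
-/

set_option autoImplicit false
set_option linter.all false

open Polynomial FF

namespace Pool.Agent.H889.PS

open Pool.Agent.Y157.PS Pool.Agent.Y155.PS

variable {ℓ : ℕ} [hℓi : Fact ℓ.Prime] {κ R M : Type} [Field κ] [IsAlgClosed κ] [CharZero κ]
  [Field R] [Field M] [Algebra κ R] [Algebra R M] [Algebra κ M] [IsScalarTower κ R M] {x : R}
  {B : Finset κ} {ε : κ → ℕ} {ι : ℕ} {N₀ : IntermediateField R M}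

/-- the residue field of `M` is almost unramified over the one of a level -/
theorem g4 (hC : GCov ℓ κ R M x B ε ι N₀) (F : Type) [Field F] (V : ValuationSubring κ)
    (r : V →+* F) (hr : Res V r) (hg : Good V B) (D : Disc ℓ V r)
    (O : ValuationSubring M) (hG : Gauss V (algebraMap R M x) O)
    (hu : ∀ O' : ValuationSubring M, Gauss V (algebraMap R M x) O' → O' = O)
    (k : Type) [Field k] [Algebra F k] (s : O →+* k) (hs : Res O s)
    (hsr : ∀ (c : κ) (hc : c ∈ V) (hc' : algebraMap κ M c ∈ O),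
      s ⟨_, hc'⟩ = algebraMap F k (r ⟨c, hc⟩))
    (E : ℕ) (hεE : ∀ a, ε a ≤ E) (hιE : ι ≤ E)
    (N : IntermediateField R M) (hN : Lev ℓ N)
    (Nb : IntermediateField F k) (hNb : ∀ y, y ∈ Nb ↔ ∃ (z : M) (hz : z ∈ O), z ∈ N ∧ s ⟨z, hz⟩ = y)
    (h : M) (hh : h ∈ O) (n : ℕ) (hhi : h⁻¹ ∈ O) (hh0 : h ≠ 0) (hhN : h ^ (ℓ ^ n) ∈ N)
    (w : Place F Nb) (y : Nb) (hy : (y : k) = s ⟨h, hh⟩ ^ (ℓ ^ n)) :
    (ℓ : ℤ) ^ n ∣ (ℓ : ℤ) ^ E * w.ord y := by
  classical
  have hgal := hC.gal
  haveI := isAlgClosed_res hr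
  have hℓ : ℓ.Prime := Fact.out
  have hℓ0 : (0 : ℤ) < ℓ := by exact_mod_cast hℓ.pos
  set xb : k := s ⟨_, x_mem hG⟩ with hxbd
  have hxb : ∀ hx : algebraMap R M x ∈ O, s ⟨_, hx⟩ = xb := fun _ => rfl
  have htr : Transcendental F xb := xb_trans hr hG hs hsr hxb
  have hLN := adjoin_le hC.rat hG hxb N Nb hNb
  have hxL : xb ∈ IntermediateField.adjoin F {xb} := IntermediateField.mem_adjoin_simple_self F xb
  haveI hnor : Normal (IntermediateField.adjoin F {xb}) k := normal_res hC.rat hG hu hs hsr hxb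
  letI algLN : Algebra (IntermediateField.adjoin F {xb}) Nb :=
    (IntermediateField.inclusion hLN).toRingHom.toAlgebra
  haveI : IsScalarTower (IntermediateField.adjoin F {xb}) Nb k :=
    IsScalarTower.of_algebraMap_eq fun _ => rfl
  haveI : Algebra.IsAlgebraic (IntermediateField.adjoin F {xb}) Nb := ⟨fun t => by
    rw [← isAlgebraic_algebraMap_iff (algebraMap Nb k).injective]
    exact hnor.toIsAlgebraic.isAlgebraic _⟩
  let xN : Nb := ⟨xb, hLN hxL⟩
  have htrN : Transcendental F xN := by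
    intro h0
    exact htr (h0.algebraMap (A := k) (R := F))
  have haev : ∀ p : F[X], ((aeval xN p : Nb) : k) = aeval xb p := fun p =>
    (aeval_algebraMap_apply k xN p).symm
  have hLpq : ∀ a : IntermediateField.adjoin F {xb}, ∃ p q : F[X],
      (a : k) = aeval xb p / aeval xb q := fun a =>
    (IntermediateField.mem_adjoin_simple_iff F _).1 a.2
  have hLpqN : ∀ a : IntermediateField.adjoin F {xb}, ∃ p q : F[X],
      algebraMap (IntermediateField.adjoin F {xb}) Nb a = aeval xN p / aeval xN q := by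
    intro a
    obtain ⟨p, q, hpq⟩ := hLpq a
    refine ⟨p, q, ?_⟩
    apply Subtype.ext
    change (a : k) = ((aeval xN p / aeval xN q : Nb) : k)
    rw [hpq, IntermediateField.coe_div, haev, haev]
  -- the embedding of the residue field
  have main : ∃ (jb : k →+* LaurentSeries F) (f : F → ℤ) (m m' : ℤ) (a₀ : F), 0 < m ∧ 0 < m' ∧
      (∀ c, jb (algebraMap F k c) = algebraMap F (LaurentSeries F) c) ∧ f a₀ ≠ 0 ∧
      m' ∣ (ℓ : ℤ) ^ E ∧
      (∀ a, w.ord (xN - algebraMap F Nb a) = m * f a) ∧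
      (∀ a, (lsP F).ord (jb xb - algebraMap F (LaurentSeries F) a) = m' * f a) := by
    have hpos : ∀ n : ℕ, (0 : ℤ) < (ℓ : ℤ) ^ n := fun n => by positivity
    rcases place_cases (L := IntermediateField.adjoin F {xb}) w htrN hLpqN with h1 | ⟨a, h1⟩
    · obtain ⟨jb, hjb, hW⟩ := case_inf hC hr hg D hG hu hs hsr
      have hW' : (lsP F).ord (jb xb) = -(ℓ : ℤ) ^ ι := hW
      have htrL : Transcendental F (jb xb) := (lsP F).transcendental_of_ord_ne (by
        rw [hW']
        have := hpos ι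
        omega)
      refine ⟨jb, fun _ => -1, -w.ord xN, (ℓ : ℤ) ^ ι, 0, by omega, hpos ι, hjb, by norm_num,
        pow_dvd_pow _ hιE, fun a => ?_, fun a => ?_⟩
      · rw [ord_sub_inf w htrN h1]; ring
      · rw [ord_sub_inf (lsP F) htrL (by rw [hW']; have := hpos ι; omega), hW']; ring
    · obtain ⟨b, hb, hra, hbe⟩ : ∃ (b : κ) (hb : b ∈ V), r ⟨b, hb⟩ = a ∧
          ∀ e ∈ B, e ≠ b → IsU V (b - e) := by
        by_cases hbr : ∃ (e : κ) (he : e ∈ B), r ⟨e, hg.1 e he⟩ = a
        · obtain ⟨e, he, hea⟩ := hbr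
          exact ⟨e, hg.1 e he, hea, fun e' he' hne => hg.2 e he e' he' (Ne.symm hne)⟩
        · push Not at hbr
          obtain ⟨⟨b, hb⟩, rfl⟩ := hr.surj a
          refine ⟨b, hb, rfl, fun e he _ => ?_⟩
          rcases isU_or_non V (sub_mem hb (hg.1 e he)) with h2 | h2
          · exact h2
          · exact absurd ((s_eq_iff hr hb (hg.1 e he)).2 h2).symm (hbr e he)
      subst hra
      obtain ⟨jb, hjb, hW⟩ := case_fin hC hr D hG hu hs hsr b hb hbe
      have hW' : (lsP F).ord (jb xb - algebraMap F (LaurentSeries F) (r ⟨b, hb⟩)) =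
        (ℓ : ℤ) ^ ε b := hW
      have hW0 : 0 < (lsP F).ord (jb xb - algebraMap F (LaurentSeries F) (r ⟨b, hb⟩)) := by
        rw [hW']; exact hpos _
      have htrL : Transcendental F (jb xb) := trans_of_ord (lsP F) hW0.ne'
      refine ⟨jb, fun c => if c = r ⟨b, hb⟩ then 1 else 0, _, (ℓ : ℤ) ^ ε b, r ⟨b, hb⟩, h1,
        hpos _, hjb, by simp, pow_dvd_pow _ (hεE b), fun c => ord_sub_fin w htrN h1 c, fun c => ?_⟩
      rw [ord_sub_fin (lsP F) htrL hW0 c, hW']
  obtain ⟨jb, f, m, m', a₀, hm, hm', hjb, hfa, hmE, hf, hf'⟩ := main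
  have htrL : Transcendental F (jb xb) := trans_of_ord (lsP F) (c := a₀) (by
    rw [hf']
    exact mul_ne_zero hm'.ne' hfa)
  obtain ⟨U, hU⟩ := a_extv Nb k w.O
  have hUm : ∀ z : Nb, (z : k) ∈ U ↔ z ∈ w.O := by
    intro z
    rw [← hU]
    rfl
  set W : ValuationSubring k := (lsP F).O.comap jb with hWdef
  have hWm : ∀ z : k, z ∈ W ↔ jb z ∈ (lsP F).O := fun z => Iff.rfl
  -- the traces on `F(xb)`
  have htrace : W.comap (algebraMap (IntermediateField.adjoin F {xb}) k) =
      U.comap (algebraMap (IntermediateField.adjoin F {xb}) k) := by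
    ext a
    have e1 : a ∈ U.comap (algebraMap (IntermediateField.adjoin F {xb}) k) ↔
        algebraMap (IntermediateField.adjoin F {xb}) Nb a ∈ w.O := by
      rw [← hUm]
      rfl
    have e2 : a ∈ W.comap (algebraMap (IntermediateField.adjoin F {xb}) k) ↔
        jb (a : k) ∈ (lsP F).O := Iff.rfl
    rw [e1, e2]
    by_cases ha : a = 0
    · subst ha
      have e3 : jb (((0 : IntermediateField.adjoin F {xb}) : k)) = 0 := by
        rw [show (((0 : IntermediateField.adjoin F {xb}) : k)) = 0 from rfl, map_zero]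
      rw [map_zero, e3]
      exact iff_of_true (lsP F).O.zero_mem w.O.zero_mem
    · have hak : (a : k) ≠ 0 := fun h0 => ha (Subtype.ext h0)
      have hak' : jb (a : k) ≠ 0 := (_root_.map_ne_zero _).2 hak
      have haN : algebraMap (IntermediateField.adjoin F {xb}) Nb a ≠ 0 := (_root_.map_ne_zero _).2 ha
      rw [Place.mem_O, Place.mem_O, (lsP F).reg_iff hak', w.reg_iff haN]
      obtain ⟨p, q, hpq⟩ := hLpq a
      have hp : p ≠ 0 := by
        rintro rfl
        rw [map_zero, zero_div] at hpq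
        exact hak hpq
      have hq : q ≠ 0 := by
        rintro rfl
        rw [map_zero, div_zero] at hpq
        exact hak hpq
      have hpqN : algebraMap (IntermediateField.adjoin F {xb}) Nb a = aeval xN p / aeval xN q := by
        apply Subtype.ext
        change (a : k) = ((aeval xN p / aeval xN q : Nb) : k)
        rw [hpq, IntermediateField.coe_div, haev, haev]
      have hja : ∀ p : F[X], jb (aeval xb p) = aeval (jb xb) p := by
        intro p
        rw [aeval_def, aeval_def, hom_eval₂]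
        congr 1
        ext1 c
        exact hjb c
      have hpqL : jb (a : k) = aeval (jb xb) p / aeval (jb xb) q := by
        rw [hpq, map_div₀, hja, hja]
      rw [hpqN, hpqL]
      exact (same_sign w (lsP F) htrN htrL f hm hm' hf hf' hp hq).symm
  obtain ⟨δ, hδ⟩ := a_conj (IntermediateField.adjoin F {xb}) k W U htrace
  have hδ' : ∀ z : Nb, z ∈ w.O ↔ jb (δ (z : k)) ∈ (lsP F).O := by
    intro z
    rw [← hUm, hδ, hWm]
  -- proportionality
  obtain ⟨t, ht0, ht⟩ := w.surj
  have hne : ∀ z : Nb, z ≠ 0 → jb (δ (z : k)) ≠ 0 := fun z hz =>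
    (_root_.map_ne_zero _).2 ((_root_.map_ne_zero _).2 (fun h0 => hz (Subtype.ext h0)))
  have hunit : ∀ z : Nb, z ≠ 0 → w.ord z = 0 → (lsP F).ord (jb (δ (z : k))) = 0 := by
    intro z hz hz1
    have h1 := (hδ' z).1 (by rw [Place.mem_O, w.reg_iff hz, hz1])
    have h2 := (hδ' z⁻¹).1 (by
      rw [Place.mem_O, w.reg_iff (inv_ne_zero hz), w.ord_inv, hz1, neg_zero])
    have h3 : jb (δ ((z⁻¹ : Nb) : k)) = (jb (δ (z : k)))⁻¹ := by
      rw [IntermediateField.coe_inv, map_inv₀, map_inv₀]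
    rw [h3] at h2
    rw [Place.mem_O, (lsP F).reg_iff (hne z hz)] at h1
    rw [Place.mem_O, (lsP F).reg_iff (inv_ne_zero (hne z hz)), (lsP F).ord_inv] at h2
    omega
  obtain ⟨q, hq⟩ : ∃ q : ℤ, q = (lsP F).ord (jb (δ (t : k))) := ⟨_, rfl⟩
  have hprop : ∀ z : Nb, z ≠ 0 → (lsP F).ord (jb (δ (z : k))) = q * w.ord z := by
    intro z hz
    obtain ⟨c, hc⟩ : ∃ c : ℤ, c = w.ord z := ⟨_, rfl⟩
    have h0 : z / t ^ c ≠ 0 := div_ne_zero hz (zpow_ne_zero _ ht0)
    have h1 := hunit (z / t ^ c) h0 (by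
      rw [w.ord_div hz (zpow_ne_zero _ ht0), w.ord_zpow, ht, hc]; ring)
    have h2 : jb (δ ((z / t ^ c : Nb) : k)) = jb (δ (z : k)) / (jb (δ (t : k))) ^ c := by
      have h3 : ((z / t ^ c : Nb) : k) = (z : k) / (t : k) ^ c := by push_cast; rfl
      rw [h3, map_div₀, map_div₀, map_zpow₀, map_zpow₀]
    rw [h2, (lsP F).ord_div (hne z hz) (zpow_ne_zero _ (hne t ht0)), (lsP F).ord_zpow, ← hq] at h1
    rw [← hc]
    linarith
  have hδx : ∀ a : F, δ ((xN - algebraMap F Nb a : Nb) : k) = xb - algebraMap F k a := by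
    intro a
    have h1 : xb - algebraMap F k a ∈ IntermediateField.adjoin F {xb} :=
      sub_mem hxL (IntermediateField.algebraMap_mem _ _)
    exact δ.commutes ⟨_, h1⟩
  have hqm : q * m = m' := by
    have h1 := hprop (xN - algebraMap F Nb a₀) (by
      intro h0
      have h2 := hf a₀
      rw [h0, w.ord_zero] at h2
      rcases mul_eq_zero.1 h2.symm with h3 | h3
      · exact hm.ne' h3
      · exact hfa h3)
    rw [hδx, map_sub, hjb, hf', hf] at h1
    have h2 : m' * f a₀ = (q * m) * f a₀ := by rw [h1]; ring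
    exact (mul_right_cancel₀ hfa h2).symm
  have hy0 : y ≠ 0 := by
    intro h0
    have h1 : (y : k) = 0 := by rw [h0]; rfl
    rw [hy] at h1
    have h2 := pow_eq_zero_iff (pow_ne_zero n hℓ.ne_zero) |>.1 h1
    exact s_ne_zero hs hh ⟨hh0, hh, hhi⟩ h2
  have h1 := hprop y hy0
  rw [hy, map_pow, map_pow, (lsP F).ord_pow] at h1
  obtain ⟨c, hc⟩ := hmE
  refine ⟨m * c * (lsP F).ord (jb (δ (s ⟨h, hh⟩))), ?_⟩
  push_cast at h1
  rw [hc, ← hqm]
  linear_combination (-(m * c)) * h1

end Pool.Agent.H889.PS
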