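import Pool.Agent.H889.PS.G235

/-!
# The places of the residue field
-/

set_option autoImplicit false
set_option linter.all false

open Polynomial FF

namespace Pool.Agent.H889.PS

open Pool.Agent.Y157.PS Pool.Agent.Y155.PS

section disc
variable {ℓ : ℕ} [hℓi : Fact ℓ.Prime] {κ R M : Type} [Field κ] [IsAlgClosed κ] [CharZero κ]
  [Field R] [Field M] [Algebra κ R] [Algebra R M] [Algebra κ M] [IsScalarTower κ R M] {x : R}
  {B : Finset κ} {ε : κ → ℕ} {ι : ℕ} {N₀ : IntermediateField R M}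
  {F : Type} [Field F] {V : ValuationSubring κ} {r : V →+* F}
  {O : ValuationSubring M} {k : Type} [Field k] [Algebra F k] {s : O →+* k}

/-- an embedding of `M` in the functions on the disc induces an embedding of the residue field in
the field of Laurent series -/
theorem disc_map (hC : GCov ℓ κ R M x B ε ι N₀) (hr : Res V r) (D : Disc ℓ V r)
    (hG : Gauss V (algebraMap R M x) O)
    (hu : ∀ O' : ValuationSubring M, Gauss V (algebraMap R M x) O' → O' = O) (hs : Res O s)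
    (hsr : ∀ (c : κ) (hc : c ∈ V) (hc' : algebraMap κ M c ∈ O),
      s ⟨_, hc'⟩ = algebraMap F k (r ⟨c, hc⟩))
    (X : D.E) (hX : X ∈ D.O) (htr : Transcendental κ X)
    (hXa : ∀ P ∈ D.pts, ∀ a : κ, 0 < P.ord (X - algebraMap κ D.E a) →
      (ℓ : ℤ) ^ ε a ∣ P.ord (X - algebraMap κ D.E a))
    (hXi : ∀ P ∈ D.pts, P.ord X < 0 → (ℓ : ℤ) ^ ι ∣ P.ord X)
    (htrF : Transcendental F (D.ρ ⟨X, hX⟩)) :
    ∃ jb : k →+* LaurentSeries F,
      (∀ c, jb (algebraMap F k c) = algebraMap F (LaurentSeries F) c) ∧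
      jb (s ⟨_, x_mem hG⟩) = D.ρ ⟨X, hX⟩ := by
  obtain ⟨j, hj⟩ := emb hC D.E D.pts D.root X htr hXa hXi
  have jc : ∀ c : κ, j (algebraMap κ M c) = algebraMap κ D.E c := fun c => j.commutes c
  have hconst : ∀ c : κ, algebraMap κ D.E c ∈ D.O ↔ c ∈ V := by
    intro c
    constructor
    · intro h
      by_contra hcV
      have hc0 : c ≠ 0 := by
        rintro rfl
        exact hcV (zero_mem V)
      have h1 : c⁻¹ ∈ V.nonunits := V.inv_mem_nonunits_iff.2 (Or.inr hcV)
      have h2 : c⁻¹ ∈ V := V.nonunits_subset h1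
      have h3 : D.ρ ⟨algebraMap κ D.E c⁻¹, D.memV _ h2⟩ = 0 := by
        rw [D.ρV _ h2, (hr.ker ⟨_, h2⟩).2 h1, map_zero]
      have h4 := (D.ker _).1 h3
      change algebraMap κ D.E c⁻¹ ∈ D.O.nonunits at h4
      rw [map_inv₀, D.O.inv_mem_nonunits_iff] at h4
      rcases h4 with h4 | h4
      · exact hc0 ((_root_.map_eq_zero _).1 h4)
      · exact h4 h
    · exact D.memV c
  have hcnon : ∀ c : V, D.ρ ⟨algebraMap κ D.E c, D.memV _ c.2⟩ = HahnSeries.C (r c) := fun c =>
    D.ρV c.1 c.2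
  -- the Gauss valuation
  have hGauss : Gauss V (algebraMap R M x) (D.O.comap j.toRingHom) := by
    refine ⟨fun c => ?_, fun p hp hp1 => ?_⟩
    · rw [← hconst c, ← jc]
      rfl
    · obtain ⟨n, hn⟩ := hp1
      have hlift : p ∈ lifts (V.subtype) := by
        rw [lifts_iff_coeff_lifts]
        intro m
        exact ⟨⟨p.coeff m, hp m⟩, rfl⟩
      obtain ⟨q, hq⟩ := (mem_lifts p).1 hlift
      let ψ : V →+* D.O := ((algebraMap κ D.E).comp V.subtype).codRestrict D.O.toSubring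
        (fun c => D.memV c.1 c.2)
      have h1 : j (aeval (algebraMap R M x) p) = D.O.subtype (q.eval₂ ψ ⟨X, hX⟩) := by
        have h2 : j (aeval (algebraMap R M x) p) = aeval X p := by
          rw [← hj]
          exact (aeval_algHom_apply j (algebraMap R M x) p).symm
        rw [h2, aeval_def, ← hq, eval₂_map, hom_eval₂]
        rfl
      have h4 : D.ρ (q.eval₂ ψ ⟨X, hX⟩) ≠ 0 := by
        rw [hom_eval₂]
        have h5 : D.ρ.comp ψ = (algebraMap F (LaurentSeries F)).comp r := by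
          ext1 c
          rw [RingHom.comp_apply (algebraMap F (LaurentSeries F)), lsC]
          exact hcnon c
        rw [h5, ← eval₂_map, ← aeval_def]
        intro h0
        have h6 := (transcendental_iff.1 htrF) _ h0
        have h9 : r (q.coeff n) = 0 := by
          rw [← coeff_map, h6, coeff_zero]
        have h10 := (hr.ker _).1 h9
        have h11 : ((q.coeff n : V) : κ) = p.coeff n := by
          rw [← hq, coeff_map]
          rfl
        rw [h11] at h10
        exact not_isU_of_non V h10 hn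
      have h6 : IsU D.O (j (aeval (algebraMap R M x) p)) := by
        rw [h1]
        rcases isU_or_non D.O (q.eval₂ ψ ⟨X, hX⟩ : D.O).2 with h | h
        · exact h
        · exact absurd ((D.ker _).2 h) h4
      refine ⟨?_, ?_, ?_⟩
      · intro h
        rw [h, map_zero] at h6
        exact h6.1 rfl
      · exact h6.2.1
      · change j _ ∈ D.O
        rw [map_inv₀]
        exact h6.2.2
  have hO := hu _ hGauss
  have hmem : ∀ z : M, z ∈ O ↔ j z ∈ D.O := by
    intro z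
    rw [← hO]
    rfl
  let ρj : O →+* LaurentSeries F := D.ρ.comp
    ((j.toRingHom.comp O.subtype).codRestrict D.O.toSubring (fun z => (hmem _).1 z.2))
  have hker : RingHom.ker s ≤ RingHom.ker ρj := by
    intro z hz
    rw [RingHom.mem_ker] at hz ⊢
    have h1 := (hs.ker z).1 hz
    refine (D.ker _).2 ?_
    change j (z : M) ∈ D.O.nonunits
    rw [D.O.mem_nonunits_iff_or, ← map_inv₀, ← hmem]
    rcases O.mem_nonunits_iff_or.1 h1 with h2 | h2
    · left
      rw [h2, map_zero]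
    · right
      exact h2
  have hjb : ∀ z : O, (RingHom.liftOfSurjective s hs.surj) ⟨ρj, hker⟩ (s z) = ρj z := fun z =>
    RingHom.liftOfRightInverse_comp_apply s _ _ ⟨ρj, hker⟩ z
  refine ⟨(RingHom.liftOfSurjective s hs.surj) ⟨ρj, hker⟩, fun c => ?_, ?_⟩
  · obtain ⟨⟨d, hd⟩, rfl⟩ := hr.surj c
    rw [← hsr d hd ((hG.1 d).2 hd), hjb, lsC]
    change D.ρ ⟨j (algebraMap κ M d), _⟩ = HahnSeries.C _
    rw [← D.ρV d hd]
    congr 1
    exact Subtype.ext (jc d)
  · rw [hjb]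
    change D.ρ ⟨j (algebraMap R M x), _⟩ = _
    congr 1
    exact Subtype.ext hj


theorem pts_u (D : Disc ℓ V r) {P : Place κ D.E} (hP : P ∈ D.pts) : 0 ≤ P.ord D.u := by
  by_contra h
  push Not at h
  have h1 := D.unit P hP 1 1 ⟨one_ne_zero, one_mem _, by rw [inv_one]; exact one_mem _⟩
    (one_mem V) 1 le_rfl
  rw [map_one, one_mul, pow_one] at h1
  have hu0 := u_ne D
  have h2 := (P.ord_add_eq hu0 one_ne_zero (by rw [P.ord_one]; exact h)).2
  rw [add_comm, h1] at h2
  omega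

/-- the case of a finite residue disc -/
theorem case_fin (hC : GCov ℓ κ R M x B ε ι N₀) (hr : Res V r) (D : Disc ℓ V r)
    (hG : Gauss V (algebraMap R M x) O)
    (hu : ∀ O' : ValuationSubring M, Gauss V (algebraMap R M x) O' → O' = O) (hs : Res O s)
    (hsr : ∀ (c : κ) (hc : c ∈ V) (hc' : algebraMap κ M c ∈ O),
      s ⟨_, hc'⟩ = algebraMap F k (r ⟨c, hc⟩)) (b : κ) (hb : b ∈ V)
    (hbe : ∀ e ∈ B, e ≠ b → IsU V (b - e)) :
    ∃ jb : k →+* LaurentSeries F,
      (∀ c, jb (algebraMap F k c) = algebraMap F (LaurentSeries F) c) ∧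
      (lsP F).ord (jb (s ⟨_, x_mem hG⟩) - algebraMap F (LaurentSeries F) (r ⟨b, hb⟩)) =
        (ℓ : ℤ) ^ ε b := by
  have hℓ : ℓ.Prime := Fact.out
  obtain ⟨n, hn⟩ : ∃ n : ℕ, n = ℓ ^ ε b := ⟨_, rfl⟩
  have hnpos : 0 < n := by rw [hn]; exact pow_pos hℓ.pos _
  have hn0 : (n : ℤ) ≠ 0 := by exact_mod_cast hnpos.ne'
  have hnZ : (n : ℤ) = (ℓ : ℤ) ^ ε b := by rw [hn]; push_cast; rfl
  set X : D.E := algebraMap κ D.E b + D.u ^ n with hXd
  have hX : X ∈ D.O := add_mem (D.memV b hb) (pow_mem D.memu n)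
  have hXb : X - algebraMap κ D.E b = D.u ^ n := by rw [hXd]; ring
  have htr : Transcendental κ X := trans_of_ord D.P0 (c := b) (by
    rw [hXb, D.P0.ord_pow, D.P0u, mul_one]; exact hn0)
  have hu0 := u_ne D
  have hXa : ∀ P ∈ D.pts, ∀ a : κ, 0 < P.ord (X - algebraMap κ D.E a) →
      (ℓ : ℤ) ^ ε a ∣ P.ord (X - algebraMap κ D.E a) := by
    intro P hP a ha
    by_cases hab : a = b
    · rw [hab, hXb, P.ord_pow, hnZ]
      exact dvd_mul_right _ _
    · by_cases haB : a ∈ B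
      · exfalso
        have e1 : X - algebraMap κ D.E a = algebraMap κ D.E (b - a) +
            algebraMap κ D.E 1 * D.u ^ n := by
          rw [hXd, map_sub, map_one]; ring
        rw [e1, D.unit P hP _ _ (hbe a haB hab) (one_mem V) n hnpos] at ha
        exact lt_irrefl _ ha
      · rw [hC.supp a haB, pow_zero]
        exact one_dvd _
  have hXi : ∀ P ∈ D.pts, P.ord X < 0 → (ℓ : ℤ) ^ ι ∣ P.ord X := by
    intro P hP hneg
    exfalso
    have h1 := pts_u D hP
    have h2 : P.Reg X := by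
      rw [hXd]
      refine P.reg_add (P.reg_const b) (Or.inr ?_)
      rw [P.ord_pow]
      positivity
    have hX0 : X ≠ 0 := by
      intro h0
      rw [h0, P.ord_zero] at hneg
      exact lt_irrefl _ hneg
    have := (P.reg_iff hX0).1 h2
    omega
  have hρ : D.ρ ⟨X, hX⟩ = algebraMap F (LaurentSeries F) (r ⟨b, hb⟩) +
      HahnSeries.single 1 1 ^ n := by
    have e1 : (⟨X, hX⟩ : D.O) = ⟨_, D.memV b hb⟩ + ⟨D.u, D.memu⟩ ^ n := Subtype.ext rfl
    rw [e1, map_add, map_pow, D.ρV b hb, D.ρu, lsC]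
  have hord : (lsP F).ord (D.ρ ⟨X, hX⟩ - algebraMap F _ (r ⟨b, hb⟩)) = n := by
    rw [hρ, add_sub_cancel_left, (lsP F).ord_pow, lsP_single, mul_one]
  have htrF : Transcendental F (D.ρ ⟨X, hX⟩) := trans_of_ord (lsP F) (c := r ⟨b, hb⟩) (by
    rw [hord]; exact hn0)
  obtain ⟨jb, h1, h2⟩ := disc_map hC hr D hG hu hs hsr X hX htr hXa hXi htrF
  refine ⟨jb, h1, ?_⟩
  rw [h2, hord, hnZ]

/-- the case of the residue disc at infinity -/
theorem case_inf (hC : GCov ℓ κ R M x B ε ι N₀) (hr : Res V r) (hg : Good V B)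
    (D : Disc ℓ V r) (hG : Gauss V (algebraMap R M x) O)
    (hu : ∀ O' : ValuationSubring M, Gauss V (algebraMap R M x) O' → O' = O) (hs : Res O s)
    (hsr : ∀ (c : κ) (hc : c ∈ V) (hc' : algebraMap κ M c ∈ O),
      s ⟨_, hc'⟩ = algebraMap F k (r ⟨c, hc⟩)) :
    ∃ jb : k →+* LaurentSeries F,
      (∀ c, jb (algebraMap F k c) = algebraMap F (LaurentSeries F) c) ∧
      (lsP F).ord (jb (s ⟨_, x_mem hG⟩)) = - (ℓ : ℤ) ^ ι := by
  have hℓ : ℓ.Prime := Fact.out
  obtain ⟨n, hn⟩ : ∃ n : ℕ, n = ℓ ^ ι := ⟨_, rfl⟩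
  have hnpos : 0 < n := by rw [hn]; exact pow_pos hℓ.pos _
  have hn0 : (n : ℤ) ≠ 0 := by exact_mod_cast hnpos.ne'
  have hnZ : (n : ℤ) = (ℓ : ℤ) ^ ι := by rw [hn]; push_cast; rfl
  have hu0 := u_ne D
  have huU : IsU D.O D.u := by
    rcases isU_or_non D.O D.memu with h | h
    · exact h
    · have := (D.ker ⟨D.u, D.memu⟩).2 h
      rw [D.ρu] at this
      exact absurd this (single_ne F)
  set X : D.E := (D.u ^ n)⁻¹ with hXd
  have hun0 : D.u ^ n ≠ 0 := pow_ne_zero _ hu0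
  have hX : X ∈ D.O := by
    rw [hXd, ← inv_pow]
    exact pow_mem huU.2.2 n
  have htr : Transcendental κ X := D.P0.transcendental_of_ord_ne (by
    rw [hXd, D.P0.ord_inv, D.P0.ord_pow, D.P0u, mul_one]; omega)
  have hXa : ∀ P ∈ D.pts, ∀ a : κ, 0 < P.ord (X - algebraMap κ D.E a) →
      (ℓ : ℤ) ^ ε a ∣ P.ord (X - algebraMap κ D.E a) := by
    intro P hP a ha
    by_cases haB : a ∈ B
    · exfalso
      have e1 : X - algebraMap κ D.E a =
          X * (algebraMap κ D.E 1 + algebraMap κ D.E (-a) * D.u ^ n) := by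
        rw [hXd, map_one, map_neg]; field_simp; ring
      have e2 : algebraMap κ D.E 1 + algebraMap κ D.E (-a) * D.u ^ n ≠ 0 := by
        intro h
        rw [e1, h, mul_zero, P.ord_zero] at ha
        exact lt_irrefl _ ha
      rw [e1, P.ord_mul (inv_ne_zero hun0) e2, P.ord_inv, P.ord_pow,
        D.unit P hP 1 (-a) ⟨one_ne_zero, one_mem _, by rw [inv_one]; exact one_mem _⟩
          (neg_mem (hg.1 a haB)) n hnpos, add_zero] at ha
      have h1 := pts_u D hP
      have h2 : 0 ≤ (n : ℤ) * P.ord D.u := by positivity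
      omega
    · rw [hC.supp a haB, pow_zero]
      exact one_dvd _
  have hXi : ∀ P ∈ D.pts, P.ord X < 0 → (ℓ : ℤ) ^ ι ∣ P.ord X := by
    intro P hP hneg
    rw [hXd, P.ord_inv, P.ord_pow, hnZ, dvd_neg]
    exact dvd_mul_right _ _
  have hρ : D.ρ ⟨X, hX⟩ = ((HahnSeries.single 1 1) ^ n)⁻¹ := by
    apply eq_inv_of_mul_eq_one_left
    rw [← D.ρu, ← map_pow, ← map_mul, ← map_one D.ρ]
    congr 1
    exact Subtype.ext (inv_mul_cancel₀ hun0)
  have hord : (lsP F).ord (D.ρ ⟨X, hX⟩) = -n := by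
    rw [hρ, (lsP F).ord_inv, (lsP F).ord_pow, lsP_single, mul_one]
  have htrF : Transcendental F (D.ρ ⟨X, hX⟩) := (lsP F).transcendental_of_ord_ne (by
    rw [hord]; omega)
  obtain ⟨jb, h1, h2⟩ := disc_map hC hr D hG hu hs hsr X hX htr hXa hXi htrF
  refine ⟨jb, h1, ?_⟩
  rw [h2, hord, hnZ]

end disc

end Pool.Agent.H889.PS
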