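import Pool.Agent.H889.PS.Big

/-!
# The Gauss valuation of `F` and of `M`
-/

set_option autoImplicit false
set_option linter.all false

open Polynomial FF

namespace Pool.Agent.H889.PS

open Pool.Agent.Y157.PS

section gau

variable {A k κ R M : Type} [CommRing A] [IsDomain A]
    [IsDiscreteValuationRing A] [Field k] [Field κ] [Algebra A k] [Algebra k κ] [Algebra A κ]
    [IsScalarTower A k κ] [IsFractionRing A k] [CharZero k] [IsAlgClosure k κ]
    [Finite (IsLocalRing.ResidueField A)] [Field R] [Field M] [Algebra κ R] [Algebra R M]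
    [Algebra κ M] [IsScalarTower κ R M] {ℓ : ℕ} [Fact ℓ.Prime]
    {V : ValuationSubring κ} {ϖ : A} {x : R}

/-- an element of a field of characteristic `p` which is algebraic over a field, all of whose
elements are algebraic over the prime field, is a root of unity or zero -/
theorem pow_eq_self {F K : Type} [Field F] [Field K] (i : F →+* K) (p q a : ℕ) (hp : p.Prime)
    [CharP F p] (ha : 0 < a) (hq : q = p ^ a) (hF : ∀ c : F, ∃ m : ℕ, 0 < m ∧ c ^ (q ^ m) = c)
    (ξ : K) (g : F[X]) (hg : g ≠ 0) (hgX : g.eval₂ i ξ = 0) : ∃ s : ℕ, 0 < s ∧ ξ ^ (q ^ s) = ξ := by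
  haveI : Fact p.Prime := ⟨hp⟩
  letI : Algebra F K := i.toAlgebra
  haveI : CharP K p := (i.charP_iff i.injective p).1 inferInstance
  letI : Algebra (ZMod p) F := ZMod.algebra F p
  letI : Algebra (ZMod p) K := ZMod.algebra K p
  haveI : IsScalarTower (ZMod p) F K := IsScalarTower.of_algebraMap_eq' (by
    exact Subsingleton.elim _ _)
  haveI : Algebra.IsAlgebraic (ZMod p) F := by
    refine ⟨fun c => ?_⟩
    obtain ⟨m, hm, hc⟩ := hF c
    refine ⟨X ^ (q ^ m) - X, ?_, ?_⟩
    · intro h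
      have h1 : (X ^ (q ^ m) - X : (ZMod p)[X]).coeff (q ^ m) = 1 := by
        rw [coeff_sub, coeff_X_pow_self, coeff_X_of_ne_one, sub_zero]
        intro h2
        have h3 : 1 < q := by
          rw [hq]
          exact Nat.one_lt_pow ha.ne' hp.one_lt
        have h4 := Nat.one_lt_pow hm.ne' h3
        omega
      rw [h, coeff_zero] at h1
      exact zero_ne_one h1
    · rw [map_sub, map_pow, aeval_X, hc, sub_self]
  have halgF : IsAlgebraic F ξ := ⟨g, hg, hgX⟩
  have halg : IsAlgebraic (ZMod p) ξ := halgF.restrictScalars (ZMod p)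
  let E := IntermediateField.adjoin (ZMod p) {ξ}
  haveI : FiniteDimensional (ZMod p) E :=
    IntermediateField.adjoin.finiteDimensional halg.isIntegral
  haveI : Finite E := Module.finite_of_finite (ZMod p)
  letI : Fintype E := Fintype.ofFinite E
  have hcard : Fintype.card E = p ^ Module.finrank (ZMod p) E := by
    have := Module.card_eq_pow_finrank (K := ZMod p) (V := E)
    rwa [ZMod.card] at this
  have hs : 0 < Module.finrank (ZMod p) E := Module.finrank_pos
  obtain ⟨s, hsd⟩ : ∃ s, s = Module.finrank (ZMod p) E := ⟨_, rfl⟩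
  rw [← hsd] at hcard hs
  have h1 : ξ ^ (p ^ s) = ξ := by
    have h2 := FiniteField.pow_card (⟨ξ, IntermediateField.mem_adjoin_simple_self _ _⟩ : E)
    rw [hcard] at h2
    exact congrArg Subtype.val h2
  refine ⟨s, hs, ?_⟩
  have h3 : ∀ n : ℕ, ξ ^ ((p ^ s) ^ n) = ξ := by
    intro n
    induction n with
    | zero => rw [pow_zero, pow_one]
    | succ n ih => rw [pow_succ, pow_mul, ih, h1]
  rw [hq, ← pow_mul, mul_comm, pow_mul]
  exact h3 a

/-- a valuation ring above `V` at which the primitive polynomials with coefficients in `A` are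
units induces the Gauss valuation -/
theorem gauss_of_A (hB : IB ℓ A k κ V ϖ) (P : ValuationSubring M) (X0 : M)
    (hPV : ∀ c : κ, algebraMap κ M c ∈ P ↔ c ∈ V)
    (hPA : ∀ p : A[X], (∃ n, IsUnit (p.coeff n)) →
      IsU P (p.eval₂ ((algebraMap κ M).comp (algebraMap A κ)) X0)) :
    Gauss V X0 P := by
  classical
  refine ⟨hPV, fun p hp hp1 => ?_⟩
  have hX0 : X0 ∈ P := by
    have h1 := hPA X ⟨1, by rw [coeff_X_one]; exact isUnit_one⟩
    rw [eval₂_X] at h1
    exact h1.2.1
  have hinv : ∀ z : M, z ∈ P → z ∉ P.nonunits → IsU P z := fun z hz hn => isU_of_not_nonunit hz hn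
  have hmem : aeval X0 p ∈ P := by
    rw [aeval_def, eval₂_eq_sum_range]
    exact sum_mem fun i _ => mul_mem ((hPV _).2 (hp i)) (pow_mem hX0 i)
  refine hinv _ hmem fun hnon => ?_
  -- the residue fields
  obtain ⟨q, hqA⟩ : ∃ q, q = Nat.card (IsLocalRing.ResidueField A) := ⟨_, rfl⟩
  have hr : Res V (IsLocalRing.residue V) := by
    refine ⟨IsLocalRing.residue_surjective, fun z => ?_⟩
    exact residue_zero_iff (O := V) z
  obtain ⟨p0, a, hp0, hchar, ha, hq, hF, -⟩ := res_facts hB hr
  rw [← hqA] at hq hF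
  let j : V →+* P := ((algebraMap κ M).comp V.subtype).codRestrict P.toSubring
    (fun c => (hPV _).2 c.2)
  have hj : ∀ c : V, ((j c : P) : M) = algebraMap κ M c := fun c => rfl
  have hjnon : ∀ c : κ, c ∈ V.nonunits → algebraMap κ M c ∈ P.nonunits := by
    intro c hc
    have h0 := nonunits_iff.1 hc
    refine nonunits_iff.2 ⟨(hPV _).2 h0.1, ?_⟩
    rcases h0.2 with h1 | h1
    · left; rw [h1, map_zero]
    · right
      rw [← map_inv₀, hPV]
      exact h1
  haveI : IsLocalHom j := ⟨fun c hc => by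
    by_contra h1
    have h2 : (c : κ) ∈ V.nonunits := by
      rw [ValuationSubring.mem_nonunits_iff_exists_mem_maximalIdeal]
      exact ⟨c.2, (IsLocalRing.mem_maximalIdeal _).2 h1⟩
    have h3 := hjnon _ h2
    rw [ValuationSubring.mem_nonunits_iff_exists_mem_maximalIdeal] at h3
    obtain ⟨h4, h5⟩ := h3
    exact (IsLocalRing.mem_maximalIdeal _).1 h5 hc⟩
  let i : IsLocalRing.ResidueField V →+* IsLocalRing.ResidueField P :=
    IsLocalRing.ResidueField.map j
  have hi : ∀ c : V, i (IsLocalRing.residue V c) = IsLocalRing.residue P (j c) := fun c => rfl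
  -- the polynomial
  have hlift : p ∈ lifts (V.subtype) := by
    rw [lifts_iff_coeff_lifts]
    intro m
    exact ⟨⟨p.coeff m, hp m⟩, rfl⟩
  obtain ⟨Q, hQ⟩ := (mem_lifts p).1 hlift
  have hQc : ∀ n, ((Q.coeff n : V) : κ) = p.coeff n := by
    intro n
    rw [← hQ, coeff_map]
    rfl
  have hg : Q.map (IsLocalRing.residue V) ≠ 0 := by
    intro h
    obtain ⟨n, hn⟩ := hp1
    have h1 : IsLocalRing.residue V (Q.coeff n) = 0 := by
      rw [← coeff_map, h, coeff_zero]
    rw [hr.ker, hQc] at h1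
    rcases (nonunits_iff.1 h1).2 with h2 | h2
    · exact hn.1 h2
    · exact h2 hn.2.2
  have hval : ((Q.eval₂ j ⟨X0, hX0⟩ : P) : M) = aeval X0 p := by
    have h1 := hom_eval₂ Q j P.subtype ⟨X0, hX0⟩
    have h2 : P.subtype.comp j = (algebraMap κ M).comp V.subtype := rfl
    rw [h2] at h1
    rw [aeval_def, ← hQ, eval₂_map]
    exact h1
  have hgX : (Q.map (IsLocalRing.residue V)).eval₂ i (IsLocalRing.residue P ⟨X0, hX0⟩) = 0 := by
    rw [eval₂_map]
    have h1 : i.comp (IsLocalRing.residue V) = (IsLocalRing.residue P).comp j := rfl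
    rw [h1, ← hom_eval₂, residue_zero_iff, hval]
    exact hnon
  obtain ⟨s, hs, hXs⟩ := pow_eq_self i p0 q a hp0 ha hq hF _ _ hg hgX
  have h1 := hPA (X ^ (q ^ s) - X) ⟨q ^ s, by
    rw [coeff_sub, coeff_X_pow_self, coeff_X_of_ne_one, sub_zero]
    · exact isUnit_one
    · intro h2
      have h3 : 1 < q := by
        rw [hq]
        exact Nat.one_lt_pow ha.ne' hp0.one_lt
      have h4 := Nat.one_lt_pow hs.ne' h3
      omega⟩
  rw [eval₂_sub, eval₂_pow, eval₂_X] at h1
  have h2 : IsLocalRing.residue P ((⟨X0, hX0⟩ : P) ^ (q ^ s) - ⟨X0, hX0⟩) = 0 := by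
    rw [map_sub, map_pow, hXs, sub_self]
  rw [residue_zero_iff] at h2
  have h3 : (((⟨X0, hX0⟩ : P) ^ (q ^ s) - ⟨X0, hX0⟩ : P) : M) = X0 ^ (q ^ s) - X0 := rfl
  rw [h3] at h2
  rcases (nonunits_iff.1 h2).2 with h4 | h4
  · exact h1.1 h4
  · exact h4 h1.2.2

end gau

end Pool.Agent.H889.PS
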