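import Pool.Agent.H889.PS.Geom

/-! # Sections of the geometrically pro-`ℓ` fundamental group -/

set_option autoImplicit false
set_option linter.all false

open Polynomial FF

namespace Pool.Agent.H889.PS

open Pool.Agent.Y157.PS

section unif

variable {κ R Ω : Type} [Field κ] [IsAlgClosed κ] [CharZero κ] [Field R] [Field Ω] [Algebra κ R]
  [Algebra R Ω] [Algebra κ Ω] [IsScalarTower κ R Ω] {x : R} {ℓ : ℕ} [Fact ℓ.Prime]
  {N0 Kf : IntermediateField R Ω}

theorem unif_Kf (hu : UnrLev κ Kf N0) (hle : Kf ≤ N0) {M : IntermediateField R Ω}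
    (hNM : N0 ≤ M) (W : Place κ M) (π : M) (hπN : (π : Ω) ∈ N0) (hπ : W.ord π = 1) :
    ∃ t : M, (t : Ω) ∈ Kf ∧ W.ord t = 1 := by
  have hπ0 : π ≠ 0 := by
    rintro rfl
    rw [W.ord_zero] at hπ
    exact zero_ne_one hπ
  obtain ⟨W', hW'⟩ := a_extv M Ω W.O
  have hmem : ∀ z : M, (z : Ω) ∈ W' ↔ z ∈ W.O := by
    intro z
    rw [← hW']
    rfl
  obtain ⟨t, ht, ht0, hval⟩ := hu W' (fun c => (hmem (algebraMap κ M c)).2 (W.reg_const c))
    (π : Ω) hπN (fun h => hπ0 (Subtype.ext h))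
  have htM : t ∈ M := hNM (hle ht)
  have htM0 : (⟨t, htM⟩ : M) ≠ 0 := fun h => ht0 (congrArg Subtype.val h)
  refine ⟨⟨t, htM⟩, ht, ?_⟩
  have h2 : W'.valuation ((π / ⟨t, htM⟩ : M) : Ω) = 1 := by
    have h3 : ((π / ⟨t, htM⟩ : M) : Ω) = (π : Ω) / t := rfl
    rw [h3, map_div₀, hval, div_self]
    exact (Valuation.ne_zero_iff _).2 ht0
  have h3 := Pool.Agent.Y948.PS.isU_iff W' |>.2 h2
  have h4 := (hmem _).1 h3.2.1
  have h5 : (π / ⟨t, htM⟩ : M)⁻¹ ∈ W.O := (hmem _).1 h3.2.2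
  have h6 : (π / ⟨t, htM⟩ : M) ≠ 0 := div_ne_zero hπ0 htM0
  rw [Place.mem_O, W.reg_iff h6] at h4
  rw [Place.mem_O, W.reg_iff (inv_ne_zero h6), W.ord_inv] at h5
  rw [W.ord_div hπ0 htM0, hπ] at h4 h5
  omega

end unif

section fields

variable (k : Type) {F Ω : Type} [Field k] [Field F] [Field Ω] [Algebra k F]
  [Algebra F Ω] [Algebra k Ω] [IsScalarTower k F Ω]

/-- the field `k̄(x)` -/
abbrev ratL (x : F) : IntermediateField (algebraicClosure k Ω) Ω :=
  IntermediateField.adjoin (algebraicClosure k Ω) {algebraMap F Ω x}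

/-- ramified valuation rings -/
def RamP (x : F) (N : IntermediateField F Ω) (W : ValuationSubring N) : Prop :=
  ∃ z : N, (z : Ω) ∈ geomF k F Ω ∧ z ≠ 0 ∧
    ∀ t : N, (t : Ω) ∈ ratL (Ω := Ω) k x → t ≠ 0 → ¬ IsU W (z / t)

theorem rat_le_geom (x : F) (r : Ω) (hr : r ∈ ratL (Ω := Ω) k x) : r ∈ geomF k F Ω := by
  refine adjoin_le_sub (T := (geomF k F Ω).toSubfield) ?_ ?_ _ hr
  · intro c
    exact IntermediateField.subset_adjoin F _ c.2
  · intro w hw
    rw [Set.mem_singleton_iff] at hw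
    rw [hw]
    exact (geomF k F Ω).algebraMap_mem x

/-- `k̄ F` as an extension of `k̄(x)` -/
noncomputable def KfL (x : F) : IntermediateField (ratL (Ω := Ω) k x) Ω :=
  { (geomF k F Ω).toSubfield with
    algebraMap_mem' := fun r => rat_le_geom k x r.1 r.2 }

theorem mem_KfL (x : F) (z : Ω) : z ∈ KfL (Ω := Ω) k x ↔ z ∈ geomF k F Ω := Iff.rfl

theorem KfL_le {x : F} {L : IntermediateField (ratL (Ω := Ω) k x) Ω}
    (hFL : ∀ z : F, algebraMap F Ω z ∈ L) : KfL (Ω := Ω) k x ≤ L := by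
  intro z hz
  rw [mem_KfL] at hz
  refine adjoin_le_sub (T := L.toSubfield) hFL ?_ z hz
  intro c hc
  have h1 : c ∈ ratL (Ω := Ω) k x :=
    (ratL (Ω := Ω) k x).algebraMap_mem (⟨c, hc⟩ : algebraicClosure k Ω)
  exact L.algebraMap_mem ⟨c, h1⟩

theorem closure_ratL [IsAlgClosed Ω] [Algebra.IsAlgebraic F Ω] {x : F}
    {L : IntermediateField (ratL (Ω := Ω) k x) Ω} [FiniteDimensional (ratL (Ω := Ω) k x) L]
    (hFL : ∀ z : F, algebraMap F Ω z ∈ L) : IsAlgClosure (ratL (Ω := Ω) k x) Ω := by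
  refine ⟨inferInstance, ?_⟩
  let i : F →+* L := (algebraMap F Ω).codRestrict L.toSubfield hFL
  letI : Algebra F L := i.toAlgebra
  haveI : IsScalarTower F L Ω := IsScalarTower.of_algebraMap_eq fun r => rfl
  have h2 : Algebra.IsAlgebraic L Ω := Algebra.IsAlgebraic.tower_top (K := F) L
  exact Algebra.IsAlgebraic.trans (ratL (Ω := Ω) k x) L Ω

theorem maxPro_KfL (ℓ : ℕ) (x : F) (z : Ω) :
    z ∈ maxPro ℓ (algebraicClosure k Ω) (KfL (Ω := Ω) k x) Ω ↔ z ∈ geomPro ℓ k F Ω := by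
  let e : KfL (Ω := Ω) k x ≃+* geomF k F Ω :=
    { toFun := fun w => ⟨w.1, w.2⟩
      invFun := fun w => ⟨w.1, w.2⟩
      left_inv := fun w => rfl
      right_inv := fun w => rfl
      map_mul' := fun w w' => rfl
      map_add' := fun w w' => rfl }
  refine maxPro_congr e (fun a => rfl) (fun W => ⟨fun h c => ?_, fun h c => ?_⟩) z
  · exact Pool.Agent.W620.SC.const_mem h c.2
  · exact h (algebraMap k (algebraicClosure k Ω) c)

end fields

section main

variable {A k F Ω : Type} [CommRing A] [IsDomain A] [IsDiscreteValuationRing A]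
    [Finite (IsLocalRing.ResidueField A)] [Field k] [CharZero k] [Algebra A k] [IsFractionRing A k]
    [Field F] [Field Ω] [Algebra k F] [Algebra F Ω] [Algebra k Ω] [IsScalarTower k F Ω]
    [IsAlgClosed Ω] [Algebra.IsAlgebraic F Ω]

theorem geo' {ℓ : ℕ} [Fact ℓ.Prime]
    (V : ValuationSubring (algebraicClosure k Ω))
    (hVA : ∀ a : A, algebraMap k (algebraicClosure k Ω) (algebraMap A k a) ∈ V)
    (hVm : ∀ a ∈ IsLocalRing.maximalIdeal A,
      algebraMap k (algebraicClosure k Ω) (algebraMap A k a) ∈ V.nonunits)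
    (hℓ : IsUnit (ℓ : A)) (f : A[X]) (hlc : IsUnit f.leadingCoeff)
    (hs : (f.map (IsLocalRing.residue A)).Separable) (x : F) (hx : Transcendental k x)
    (L : IntermediateField (ratL (Ω := Ω) k x) Ω) (hL : Lev ℓ L)
    (hFL : ∀ z : F, algebraMap F Ω z ∈ L)
    (hLu : ∀ W : ValuationSubring Ω, (∀ c : k, algebraMap k Ω c ∈ W) → ∀ z ∈ L, z ≠ 0 →
      ∃ t ∈ geomF k F Ω, t ≠ 0 ∧ IsU W (z / t))
    (hLf : ∀ W : ValuationSubring Ω, (∀ c : k, algebraMap k Ω c ∈ W) → algebraMap F Ω x ∈ W →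
      algebraMap F Ω (aeval x (f.map (algebraMap A k))) ∉ W.nonunits → ∀ z ∈ L, z ≠ 0 →
        ∃ t ∈ ratL (Ω := Ω) k x, t ≠ 0 ∧ IsU W (z / t))
    (O' : ValuationSubring F)
    (h1 : ∀ p : A[X], (∃ n, IsUnit (p.coeff n)) →
      IsU O' (p.eval₂ ((algebraMap k F).comp (algebraMap A k)) x))
    (h2 : ∀ a ∈ IsLocalRing.maximalIdeal A, algebraMap k F (algebraMap A k a) ∈ O'.nonunits)
    (z₀ : F) (hz₀ : z₀ ≠ 0) (hram : ∀ c : k, c ≠ 0 → ¬ IsU O' (z₀ / algebraMap k F c))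
    (hbig : ∃ z ∈ geomPro ℓ k F Ω, z ∉ geomF k F Ω)
    (S : (algebraicClosure k Ω ≃ₐ[k] algebraicClosure k Ω) →*
      (geomPro ℓ k F Ω ≃ₐ[F] geomPro ℓ k F Ω)) (hcont : Continuous S)
    (hcompat : ∀ σ (c : algebraicClosure k Ω) (z : geomPro ℓ k F Ω), (z : Ω) = (c : Ω) →
      (S σ z : Ω) = (σ c : Ω)) :
    ∃ W : ValuationSubring (geomPro ℓ k F Ω),
      ((∀ c : k, algebraMap F (geomPro ℓ k F Ω) (algebraMap k F c) ∈ W) ∧
       (∀ z ∈ W, ∃ c : algebraicClosure k Ω, ∃ z' ∈ W.nonunits, (z' : Ω) = (z : Ω) - c) ∧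
       RamP k x (geomPro ℓ k F Ω) W ∧
       ∀ σ, Dec V σ → ∀ z, S σ z ∈ W ↔ z ∈ W) ∧
      ∀ W' : ValuationSubring (geomPro ℓ k F Ω),
        (∀ c : k, algebraMap F (geomPro ℓ k F Ω) (algebraMap k F c) ∈ W') →
        RamP k x (geomPro ℓ k F Ω) W' →
        (∀ σ, Dec V σ → ∀ z, S σ z ∈ W' ↔ z ∈ W') → W' = W := by
  classical
  have hac : IsAlgClosure k (algebraicClosure k Ω) := inferInstance
  have hkb : IsAlgClosed (algebraicClosure k Ω) := hac.1
  have hch : CharZero (algebraicClosure k Ω) :=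
    charZero_of_injective_algebraMap (algebraMap k (algebraicClosure k Ω)).injective
  letI : Algebra A (algebraicClosure k Ω) :=
    ((algebraMap k (algebraicClosure k Ω)).comp (algebraMap A k)).toAlgebra
  haveI hst : IsScalarTower A k (algebraicClosure k Ω) :=
    IsScalarTower.of_algebraMap_eq (fun _ => rfl)
  have hVa : ∀ a : A, algebraMap A (algebraicClosure k Ω) a ∈ V := hVA
  have hVm' : ∀ a ∈ IsLocalRing.maximalIdeal A, algebraMap A (algebraicClosure k Ω) a ∈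
    V.nonunits := hVm
  obtain ⟨ϖ, hϖ⟩ := IsDiscreteValuationRing.exists_irreducible A
  have hBase : IB ℓ A k (algebraicClosure k Ω) V ϖ := ⟨hℓ, hVa, hVm', hϖ⟩
  have hunit : ∀ b : A, IsUnit b → IsU V (algebraMap A (algebraicClosure k Ω) b) := by
    rintro b ⟨b, rfl⟩
    refine ⟨(b.isUnit.map (algebraMap A (algebraicClosure k Ω))).ne_zero, hVa _, ?_⟩
    have h1 : (algebraMap A (algebraicClosure k Ω) (b : A))⁻¹ =
        algebraMap A (algebraicClosure k Ω) ((b⁻¹ : Aˣ) : A) := by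
      refine inv_eq_of_mul_eq_one_right ?_
      rw [← map_mul, Units.mul_inv, map_one]
    rw [h1]
    exact hVa _
  -- the roots
  obtain ⟨hnd, hdist⟩ := Pool.Agent.W623.SecC.roots_distinct V hVa hVm' f hlc hs
  set P := f.map (algebraMap A (algebraicClosure k Ω)) with hP
  have hlc0 : algebraMap A (algebraicClosure k Ω) f.leadingCoeff ≠ 0 := (hunit _ hlc).1
  have hP0 : P ≠ 0 := by
    intro h
    apply hlc0
    rw [← leadingCoeff_map_of_leadingCoeff_ne_zero _ hlc0, ← hP, h, leadingCoeff_zero]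
  set B : Finset (algebraicClosure k Ω) := P.roots.toFinset with hBdef
  have hmemB : ∀ θ, θ ∈ B ↔ aeval θ f = 0 := by
    intro θ
    rw [hBdef, Multiset.mem_toFinset, mem_roots hP0, IsRoot.def, hP, eval_map]
    rfl
  have hGood : Good V B := by
    constructor
    · intro e he
      exact Pool.Agent.W308.SecC.root_mem V hVa f hlc _ ((hmemB _).1 he)
    · intro e he e' he' hne
      exact hdist e (Multiset.mem_toFinset.1 he) e' (Multiset.mem_toFinset.1 he') hne
  -- the product formula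
  have hPx : ∀ z : Ω, P.eval₂ (algebraMap (algebraicClosure k Ω) Ω) z =
      algebraMap (algebraicClosure k Ω) Ω (algebraMap A (algebraicClosure k Ω) f.leadingCoeff) *
        ∏ e ∈ B, (z - algebraMap (algebraicClosure k Ω) Ω e) := by
    intro z
    have h1 := (IsAlgClosed.splits P).eq_prod_roots
    have h5 : P.leadingCoeff = algebraMap A (algebraicClosure k Ω) f.leadingCoeff :=
      leadingCoeff_map_of_leadingCoeff_ne_zero _ hlc0
    rw [h5] at h1
    have h6 : ∏ e ∈ B, (z - algebraMap (algebraicClosure k Ω) Ω e) =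
        (P.roots.map fun e => z - algebraMap (algebraicClosure k Ω) Ω e).prod := by
      rw [hBdef, Finset.prod, Multiset.toFinset_val, Multiset.dedup_eq_self.2 hnd]
    rw [h6]
    conv_lhs => rw [h1]
    rw [eval₂_mul, eval₂_C, ← coe_eval₂RingHom, map_multiset_prod, Multiset.map_map]
    congr 2
    refine Multiset.map_congr rfl fun a _ => ?_
    simp
  have hfx : algebraMap F Ω (aeval x (f.map (algebraMap A k))) =
      P.eval₂ (algebraMap (algebraicClosure k Ω) Ω) (algebraMap F Ω x) := by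
    rw [aeval_def, hom_eval₂, hP, eval₂_map, eval₂_map, ← IsScalarTower.algebraMap_eq k F Ω,
      IsScalarTower.algebraMap_eq A k (algebraicClosure k Ω), ← RingHom.comp_assoc,
      ← IsScalarTower.algebraMap_eq k (algebraicClosure k Ω) Ω]
  -- the fields
  have hX0 : Transcendental k (algebraMap F Ω x) :=
    (transcendental_algebraMap_iff (R := k) (algebraMap F Ω).injective (a := x)).2 hx
  have hrat := ratF_adj (trans_up hX0)
  haveI := hL.fin
  haveI hcl : IsAlgClosure (ratL (Ω := Ω) k x) Ω := closure_ratL k hFL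
  have hle : KfL (Ω := Ω) k x ≤ L := KfL_le k hFL
  have hconstW : ∀ W : ValuationSubring Ω, (∀ c : algebraicClosure k Ω,
      algebraMap (algebraicClosure k Ω) Ω c ∈ W) → ∀ c : k, algebraMap k Ω c ∈ W :=
    fun W h c => h (algebraMap k (algebraicClosure k Ω) c)
  have hval : ∀ (W : ValuationSubring Ω) (z t : Ω), t ≠ 0 → IsU W (z / t) →
      W.valuation z = W.valuation t := by
    intro W z t ht h
    have h1 := (Pool.Agent.Y948.PS.isU_iff W).1 h
    rw [map_div₀] at h1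
    rwa [div_eq_one_iff_eq] at h1
    exact (Valuation.ne_zero_iff _).2 ht
  have hu : UnrLev (algebraicClosure k Ω) (KfL (Ω := Ω) k x) L := by
    intro W hW z hz hz0
    obtain ⟨t, ht, ht0, h⟩ := hLu W (hconstW W hW) z hz hz0
    exact ⟨t, ht, ht0, hval W z t ht0 h⟩
  obtain ⟨M, hM⟩ : ∃ M : IntermediateField (ratL (Ω := Ω) k x) Ω,
      ∀ z, z ∈ M ↔ z ∈ maxPro ℓ (algebraicClosure k Ω) (KfL (Ω := Ω) k x) Ω :=
    ⟨(maxPro ℓ (algebraicClosure k Ω) (KfL (Ω := Ω) k x) Ω).restrictScalars _, fun z => Iff.rfl⟩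
  have hMN : ∀ z, z ∈ M ↔ z ∈ geomPro ℓ k F Ω := fun z => (hM z).trans (maxPro_KfL k ℓ x z)
  have hbig' : ∃ z ∈ M, z ∉ L := big_of hrat hL hle hu M hM (by
    obtain ⟨z, hz, hzK⟩ := hbig
    exact ⟨z, (hMN z).2 hz, hzK⟩)
  obtain ⟨hNM, ε, ι, hC⟩ := gcov hrat hL hle hu B (by
    intro W hW hxW hnon z hz hz0
    obtain ⟨t, ht, ht0, h⟩ := hLf W (hconstW W hW) hxW (by
      rw [hfx, hPx]
      have h5 : ∀ e ∈ B, IsU W (algebraMap F Ω x - algebraMap (algebraicClosure k Ω) Ω e) :=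
        fun e he => isU_of_not_nonunit (sub_mem hxW (hW e)) (hnon e he)
      have h6 : IsU W (∏ e ∈ B, (algebraMap F Ω x - algebraMap (algebraicClosure k Ω) Ω e)) := by
        refine ⟨Finset.prod_ne_zero_iff.2 fun e he => (h5 e he).1,
          prod_mem fun e he => (h5 e he).2.1, ?_⟩
        rw [← Finset.prod_inv_distrib]
        exact prod_mem fun e he => (h5 e he).2.2
      have h7 : IsU W (algebraMap (algebraicClosure k Ω) Ω
          (algebraMap A (algebraicClosure k Ω) f.leadingCoeff)) :=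
        ⟨(_root_.map_ne_zero _).2 hlc0, hW _, by rw [← map_inv₀]; exact hW _⟩
      have h8 := h7.mul h6
      intro h9
      rcases (nonunits_iff.1 h9).2 with h10 | h10
      · exact h8.1 h10
      · exact h10 h8.2.2) z hz hz0
    exact ⟨⟨t, ht⟩, fun h0 => ht0 (congrArg Subtype.val h0), hval W z t ht0 h⟩) M hM hbig'
  let eqv : M ≃+* geomPro ℓ k F Ω :=
    { toFun := fun w => ⟨w.1, (hMN _).1 w.2⟩
      invFun := fun w => ⟨w.1, (hMN _).2 w.2⟩
      left_inv := fun w => rfl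
      right_inv := fun w => rfl
      map_mul' := fun w w' => rfl
      map_add' := fun w w' => rfl }
  have heqv : ∀ w : M, ((eqv w : geomPro ℓ k F Ω) : Ω) = (w : Ω) := fun w => rfl
  obtain ⟨W, ⟨g1, g2', g3, g4⟩, hun⟩ := geoM' hBase
    (⟨algebraMap F Ω x, IntermediateField.mem_adjoin_simple_self _ _⟩ : ratL (Ω := Ω) k x)
    hC hGood {z : M | (z : Ω) ∈ KfL (Ω := Ω) k x} (by
      intro W
      obtain ⟨-, π, hπ, hπ1⟩ := hC.loc' W
      obtain ⟨t, ht, ht1⟩ := unif_Kf hu hle hNM W π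
        ((IntermediateField.mem_restrict hNM _).1 hπ) hπ1
      exact ⟨t, ht, ht1⟩) eqv x (Subtype.ext rfl)
    (fun c => Subtype.ext (IsScalarTower.algebraMap_apply k F Ω c)) S
    (fun z => cont_fix S hcont z) (fun σ c => Subtype.ext (hcompat σ c _ rfl)) O' h1 h2 z₀ hz₀ hram
  refine ⟨W, ⟨?_, ?_, ?_, g4⟩, ?_⟩
  · intro c
    have h5 := g1 (algebraMap k (algebraicClosure k Ω) c)
    have h6 : eqv (algebraMap (algebraicClosure k Ω) M (algebraMap k (algebraicClosure k Ω) c)) =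
        algebraMap F (geomPro ℓ k F Ω) (algebraMap k F c) :=
      Subtype.ext (IsScalarTower.algebraMap_apply k F Ω c)
    rwa [h6] at h5
  · intro z hz
    obtain ⟨c, hc⟩ := g2' z hz
    exact ⟨c, _, hc, rfl⟩
  · obtain ⟨z, hz, hz0, hzt⟩ := g3
    refine ⟨eqv z, hz, (map_ne_zero_iff _ eqv.injective).2 hz0, fun t ht ht0 => ?_⟩
    have h5 := hzt ⟨(t : Ω), ht⟩ (fun h => ht0 (Subtype.ext (show (t : Ω) = 0 from
      congrArg (fun w : ratL (Ω := Ω) k x => (w : Ω)) h)))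
    exact h5
  · rintro W' hW'1 ⟨z, hz, hz0, hzt⟩ hW'3
    refine hun W' (fun c => const_mem_N _ W' hW'1 c _ rfl) ⟨eqv.symm z, hz,
      (map_ne_zero_iff _ eqv.symm.injective).2 hz0, fun t ht => ?_⟩ hW'3
    rw [eqv.apply_symm_apply]
    refine hzt (eqv (algebraMap _ M t)) t.2 ?_
    rw [Ne, map_eq_zero_iff _ eqv.injective, map_eq_zero]
    exact ht

end main

end Pool.Agent.H889.PS
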