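import Pool.Agent.H889.PS.Emb

/-!
# The Gauss valuation has only one prolongation
-/

set_option autoImplicit false
set_option linter.all false

open Polynomial FF

namespace Pool.Agent.H889.PS

open Pool.Agent.Y157.PS Pool.Agent.Y31.PS

/-- existence of places above a point -/
theorem exists_place {ℓ : ℕ} {κ R M : Type} [Field κ] [Field R] [Field M] [Algebra κ R]
    [Algebra R M] [Algebra κ M] [IsScalarTower κ R M] {x : R} {B : Finset κ} {ε : κ → ℕ} {ι : ℕ}
    {N₀ : IntermediateField R M} (h : GCov ℓ κ R M x B ε ι N₀) (b : κ) :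
    ∃ W : Place κ M, 0 < W.ord (algebraMap R M x - algebraMap κ M b) := by
  have hinj : Function.Injective (aeval (algebraMap R M x) : κ[X] →ₐ[κ] M) := by
    rw [injective_iff_map_eq_zero]
    intro P hP
    rw [aeval_algebraMap_apply, map_eq_zero] at hP
    exact (transcendental_iff.1 h.rat.trans) P hP
  let A : Subring M := (aeval (algebraMap R M x) : κ[X] →ₐ[κ] M).toRingHom.range
  let t : A := ⟨aeval (algebraMap R M x) (X - C b), ⟨X - C b, rfl⟩⟩
  have ht : ¬ IsUnit t := by
    rintro ⟨u, hu⟩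
    obtain ⟨Q, hQ⟩ := (u⁻¹ : Aˣ).1.2
    have h1 : (t : M) * (u⁻¹ : Aˣ).1.1 = 1 := by
      have : (u.1 : A) * (u⁻¹ : Aˣ).1 = 1 := u.mul_inv
      rw [hu] at this
      exact congrArg Subtype.val this
    have h2 : aeval (algebraMap R M x) ((X - C b) * Q) = aeval (algebraMap R M x) (1 : κ[X]) := by
      rw [map_mul, map_one, ← h1]
      congr 1
    have h3 := hinj h2
    have h4 : IsUnit (X - C b) := IsUnit.of_mul_eq_one _ h3
    exact Polynomial.not_isUnit_X_sub_C b h4
  obtain ⟨V, hAV, hV⟩ := Ideal.image_subset_nonunits_valuationSubring (Ideal.span {t})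
    (by rwa [Ne, Ideal.span_singleton_eq_top])
  have ht2 : (t : M) ∈ V.nonunits := hV ⟨t, Ideal.mem_span_singleton_self t, rfl⟩
  have ht3 : (t : M) = algebraMap R M x - algebraMap κ M b := by
    change aeval (algebraMap R M x) (X - C b) = _
    rw [map_sub, aeval_X, aeval_C]
  have hκ : ∀ c : κ, algebraMap κ M c ∈ V := by
    intro c
    apply hAV
    exact ⟨C c, by
      change aeval (algebraMap R M x) (C c) = _
      rw [aeval_C]⟩
  have ht0 : (t : M) ≠ 0 := by
    intro h0
    change aeval (algebraMap R M x) (X - C b) = 0 at h0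
    have h1 := (injective_iff_map_eq_zero _).1 hinj _ h0
    exact X_sub_C_ne_zero b h1
  have hVt : V ≠ ⊤ := by
    intro hV
    rw [hV, ValuationSubring.mem_nonunits_iff_or] at ht2
    rcases ht2 with h1 | h1
    · exact ht0 h1
    · exact h1 (ValuationSubring.mem_top _)
  obtain ⟨W, hW, -⟩ := h.loc V hκ hVt
  refine ⟨W, ?_⟩
  rw [← ht3]
  by_contra hc
  have h1 : (t : M)⁻¹ ∈ W.O := by
    rw [Place.mem_O, W.reg_iff (inv_ne_zero ht0), W.ord_inv]
    omega
  rw [hW] at h1
  rw [ValuationSubring.mem_nonunits_iff_or] at ht2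
  rcases ht2 with h2 | h2
  · exact ht0 h2
  · exact h2 h1

/-- places above a finite point -/
theorem ord_at {ℓ : ℕ} [Fact ℓ.Prime] {κ R M : Type} [Field κ] [Field R] [Field M] [Algebra κ R]
    [Algebra R M] [Algebra κ M] [IsScalarTower κ R M] {x : R} {B : Finset κ} {ε : κ → ℕ} {ι : ℕ}
    {N₀ : IntermediateField R M} (h : GCov ℓ κ R M x B ε ι N₀) {b : κ}
    {W : Place κ M} (hW : 0 < W.ord (algebraMap R M x - algebraMap κ M b)) :
    W.ord (algebraMap R M x - algebraMap κ M b) = (ℓ : ℤ) ^ ε b := by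
  have hpos : ∀ n : ℕ, (0 : ℤ) < (ℓ : ℤ) ^ n := fun n => by
    have := (Fact.out : ℓ.Prime).pos
    positivity
  rcases (h.loc' W).1 with ⟨a, ha⟩ | h1
  · have h2 := Pool.Agent.Y248.PS.point_unique W hW (b := a) (by rw [ha]; exact hpos _)
    rw [h2, ha]
  · exfalso
    have h2 := Pool.Agent.Y248.PS.not_pole W hW
    have := hpos ι
    omega

/-- Kummer generators -/
theorem exists_kummer {κ R N : Type} [Field κ] [Field R] [Field N] [Algebra κ R] [Algebra κ N]
    [Algebra R N] [IsScalarTower κ R N] [FiniteDimensional R N] [IsGalois R N]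
    (χ : (N ≃ₐ[R] N) →* κˣ) :
    ∃ β : N, β ≠ 0 ∧ ∀ σ : N ≃ₐ[R] N, σ β = algebraMap κ N (χ σ) * β := by
  let f : (N ≃ₐ[R] N) → Nˣ := fun σ => Units.map (algebraMap κ N).toMonoidHom (χ σ)
  have hf : groupCohomology.IsMulCocycle₁ f := by
    intro g h
    ext
    have : g • (f h) = f h := by
      ext
      exact aut_const g _
    rw [this]
    simp only [f, map_mul, Units.val_mul, mul_comm]
  obtain ⟨β, hβ⟩ := groupCohomology.isMulCoboundary₁_of_isMulCocycle₁_of_aut_to_units f hf
  refine ⟨β, β.ne_zero, fun σ => ?_⟩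
  have := hβ σ
  rw [div_eq_iff_eq_mul] at this
  have h2 := congrArg (fun u : Nˣ => (u : N)) this
  exact h2

section residue

variable {κ R M : Type} [Field κ] [Field R] [Field M] [Algebra κ R] [Algebra R M] [Algebra κ M]
  [IsScalarTower κ R M] {x : R} {V : ValuationSubring κ} {O : ValuationSubring M}

/-- a polynomial with integral coefficients which is a nonunit at `x` has nonunit coefficients -/
theorem gauss_nonunit (hG : Gauss V (algebraMap R M x) O) {p : κ[X]} (hp : ∀ n, p.coeff n ∈ V)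
    (h : aeval (algebraMap R M x) p ∈ O.nonunits) : ∀ n, p.coeff n ∈ V.nonunits := by
  intro n
  rcases Pool.Agent.Y155.PS.isU_or_non V (hp n) with h1 | h1
  · exact absurd (hG.2 p hp ⟨n, h1⟩) (Pool.Agent.Y155.PS.not_isU_of_non O h)
  · exact h1

theorem gauss_int (hG : Gauss V (algebraMap R M x) O) {p : κ[X]} (hp : ∀ n, p.coeff n ∈ V) :
    aeval (algebraMap R M x) p ∈ O := by
  have hx : algebraMap R M x ∈ O := by
    have h1 := hG.2 X (fun n => by
      rw [coeff_X]; split_ifs; exact one_mem _; exact zero_mem _) ⟨1, by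
      rw [coeff_X_one]; exact ⟨one_ne_zero, one_mem _, by rw [inv_one]; exact one_mem _⟩⟩
    rw [aeval_X] at h1
    exact h1.2.1
  rw [aeval_eq_sum_range]
  refine sum_mem fun i _ => ?_
  rw [Algebra.smul_def]
  exact mul_mem ((hG.1 _).2 (hp i)) (pow_mem hx i)

end residue

theorem exists_lift {κ : Type} [Field κ] {V : ValuationSubring κ} {p : κ[X]}
    (hp : ∀ n, p.coeff n ∈ V) : ∃ p₀ : V[X], p₀.map (algebraMap V κ) = p := by
  have h1 : p ∈ Polynomial.lifts (algebraMap V κ) := by
    rw [Polynomial.lifts_iff_coeff_lifts]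
    intro n
    exact ⟨⟨p.coeff n, hp n⟩, rfl⟩
  exact (Polynomial.mem_lifts _).1 h1

theorem residue_zero {κ : Type} [Field κ] {V : ValuationSubring κ} (c : V)
    (h : (c : κ) ∈ V.nonunits) : IsLocalRing.residue V c = 0 := by
  rw [IsLocalRing.residue_eq_zero_iff]
  exact (V.coe_mem_nonunits_iff).1 h

/-- a product with exponents prime to `ℓ` is not an `ℓ`-th power in the residue field -/
theorem not_pow_residue {ℓ : ℕ} (hℓ : 0 < ℓ) {κ : Type} [Field κ] {V : ValuationSubring κ}
    {B : Finset κ} (hB : Good V B) (c : κ → ℕ) {e₀ : κ} (he₀ : e₀ ∈ B) (hc : ¬ ℓ ∣ c e₀)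
    {p q : κ[X]} (hp : ∀ n, p.coeff n ∈ V) (hq : ∀ n, q.coeff n ∈ V)
    (hq1 : ∃ n, IsU V (q.coeff n)) :
    ¬ ∀ n, (p ^ ℓ - (∏ e ∈ B, (X - C e) ^ c e) * q ^ ℓ).coeff n ∈ V.nonunits := by
  classical
  intro hcon
  obtain ⟨p₀, hp₀⟩ := exists_lift hp
  obtain ⟨q₀, hq₀⟩ := exists_lift hq
  let lf : κ → V := fun e => if h : e ∈ V then ⟨e, h⟩ else 0
  have hlf : ∀ e ∈ B, algebraMap V κ (lf e) = e := by
    intro e he
    have h1 : lf e = ⟨e, hB.1 e he⟩ := dif_pos (hB.1 e he)
    rw [h1]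
    rfl
  have hinj : Function.Injective (algebraMap V κ) := Subtype.val_injective
  set P₀ : V[X] := ∏ e ∈ B, (X - C (lf e)) ^ c e with hP₀
  have hP : P₀.map (algebraMap V κ) = ∏ e ∈ B, (X - C e) ^ c e := by
    rw [hP₀, Polynomial.map_prod]
    refine Finset.prod_congr rfl fun e he => ?_
    rw [Polynomial.map_pow, Polynomial.map_sub, map_X, map_C, hlf e he]
  set ρ := IsLocalRing.residue V with hρ
  have hkey : (p₀ ^ ℓ - P₀ * q₀ ^ ℓ).map ρ = 0 := by
    ext n
    rw [coeff_map, coeff_zero]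
    apply residue_zero
    have h1 := hcon n
    rw [← hp₀, ← hq₀, ← hP, ← Polynomial.map_pow, ← Polynomial.map_pow, ← Polynomial.map_mul,
      ← Polynomial.map_sub, coeff_map] at h1
    exact h1
  rw [Polynomial.map_sub, Polynomial.map_pow, Polynomial.map_mul, Polynomial.map_pow,
    sub_eq_zero] at hkey
  have hqb : q₀.map ρ ≠ 0 := by
    intro h0
    obtain ⟨n, hn⟩ := hq1
    have h1 : (q₀.map ρ).coeff n = 0 := by rw [h0, coeff_zero]
    rw [coeff_map, hρ, IsLocalRing.residue_eq_zero_iff] at h1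
    rw [← hq₀, coeff_map] at hn
    exact Pool.Agent.Y155.PS.not_isU_of_non V ((V.coe_mem_nonunits_iff).2 h1) hn
  have hPb : P₀.map ρ = ∏ e ∈ B, (X - C (ρ (lf e))) ^ c e := by
    rw [hP₀, Polynomial.map_prod]
    refine Finset.prod_congr rfl fun e he => ?_
    rw [Polynomial.map_pow, Polynomial.map_sub, map_X, map_C]
  have hPb0 : P₀.map ρ ≠ 0 := by
    rw [hPb, Finset.prod_ne_zero_iff]
    intro e _
    exact pow_ne_zero _ (X_sub_C_ne_zero _)
  have hpb : p₀.map ρ ≠ 0 := by
    intro h0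
    rw [h0, zero_pow hℓ.ne'] at hkey
    exact mul_ne_zero hPb0 (pow_ne_zero _ hqb) hkey.symm
  have hmult : (P₀.map ρ).rootMultiplicity (ρ (lf e₀)) = c e₀ := by
    have h1 : P₀.map ρ = (X - C (ρ (lf e₀))) ^ c e₀ *
        ∏ e ∈ B.erase e₀, (X - C (ρ (lf e))) ^ c e := by
      rw [hPb, Finset.mul_prod_erase B (fun e => (X - C (ρ (lf e))) ^ c e) he₀]
    have h2 : (∏ e ∈ B.erase e₀, (X - C (ρ (lf e))) ^ c e).eval (ρ (lf e₀)) ≠ 0 := by
      rw [eval_prod, Finset.prod_ne_zero_iff]
      intro e he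
      rw [eval_pow, eval_sub, eval_X, eval_C]
      apply pow_ne_zero
      rw [← map_sub]
      intro h0
      rw [hρ, IsLocalRing.residue_eq_zero_iff] at h0
      obtain ⟨hne, heB⟩ := Finset.mem_erase.1 he
      have h3 := hB.2 e₀ he₀ e heB (Ne.symm hne)
      have h4 : ((lf e₀ - lf e : V) : κ) = e₀ - e := by
        have := hlf e₀ he₀
        have h5 := hlf e heB
        change ((lf e₀ : V) : κ) - ((lf e : V) : κ) = e₀ - e
        change ((lf e₀ : V) : κ) = e₀ at this
        change ((lf e : V) : κ) = e at h5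
        rw [this, h5]
      rw [← h4] at h3
      exact Pool.Agent.Y155.PS.not_isU_of_non V ((V.coe_mem_nonunits_iff).2 h0) h3
    have h3 : (∏ e ∈ B.erase e₀, (X - C (ρ (lf e))) ^ c e) ≠ 0 := by
      intro h0
      rw [h0, eval_zero] at h2
      exact h2 rfl
    rw [h1, rootMultiplicity_mul (mul_ne_zero (pow_ne_zero _ (X_sub_C_ne_zero _)) h3),
      rootMultiplicity_X_sub_C_pow, rootMultiplicity_eq_zero (by rwa [IsRoot.def]), add_zero]
  have h5 : ((p₀.map ρ) ^ ℓ).rootMultiplicity (ρ (lf e₀)) =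
      (P₀.map ρ * (q₀.map ρ) ^ ℓ).rootMultiplicity (ρ (lf e₀)) := by rw [hkey]
  have hpow : ∀ (P : (IsLocalRing.ResidueField V)[X]), P ≠ 0 → ∀ n : ℕ,
      (P ^ n).rootMultiplicity (ρ (lf e₀)) = n * P.rootMultiplicity (ρ (lf e₀)) := by
    intro P hP n
    induction n with
    | zero => simp
    | succ n ih =>
      rw [pow_succ, rootMultiplicity_mul (mul_ne_zero (pow_ne_zero _ hP) hP), ih]
      ring
  rw [rootMultiplicity_mul (mul_ne_zero hPb0 (pow_ne_zero _ hqb)), hpow _ hpb, hpow _ hqb,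
    hmult] at h5
  apply hc
  have h6 : ℓ ∣ c e₀ + ℓ * (q₀.map ρ).rootMultiplicity (ρ (lf e₀)) := by
    rw [← h5]; exact dvd_mul_right _ _
  exact (Nat.dvd_add_left (dvd_mul_right _ _)).1 h6

section kummer

variable {κ R M : Type} [Field κ] [Field R] [Field M] [Algebra κ R] [Algebra R M] [Algebra κ M]
  [IsScalarTower κ R M] {x : R} {V : ValuationSubring κ} {O : ValuationSubring M} {B : Finset κ}

/-- a Kummer generator with branch points that stay distinct has a monomial Gauss valuation -/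
theorem kummer_val {ℓ : ℕ} [hℓ : Fact ℓ.Prime] (hx : RatF κ x)
    (hG : Gauss V (algebraMap R M x) O) (hB : Good V B) (c : κ → ℕ) {e₀ : κ} (he₀ : e₀ ∈ B)
    (hc : ¬ ℓ ∣ c e₀) {y : M} (hy : y ^ ℓ = aeval (algebraMap R M x) (∏ e ∈ B, (X - C e) ^ c e))
    (p : R[X]) (hp : p.natDegree < ℓ) (hpO : aeval y p ∈ O) :
    ∀ i, algebraMap R M (p.coeff i) ∈ O := by
  classical
  by_contra hcon
  push Not at hcon
  obtain ⟨i₁, hi₁⟩ := hcon
  have hp0 : p ≠ 0 := by
    rintro rfl
    rw [coeff_zero, map_zero] at hi₁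
    exact hi₁ (zero_mem _)
  obtain ⟨i, hi, hmax⟩ := Finset.exists_max_image p.support
    (fun n => O.valuation (algebraMap R M (p.coeff n))) (Polynomial.support_nonempty.2 hp0)
  have hi₁s : i₁ ∈ p.support := by
    rw [mem_support_iff]
    intro h0
    rw [h0, map_zero] at hi₁
    exact hi₁ (zero_mem _)
  have hgt : 1 < O.valuation (algebraMap R M (p.coeff i)) := by
    refine lt_of_lt_of_le ?_ (hmax i₁ hi₁s)
    rw [← not_le, O.valuation_le_one_iff]
    exact hi₁
  obtain ⟨d, hd, hdv⟩ := Pool.Agent.Y155.PS.R_val hx hG (mem_support_iff.1 hi)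
  have hdM : algebraMap κ M d ≠ 0 := by rwa [Ne, map_eq_zero]
  have hdv0 : O.valuation (algebraMap κ M d) ≠ 0 := (Valuation.ne_zero_iff _).2 hdM
  set OR : ValuationSubring R := O.comap (algebraMap R M) with hOR
  have hORmem : ∀ z : R, z ∈ OR ↔ algebraMap R M z ∈ O := fun z => Iff.rfl
  set p' : R[X] := C (algebraMap κ R d)⁻¹ * p with hp'
  have hp'c : ∀ n, algebraMap R M (p'.coeff n) =
      (algebraMap κ M d)⁻¹ * algebraMap R M (p.coeff n) := by
    intro n
    rw [hp', coeff_C_mul, map_mul, map_inv₀, ← IsScalarTower.algebraMap_apply]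
  have hp'O : ∀ n, p'.coeff n ∈ OR := by
    intro n
    rw [hORmem, hp'c, ← O.valuation_le_one_iff, map_mul, map_inv₀]
    by_cases hn : n ∈ p.support
    · rw [inv_mul_le_iff₀ (zero_lt_iff.2 hdv0), mul_one, ← hdv]
      exact hmax n hn
    · rw [notMem_support_iff.1 hn, map_zero, map_zero, mul_zero]
      exact zero_le'
  have hp'i : O.valuation (algebraMap R M (p'.coeff i)) = 1 := by
    rw [hp'c, map_mul, map_inv₀, hdv, inv_mul_cancel₀ hdv0]
  have hp'y : O.valuation (aeval y p') < 1 := by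
    rw [hp', map_mul, aeval_C, map_inv₀, ← IsScalarTower.algebraMap_apply, map_mul, map_inv₀]
    have h1 : O.valuation (aeval y p) ≤ 1 := (O.valuation_le_one_iff _).2 hpO
    rw [inv_mul_lt_iff₀ (zero_lt_iff.2 hdv0), mul_one, ← hdv]
    exact lt_of_le_of_lt h1 hgt
  -- the residue fields
  let f : OR →+* O := (algebraMap R M).restrict OR O (fun z hz => hz)
  have hf : ∀ z : OR, ((f z : O) : M) = algebraMap R M (z : R) := fun z => rfl
  haveI : IsLocalHom f := by
    constructor
    intro a ha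
    have h0 : (a : R) ≠ 0 := by
      intro h0
      have h1 : f a = 0 := Subtype.ext (by rw [hf, h0, map_zero]; rfl)
      rw [h1] at ha
      exact not_isUnit_zero ha
    have h1 : (a : R)⁻¹ ∈ OR := by
      rw [hORmem, map_inv₀]
      obtain ⟨b, hb⟩ := ha.exists_right_inv
      have h2 : algebraMap R M (a : R) * (b : M) = 1 := by
        have := congrArg Subtype.val hb
        exact this
      rw [← eq_inv_of_mul_eq_one_right h2]
      exact b.2
    exact IsUnit.of_mul_eq_one (⟨_, h1⟩ : OR) (Subtype.ext (mul_inv_cancel₀ h0))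
  let K₀ := IsLocalRing.ResidueField OR
  let k := IsLocalRing.ResidueField O
  let j : K₀ →+* k := IsLocalRing.ResidueField.map f
  letI : Algebra K₀ k := j.toAlgebra
  have hj : ∀ z : OR, algebraMap K₀ k (IsLocalRing.residue OR z) = IsLocalRing.residue O (f z) :=
    fun z => rfl
  obtain ⟨p'', hp''⟩ : ∃ p'' : OR[X], p''.map (algebraMap OR R) = p' := exists_lift hp'O
  set P : κ[X] := ∏ e ∈ B, (X - C e) ^ c e with hP
  have hPV : ∀ n, P.coeff n ∈ V := by
    have h1 : ∀ S : Finset κ, S ⊆ B → ∀ n, (∏ e ∈ S, (X - C e) ^ c e : κ[X]).coeff n ∈ V := by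
      have hlift : ∀ Q : κ[X], (∀ n, Q.coeff n ∈ V) ↔ Q ∈ Polynomial.lifts (algebraMap V κ) := by
        intro Q
        rw [Polynomial.lifts_iff_coeff_lifts]
        constructor
        · intro h n; exact ⟨⟨_, h n⟩, rfl⟩
        · intro h n
          obtain ⟨v, hv⟩ := h n
          rw [← hv]; exact v.2
      intro S hS
      rw [hlift]
      refine Subsemiring.prod_mem _ fun e he => Subsemiring.pow_mem _ ?_ _
      rw [← hlift]
      intro n
      rw [coeff_sub, coeff_X, coeff_C]
      refine sub_mem ?_ ?_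
      · split_ifs; exact one_mem _; exact zero_mem _
      · split_ifs; exact hB.1 e (hS he); exact zero_mem _
    exact h1 B (Finset.Subset.refl _)
  have hPmonic : P.Monic := monic_prod_of_monic _ _ fun e _ => (monic_X_sub_C e).pow _
  have hPU : IsU O (aeval (algebraMap R M x) P) := by
    refine hG.2 P hPV ⟨P.natDegree, ?_⟩
    rw [hPmonic.coeff_natDegree]
    exact ⟨one_ne_zero, one_mem _, by rw [inv_one]; exact one_mem _⟩
  have hgOR : aeval x P ∈ OR := by
    rw [hORmem, Pool.Agent.Y155.PS.aeval_R]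
    exact hPU.2.1
  have hyO : y ∈ O := by
    rw [← O.valuation_le_one_iff]
    have h1 : O.valuation y ^ ℓ = 1 := by
      rw [← map_pow, hy]
      exact (Pool.Agent.Y155.PS.isU_iff O).1 hPU
    exact (pow_left_injective hℓ.out.ne_zero (by
      change O.valuation y ^ ℓ = 1 ^ ℓ
      rw [h1, one_pow])).le
  set g : K₀ := IsLocalRing.residue OR ⟨aeval x P, hgOR⟩ with hg
  have hirr : Irreducible (X ^ ℓ - C g : K₀[X]) := by
    apply X_pow_sub_C_irreducible_of_prime hℓ.out
    intro b hb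
    obtain ⟨r, rfl⟩ := IsLocalRing.residue_surjective b
    rw [hg, ← map_pow, ← sub_eq_zero, ← map_sub, IsLocalRing.residue_eq_zero_iff] at hb
    have hb1 : algebraMap R M (((r ^ ℓ - ⟨aeval x P, hgOR⟩ : OR) : R)) ∈ O.nonunits := by
      have h1 : (r ^ ℓ - ⟨aeval x P, hgOR⟩ : OR) ∈ nonunits OR := hb
      have h2 : f (r ^ ℓ - ⟨aeval x P, hgOR⟩ : OR) ∈ nonunits O := by
        intro h3
        exact h1 (IsLocalHom.map_nonunit _ h3)
      exact (O.coe_mem_nonunits_iff).2 h2
    have hb2 : algebraMap R M ((r : R) ^ ℓ) - aeval (algebraMap R M x) P ∈ O.nonunits := by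
      have h1 : algebraMap R M (((r ^ ℓ - ⟨aeval x P, hgOR⟩ : OR) : R)) =
          algebraMap R M ((r : R) ^ ℓ) - aeval (algebraMap R M x) P := by
        rw [← Pool.Agent.Y155.PS.aeval_R, ← map_sub]
        rfl
      rwa [h1] at hb1
    have hrv : O.valuation (algebraMap R M (r : R)) = 1 := by
      have h1 : O.valuation (algebraMap R M ((r : R) ^ ℓ)) = 1 := by
        have h2 : algebraMap R M ((r : R) ^ ℓ) = (algebraMap R M ((r : R) ^ ℓ) -
          aeval (algebraMap R M x) P) + aeval (algebraMap R M x) P := by ring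
        rw [h2]
        have h3 := (Pool.Agent.Y155.PS.isU_iff O).1 hPU
        rw [Valuation.map_add_eq_of_lt_right, h3]
        rw [h3]
        exact (Pool.Agent.Y155.PS.non_iff O).1 hb2
      rw [map_pow, map_pow] at h1
      exact pow_left_injective hℓ.out.ne_zero (by
        change O.valuation (algebraMap R M (r : R)) ^ ℓ = 1 ^ ℓ
        rw [h1, one_pow])
    have hr0 : (r : R) ≠ 0 := by
      intro h0
      rw [h0, map_zero, map_zero] at hrv
      exact zero_ne_one hrv
    obtain ⟨d', hd', p₁, q₁, hp₁, hp₁u, hq₁, hq₁u, hr⟩ :=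
      Pool.Agent.Y155.PS.R_repr (V := V) hx hr0
    have e1 := (Pool.Agent.Y155.PS.isU_iff O).1 (hG.2 p₁ hp₁ hp₁u)
    have e2 := (Pool.Agent.Y155.PS.isU_iff O).1 (hG.2 q₁ hq₁ hq₁u)
    have hd'v : O.valuation (algebraMap κ M d') = 1 := by
      rw [hr, map_mul, map_div₀, Pool.Agent.Y155.PS.aeval_R, Pool.Agent.Y155.PS.aeval_R, map_mul,
        map_div₀, e1, e2, div_one, mul_one, ← IsScalarTower.algebraMap_apply] at hrv
      exact hrv
    have hd'V : d' ∈ V := by
      rw [← V.valuation_le_one_iff, ← Pool.Agent.Y155.PS.g_le hG, hd'v]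
    have hq₁0 : aeval (algebraMap R M x) q₁ ≠ 0 := (hG.2 q₁ hq₁ hq₁u).1
    have hCp : ∀ n, (C d' * p₁).coeff n ∈ V := by
      intro n
      rw [coeff_C_mul]
      exact mul_mem hd'V (hp₁ n)
    refine not_pow_residue hℓ.out.pos hB c he₀ hc hCp hq₁ hq₁u ?_
    rw [← hP]
    have hlift : ∀ Q : κ[X], (∀ n, Q.coeff n ∈ V) ↔ Q ∈ Polynomial.lifts (algebraMap V κ) := by
      intro Q
      rw [Polynomial.lifts_iff_coeff_lifts]
      constructor
      · intro h n; exact ⟨⟨_, h n⟩, rfl⟩
      · intro h n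
        obtain ⟨v, hv⟩ := h n
        rw [← hv]; exact v.2
    refine gauss_nonunit hG ?_ ?_
    · intro n
      rw [coeff_sub]
      refine sub_mem ?_ ?_
      · exact (hlift _).2 (Subsemiring.pow_mem _ ((hlift _).1 hCp) _) n
      · exact (hlift _).2 (Subsemiring.mul_mem _ ((hlift _).1 hPV)
          (Subsemiring.pow_mem _ ((hlift _).1 hq₁) _)) n
    · have h1 : aeval (algebraMap R M x) ((C d' * p₁) ^ ℓ - P * q₁ ^ ℓ) =
          (aeval (algebraMap R M x) q₁) ^ ℓ *
            (algebraMap R M ((r : R) ^ ℓ) - aeval (algebraMap R M x) P) := by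
        have h0 : algebraMap R M (r : R) = algebraMap κ M d' *
            (aeval (algebraMap R M x) p₁ / aeval (algebraMap R M x) q₁) := by
          rw [hr, map_mul, map_div₀, Pool.Agent.Y155.PS.aeval_R, Pool.Agent.Y155.PS.aeval_R,
            ← IsScalarTower.algebraMap_apply]
        have hq₂ := pow_ne_zero ℓ hq₁0
        rw [map_sub, map_mul, map_pow, map_pow, map_mul, aeval_C, map_pow, h0, mul_pow, mul_pow,
          div_pow, mul_sub, mul_comm (aeval (algebraMap R M x) P)]
        congr 1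
        rw [mul_left_comm, mul_div_cancel₀ _ hq₂]
      rw [h1, Pool.Agent.Y155.PS.non_iff, map_mul, map_pow, e2, one_pow, one_mul]
      exact (Pool.Agent.Y155.PS.non_iff O).1 hb2
  -- the minimal polynomial of the residue of `y`
  set yb : k := IsLocalRing.residue O ⟨y, hyO⟩ with hyb
  have hyb1 : aeval yb (X ^ ℓ - C g : K₀[X]) = 0 := by
    rw [map_sub, map_pow, aeval_X, aeval_C, hyb, hg, hj, ← map_pow, ← map_sub]
    have h1 : (⟨y, hyO⟩ : O) ^ ℓ - f ⟨aeval x P, hgOR⟩ = 0 := by
      apply Subtype.ext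
      change y ^ ℓ - algebraMap R M (aeval x P) = 0
      rw [hy, Pool.Agent.Y155.PS.aeval_R, sub_self]
    rw [h1, map_zero]
  have hmin : minpoly K₀ yb = X ^ ℓ - C g :=
    (minpoly.eq_of_irreducible_of_monic hirr hyb1 (monic_X_pow_sub_C g hℓ.out.ne_zero)).symm
  set pb : K₀[X] := p''.map (IsLocalRing.residue OR) with hpb
  have hpb0 : pb ≠ 0 := by
    intro h0
    have h1 : pb.coeff i = 0 := by rw [h0, coeff_zero]
    rw [hpb, coeff_map, IsLocalRing.residue_eq_zero_iff] at h1
    have h2 : f (p''.coeff i) ∈ nonunits O := by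
      intro h3
      exact h1 (IsLocalHom.map_nonunit _ h3)
    have h3 := (O.coe_mem_nonunits_iff).2 h2
    have h4 : ((f (p''.coeff i) : O) : M) = algebraMap R M (p'.coeff i) := by
      rw [hf, ← hp'', coeff_map]
      rfl
    rw [h4, Pool.Agent.Y155.PS.non_iff, hp'i] at h3
    exact lt_irrefl _ h3
  have hpby : aeval yb pb = 0 := by
    have h1 : aeval yb pb = IsLocalRing.residue O (eval₂ f ⟨y, hyO⟩ p'') := by
      rw [hpb, aeval_def, eval₂_map, hom_eval₂]
      rfl
    rw [h1]
    apply residue_zero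
    have h2 : ((eval₂ f ⟨y, hyO⟩ p'' : O) : M) = aeval y p' := by
      rw [← hp'', aeval_def, eval₂_map]
      change O.subtype (eval₂ f ⟨y, hyO⟩ p'') = _
      rw [hom_eval₂]
      rfl
    rw [h2, Pool.Agent.Y155.PS.non_iff]
    exact hp'y
  have h1 := minpoly.degree_le_of_ne_zero K₀ yb hpb0 hpby
  rw [hmin, degree_X_pow_sub_C hℓ.out.pos] at h1
  have h2 : pb.degree < (ℓ : WithBot ℕ) := by
    have h3 : pb.natDegree < ℓ := by
      calc pb.natDegree ≤ p''.natDegree := natDegree_map_le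
        _ = p'.natDegree := by
          rw [← hp'']
          exact (natDegree_map_eq_of_injective Subtype.val_injective p'').symm
        _ ≤ p.natDegree := by
          rw [hp']
          exact natDegree_C_mul_le _ _
        _ < ℓ := hp
    exact (natDegree_lt_iff_degree_lt hpb0).1 h3
  exact absurd h1 (not_le.2 h2)

end kummer

end Pool.Agent.H889.PS
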