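import Pool.Agent.H889.PS.Gun

/-!
# The Gauss valuation has only one prolongation (2)
-/

set_option autoImplicit false
set_option linter.all false

open Polynomial FF

namespace Pool.Agent.H889.PS

open Pool.Agent.Y157.PS Pool.Agent.Y31.PS

/-- normalised Kummer generators -/
theorem normalise {ℓ : ℕ} [hℓ : Fact ℓ.Prime] {κ R M : Type} [Field κ] [IsAlgClosed κ] [CharZero κ]
    [Field R] [Field M] [Algebra κ R] [Algebra R M] [Algebra κ M] [IsScalarTower κ R M] {x : R}
    {B : Finset κ} {ε : κ → ℕ} {ι : ℕ} {N₀ : IntermediateField R M}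
    (h : GCov ℓ κ R M x B ε ι N₀) {β : M} (hβ0 : β ≠ 0) {r : R} (hr : β ^ ℓ = algebraMap R M r) :
    ∃ (t : R) (c : κ → ℕ), t ≠ 0 ∧ (∀ e, c e < ℓ) ∧
      (β * algebraMap R M t) ^ ℓ = aeval (algebraMap R M x) (∏ e ∈ B, (X - C e) ^ c e) := by
  classical
  have hp : ℓ.Prime := hℓ.out
  have hr0 : r ≠ 0 := by
    rintro rfl
    rw [map_zero] at hr
    exact hβ0 (pow_eq_zero_iff hp.ne_zero |>.1 hr)
  obtain ⟨P, Q, hQ, hPQ, hQ0⟩ := Pool.Agent.Y155.PS.rat_repr h.rat r
  have hP : P ≠ 0 := by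
    rintro rfl
    rw [map_zero, zero_div] at hPQ
    exact hr0 hPQ
  set P₁ : κ[X] := P * Q ^ (ℓ - 1) with hP₁
  have hP₁0 : P₁ ≠ 0 := mul_ne_zero hP (pow_ne_zero _ hQ)
  obtain ⟨c₁, hc₁⟩ := IsAlgClosed.exists_pow_nat_eq P₁.leadingCoeff hp.pos
  have hc₁0 : c₁ ≠ 0 := by
    rintro rfl
    rw [zero_pow hp.ne_zero] at hc₁
    exact leadingCoeff_ne_zero.2 hP₁0 hc₁.symm
  set T : Finset κ := P₁.roots.toFinset ∪ B with hT
  have hfac : P₁ = C P₁.leadingCoeff * ∏ b ∈ T, (X - C b) ^ P₁.rootMultiplicity b := by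
    have h2 := (IsAlgClosed.splits P₁).eq_prod_roots
    conv_lhs => rw [h2]
    rw [Finset.prod_multiset_map_count]
    congr 1
    rw [← Finset.prod_subset (Finset.subset_union_left : P₁.roots.toFinset ⊆ T)]
    · refine Finset.prod_congr rfl fun b _ => ?_
      rw [count_roots]
    · intro b _ hb
      rw [Multiset.mem_toFinset, mem_roots hP₁0] at hb
      rw [rootMultiplicity_eq_zero hb, pow_zero]
  set c : κ → ℕ := fun b => P₁.rootMultiplicity b % ℓ with hc
  set D : κ[X] := C c₁ * ∏ b ∈ T, (X - C b) ^ (P₁.rootMultiplicity b / ℓ) with hD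
  have hD0 : D ≠ 0 := by
    rw [hD]
    refine mul_ne_zero (C_ne_zero.2 hc₁0) (Finset.prod_ne_zero_iff.2 fun b _ => ?_)
    exact pow_ne_zero _ (X_sub_C_ne_zero _)
  have hDP : P₁ = D ^ ℓ * ∏ b ∈ T, (X - C b) ^ c b := by
    conv_lhs => rw [hfac]
    rw [hD, mul_pow, ← C_pow, hc₁, ← Finset.prod_pow, mul_assoc, ← Finset.prod_mul_distrib]
    congr 1
    refine Finset.prod_congr rfl fun b _ => ?_
    rw [← pow_mul, ← pow_add]
    congr 1
    rw [hc]
    simp only
    rw [mul_comm]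
    exact (Nat.div_add_mod _ _).symm
  have hinj : ∀ p : κ[X], p ≠ 0 → aeval x p ≠ 0 := fun p hp0 h0 =>
    hp0 ((transcendental_iff.1 h.rat.trans) p h0)
  have hDx := hinj D hD0
  -- the new generator
  set t : R := aeval x Q / aeval x D with ht
  have ht0 : t ≠ 0 := div_ne_zero hQ0 hDx
  have hy : (β * algebraMap R M t) ^ ℓ =
      aeval (algebraMap R M x) (∏ b ∈ T, (X - C b) ^ c b) := by
    rw [mul_pow, hr, ← map_pow, ← map_mul, ← Pool.Agent.Y155.PS.aeval_R]
    congr 1
    have h1 : aeval x P₁ = aeval x P * (aeval x Q) ^ (ℓ - 1) := by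
      rw [hP₁, map_mul, map_pow]
    have h2 : aeval x P₁ = (aeval x D) ^ ℓ * aeval x (∏ b ∈ T, (X - C b) ^ c b) := by
      conv_lhs => rw [hDP]
      rw [map_mul, map_pow]
    have h3 : aeval x P * (aeval x Q) ^ (ℓ - 1) =
        (aeval x D) ^ ℓ * aeval x (∏ b ∈ T, (X - C b) ^ c b) := by rw [← h1, h2]
    have h4 : (aeval x Q) ^ ℓ = aeval x Q * (aeval x Q) ^ (ℓ - 1) := by
      rw [← pow_succ']
      congr 1
      have := hp.pos
      omega
    rw [hPQ, ht, div_pow, h4]
    have h5 := pow_ne_zero ℓ hDx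
    rw [div_mul_div_comm, div_eq_iff (mul_ne_zero hQ0 h5)]
    linear_combination (aeval x Q) * h3
  refine ⟨t, fun b => if b ∈ B then c b else 0, ht0, fun e => ?_, ?_⟩
  · show (if e ∈ B then c e else 0) < ℓ
    split_ifs
    · exact Nat.mod_lt _ hp.pos
    · exact hp.pos
  · rw [hy]
    congr 1
    rw [← Finset.prod_subset (Finset.subset_union_right : B ⊆ T)]
    · refine Finset.prod_congr rfl fun b hb => ?_
      simp only
      rw [if_pos hb]
    · intro b hbT hb
      have hcb : c b = 0 := by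
        obtain ⟨W, hW⟩ := exists_place h b
        have h1 := ord_at h hW
        rw [h.supp b hb, pow_zero] at h1
        have hP2 : (∏ b ∈ T, (X - C b) ^ c b : κ[X]) ≠ 0 :=
          Finset.prod_ne_zero_iff.2 fun b _ => pow_ne_zero _ (X_sub_C_ne_zero _)
        have h2 := (Pool.Agent.Y248.PS.ord_eval W hW hP2).2
        rw [h1, mul_one, ← hy, W.ord_pow] at h2
        have h3 : (∏ b ∈ T, (X - C b) ^ c b : κ[X]).rootMultiplicity b = c b := by
          have h4 : (∏ b ∈ T, (X - C b) ^ c b : κ[X]) = (X - C b) ^ c b *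
              ∏ e ∈ T.erase b, (X - C e) ^ c e := by
            rw [Finset.mul_prod_erase T (fun e => (X - C e) ^ c e) hbT]
          have h5 : (∏ e ∈ T.erase b, (X - C e) ^ c e : κ[X]).eval b ≠ 0 := by
            rw [eval_prod, Finset.prod_ne_zero_iff]
            intro e he
            rw [eval_pow, eval_sub, eval_X, eval_C]
            apply pow_ne_zero
            rw [sub_ne_zero]
            exact fun h0 => (Finset.mem_erase.1 he).1 h0.symm
          have h6 : (∏ e ∈ T.erase b, (X - C e) ^ c e : κ[X]) ≠ 0 := by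
            intro h0
            rw [h0, eval_zero] at h5
            exact h5 rfl
          rw [h4, rootMultiplicity_mul (mul_ne_zero (pow_ne_zero _ (X_sub_C_ne_zero _)) h6),
            rootMultiplicity_X_sub_C_pow, rootMultiplicity_eq_zero (by rwa [IsRoot.def]), add_zero]
        rw [h3] at h2
        have h4 : ℓ ∣ c b := by
          have : (ℓ : ℤ) ∣ (c b : ℤ) := ⟨_, h2.symm⟩
          exact_mod_cast this
        exact Nat.eq_zero_of_dvd_of_lt h4 (Nat.mod_lt _ hp.pos)
      rw [hcb, pow_zero]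

/-- **the Gauss valuation has only one prolongation** -/
theorem gun {ℓ : ℕ} [hℓ : Fact ℓ.Prime] {κ R M : Type} [Field κ] [IsAlgClosed κ] [CharZero κ]
    [Field R] [Field M] [Algebra κ R] [Algebra R M] [Algebra κ M] [IsScalarTower κ R M] {x : R}
    {B : Finset κ} {ε : κ → ℕ} {ι : ℕ} {N₀ : IntermediateField R M}
    (h : GCov ℓ κ R M x B ε ι N₀) (V : ValuationSubring κ) (hB : Good V B)
    (O O' : ValuationSubring M) (hO : Gauss V (algebraMap R M x) O)
    (hO' : Gauss V (algebraMap R M x) O') : O = O' := by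
  classical
  have hp : ℓ.Prime := hℓ.out
  have i0 := h.gal
  haveI : Normal R M := i0.to_normal
  obtain ⟨γ, hγ⟩ := Pool.Agent.Y248.PS.gauss_conj a_conj h.rat V hO hO'
  by_contra hne
  obtain ⟨z₀, hz₀⟩ : ∃ z, ¬ (z ∈ O ↔ γ z ∈ O) := by
    by_contra hcon
    push Not at hcon
    apply hne
    ext z
    rw [hγ z]
    exact hcon z
  obtain ⟨N, hz₀N, hN⟩ := h.pow z₀
  have i1 := hN.fin
  have i2 := hN.gal
  haveI i3 : Normal R N := i2.to_normal
  let D : Subgroup (N ≃ₐ[R] N) :=
    { carrier := {g | ∀ z : N, ((g z : N) : M) ∈ O ↔ (z : M) ∈ O}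
      mul_mem' := by
        intro a b ha hb z
        rw [AlgEquiv.mul_apply, ha, hb]
      one_mem' := fun z => Iff.rfl
      inv_mem' := by
        intro a ha z
        have := ha (a⁻¹ z)
        rw [← AlgEquiv.mul_apply, mul_inv_cancel, AlgEquiv.one_apply] at this
        exact this.symm }
  have hD : ∀ g : N ≃ₐ[R] N, g ∈ D ↔ ∀ z : N, ((g z : N) : M) ∈ O ↔ (z : M) ∈ O := fun g => Iff.rfl
  have hres : ∀ (σ : M ≃ₐ[R] M) (z : N), ((σ.restrictNormal N z : N) : M) = σ (z : M) :=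
    fun σ z => coe_pow_restrict σ 1 z
  have hDtop : D ≠ ⊤ := by
    intro htop
    have h1 : γ.restrictNormal N ∈ D := by rw [htop]; trivial
    have h2 := (hD _).1 h1 ⟨z₀, hz₀N⟩
    rw [hres] at h2
    exact hz₀ h2.symm
  have : NeZero ℓ := ⟨hp.ne_zero⟩
  obtain ⟨ζ, hζ⟩ := HasEnoughRootsOfUnity.exists_primitiveRoot κ ℓ
  obtain ⟨m, hm⟩ := hN.card
  have hcard : Nat.card (N ≃ₐ[R] N) = ℓ ^ m := by rw [IsGalois.card_aut_eq_finrank, hm]
  haveI : Finite (N ≃ₐ[R] N) := Nat.finite_of_card_ne_zero (by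
    rw [hcard]; exact pow_ne_zero _ hp.ne_zero)
  obtain ⟨χ, hχℓ, hχD, g₀, hg₀⟩ := Pool.Agent.Y248.PS.exists_char ℓ hζ hcard D hDtop
  obtain ⟨β, hβ0, hβ⟩ := exists_kummer (κ := κ) χ
  obtain ⟨r, hr⟩ : ∃ r : R, algebraMap R N r = β ^ ℓ := by
    have h1 : β ^ ℓ ∈ (⊥ : IntermediateField R N) := by
      rw [IsGalois.mem_bot_iff_fixed]
      intro σ
      rw [map_pow, hβ, mul_pow, ← map_pow, ← Units.val_pow_eq_pow_val, hχℓ, Units.val_one, map_one,
        one_mul]
    obtain ⟨r, hr⟩ := IntermediateField.mem_bot.1 h1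
    exact ⟨r, hr⟩
  have hβM : (β : M) ≠ 0 := by
    intro h0
    exact hβ0 (Subtype.ext h0)
  have hrM : (β : M) ^ ℓ = algebraMap R M r := by
    have := congrArg (fun z : N => (z : M)) hr
    exact this.symm
  obtain ⟨t, c, ht0, hcl, hy⟩ := normalise h hβM hrM
  set y : M := (β : M) * algebraMap R M t with hydef
  have htM : algebraMap R M t ≠ 0 := by rwa [Ne, map_eq_zero]
  have hy0 : y ≠ 0 := mul_ne_zero hβM htM
  have hσy : ∀ σ : M ≃ₐ[R] M, σ y = algebraMap κ M (χ (σ.restrictNormal N)) * y := by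
    intro σ
    rw [hydef, map_mul, σ.commutes, ← hres, hβ, ← mul_assoc]
    rfl
  obtain ⟨e₀, he₀, hce₀⟩ : ∃ e₀ ∈ B, c e₀ ≠ 0 := by
    by_contra hcon
    push Not at hcon
    have h1 : y ^ ℓ = algebraMap κ M 1 := by
      rw [hy, Finset.prod_congr rfl (fun e he => by rw [hcon e he, pow_zero]),
        Finset.prod_const_one, map_one, map_one]
    obtain ⟨d, hd, -⟩ := root_const hp.pos h1
    have h2 := hσy (g₀.liftNormal M)
    have h3 : (g₀.liftNormal M).restrictNormal N = g₀ := AlgEquiv.restrict_liftNormal M g₀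
    rw [h3] at h2
    rw [hd, aut_const, ← hd] at h2
    have h4 : algebraMap κ M (χ g₀) = 1 := (mul_eq_right₀ hy0).1 h2.symm
    apply hg₀
    apply Units.ext
    exact (algebraMap κ M).injective (by rw [h4, Units.val_one, map_one])
  have hndvd : ¬ ℓ ∣ c e₀ := fun h0 => hce₀ (Nat.eq_zero_of_dvd_of_lt h0 (hcl e₀))
  -- the automorphism
  set σ : M ≃ₐ[R] M := g₀.liftNormal M with hσdef
  have hσN : σ.restrictNormal N = g₀ := AlgEquiv.restrict_liftNormal M g₀
  set O₂ : ValuationSubring M := O.comap (σ : M →+* M) with hO₂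
  have hO₂mem : ∀ z, z ∈ O₂ ↔ σ z ∈ O := fun z => Iff.rfl
  set L : IntermediateField R M := IntermediateField.adjoin R {y} with hL
  have hval : ∀ (y' : M), y' ^ ℓ = aeval (algebraMap R M x) (∏ e ∈ B, (X - C e) ^ c e) →
      ∀ p : R[X], p.natDegree < ℓ → (aeval y' p ∈ O ↔ ∀ i, algebraMap R M (p.coeff i) ∈ O) := by
    intro y' hy' p hpd
    refine ⟨kummer_val h.rat hO hB c he₀ hndvd hy' p hpd, fun h1 => ?_⟩
    have hy'O : y' ∈ O := by
      rw [← O.valuation_le_one_iff]
      have h2 : y' ^ ℓ ∈ O := by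
        rw [hy']
        refine gauss_int hO ?_
        have hlift : ∀ Q : κ[X], (∀ n, Q.coeff n ∈ V) ↔ Q ∈ Polynomial.lifts (algebraMap V κ) := by
          intro Q
          rw [Polynomial.lifts_iff_coeff_lifts]
          constructor
          · intro h n; exact ⟨⟨_, h n⟩, rfl⟩
          · intro h n
            obtain ⟨v, hv⟩ := h n
            rw [← hv]; exact v.2
        rw [hlift]
        refine Subsemiring.prod_mem _ fun e he => Subsemiring.pow_mem _ ?_ _
        rw [← hlift]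
        intro n
        rw [coeff_sub, coeff_X, coeff_C]
        refine sub_mem ?_ ?_
        · split_ifs; exact one_mem _; exact zero_mem _
        · split_ifs; exact hB.1 e he; exact zero_mem _
      rw [← O.valuation_le_one_iff, map_pow] at h2
      exact (pow_le_one_iff_of_nonneg zero_le' hp.ne_zero).1 h2
    rw [aeval_eq_sum_range]
    refine sum_mem fun i _ => ?_
    rw [Algebra.smul_def]
    exact mul_mem (h1 i) (pow_mem hy'O i)
  have hyint : IsIntegral R y := (inferInstance : Normal R M).isIntegral y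
  have hrepr : ∀ z ∈ L, ∃ p : R[X], p.natDegree < ℓ ∧ z = aeval y p := by
    intro z hz
    have h1 : z ∈ Algebra.adjoin R {y} := by
      have h2 : L.toSubalgebra = Algebra.adjoin R {y} :=
        IntermediateField.adjoin_simple_toSubalgebra_of_isAlgebraic hyint.isAlgebraic
      rw [← h2]
      exact hz
    rw [Algebra.adjoin_singleton_eq_range_aeval] at h1
    obtain ⟨p, hpz⟩ := h1
    set a : R := aeval x (∏ e ∈ B, (X - C e) ^ c e) with ha
    have hya : y ^ ℓ = algebraMap R M a := by rw [hy, ha, Pool.Agent.Y155.PS.aeval_R]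
    have hmon : (X ^ ℓ - C a : R[X]).Monic := monic_X_pow_sub_C a hp.ne_zero
    refine ⟨p %ₘ (X ^ ℓ - C a), ?_, ?_⟩
    · have := natDegree_modByMonic_lt p hmon (by
        intro h0
        have := congrArg natDegree h0
        rw [natDegree_X_pow_sub_C, natDegree_one] at this
        exact hp.ne_zero this)
      rwa [natDegree_X_pow_sub_C] at this
    · have h3 := modByMonic_add_div p (X ^ ℓ - C a)
      have h4 : aeval y (X ^ ℓ - C a : R[X]) = 0 := by
        rw [map_sub, map_pow, aeval_X, aeval_C, hya, sub_self]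
      have h5 : (aeval y p : M) = z := hpz
      rw [← h5]
      conv_lhs => rw [← h3]
      rw [map_add, map_mul, h4, zero_mul, add_zero]
  obtain ⟨τ, hτ⟩ := a_conj L M O O₂ (by
    ext z
    rw [ValuationSubring.mem_comap, ValuationSubring.mem_comap, hO₂mem]
    obtain ⟨p, hpd, hpz⟩ := hrepr z z.2
    have h1 : algebraMap L M z = aeval y p := hpz
    have h2 : σ (algebraMap L M z) = aeval (σ y) p := by
      rw [h1]
      exact (Polynomial.aeval_algHom_apply σ.toAlgHom y p).symm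
    rw [h2, h1, hval y hy p hpd, hval (σ y) (by
      rw [← map_pow, hy, ← Pool.Agent.Y155.PS.aeval_R, σ.commutes]) p hpd])
  obtain ⟨τ', hτ'z⟩ : ∃ τ' : M ≃ₐ[R] M, ∀ z, τ' z = τ z := ⟨τ.restrictScalars R, fun z => rfl⟩
  have hτ'y : τ' y = y := by
    rw [hτ'z]
    exact τ.commutes ⟨y, IntermediateField.mem_adjoin_simple_self R y⟩
  obtain ⟨ρ, hρ⟩ : ∃ ρ : M ≃ₐ[R] M, ∀ z, ρ (τ' z) = σ z :=
    ⟨τ'.symm.trans σ, fun z => by rw [AlgEquiv.trans_apply, AlgEquiv.symm_apply_apply]⟩
  have hρO : ∀ w, ρ w ∈ O ↔ w ∈ O := by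
    intro w
    obtain ⟨w', rfl⟩ := τ'.surjective w
    rw [hρ, ← hO₂mem, hτ, hτ'z]
  have hρD : ρ.restrictNormal N ∈ D := by
    rw [hD]
    intro z
    rw [hres]
    exact hρO z
  have hρy : ρ y = σ y := by
    have h2 := hρ y
    rwa [hτ'y] at h2
  rw [hσy, hσy, hχD _ hρD, hσN] at hρy
  have h4 := mul_right_cancel₀ hy0 hρy
  apply hg₀
  apply Units.ext
  exact ((algebraMap κ M).injective h4).symm

end Pool.Agent.H889.PS
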