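import Pool.Agent.H889.PS.Fixf

/-!
# The inertia group
-/

set_option autoImplicit false
set_option linter.all false

namespace Pool.Agent.H889.PS

open Pool.Agent.Y157.PS Pool.Agent.Y655.PS Finset

section claim

variable {k κ : Type} [Field k] [Field κ] [Algebra k κ] [Algebra.IsAlgebraic k κ]
  (V : ValuationSubring κ)

/-- the values of the elements fixed by a subgroup of index `ℓ` -/
lemma val_step {ℓ : ℕ} [hℓ : Fact ℓ.Prime] (hℓV : IsU V (ℓ : κ)) {π δ π1 : κ}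
    (T : Subgroup (κ ≃ₐ[k] κ)) (hTI : ∀ σ ∈ T, Ine V σ)
    (hδ0 : δ ≠ 0) (hδT : ∀ σ ∈ T, σ (δ ^ ℓ) = δ ^ ℓ)
    (hπ1 : V.valuation π1 ^ ℓ = V.valuation π)
    (hine : ∀ c : κ, c ≠ 0 → (∀ σ ∈ T, σ c = c) →
      ∃ j : ℤ, V.valuation c = V.valuation π ^ j)
    {c : κ} (hc : c ≠ 0) (hfix : ∀ σ ∈ T, σ δ = δ → σ c = c) :
    ∃ i : ℤ, V.valuation c = V.valuation π1 ^ i := by
  have hℓ0 : ℓ ≠ 0 := hℓ.out.ne_zero
  have hz : ∀ σ ∈ T, (σ δ / δ) ^ ℓ = 1 := by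
    intro σ hσ
    rw [div_pow, ← map_pow, hδT σ hσ, div_self (pow_ne_zero _ hδ0)]
  have hvc : V.valuation c ≠ 0 := (V.valuation.ne_zero_iff).2 hc
  have hfin : ∀ N : κ, (∀ σ ∈ T, σ N = N) →
      V.valuation N = V.valuation c ^ ℓ → ∃ i : ℤ, V.valuation c = V.valuation π1 ^ i := by
    intro N hN hv
    have hN0 : N ≠ 0 := by
      rintro rfl
      rw [map_zero] at hv
      exact pow_ne_zero _ hvc hv.symm
    obtain ⟨j, hj⟩ := hine N hN0 hN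
    refine ⟨j, ?_⟩
    have h1 : V.valuation c ^ ℓ = (V.valuation π1 ^ j) ^ ℓ := by
      rw [← hv, hj, ← hπ1, ← zpow_natCast, ← zpow_natCast, ← zpow_mul, ← zpow_mul, mul_comm]
    exact (pow_left_inj₀ zero_le zero_le hℓ0).1 h1
  by_cases hcase : ∀ τ ∈ T, τ δ = δ
  · refine hfin (c ^ ℓ) (fun σ hσ => ?_) (by rw [map_pow])
    rw [map_pow, hfix σ hσ (hcase σ hσ)]
  · push Not at hcase
    obtain ⟨τ, hτ, hτδ⟩ := hcase
    -- the root of unity of `τ`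
    obtain ⟨ζ, hζ⟩ : ∃ ζ : κ, ζ = τ δ / δ := ⟨_, rfl⟩
    have hζℓ : ζ ^ ℓ = 1 := by rw [hζ]; exact hz τ hτ
    have hζ1 : ζ ≠ 1 := by
      rw [hζ]
      intro h
      exact hτδ ((div_eq_one_iff_eq hδ0).1 h)
    have hprim : IsPrimitiveRoot ζ ℓ := by
      rw [← orderOf_eq_prime hζℓ hζ1]
      exact IsPrimitiveRoot.orderOf ζ
    have hτδ' : τ δ = ζ * δ := by rw [hζ, div_mul_cancel₀ _ hδ0]
    have hroot : ∀ σ ∈ T, ∀ i : ℕ, σ (ζ ^ i) = ζ ^ i := by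
      intro σ hσ i
      rw [map_pow, ine_root V hℓ0 hℓV (hTI σ hσ) hζℓ]
    have hτi : ∀ i : ℕ, (τ ^ i) δ = ζ ^ i * δ := by
      intro i
      induction i with
      | zero => simp
      | succ i ih =>
        rw [pow_succ', AlgEquiv.mul_apply, ih, map_mul, hroot τ hτ, hτδ', pow_succ]
        ring
    -- two inertia elements which agree on `δ` agree on `c`
    have hagree : ∀ σ ∈ T, ∀ σ' ∈ T, σ δ = σ' δ → σ c = σ' c := by
      intro σ h1 σ' h2 h3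
      have h4 : σ⁻¹ * σ' ∈ T := T.mul_mem (T.inv_mem h1) h2
      have h5 := hfix _ h4 (by
        show σ⁻¹ (σ' δ) = δ
        rw [← h3]
        exact σ.symm_apply_apply δ)
      have h6 : σ (σ⁻¹ (σ' c)) = σ' c := σ.apply_symm_apply _
      have h7 : σ⁻¹ (σ' c) = c := h5
      rw [h7] at h6
      exact h6
    refine hfin (∏ i ∈ range ℓ, (τ ^ i) c) ?_ ?_
    · -- `τ` fixes the product
      have h1 : τ (∏ i ∈ range ℓ, (τ ^ i) c) = ∏ i ∈ range ℓ, (τ ^ i) c := by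
        rw [map_prod]
        have e1 : ∀ i ∈ range ℓ, τ ((τ ^ i) c) = (τ ^ (i + 1)) c := fun i _ => by
          rw [pow_succ']; rfl
        rw [prod_congr rfl e1]
        have e2 := prod_range_succ (fun i => (τ ^ i) c) ℓ
        rw [prod_range_succ'] at e2
        have e3 : (τ ^ ℓ) c = c := by
          have : (τ ^ ℓ) c = (1 : κ ≃ₐ[k] κ) c := by
            refine hagree _ (T.pow_mem hτ ℓ) _ T.one_mem ?_
            rw [hτi, hζℓ, one_mul]; rfl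
          exact this
        rw [e3, pow_zero, AlgEquiv.one_apply] at e2
        exact mul_right_cancel₀ hc e2
      intro σ hσ
      obtain ⟨a, -, ha⟩ := hprim.eq_pow_of_pow_eq_one (hz σ hσ)
      have hσδ : σ δ = (τ ^ a) δ := by
        rw [hτi, ha, div_mul_cancel₀ _ hδ0]
      have h2 : ∀ a : ℕ, (τ ^ a) (∏ i ∈ range ℓ, (τ ^ i) c) = ∏ i ∈ range ℓ, (τ ^ i) c := by
        intro a
        induction a with
        | zero => rfl
        | succ a ih => rw [pow_succ', AlgEquiv.mul_apply, ih, h1]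
      have h3 : ∀ i ∈ range ℓ, σ ((τ ^ i) c) = (τ ^ a) ((τ ^ i) c) := by
        intro i _
        have : (σ * τ ^ i) c = (τ ^ a * τ ^ i) c := by
          refine hagree _ (T.mul_mem hσ (T.pow_mem hτ i)) _
            (T.mul_mem (T.pow_mem hτ a) (T.pow_mem hτ i)) ?_
          show σ ((τ ^ i) δ) = (τ ^ a) ((τ ^ i) δ)
          rw [hτi, map_mul, map_mul, hroot σ hσ, hroot _ (T.pow_mem hτ a), hσδ]
        exact this
      rw [map_prod, prod_congr rfl h3, ← map_prod, h2 a]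
    · rw [map_prod]
      have : ∀ i ∈ range ℓ, V.valuation ((τ ^ i) c) = V.valuation c := fun i _ =>
        dec_val V (dec_pow V (hTI τ hτ).1 i) c
      rw [prod_congr rfl this, prod_const, card_range]

end claim

/-- the data for the inertia group: `ℓ` is a unit, `V` dominates `A` -/
structure IB (ℓ : ℕ) (A k κ : Type) [CommRing A] [IsDomain A] [IsDiscreteValuationRing A]
    [Field k] [Field κ] [Algebra A k] [Algebra k κ] [Algebra A κ] [IsScalarTower A k κ]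
    (V : ValuationSubring κ) (ϖ : A) : Prop where
  lunit : IsUnit (ℓ : A)
  mem : ∀ a : A, algebraMap A κ a ∈ V
  non : ∀ a ∈ IsLocalRing.maximalIdeal A, algebraMap A κ a ∈ V.nonunits
  irr : Irreducible ϖ

section main

variable {ℓ : ℕ} [hℓ : Fact ℓ.Prime] {A k κ : Type} [CommRing A] [IsDomain A]
  [IsDiscreteValuationRing A] [Field k] [Field κ] [Algebra A k] [Algebra k κ] [Algebra A κ]
  [IsScalarTower A k κ] [IsFractionRing A k] [CharZero k] [IsAlgClosure k κ]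
  [Finite (IsLocalRing.ResidueField A)] {V : ValuationSubring κ} {ϖ : A}

theorem IB.ell (hB : IB ℓ A k κ V ϖ) : IsU V (ℓ : κ) := by
  obtain ⟨u, hu⟩ := hB.lunit
  have h1 : (ℓ : κ) * algebraMap A κ (↑u⁻¹ : A) = 1 := by
    rw [← map_natCast (algebraMap A κ) ℓ, ← map_mul, ← hu, Units.mul_inv, map_one]
  refine ⟨left_ne_zero_of_mul_eq_one h1, ?_, ?_⟩
  · rw [← map_natCast (algebraMap A κ) ℓ]; exact hB.mem _
  · rw [← eq_inv_of_mul_eq_one_right h1]; exact hB.mem _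

theorem IB.inj (hB : IB ℓ A k κ V ϖ) : Function.Injective (algebraMap A κ) := by
  rw [IsScalarTower.algebraMap_eq A k κ]
  exact (algebraMap k κ).injective.comp (IsFractionRing.injective A k)

theorem IB.pi0 (hB : IB ℓ A k κ V ϖ) : algebraMap A κ ϖ ≠ 0 := by
  rw [Ne, map_eq_zero_iff _ hB.inj]
  exact hB.irr.ne_zero

theorem IB.pi_lt (hB : IB ℓ A k κ V ϖ) : V.valuation (algebraMap A κ ϖ) < 1 :=
  (V.mem_nonunits_iff).1 (hB.non ϖ hB.irr.not_isUnit)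

theorem IB.pi_fix (hB : IB ℓ A k κ V ϖ) (σ : κ ≃ₐ[k] κ) :
    σ (algebraMap A κ ϖ) = algebraMap A κ ϖ := by
  rw [IsScalarTower.algebraMap_apply A k κ, AlgEquiv.commutes]

theorem IB.ine (hB : IB ℓ A k κ V ϖ) (c : κ) (hc : c ≠ 0)
    (hfix : ∀ σ : κ ≃ₐ[k] κ, Ine V σ → σ c = c) :
    ∃ j : ℤ, V.valuation c = V.valuation (algebraMap A κ ϖ) ^ j := by
  obtain ⟨j, hj⟩ := a_ine A k κ V ϖ hB.mem hB.non hB.irr c hc hfix
  refine ⟨j, ?_⟩
  have hvπ : V.valuation (algebraMap A κ ϖ) ≠ 0 := (V.valuation.ne_zero_iff).2 hB.pi0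
  rw [isU_iff, map_div₀, map_zpow₀, div_eq_one_iff_eq (zpow_ne_zero _ hvπ)] at hj
  exact hj

/-- the values of the elements fixed by `II V δ`, where `δ ^ (ℓ ^ j)` is a uniformiser -/
theorem val_fix (hB : IB ℓ A k κ V ϖ) (j : ℕ) : ∀ (δ : κ), δ ^ (ℓ ^ j) = algebraMap A κ ϖ →
    ∀ {c : κ}, c ≠ 0 → (∀ σ ∈ II (k := k) V δ, σ c = c) →
      ∃ i : ℤ, V.valuation c = V.valuation δ ^ i := by
  have : Algebra.IsAlgebraic k κ := IsAlgClosure.isAlgebraic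
  induction j with
  | zero =>
    intro δ hδ c hc hfix
    rw [pow_zero, pow_one] at hδ
    rw [hδ]
    refine hB.ine c hc fun σ hσ => hfix σ ⟨hσ, ?_⟩
    rw [hδ, hB.pi_fix]
  | succ j ih =>
    intro δ hδ c hc hfix
    have hδ' : (δ ^ ℓ) ^ (ℓ ^ j) = algebraMap A κ ϖ := by rw [← pow_mul, ← pow_succ', hδ]
    have hδ0 : δ ≠ 0 := by
      rintro rfl
      rw [zero_pow (pow_ne_zero _ hℓ.out.ne_zero)] at hδ
      exact hB.pi0 hδ.symm
    refine val_step (k := k) V hB.ell (π := δ ^ ℓ) (δ := δ) (π1 := δ) (II (k := k) V (δ ^ ℓ))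
      (fun σ hσ => hσ.1) hδ0 (fun σ hσ => hσ.2) (by rw [map_pow]) (fun c hc hfix => ih _ hδ' hc hfix)
      hc (fun σ hσ h1 => hfix σ ⟨hσ.1, h1⟩)

theorem kum (hB : IB ℓ A k κ V ϖ) {j : ℕ} {δ : κ} (hδϖ : δ ^ (ℓ ^ j) = algebraMap A κ ϖ)
    (φ : κ ≃ₐ[k] κ) (hφ : Fro V (Nat.card (IsLocalRing.ResidueField A)) φ) (hφδ : φ δ = δ)
    (n : ℕ) (χ : (κ ≃ₐ[k] κ) → κ)
    (hχ1 : ∀ σ, Ine V σ → σ δ = δ → χ σ ^ (ℓ ^ n) = 1)
    (hχ2 : ∀ σ σ', Ine V σ → σ δ = δ → Ine V σ' → σ' δ = δ → χ (σ * σ') = χ σ * χ σ')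
    (hχE : ∃ E : IntermediateField k κ, FiniteDimensional k E ∧
      ∀ σ ∈ E.fixingSubgroup, Ine V σ → σ δ = δ → χ σ = 1)
    (σ : κ ≃ₐ[k] κ) (hσ : Ine V σ) (hσδ : σ δ = δ) :
    χ (φ * σ * φ⁻¹) = χ σ ^ Nat.card (IsLocalRing.ResidueField A) := by
  obtain ⟨q, hq⟩ : ∃ q : ℕ, q = Nat.card (IsLocalRing.ResidueField A) := ⟨_, rfl⟩
  rw [← hq] at hφ ⊢
  have : Algebra.IsAlgebraic k κ := IsAlgClosure.isAlgebraic
  have : IsAlgClosed κ := IsAlgClosure.isAlgClosed k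
  have : Normal k κ := IsAlgClosure.normal k κ
  have : IsGalois k κ := IsGalois.mk
  have hℓ0 : ℓ ≠ 0 := hℓ.out.ne_zero
  have hℓV : IsU V (ℓ : κ) := hB.ell
  obtain ⟨N, hN⟩ : ∃ N : ℕ, N = ℓ ^ n := ⟨_, rfl⟩
  have hN0 : N ≠ 0 := by rw [hN]; exact pow_ne_zero _ hℓ0
  have hNV : IsU V (N : κ) := by
    rw [hN, Nat.cast_pow]; exact isU_pow V hℓV n
  rw [← hN] at hχ1
  have hδ0 : δ ≠ 0 := by
    rintro rfl
    rw [zero_pow (pow_ne_zero _ hℓ0)] at hδϖ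
    exact hB.pi0 hδϖ.symm
  obtain ⟨π1, hπ1⟩ : ∃ π1 : κ, π1 = δ := ⟨_, rfl⟩
  have hπ10 : π1 ≠ 0 := by rw [hπ1]; exact hδ0
  have hπ1fix : ∀ σ : κ ≃ₐ[k] κ, σ δ = δ → σ π1 = π1 := by
    intro σ h
    rw [hπ1, h]
  -- the Kummer generator
  obtain ⟨E, hEf, hE⟩ := hχE
  obtain ⟨c, hc, hcχ⟩ := resolvent (II (k := k) V δ) χ
    (fun σ hσ => by
      have := hχ1 σ hσ.1 hσ.2
      intro h
      rw [h, zero_pow hN0] at this
      exact zero_ne_one this)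
    (fun σ hσ σ' hσ' => hχ2 σ σ' hσ.1 hσ.2 hσ'.1 hσ'.2)
    (fun σ hσ σ' hσ' => ine_root V hN0 hNV hσ.1 (hχ1 σ' hσ'.1 hσ'.2)) E
    (fun σ h1 h2 => hE σ h1 h2.1 h2.2)
  have hcN : ∀ σ ∈ II (k := k) V δ, σ (c ^ N) = c ^ N := by
    intro σ hσ
    rw [map_pow, hcχ σ hσ, mul_pow, hχ1 σ hσ.1 hσ.2, one_mul]
  obtain ⟨i, hi⟩ := val_fix hB j δ hδϖ (pow_ne_zero N hc) hcN
  rw [← hπ1] at hi
  -- the unit and its root
  obtain ⟨ρ, hρ⟩ : ∃ ρ : κ, ρ ^ N = c ^ N / π1 ^ i := IsAlgClosed.exists_pow_nat_eq _ (Nat.pos_of_ne_zero hN0)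
  have hρU : IsU V ρ := by
    refine isU_of_pow V hN0 ?_
    rw [hρ, isU_iff, map_div₀, map_zpow₀, hi, div_self]
    exact zpow_ne_zero _ ((V.valuation.ne_zero_iff).2 hπ10)
  have hρfix : ∀ σ ∈ II (k := k) V δ, σ ρ = ρ := by
    intro σ hσ
    have h1 : (σ ρ / ρ) ^ N = 1 := by
      have h2 : σ (ρ ^ N) = ρ ^ N := by
        rw [hρ, map_div₀, map_zpow₀, hcN σ hσ, hπ1fix σ hσ.2]
      rw [div_pow, ← map_pow, h2, div_self (pow_ne_zero _ hρU.1)]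
    have h2 : σ ρ / ρ = 1 := by
      refine root_one V hNV h1 ?_
      have : σ ρ / ρ - 1 = ρ⁻¹ * (σ ρ - ρ) := by
        have := hρU.1
        field_simp
      rw [this]
      exact mem_mul_non V hρU.2.2 (hσ.1.2 ρ hρU.2.1)
    exact (div_eq_one_iff_eq hρU.1).1 h2
  obtain ⟨c', hc'⟩ : ∃ c' : κ, c' = c / ρ := ⟨_, rfl⟩
  have hc'0 : c' ≠ 0 := by rw [hc']; exact div_ne_zero hc hρU.1
  have hc'χ : ∀ σ ∈ II (k := k) V δ, σ c' = χ σ * c' := by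
    intro σ hσ
    rw [hc', map_div₀, hcχ σ hσ, hρfix σ hσ, mul_div_assoc]
  have hc'N : c' ^ N = π1 ^ i := by
    rw [hc', div_pow, hρ]
    have := pow_ne_zero N hc
    have := zpow_ne_zero i hπ10
    field_simp
  have hmem : σ ∈ II (k := k) V δ := ⟨hσ, hσδ⟩
  have hφinvδ : φ⁻¹ δ = δ := by
    have : φ⁻¹ (φ δ) = δ := φ.symm_apply_apply δ
    rwa [hφδ] at this
  have hmem' : φ * σ * φ⁻¹ ∈ II (k := k) V δ := by
    refine ⟨ine_conj V hφ.1 hσ, ?_⟩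
    show φ (σ (φ⁻¹ δ)) = δ
    rw [hφinvδ, hσδ, hφδ]
  -- `φ⁻¹ c' = ξ c'`
  obtain ⟨ξ, hξ⟩ : ∃ ξ : κ, ξ = φ⁻¹ c' / c' := ⟨_, rfl⟩
  have hξN : ξ ^ N = 1 := by
    have : φ⁻¹ (c' ^ N) = c' ^ N := by rw [hc'N, map_zpow₀, hπ1fix _ hφinvδ]
    rw [hξ, div_pow, ← map_pow, this, div_self (pow_ne_zero _ hc'0)]
  have hξc : φ⁻¹ c' = ξ * c' := by rw [hξ, div_mul_cancel₀ _ hc'0]
  have h1 : (φ * σ * φ⁻¹) c' = φ (χ σ) * c' := by
    show φ (σ (φ⁻¹ c')) = φ (χ σ) * c'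
    rw [hξc, map_mul, ine_root V hN0 hNV hσ hξN, hc'χ σ hmem]
    have : ξ * (χ σ * c') = χ σ * (ξ * c') := by ring
    rw [this, map_mul, ← hξc]
    congr 1
    exact φ.apply_symm_apply c'
  have h2 := hc'χ _ hmem'
  rw [h1] at h2
  rw [← mul_right_cancel₀ hc'0 h2]
  -- Frobenius on roots of unity
  have hχσ := hχ1 σ hσ hσδ
  have hU : IsU V (χ σ) := isU_of_pow V hN0 (by rw [hχσ, isU_iff, map_one])
  have h3 : φ (χ σ) / χ σ ^ q = 1 := by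
    refine root_one V hNV ?_ ?_
    · rw [div_pow, ← map_pow, hχσ, map_one, ← pow_mul, mul_comm, pow_mul, hχσ, one_pow, div_one]
    · have : φ (χ σ) / χ σ ^ q - 1 = (χ σ ^ q)⁻¹ * (φ (χ σ) - χ σ ^ q) := by
        have := pow_ne_zero q hU.1
        field_simp
      rw [this]
      exact mem_mul_non V (isU_pow V hU q).2.2 (hφ.2 _ hU.2.1)
  exact (div_eq_one_iff_eq (pow_ne_zero q hU.1)).1 h3


/-- Frobenius elements which fix `δ`, and a generator of the inertia group -/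
theorem tau (hB : IB ℓ A k κ V ϖ) {j : ℕ} {δ : κ} (hδϖ : δ ^ (ℓ ^ j) = algebraMap A κ ϖ) :
    (∃ φ : κ ≃ₐ[k] κ, Fro V (Nat.card (IsLocalRing.ResidueField A)) φ ∧ φ δ = δ) ∧
    ∃ τ : κ ≃ₐ[k] κ, Ine V τ ∧ (τ ^ (ℓ ^ j)) δ = δ ∧
      ∀ σ : κ ≃ₐ[k] κ, Ine V σ → ∃ a : ℕ, σ δ = (τ ^ a) δ := by
  have hℓ0 : ℓ ≠ 0 := hℓ.out.ne_zero
  have hN0 : ℓ ^ j ≠ 0 := pow_ne_zero _ hℓ0
  have hNV : IsU V ((ℓ ^ j : ℕ) : κ) := by rw [Nat.cast_pow]; exact isU_pow V hB.ell j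
  have hδ0 : δ ≠ 0 := by
    rintro rfl
    rw [zero_pow hN0] at hδϖ
    exact hB.pi0 hδϖ.symm
  have hrt : ∀ σ : κ ≃ₐ[k] κ, (σ δ / δ) ^ (ℓ ^ j) = 1 := by
    intro σ
    rw [div_pow, ← map_pow, hδϖ, hB.pi_fix, div_self hB.pi0]
  have hmulδ : ∀ σ : κ ≃ₐ[k] κ, σ δ = (σ δ / δ) * δ := fun σ => by field_simp
  have hinefix : ∀ σ : κ ≃ₐ[k] κ, Ine V σ → ∀ ξ : κ, ξ ^ (ℓ ^ j) = 1 → σ ξ = ξ :=
    fun σ hσ ξ hξ => ine_root V hN0 hNV hσ hξ
  -- a generator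
  obtain ⟨τ, hτ, hτp⟩ : ∃ τ : κ ≃ₐ[k] κ, Ine V τ ∧ IsPrimitiveRoot (τ δ / δ) (ℓ ^ j) := by
    rcases Nat.eq_zero_or_pos j with h0 | h0
    · subst h0
      refine ⟨1, ine_one V, ?_⟩
      rw [AlgEquiv.one_apply, div_self hδ0, pow_zero]
      exact IsPrimitiveRoot.one
    obtain ⟨i, rfl⟩ : ∃ i, j = i + 1 := ⟨j - 1, by omega⟩
    by_contra hcon
    push Not at hcon
    -- all quotients are roots of unity of order `ℓ ^ i`
    have h1 : ∀ σ : κ ≃ₐ[k] κ, Ine V σ → (σ δ / δ) ^ (ℓ ^ i) = 1 := by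
      intro σ hσ
      by_contra h2
      apply hcon σ hσ
      have h3 : orderOf (σ δ / δ) = ℓ ^ (i + 1) := orderOf_eq_prime_pow h2 (hrt σ)
      rw [← h3]
      exact IsPrimitiveRoot.orderOf _
    have h2 : ∀ σ : κ ≃ₐ[k] κ, Ine V σ → σ (δ ^ (ℓ ^ i)) = δ ^ (ℓ ^ i) := by
      intro σ hσ
      have h3 := h1 σ hσ
      rw [div_pow, div_eq_one_iff_eq (pow_ne_zero _ hδ0)] at h3
      rw [map_pow, h3]
    obtain ⟨a, ha⟩ := hB.ine (δ ^ (ℓ ^ i)) (pow_ne_zero _ hδ0) h2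
    have hv0 : V.valuation (algebraMap A κ ϖ) ≠ 0 := (V.valuation.ne_zero_iff).2 hB.pi0
    have h4 : V.valuation (algebraMap A κ ϖ) ^ (1 : ℤ) = V.valuation (algebraMap A κ ϖ) ^ (a * ℓ) := by
      rw [zpow_mul, ← ha, zpow_one, ← hδϖ, map_pow, map_pow, zpow_natCast, ← pow_mul, ← pow_succ]
    have hinj : Function.Injective (fun n : ℤ => V.valuation (algebraMap A κ ϖ) ^ n) :=
      (zpow_right_strictAnti₀ (zero_lt_iff.2 hv0) hB.pi_lt).injective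
    have h5 : (1 : ℤ) = a * ℓ := hinj h4
    have h6 : (ℓ : ℤ) ∣ 1 := ⟨a, by rw [h5, mul_comm]⟩
    have h7 : ℓ ∣ 1 := by exact_mod_cast h6
    exact hℓ.out.one_lt.ne' (Nat.dvd_one.mp h7)
  obtain ⟨ζ, hζ⟩ : ∃ ζ, ζ = τ δ / δ := ⟨_, rfl⟩
  rw [← hζ] at hτp
  have hζN : ζ ^ (ℓ ^ j) = 1 := hτp.pow_eq_one
  have hpow : ∀ a : ℕ, (τ ^ a) δ = ζ ^ a * δ := by
    intro a
    induction a with
    | zero => simp
    | succ a ih =>
      rw [pow_succ', AlgEquiv.mul_apply, ih, map_mul, map_pow, hinefix τ hτ ζ hζN, hmulδ τ, ← hζ]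
      ring
  refine ⟨?_, τ, hτ, ?_, ?_⟩
  · obtain ⟨φ₀, hφ₀⟩ := Pool.Agent.Y183.PS.fro A k κ V hB.mem hB.non
    have h1 : ((φ₀ δ / δ)⁻¹) ^ (ℓ ^ j) = 1 := by rw [inv_pow, hrt, inv_one]
    haveI : NeZero (ℓ ^ j) := ⟨hN0⟩
    obtain ⟨a, -, ha⟩ := hτp.eq_pow_of_pow_eq_one h1
    have hIa := ine_pow V hτ a
    refine ⟨τ ^ a * φ₀, ⟨fun z => ?_, fun z hz => ?_⟩, ?_⟩
    · rw [AlgEquiv.mul_apply, hIa.1, hφ₀.1]
    · rw [AlgEquiv.mul_apply]
      have h2 : (τ ^ a) (φ₀ z) - z ^ Nat.card (IsLocalRing.ResidueField A) =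
        ((τ ^ a) (φ₀ z) - φ₀ z) + (φ₀ z - z ^ Nat.card (IsLocalRing.ResidueField A)) := by ring
      rw [h2]
      exact V.nonunits.add_mem (hIa.2 _ ((hφ₀.1 z).2 hz)) (hφ₀.2 z hz)
    · rw [AlgEquiv.mul_apply, hmulδ φ₀, map_mul, hpow, hinefix _ hIa _ (hrt φ₀), ha]
      have h3 : φ₀ δ ≠ 0 := by
        rw [Ne, map_eq_zero_iff _ φ₀.injective]
        exact hδ0
      field_simp
  · rw [hpow, hζN, one_mul]
  · intro σ hσ
    haveI : NeZero (ℓ ^ j) := ⟨hN0⟩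
    obtain ⟨a, -, ha⟩ := hτp.eq_pow_of_pow_eq_one (hrt σ)
    exact ⟨a, by rw [hpow, ha, ← hmulδ]⟩

/-- a homomorphism from the inertia group to a group of order `ℓ ^ j` with open kernel is trivial on
the elements which fix `δ` -/
theorem hom_triv (hB : IB ℓ A k κ V ϖ) (j : ℕ) : ∀ (δ : κ), δ ^ (ℓ ^ j) = algebraMap A κ ϖ →
    ∀ (G : Type) [Group G], Nat.card G = ℓ ^ j → ∀ (f : (κ ≃ₐ[k] κ) → G),
      (∀ σ σ', Ine V σ → Ine V σ' → f (σ * σ') = f σ * f σ') →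
      (∃ E : IntermediateField k κ, FiniteDimensional k E ∧
        ∀ σ ∈ E.fixingSubgroup, Ine V σ → f σ = 1) →
      ∀ σ, Ine V σ → σ δ = δ → f σ = 1 := by
  classical
  have : Algebra.IsAlgebraic k κ := IsAlgClosure.isAlgebraic
  have : IsAlgClosed κ := IsAlgClosure.isAlgClosed k
  have : CharZero κ := charZero_of_injective_algebraMap (algebraMap k κ).injective
  have : Normal k κ := IsAlgClosure.normal k κ
  have : IsGalois k κ := IsGalois.mk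
  have hℓ0 : ℓ ≠ 0 := hℓ.out.ne_zero
  induction j with
  | zero =>
    intro δ hδ G _ hG f hf hE σ hσ hσδ
    rw [pow_zero] at hG
    have : Subsingleton G := (Nat.card_eq_one_iff_unique.1 hG).1
    exact Subsingleton.elim _ _
  | succ j ih =>
    intro δ hδ G _ hG f hf hE σ hσ hσδ
    have hδ' : (δ ^ ℓ) ^ (ℓ ^ j) = algebraMap A κ ϖ := by rw [← pow_mul, ← pow_succ', hδ]
    have hδ0 : δ ≠ 0 := by
      rintro rfl
      rw [zero_pow (pow_ne_zero _ hℓ0)] at hδ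
      exact hB.pi0 hδ.symm
    haveI : Finite G := Nat.finite_of_card_ne_zero (by rw [hG]; exact pow_ne_zero _ hℓ0)
    have hpg : IsPGroup ℓ G := IsPGroup.of_card hG
    haveI : Nontrivial G := by
      rw [← Finite.one_lt_card_iff_nontrivial, hG]
      exact Nat.one_lt_pow (Nat.succ_ne_zero j) hℓ.out.one_lt
    haveI := hpg.center_nontrivial
    have hdvd : ℓ ∣ Nat.card (Subgroup.center G) := by
      obtain ⟨n, hn⟩ := IsPGroup.iff_card.1 (hpg.to_subgroup (Subgroup.center G))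
      rw [hn]
      rcases Nat.eq_zero_or_pos n with h0 | h0
      · subst h0
        rw [pow_zero] at hn
        have := Finite.one_lt_card_iff_nontrivial.2
          (inferInstance : Nontrivial (Subgroup.center G))
        omega
      · exact dvd_pow_self ℓ h0.ne'
    obtain ⟨c, hc⟩ := exists_prime_orderOf_dvd_card' ℓ hdvd
    obtain ⟨Z, hZ⟩ : ∃ Z : Subgroup G, Z = Subgroup.zpowers (c : G) := ⟨_, rfl⟩
    haveI hZn : Z.Normal := by
      constructor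
      intro z hz g
      rw [hZ] at hz ⊢
      obtain ⟨n, rfl⟩ := hz
      have h1 : (c : G) ^ n ∈ Subgroup.center G := Subgroup.zpow_mem _ c.2 n
      have h2 := Subgroup.mem_center_iff.1 h1 g
      show g * (c : G) ^ n * g⁻¹ ∈ _
      rw [h2, mul_inv_cancel_right]
      exact ⟨n, rfl⟩
    have hZcard : Nat.card Z = ℓ := by
      rw [hZ, Nat.card_zpowers, Subgroup.orderOf_coe, hc]
    have hQcard : Nat.card (G ⧸ Z) = ℓ ^ j := by
      have h1 := Z.card_mul_index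
      rw [hZcard, hG, pow_succ'] at h1
      exact Nat.eq_of_mul_eq_mul_left hℓ.out.pos h1
    -- on the elements which fix `δ ^ ℓ` the values are in `Z`
    have hfZ : ∀ σ, Ine V σ → σ (δ ^ ℓ) = δ ^ ℓ → f σ ∈ Z := by
      intro σ hσ hσδ
      have h1 := ih (δ ^ ℓ) hδ' (G ⧸ Z) hQcard (fun σ => (QuotientGroup.mk (f σ) : G ⧸ Z))
        (fun σ σ' h1 h2 => by
          show (QuotientGroup.mk (f (σ * σ')) : G ⧸ Z) = _
          rw [hf σ σ' h1 h2]; rfl) (by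
          obtain ⟨E, hE1, hE2⟩ := hE
          refine ⟨E, hE1, fun σ h1 h2 => ?_⟩
          show (QuotientGroup.mk (f σ) : G ⧸ Z) = 1
          rw [hE2 σ h1 h2]; rfl) σ hσ hσδ
      exact (QuotientGroup.eq_one_iff _).1 h1
    -- a character
    haveI : NeZero ℓ := ⟨hℓ0⟩
    haveI : NeZero (ℓ : κ) := ⟨hB.ell.1⟩
    obtain ⟨ζ, hζ⟩ := HasEnoughRootsOfUnity.exists_primitiveRoot κ ℓ
    have hmucard : Nat.card (rootsOfUnity ℓ κ) = ℓ := hζ.card_rootsOfUnity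
    let e : Z ≃* rootsOfUnity ℓ κ := mulEquivOfPrimeCardEq (p := ℓ) hZcard hmucard
    let χ : (κ ≃ₐ[k] κ) → κ := fun σ => if h : f σ ∈ Z then ((e ⟨f σ, h⟩ : κˣ) : κ) else 1
    have hχv : ∀ σ (h : f σ ∈ Z), χ σ = ((e ⟨f σ, h⟩ : κˣ) : κ) := fun σ h => dif_pos h
    have hχ1 : ∀ σ ∈ II (k := k) V (δ ^ ℓ), χ σ ^ ℓ = 1 := by
      intro σ hσ
      rw [hχv σ (hfZ σ hσ.1 hσ.2)]
      have h1 := (e ⟨f σ, hfZ σ hσ.1 hσ.2⟩).2
      rw [mem_rootsOfUnity] at h1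
      have h2 := congrArg Units.val h1
      rwa [Units.val_pow_eq_pow_val, Units.val_one] at h2
    have hχ2 : ∀ σ ∈ II (k := k) V (δ ^ ℓ), ∀ σ' ∈ II (k := k) V (δ ^ ℓ),
        χ (σ * σ') = χ σ * χ σ' := by
      intro σ hσ σ' hσ'
      have h1 := hfZ σ hσ.1 hσ.2
      have h2 := hfZ σ' hσ'.1 hσ'.2
      have hm := (II (k := k) V (δ ^ ℓ)).mul_mem hσ hσ'
      have h3 := hfZ _ hm.1 hm.2
      rw [hχv _ h1, hχv _ h2, hχv _ h3]
      have h4 : (⟨f (σ * σ'), h3⟩ : Z) = ⟨f σ, h1⟩ * ⟨f σ', h2⟩ :=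
        Subtype.ext (hf σ σ' hσ.1 hσ'.1)
      rw [h4, map_mul]
      rfl
    obtain ⟨E, hEf, hE⟩ := hE
    obtain ⟨b, hb, hbχ⟩ := resolvent (II (k := k) V (δ ^ ℓ)) χ
      (fun σ hσ => by
        have := hχ1 σ hσ
        intro h
        rw [h, zero_pow hℓ0] at this
        exact zero_ne_one this) hχ2
      (fun σ hσ σ' hσ' => ine_root V hℓ0 hB.ell hσ.1 (hχ1 σ' hσ')) E
      (fun σ h1 h2 => by
        rw [hχv σ (hfZ σ h2.1 h2.2)]
        have h4 : (⟨f σ, hfZ σ h2.1 h2.2⟩ : Z) = 1 := Subtype.ext (hE σ h1 h2.1)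
        rw [h4, map_one]
        rfl)
    have hbℓ : ∀ σ ∈ II (k := k) V (δ ^ ℓ), σ (b ^ ℓ) = b ^ ℓ := by
      intro σ hσ
      rw [map_pow, hbχ σ hσ, mul_pow, hχ1 σ hσ, one_mul]
    obtain ⟨i, hi⟩ := val_fix hB j (δ ^ ℓ) hδ' (pow_ne_zero ℓ hb) hbℓ
    -- `u = b / δ ^ i` is a unit fixed by the group
    have hδi : δ ^ i ≠ 0 := zpow_ne_zero _ hδ0
    have hub : IsU V (b / δ ^ i) := by
      refine isU_of_pow V hℓ0 ?_
      rw [isU_iff, div_pow, map_div₀, hi, map_pow, map_pow, map_zpow₀, ← zpow_natCast,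
        ← zpow_natCast, ← zpow_mul, ← zpow_mul, mul_comm i, div_self]
      exact zpow_ne_zero _ ((V.valuation.ne_zero_iff).2 hδ0)
    have hufix : ∀ σ ∈ II (k := k) V (δ ^ ℓ), σ (b / δ ^ i) = b / δ ^ i := by
      intro σ hσ
      have h0 : (b / δ ^ i) ^ ℓ = b ^ ℓ / (δ ^ ℓ) ^ i := by
        rw [div_pow, ← zpow_natCast (δ ^ i), ← zpow_natCast δ, ← zpow_mul, ← zpow_mul, mul_comm i]
      have h1 : (σ (b / δ ^ i) / (b / δ ^ i)) ^ ℓ = 1 := by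
        rw [div_pow, ← map_pow, h0, map_div₀, hbℓ σ hσ, map_zpow₀, hσ.2, div_self]
        rw [← h0]
        exact pow_ne_zero _ hub.1
      have h2 : σ (b / δ ^ i) / (b / δ ^ i) = 1 := by
        refine root_one V hB.ell h1 ?_
        have : σ (b / δ ^ i) / (b / δ ^ i) - 1 =
            (b / δ ^ i)⁻¹ * (σ (b / δ ^ i) - b / δ ^ i) := by
          rw [mul_sub, inv_mul_cancel₀ hub.1, div_eq_inv_mul]
        rw [this]
        exact mem_mul_non V hub.2.2 (hσ.1.2 _ hub.2.1)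
      exact (div_eq_one_iff_eq hub.1).1 h2
    have hσ' : σ ∈ II (k := k) V (δ ^ ℓ) := ⟨hσ, by rw [map_pow, hσδ]⟩
    have hσb : σ b = b := by
      have h1 : b = (b / δ ^ i) * δ ^ i := by rw [div_mul_cancel₀ _ hδi]
      conv_lhs => rw [h1]
      rw [map_mul, hufix σ hσ', map_zpow₀, hσδ, ← h1]
    have hχσ : χ σ = 1 := by
      have h1 := hbχ σ hσ'
      rw [hσb] at h1
      exact ((mul_eq_right₀ hb).1 h1.symm)
    rw [hχv σ (hfZ σ hσ hσ'.2)] at hχσ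
    have h1 : e ⟨f σ, hfZ σ hσ hσ'.2⟩ = 1 := by
      apply Subtype.ext
      apply Units.ext
      rw [hχσ]
      rfl
    rw [EmbeddingLike.map_eq_one_iff] at h1
    exact congrArg Subtype.val h1

end main

end Pool.Agent.H889.PS
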