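import Pool.Agent.H889.PS.Ram

/-!
# The local theorem
-/

set_option autoImplicit false
set_option linter.all false

open Polynomial FF

namespace Pool.Agent.H889.PS

open Pool.Agent.Y157.PS Pool.Agent.Y31.PS

section

variable {κ R M : Type} [Field κ] [Field R] [Field M] [Algebra κ R] [Algebra R M] [Algebra κ M]
  [IsScalarTower κ R M] {x : R}
variable {k : Type} [Field k] [Algebra k κ] {s : (κ ≃ₐ[k] κ) →* RingAut M}
  {V : ValuationSubring κ} {O : ValuationSubring M}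

theorem zero_non : (0 : M) ∈ O.nonunits := nonunits_iff.2 ⟨zero_mem _, Or.inl rfl⟩

theorem Rel.one : Rel (R := R) O s 1 1 := by
  intro z hz
  rw [map_one]
  change z - z ∈ _
  rw [sub_self]
  exact zero_non

theorem Rel.pow (hO : Gauss V (algebraMap R M x) O)
    (hu : ∀ O' : ValuationSubring M, Gauss V (algebraMap R M x) O' → O' = O)
    (hs : GSec k κ R M x s) {σ : κ ≃ₐ[k] κ} (hσ : Ine V σ) {γ : M ≃ₐ[R] M}
    (h : Rel O s σ γ) (n : ℕ) : Rel O s (σ ^ n) (γ ^ n) := by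
  induction n with
  | zero => rw [pow_zero, pow_zero]; exact Rel.one
  | succ n ih =>
    rw [pow_succ, pow_succ]
    exact Rel.mul hO hu hs (hσ.pow n).1 ih h

theorem rel_one {σ : κ ≃ₐ[k] κ} (h : ∀ z ∈ O, s σ z - z ∈ O.nonunits) :
    Rel (R := R) O s σ 1 := by
  intro z hz
  change z - s σ z ∈ _
  rw [← neg_sub]
  exact non_neg (h z hz)

theorem conj_pow (hR : RatF κ x) (hs : GSec k κ R M x s) (φ : κ ≃ₐ[k] κ) (γ : M ≃ₐ[R] M)
    (n : ℕ) : conj hR hs φ (γ ^ n) = (conj hR hs φ γ) ^ n := by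
  induction n with
  | zero =>
    rw [pow_zero, pow_zero]
    ext z
    rw [conj_apply]
    change s φ (s φ⁻¹ z) = z
    exact Pool.Agent.Y748.PS.s_apply_inv (s := s) φ z
  | succ n ih =>
    rw [pow_succ, pow_succ, ← ih]
    ext z
    rw [conj_apply, AlgEquiv.mul_apply, AlgEquiv.mul_apply, conj_apply, conj_apply,
      Pool.Agent.Y748.PS.s_inv_apply]

end

section loc

variable {A k κ R M : Type} [CommRing A] [IsDomain A]
    [IsDiscreteValuationRing A] [Field k] [Field κ] [Algebra A k] [Algebra k κ] [Algebra A κ]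
    [IsScalarTower A k κ] [IsFractionRing A k] [CharZero k] [IsAlgClosure k κ]
    [Finite (IsLocalRing.ResidueField A)] [Field R] [Field M] [Algebra κ R] [Algebra R M]
    [Algebra κ M] [IsScalarTower κ R M] {ℓ : ℕ} [Fact ℓ.Prime]
    {V : ValuationSubring κ} {ϖ : A} {x : R} {B : Finset κ} {ε : κ → ℕ} {ι : ℕ}
    {N₀ : IntermediateField R M} {s : (κ ≃ₐ[k] κ) →* RingAut M} {O : ValuationSubring M}

/-- **the local theorem**: a section on which the inertia group does not act trivially modulo the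
Gauss valuation comes from exactly one ramified place -/
theorem loc (hB : IB ℓ A k κ V ϖ) (hC : GCov ℓ κ R M x B ε ι N₀) (hGood : Good V B)
    (F : Type) [Field F] (r : V →+* F) (hr : Res V r) (D : Disc ℓ V r)
    (hs : GSec k κ R M x s) (hO : Gauss V (algebraMap R M x) O)
    (hbad : ∃ σ : κ ≃ₐ[k] κ, Ine V σ ∧ ∃ z ∈ O, s σ z - z ∉ O.nonunits) :
    ∃ W : Place κ M, IsRam ε ι x W ∧
      (∀ e : κ, 0 < W.ord (algebraMap R M x - algebraMap κ M e) →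
        ∀ σ : κ ≃ₐ[k] κ, Dec V σ → σ e = e) ∧
      (∀ σ : κ ≃ₐ[k] κ, Dec V σ → Fixes W (s σ)) ∧
      ∀ W' : Place κ M, IsRam ε ι x W' →
        (∀ σ : κ ≃ₐ[k] κ, Dec V σ → Fixes W' (s σ)) → W' = W := by
  haveI : IsAlgClosed κ := IsAlgClosure.isAlgClosed k
  haveI : CharZero κ := charZero_of_injective_algebraMap (algebraMap k κ).injective
  have hp := (Fact.out : ℓ.Prime).pos
  have hℓ : IsU V (ℓ : κ) := hB.ell
  have hR := hC.rat
  have hu : ∀ O' : ValuationSubring M, Gauss V (algebraMap R M x) O' → O' = O :=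
    fun O' h => gun hC V hGood O' O h hO
  obtain ⟨j, hj⟩ := hC.lev.card
  obtain ⟨δ, hδ⟩ := IsAlgClosed.exists_pow_nat_eq (algebraMap A κ ϖ) (pow_pos hp j)
  have st : ∀ σ : κ ≃ₐ[k] κ, Dec V σ → ∀ z, s σ z ∈ O ↔ z ∈ O := fun σ hσ =>
    stabS hO hu hs hσ
  have stn : ∀ σ : κ ≃ₐ[k] κ, Dec V σ → ∀ z, s σ z ∈ O.nonunits ↔ z ∈ O.nonunits := fun σ hσ =>
    nuS hO hu hs hσ
  have gt : ∀ (γ : M ≃ₐ[R] M) z, γ z ∈ O ↔ z ∈ O := fun γ => hO.stable' hu γ
  have gtn : ∀ (γ : M ≃ₐ[R] M) z, γ z ∈ O.nonunits ↔ z ∈ O.nonunits := fun γ =>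
    stable_non (τ := (γ : M ≃+* M)) (gt γ)
  have smul : ∀ (σ σ' : κ ≃ₐ[k] κ) z, s (σ * σ') z = s σ (s σ' z) := by
    intro σ σ' z
    rw [map_mul]; rfl
  have sinv : ∀ (σ : κ ≃ₐ[k] κ) z, s σ⁻¹ (s σ z) = z := by
    intro σ z
    rw [← smul, inv_mul_cancel, map_one]; rfl
  have sinv' : ∀ (σ : κ ≃ₐ[k] κ) z, s σ (s σ⁻¹ z) = z := by
    intro σ z
    rw [← smul, mul_inv_cancel, map_one]; rfl
  have wg : ∀ σ : κ ≃ₐ[k] κ, Ine V σ → σ δ = δ → Rel (R := R) O s σ 1 := fun σ h1 h2 =>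
    rel_one (wgt hB hδ hC hj hGood F r hr D hs hO hu σ h1 h2)
  have UL : ∀ {σ : κ ≃ₐ[k] κ} {γ γ' : M ≃ₐ[R] M}, Rel O s σ γ → Rel O s σ γ' → γ = γ' :=
    fun h h' => Rel.unique hC hO hℓ hu h h'
  obtain ⟨-, τ, hτ, hτδ, hτa⟩ := tau hB hδ
  obtain ⟨γ, hγ⟩ : ∃ γ : M ≃ₐ[R] M, Rel O s τ γ := Rel.exists hC hO hu hs hτ
  have hpow : ∀ n : ℕ, Rel O s (τ ^ n) (γ ^ n) := Rel.pow hO hu hs hτ hγ
  -- inertia acts through the powers of `γ`
  have hall : ∀ σ : κ ≃ₐ[k] κ, Ine V σ → ∃ a : ℕ, Rel O s σ (γ ^ a) := by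
    intro σ hσ
    obtain ⟨a, ha⟩ := hτa σ hσ
    refine ⟨a, ?_⟩
    have h1 : Ine V ((τ ^ a)⁻¹ * σ) := (hτ.pow a).inv.mul hσ
    have h2 : ((τ ^ a)⁻¹ * σ) δ = δ := by
      rw [AlgEquiv.mul_apply, ha, ← AlgEquiv.mul_apply, inv_mul_cancel, AlgEquiv.one_apply]
    have h3 := Rel.mul hO hu hs (hτ.pow a).1 (hpow a) (wg _ h1 h2)
    rwa [mul_one, mul_inv_cancel_left] at h3
  have hγj : γ ^ (ℓ ^ j) = 1 := UL (hpow _) (wg _ (hτ.pow _) hτδ)
  have hγ1 : γ ≠ 1 := by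
    rintro rfl
    obtain ⟨σ, hσ, z, hz, hσz⟩ := hbad
    obtain ⟨a, ha⟩ := hall σ hσ
    rw [one_pow] at ha
    apply hσz
    have h1 := ha z hz
    change z - s σ z ∈ _ at h1
    rw [← neg_sub]
    exact non_neg h1
  obtain ⟨n, hn1, hn2⟩ := exists_order j γ hγj hγ1
  obtain ⟨c0, hc0⟩ : ∃ c0 : M ≃ₐ[R] M, c0 = γ ^ (ℓ ^ n) := ⟨_, rfl⟩
  rw [← hc0] at hn1 hn2
  obtain ⟨W, hW⟩ := exf hC c0 hn1 hn2
  -- the image of the section fixes `W`
  have hfix : ∀ σ : κ ≃ₐ[k] κ, Dec V σ → Fixes W (s σ) := by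
    intro σ hσ
    have h1 : Rel O s (σ⁻¹ * τ * σ⁻¹⁻¹) (conj hR hs σ⁻¹ γ) := Rel.conj hO hu hR hs hσ.inv hγ
    rw [inv_inv] at h1
    obtain ⟨a, ha⟩ := hall _ (Ine.conj hσ hτ)
    have h2 : conj hR hs σ⁻¹ c0 = c0 ^ a := by
      rw [hc0, conj_pow, UL h1 ha, ← pow_mul, ← pow_mul, mul_comm]
    have h3 : ∀ z, s σ (conj hR hs σ⁻¹ c0 z) = c0 (s σ z) := by
      intro z
      rw [conj_apply, inv_inv, sinv']
    have h4 : (conj hR hs σ⁻¹ c0) ^ ℓ = 1 := by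
      rw [h2, ← pow_mul, mul_comm, pow_mul, hn1, one_pow]
    have h5 : conj hR hs σ⁻¹ c0 ≠ 1 := by
      intro h
      apply hn2
      ext z
      have h6 := h3 (s σ⁻¹ z)
      rw [h, sinv'] at h6
      change s σ (s σ⁻¹ z) = _ at h6
      rw [sinv'] at h6
      exact h6.symm
    let Wσ := Place.comapEquiv W (s σ) (σ : κ ≃+* κ) (hs.const σ)
    have h7 : Wσ = W := by
      refine unq hC (conj hR hs σ⁻¹ c0) h4 h5 Wσ W ?_ ?_
      · intro z
        change W.ord (s σ (conj hR hs σ⁻¹ c0 z)) = W.ord (s σ z)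
        rw [h3, hW]
      · rw [h2]; exact Fixes.pow hW a
    intro z
    change Wσ.ord z = W.ord z
    rw [h7]
  have hram : IsRam ε ι x W := by
    obtain ⟨h1, -⟩ := above_M hC hn2 hW
    have hpos : ∀ n : ℕ, (0 : ℤ) < (ℓ : ℤ) ^ n := fun n => by positivity
    rcases h1 with ⟨e, -, he, h1⟩ | ⟨h1, h2⟩
    · exact Or.inl ⟨e, h1, by rw [he]; exact hpos _⟩
    · refine Or.inr ⟨h2, ?_⟩
      rw [h1]
      have := hpos ι
      omega
  refine ⟨W, hram, ?_, hfix, ?_⟩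
  · intro e hWe σ hσ
    by_contra hne
    have h1 := hfix σ hσ (algebraMap R M x - algebraMap κ M e)
    rw [map_sub, hs.fixx, hs.const] at h1
    have h2 := ord_sub_const hWe (Ne.symm hne)
    omega
  · -- uniqueness
    intro W' hW' hfix'
    obtain ⟨c, hcℓ, hc1, hc⟩ := ram_stab hC hW'
    -- conjugation by `s τ` and by `γ` agree
    have h1 : conj hR hs τ c = γ * c * γ⁻¹ := by
      have h2 : ∀ z ∈ O, conj hR hs τ (c) z - (γ * c * γ⁻¹) z ∈ O.nonunits := by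
        intro z hz
        rw [conj_apply]
        change s τ (c (s τ⁻¹ z)) - γ (c (γ⁻¹ z)) ∈ _
        have e1 : s τ (c (s τ⁻¹ z)) - γ (c (γ⁻¹ z)) =
            s τ (c (s τ⁻¹ z - γ⁻¹ z)) - (γ (c (γ⁻¹ z)) - s τ (c (γ⁻¹ z))) := by
          rw [map_sub c, map_sub]; ring
        rw [e1]
        have hz1 : γ⁻¹ z ∈ O := (gt γ⁻¹ z).2 hz
        refine non_sub ?_ (hγ _ ((gt c _).2 hz1))
        rw [stn τ hτ.1, gtn, ← stn τ hτ.1, map_sub, sinv', ← neg_sub]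
        refine non_neg ?_
        have h3 := hγ _ hz1
        have h4 : γ (γ⁻¹ z) = z := γ.apply_symm_apply z
        rw [h4] at h3
        rw [← neg_sub]
        exact non_neg h3
      obtain ⟨-, h3⟩ := g2 hC V O hO
      have h4 : ((γ * c * γ⁻¹)⁻¹ * conj hR hs τ c) = 1 := by
        ext z
        obtain ⟨N, hzN, hN⟩ := hC.pow z
        refine h3 hℓ N hN _ (fun z hz _ => ?_) z hzN
        have h5 := (gtn (γ * c * γ⁻¹)⁻¹ _).2 (h2 z hz)
        rw [map_sub] at h5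
        have h6 : (γ * c * γ⁻¹)⁻¹ ((γ * c * γ⁻¹) z) = z := by
          rw [← AlgEquiv.mul_apply, inv_mul_cancel, AlgEquiv.one_apply]
        rw [h6] at h5
        exact h5
      exact (inv_mul_eq_one.1 h4).symm
    have h2 : Fixes W' (conj hR hs τ c) := by
      intro z
      rw [conj_apply, hfix' τ hτ.1, hc, hfix' τ⁻¹ hτ.1.inv]
    have h3 : pl W' γ⁻¹ = W' := by
      refine unq hC (γ * c * γ⁻¹) ?_ ?_ _ _ ?_ ?_
      · rw [_root_.conj_pow, hcℓ, mul_one, mul_inv_cancel]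
      · rw [Ne, conj_eq_one_iff]; exact hc1
      · intro z
        rw [pl_ord, pl_ord]
        change W'.ord (γ.symm (γ (c (γ⁻¹ z)))) = _
        rw [γ.symm_apply_apply, hc]
      · rw [← h1]; exact h2
    have h4 : Fixes W' c0 := by
      have h5 := Fixes.inv ((fixes_iff W' γ⁻¹).2 h3)
      rw [inv_inv] at h5
      rw [hc0]
      exact Fixes.pow h5 _
    exact unq hC c0 hn1 hn2 W' W h4 hW

end loc

end Pool.Agent.H889.PS
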