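import Pool.Agent.H889.PS.Geo
import Pool.Graph.R_seed8.Y157.PS.Ind2

/-! # Sections of larger quotients of the fundamental group -/

set_option autoImplicit false
set_option linter.all false

open Polynomial FF

namespace Pool.Agent.H889.PS

open Pool.Agent.Y157.PS

section ram

variable {k F Ω : Type} [Field k] [Field F] [Field Ω] [Algebra k F]
  [Algebra F Ω] [Algebra k Ω] [IsScalarTower k F Ω]

theorem ramP_up {x : F} {N M : IntermediateField F Ω} (h : N ≤ M) (hN : geomF k F Ω ≤ N)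
    (W : ValuationSubring M)
    (hW : RamP k x N (W.comap ((IntermediateField.inclusion h : N →ₐ[F] M) : N →+* M))) :
    RamP k x M W := by
  obtain ⟨z, hz, hz0, hzt⟩ := hW
  refine ⟨IntermediateField.inclusion h z, hz, (_root_.map_ne_zero _).2 hz0, fun t ht ht0 => ?_⟩
  have htN : (t : Ω) ∈ N := hN (rat_le_geom k x _ ht)
  have h1 := hzt ⟨(t : Ω), htN⟩ ht (fun h0 => ht0 (Subtype.ext (show (t : Ω) = 0 from
    congrArg (fun w : N => (w : Ω)) h0)))
  rw [comap_isU, map_div₀] at h1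
  exact h1

theorem ramP_down {x : F} {N M : IntermediateField F Ω} (h : N ≤ M) (hN : geomF k F Ω ≤ N)
    (W : ValuationSubring M) (hW : RamP k x M W) :
    RamP k x N (W.comap ((IntermediateField.inclusion h : N →ₐ[F] M) : N →+* M)) := by
  obtain ⟨z, hz, hz0, hzt⟩ := hW
  have hzN : (z : Ω) ∈ N := hN hz
  refine ⟨⟨(z : Ω), hzN⟩, hz, fun h0 => hz0 (Subtype.ext (show (z : Ω) = 0 from
    congrArg (fun w : N => (w : Ω)) h0)), fun t ht ht0 => ?_⟩
  have h1 := hzt (IntermediateField.inclusion h t) ht ((_root_.map_ne_zero _).2 ht0)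
  rw [comap_isU, map_div₀]
  exact h1

theorem geomF_le_geomPro (ℓ : ℕ) : geomF k F Ω ≤ geomPro ℓ k F Ω := fun z hz =>
  (maxPro ℓ k (geomF k F Ω) Ω).algebraMap_mem ⟨z, hz⟩

end ram

section main

variable {A k F Ω : Type} [CommRing A] [IsDomain A] [IsDiscreteValuationRing A]
    [Finite (IsLocalRing.ResidueField A)] [Field k] [CharZero k] [Algebra A k] [IsFractionRing A k]
    [Field F] [Field Ω] [Algebra k F] [Algebra F Ω] [Algebra k Ω] [IsScalarTower k F Ω]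
    [IsAlgClosed Ω] [Algebra.IsAlgebraic F Ω]

theorem numM' {ℓ : ℕ} [Fact ℓ.Prime] (V : ValuationSubring (algebraicClosure k Ω))
    (hVA : ∀ a : A, algebraMap k (algebraicClosure k Ω) (algebraMap A k a) ∈ V)
    (hVm : ∀ a ∈ IsLocalRing.maximalIdeal A,
      algebraMap k (algebraicClosure k Ω) (algebraMap A k a) ∈ V.nonunits)
    (hℓ : IsUnit (ℓ : A)) (f : A[X]) (hlc : IsUnit f.leadingCoeff)
    (hs : (f.map (IsLocalRing.residue A)).Separable) (x : F) (hx : Transcendental k x)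
    (halg : Algebra.IsAlgebraic (IntermediateField.adjoin k {x}) F)
    (L : IntermediateField (ratL (Ω := Ω) k x) Ω) (hL : Lev ℓ L)
    (hFL : ∀ z : F, algebraMap F Ω z ∈ L)
    (hLu : ∀ W : ValuationSubring Ω, (∀ c : k, algebraMap k Ω c ∈ W) → ∀ z ∈ L, z ≠ 0 →
      ∃ t ∈ geomF k F Ω, t ≠ 0 ∧ IsU W (z / t))
    (hLf : ∀ W : ValuationSubring Ω, (∀ c : k, algebraMap k Ω c ∈ W) → algebraMap F Ω x ∈ W →
      algebraMap F Ω (aeval x (f.map (algebraMap A k))) ∉ W.nonunits → ∀ z ∈ L, z ≠ 0 →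
        ∃ t ∈ ratL (Ω := Ω) k x, t ≠ 0 ∧ IsU W (z / t))
    (O' : ValuationSubring F)
    (h1 : ∀ p : A[X], (∃ n, IsUnit (p.coeff n)) →
      IsU O' (p.eval₂ ((algebraMap k F).comp (algebraMap A k)) x))
    (h2 : ∀ a ∈ IsLocalRing.maximalIdeal A, algebraMap k F (algebraMap A k a) ∈ O'.nonunits)
    (z₀ : F) (hz₀ : z₀ ≠ 0) (hram : ∀ c : k, c ≠ 0 → ¬ IsU O' (z₀ / algebraMap k F c))
    (hbig : ∃ z ∈ geomPro ℓ k F Ω, z ∉ geomF k F Ω)
    (M : IntermediateField F Ω) (hM : geomPro ℓ k F Ω ≤ M)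
    (S : (algebraicClosure k Ω ≃ₐ[k] algebraicClosure k Ω) →* (M ≃ₐ[F] M)) (hcont : Continuous S)
    (hcompat : ∀ σ (c : algebraicClosure k Ω) (z : M), (z : Ω) = (c : Ω) →
      (S σ z : Ω) = (σ c : Ω)) :
    ∃ W : ValuationSubring M,
      (((∀ c : k, algebraMap F M (algebraMap k F c) ∈ W) ∧
       RamP k x M W ∧
       (∀ z : F, algebraMap F M z ∈ W → ∃ c : algebraicClosure k Ω,
          (∀ σ : algebraicClosure k Ω ≃ₐ[k] algebraicClosure k Ω, Dec V σ → σ c = c) ∧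
          ∃ z' ∈ W.nonunits, (z' : Ω) = algebraMap F Ω z - c) ∧
       (∀ z : M, (z : Ω) ∈ geomPro ℓ k F Ω → z ∈ W → ∃ c : algebraicClosure k Ω,
          ∃ z' ∈ W.nonunits, (z' : Ω) = (z : Ω) - c)) ∧
       ∀ σ : algebraicClosure k Ω ≃ₐ[k] algebraicClosure k Ω, Dec V σ →
        ∀ z : M, (z : Ω) ∈ geomPro ℓ k F Ω → (S σ z ∈ W ↔ z ∈ W)) ∧
      ∀ W' : ValuationSubring M,
        (∀ c : k, algebraMap F M (algebraMap k F c) ∈ W') →
        RamP k x M W' →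
        (∀ σ : algebraicClosure k Ω ≃ₐ[k] algebraicClosure k Ω, Dec V σ →
          ∀ z : M, (z : Ω) ∈ geomPro ℓ k F Ω → (S σ z ∈ W' ↔ z ∈ W')) →
        ∀ z : M, (z : Ω) ∈ geomPro ℓ k F Ω → (z ∈ W' ↔ z ∈ W) := by
  have hge := geomF_le_geomPro (k := k) (F := F) (Ω := Ω) ℓ
  obtain ⟨T, hTc, hT⟩ := a_ind2 ℓ k F Ω x hx halg M hM _ S hcont
  have hTcompat : ∀ σ (c : algebraicClosure k Ω) (z : geomPro ℓ k F Ω), (z : Ω) = (c : Ω) →
      (T σ z : Ω) = (σ c : Ω) := by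
    intro σ c z hz
    have h1 : (z : Ω) ∈ M := hM z.2
    rw [hT σ ⟨(z : Ω), h1⟩ z rfl]
    exact hcompat σ c _ hz
  obtain ⟨W₀, ⟨g1, g2', g3, g4⟩, hun⟩ := geo' V hVA hVm hℓ f hlc hs x hx L hL hFL hLu hLf O' h1 h2
    z₀ hz₀ hram hbig T hTc hTcompat
  obtain ⟨W, ⟨⟨hW1, hW2, hW3, hW3'⟩, hW4⟩, hWun⟩ := lift_thm (geomPro ℓ k F Ω) M hM S T
    (fun σ => Dec V σ) hT
    (fun L W => (∀ c : k, algebraMap F L (algebraMap k F c) ∈ W) ∧
       RamP k x L W ∧
       (∀ z : F, algebraMap F L z ∈ W → ∃ c : algebraicClosure k Ω,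
          (∀ σ : algebraicClosure k Ω ≃ₐ[k] algebraicClosure k Ω, Dec V σ → σ c = c) ∧
          ∃ z' ∈ W.nonunits, (z' : Ω) = algebraMap F Ω z - c) ∧
       (∀ z : L, (z : Ω) ∈ geomPro ℓ k F Ω → z ∈ W → ∃ c : algebraicClosure k Ω,
          ∃ z' ∈ W.nonunits, (z' : Ω) = (z : Ω) - c))
    (fun L W => (∀ c : k, algebraMap F L (algebraMap k F c) ∈ W) ∧ RamP k x L W)
    (by
      rintro W ⟨a1, a2, a3, a4⟩
      refine ⟨a1, ramP_up hM hge W a2, fun z hz => ?_, fun z hzM hz => ?_⟩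
      · obtain ⟨c, hcfix, z', hz', hc⟩ := a3 z hz
        exact ⟨c, hcfix, _, (non_incl ((IntermediateField.inclusion hM :
          geomPro ℓ k F Ω →ₐ[F] M) : geomPro ℓ k F Ω →+* M) W _).1 hz', hc⟩
      · obtain ⟨c, z', hz', hc⟩ := a4 ⟨(z : Ω), hzM⟩ hzM hz
        exact ⟨c, _, (non_incl ((IntermediateField.inclusion hM :
          geomPro ℓ k F Ω →ₐ[F] M) : geomPro ℓ k F Ω →+* M) W _).1 hz', hc⟩)
    (by
      rintro W ⟨a1, a2⟩
      exact ⟨a1, ramP_down hM hge W a2⟩)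
    ⟨W₀, ⟨⟨g1, g3, fun z hz => by
      obtain ⟨c, z', hz', hc⟩ := g2' _ hz
      refine ⟨c, fun σ hσ => ?_, z', hz', hc⟩
      exact res_fixed _ W₀ g1 σ (T σ) (g4 σ hσ) (fun c z hz => hTcompat σ c z hz) z c z' hz' hc,
      fun z _ hz => g2' z hz⟩,
      fun σ hσ z => g4 σ hσ z⟩, fun W' hW' hst => hun W' hW'.1 hW'.2 hst⟩
  exact ⟨W, ⟨⟨hW1, hW2, hW3, hW3'⟩, hW4⟩, fun W' b1 b2 b3 z hz => hWun W' ⟨b1, b2⟩ b3 z hz⟩

end main

section complete

variable {A k F Ω : Type} [CommRing A] [IsDomain A] [IsDiscreteValuationRing A]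
    [IsAdicComplete (IsLocalRing.maximalIdeal A) A]
    [Finite (IsLocalRing.ResidueField A)] [Field k] [CharZero k] [Algebra A k] [IsFractionRing A k]
    [Field F] [Field Ω] [Algebra k F] [Algebra F Ω] [Algebra k Ω] [IsScalarTower k F Ω]
    [IsAlgClosed Ω] [Algebra.IsAlgebraic F Ω]

theorem padicM' {ℓ : ℕ} [Fact ℓ.Prime]
    (hℓ : IsUnit (ℓ : A)) (f : A[X]) (hlc : IsUnit f.leadingCoeff)
    (hs : (f.map (IsLocalRing.residue A)).Separable) (x : F) (hx : Transcendental k x)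
    (halg : Algebra.IsAlgebraic (IntermediateField.adjoin k {x}) F)
    (L : IntermediateField (ratL (Ω := Ω) k x) Ω) (hL : Lev ℓ L)
    (hFL : ∀ z : F, algebraMap F Ω z ∈ L)
    (hLu : ∀ W : ValuationSubring Ω, (∀ c : k, algebraMap k Ω c ∈ W) → ∀ z ∈ L, z ≠ 0 →
      ∃ t ∈ geomF k F Ω, t ≠ 0 ∧ IsU W (z / t))
    (hLf : ∀ W : ValuationSubring Ω, (∀ c : k, algebraMap k Ω c ∈ W) → algebraMap F Ω x ∈ W →
      algebraMap F Ω (aeval x (f.map (algebraMap A k))) ∉ W.nonunits → ∀ z ∈ L, z ≠ 0 →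
        ∃ t ∈ ratL (Ω := Ω) k x, t ≠ 0 ∧ IsU W (z / t))
    (O' : ValuationSubring F)
    (h1 : ∀ p : A[X], (∃ n, IsUnit (p.coeff n)) →
      IsU O' (p.eval₂ ((algebraMap k F).comp (algebraMap A k)) x))
    (h2 : ∀ a ∈ IsLocalRing.maximalIdeal A, algebraMap k F (algebraMap A k a) ∈ O'.nonunits)
    (z₀ : F) (hz₀ : z₀ ≠ 0) (hram : ∀ c : k, c ≠ 0 → ¬ IsU O' (z₀ / algebraMap k F c))
    (hbig : ∃ z ∈ geomPro ℓ k F Ω, z ∉ geomF k F Ω)
    (M : IntermediateField F Ω) (hM : geomPro ℓ k F Ω ≤ M)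
    (S : (algebraicClosure k Ω ≃ₐ[k] algebraicClosure k Ω) →* (M ≃ₐ[F] M)) (hcont : Continuous S)
    (hcompat : ∀ σ (c : algebraicClosure k Ω) (z : M), (z : Ω) = (c : Ω) →
      (S σ z : Ω) = (σ c : Ω)) :
    ∃ W : ValuationSubring M,
      (((∀ c : k, algebraMap F M (algebraMap k F c) ∈ W) ∧
       RamP k x M W ∧
       (∀ z : F, algebraMap F M z ∈ W →
          ∃ c : k, algebraMap F M (z - algebraMap k F c) ∈ W.nonunits)) ∧
       ∀ σ, ∀ z : M, (z : Ω) ∈ geomPro ℓ k F Ω → (S σ z ∈ W ↔ z ∈ W)) ∧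
      ∀ W' : ValuationSubring M,
        (∀ c : k, algebraMap F M (algebraMap k F c) ∈ W') →
        RamP k x M W' →
        (∀ σ, ∀ z : M, (z : Ω) ∈ geomPro ℓ k F Ω → (S σ z ∈ W' ↔ z ∈ W')) →
        ∀ z : M, (z : Ω) ∈ geomPro ℓ k F Ω → (z ∈ W' ↔ z ∈ W) := by
  have hac : IsAlgClosure k (algebraicClosure k Ω) := inferInstance
  have : Normal k (algebraicClosure k Ω) := IsAlgClosure.normal k _
  have hGal : IsGalois k (algebraicClosure k Ω) := ⟨⟩
  letI : Algebra A (algebraicClosure k Ω) :=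
    ((algebraMap k (algebraicClosure k Ω)).comp (algebraMap A k)).toAlgebra
  haveI hst : IsScalarTower A k (algebraicClosure k Ω) :=
    IsScalarTower.of_algebraMap_eq (fun _ => rfl)
  obtain ⟨V, hV⟩ := Pool.Agent.Y809.PS.val A k (algebraicClosure k Ω)
  have hVa : ∀ a : A, algebraMap A (algebraicClosure k Ω) a ∈ V := fun a =>
    (hV _).2 isIntegral_algebraMap
  have hVm : ∀ a ∈ IsLocalRing.maximalIdeal A, algebraMap A (algebraicClosure k Ω) a ∈
      V.nonunits := by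
    intro a ha
    refine nonunits_iff.2 ⟨hVa a, ?_⟩
    by_cases ha0 : a = 0
    · left
      rw [ha0, map_zero]
    right
    intro hi
    rw [hV, IsScalarTower.algebraMap_apply A k (algebraicClosure k Ω), ← map_inv₀,
      isIntegral_algebraMap_iff (algebraMap k (algebraicClosure k Ω)).injective] at hi
    obtain ⟨b, hb⟩ := IsIntegrallyClosed.isIntegral_iff.1 hi
    have h1 : a * b = 1 := by
      apply IsFractionRing.injective A k
      rw [map_mul, hb, map_one, mul_inv_cancel₀]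
      rw [Ne, map_eq_zero_iff _ (IsFractionRing.injective A k)]
      exact ha0
    exact (IsLocalRing.mem_maximalIdeal _).1 ha (IsUnit.of_mul_eq_one b h1)
  have hdec : ∀ σ : algebraicClosure k Ω ≃ₐ[k] algebraicClosure k Ω, Dec V σ := by
    intro σ z
    rw [hV, hV]
    have h1 : ∀ (τ : algebraicClosure k Ω ≃ₐ[k] algebraicClosure k Ω) (w : algebraicClosure k Ω),
        IsIntegral A w → IsIntegral A (τ w) := fun τ w hw =>
      hw.map (τ.toAlgHom.restrictScalars A)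
    refine ⟨fun h => ?_, h1 σ z⟩
    have h2 := h1 σ.symm _ h
    rwa [σ.symm_apply_apply] at h2
  have hrat : ∀ c : algebraicClosure k Ω, (∀ σ : algebraicClosure k Ω ≃ₐ[k]
      algebraicClosure k Ω, σ c = c) → ∃ c' : k, algebraMap k (algebraicClosure k Ω) c' = c := by
    intro c hc
    have h5 := (InfiniteGalois.mem_bot_iff_fixed c).2 hc
    exact IntermediateField.mem_bot.1 h5
  obtain ⟨W, ⟨⟨g1, g2', g3, -⟩, g4⟩, hun⟩ := numM' V hVa hVm hℓ f hlc hs x hx halg L hL hFL hLu hLf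
    O' h1 h2 z₀ hz₀ hram hbig M hM S hcont hcompat
  refine ⟨W, ⟨⟨g1, g2', ?_⟩, fun σ z hz => g4 σ (hdec σ) z hz⟩, fun W' b1 b2 b3 z hz =>
    hun W' b1 b2 (fun σ _ z hz => b3 σ z hz) z hz⟩
  intro z hz
  obtain ⟨c, hcfix, w, hw, hwc⟩ := g3 z hz
  obtain ⟨c', rfl⟩ := hrat c fun σ => hcfix σ (hdec σ)
  refine ⟨c', ?_⟩
  have h5 : algebraMap F M (z - algebraMap k F c') = w := by
    apply Subtype.ext
    rw [hwc]
    change algebraMap F Ω (z - algebraMap k F c') = _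
    rw [map_sub, ← IsScalarTower.algebraMap_apply]
    rfl
  rw [h5]
  exact hw

end complete

end Pool.Agent.H889.PS
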