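import Pool.Agent.H889.PS.Wgt

/-!
# Ramified places have nontrivial stabilisers
-/

set_option autoImplicit false
set_option linter.all false

open Polynomial FF

namespace Pool.Agent.H889.PS

open Pool.Agent.Y157.PS Pool.Agent.Y31.PS

/-- an element of `ℓ`-power order has a power of order `ℓ` -/
theorem exists_order {G : Type} [Group G] {ℓ : ℕ} (j : ℕ) (g : G) (h : g ^ (ℓ ^ j) = 1)
    (h1 : g ≠ 1) : ∃ n : ℕ, (g ^ (ℓ ^ n)) ^ ℓ = 1 ∧ g ^ (ℓ ^ n) ≠ 1 := by
  classical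
  have hex : ∃ n : ℕ, g ^ (ℓ ^ n) = 1 := ⟨j, h⟩
  have h2 := Nat.find_spec hex
  obtain ⟨n, hn⟩ : ∃ n, Nat.find hex = n + 1 := by
    refine Nat.exists_eq_succ_of_ne_zero ?_
    intro h0
    rw [h0, pow_zero, pow_one] at h2
    exact h1 h2
  refine ⟨n, ?_, ?_⟩
  · rw [← pow_mul, ← pow_succ, ← hn]
    exact h2
  · exact Nat.find_min hex (by omega)

section inf

variable {κ R M : Type} [Field κ] [Field R] [Field M] [Algebra κ R] [Algebra R M] [Algebra κ M]
  [IsScalarTower κ R M] {x : R}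

theorem RatF_inv (hx : RatF κ x) : RatF κ x⁻¹ := by
  constructor
  · intro h
    apply hx.trans
    have := h.inv
    rwa [inv_inv] at this
  · rw [eq_top_iff, ← hx.gen, IntermediateField.adjoin_le_iff]
    intro y hy
    rw [Set.mem_singleton_iff] at hy
    rw [hy]
    have h1 := inv_mem (IntermediateField.mem_adjoin_simple_self κ x⁻¹)
    rwa [inv_inv] at h1

/-- orders of elements of `κ(x)` at the poles of `x` -/
theorem ord_ratF_inf (hx : RatF κ x) (z : R) (hz : z ≠ 0) :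
    ∃ n : ℤ, ∀ W : Place κ M, W.ord (algebraMap R M x) < 0 →
      W.ord (algebraMap R M z) = n * W.ord (algebraMap R M x) := by
  obtain ⟨n, hn⟩ := ord_ratF (M := M) (RatF_inv hx) 0 z hz
  refine ⟨-n, fun W hW => ?_⟩
  have h1 := hn W (by rw [map_zero, sub_zero, map_inv₀, W.ord_inv]; omega)
  rw [h1, map_zero, sub_zero, map_inv₀, W.ord_inv]
  ring

end inf

section lev

variable {ℓ : ℕ} [hℓ : Fact ℓ.Prime] {κ R : Type} [Field κ] [IsAlgClosed κ] [CharZero κ]
  [Field R] [Algebra κ R] {x : R}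

/-- if all elements of `R` have order divisible by `ℓ`, then the stabiliser is nontrivial -/
theorem stab_level (hx : RatF κ x) (N : Type) [Field N] [Algebra κ N] [Algebra R N]
    [IsScalarTower κ R N] [FiniteDimensional R N] [IsGalois R N]
    (hN : ∃ m : ℕ, Module.finrank R N = ℓ ^ m) (w : Place κ N)
    (hdiv : ∀ z : R, z ≠ 0 → (ℓ : ℤ) ∣ w.ord (algebraMap R N z))
    (hother : ∃ w' : Place κ N, ∀ g : N ≃ₐ[R] N, pl w g ≠ w') :
    ∃ g : N ≃ₐ[R] N, g ≠ 1 ∧ Fixes w g := by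
  classical
  by_contra hcon
  push Not at hcon
  obtain ⟨w', hw'⟩ := hother
  haveI : IsFF κ N := hx.isFF
  obtain ⟨z, hz0, hz⟩ := a_t1 ℓ κ R N x hx hN
    (Finsupp.single w (1 : ℤ) - Finsupp.single w' (1 : ℤ)) (by
      rw [Finsupp.sum_sub_index (fun _ _ _ => rfl), Finsupp.sum_single_index rfl,
        Finsupp.sum_single_index rfl, sub_self]
      exact dvd_zero _)
  have h1 : algebraMap R N (Algebra.norm R z) = ∏ g : N ≃ₐ[R] N, g z :=
    Algebra.norm_eq_prod_automorphisms R z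
  have hg0 : ∀ g : N ≃ₐ[R] N, g z ≠ 0 := fun g => (_root_.map_ne_zero g).2 hz0
  have h2 : w.ord (algebraMap R N (Algebra.norm R z)) = ∑ g : N ≃ₐ[R] N, w.ord (g z) := by
    rw [h1]
    have : ∀ T : Finset (N ≃ₐ[R] N), w.ord (∏ g ∈ T, g z) = ∑ g ∈ T, w.ord (g z) := by
      intro T
      induction T using Finset.induction_on with
      | empty => simp [w.ord_one]
      | insert a T ha ih =>
        rw [Finset.prod_insert ha, Finset.sum_insert ha, w.ord_mul (hg0 a)
          (Finset.prod_ne_zero_iff.2 fun g _ => hg0 g), ih]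
    exact this _
  have h3 : (ℓ : ℤ) ∣ ∑ g : N ≃ₐ[R] N, w.ord (g z) := by
    rw [← h2]
    refine hdiv _ ?_
    rw [Ne, Algebra.norm_eq_zero_iff]
    exact hz0
  have h4 : ∀ g : N ≃ₐ[R] N, (ℓ : ℤ) ∣ w.ord (g z) - (if g = 1 then 1 else 0) := by
    intro g
    have h5 := hz (pl w g)
    rw [pl_ord] at h5
    have h6 : (Finsupp.single w (1 : ℤ) - Finsupp.single w' (1 : ℤ)) (pl w g) =
        if g = 1 then 1 else 0 := by
      rw [Finsupp.sub_apply, Finsupp.single_apply, Finsupp.single_apply (a := w'),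
        if_neg (fun h : w' = pl w g => hw' g h.symm), sub_zero]
      by_cases hg : g = 1
      · rw [if_pos hg, if_pos]
        rw [hg, pl_one]
      · rw [if_neg hg, if_neg]
        intro h
        exact hcon g hg ((fixes_iff w g).2 h.symm)
    rwa [h6] at h5
  have h5 : (ℓ : ℤ) ∣ ∑ g : N ≃ₐ[R] N, (w.ord (g z) - (if g = 1 then 1 else 0)) :=
    Finset.dvd_sum fun g _ => h4 g
  rw [Finset.sum_sub_distrib, Finset.sum_ite_eq' Finset.univ (1 : N ≃ₐ[R] N) (fun _ => (1 : ℤ)),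
    if_pos (Finset.mem_univ _)] at h5
  have h6 := dvd_sub h3 h5
  rw [sub_sub_cancel] at h6
  have h7 : ℓ ∣ 1 := by exact_mod_cast h6
  exact hℓ.out.one_lt.ne' (Nat.dvd_one.mp h7)

end lev

section ram

variable {ℓ : ℕ} [hℓ : Fact ℓ.Prime] {κ R M : Type} [Field κ] [IsAlgClosed κ] [CharZero κ]
  [Field R] [Field M] [Algebra κ R] [Algebra R M] [Algebra κ M] [IsScalarTower κ R M] {x : R}
  {B : Finset κ} {ε : κ → ℕ} {ι : ℕ} {N₀ : IntermediateField R M}

/-- the place is ramified over `κ(x)` -/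
def IsRam (ε : κ → ℕ) (ι : ℕ) (x : R) (W : Place κ M) : Prop :=
  (∃ e : κ, 1 ≤ ε e ∧ 0 < W.ord (algebraMap R M x - algebraMap κ M e)) ∨
    (1 ≤ ι ∧ W.ord (algebraMap R M x) < 0)

theorem ord_at_inf (h : GCov ℓ κ R M x B ε ι N₀) {W : Place κ M}
    (hW : W.ord (algebraMap R M x) < 0) : W.ord (algebraMap R M x) = - (ℓ : ℤ) ^ ι := by
  have hpos : ∀ n : ℕ, (0 : ℤ) < (ℓ : ℤ) ^ n := fun n => by
    have := (Fact.out : ℓ.Prime).pos
    positivity
  rcases (h.loc' W).1 with ⟨a, ha⟩ | h1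
  · exfalso
    have h2 := reg_of_pos (W := W) (e := a) (by rw [ha]; exact hpos _)
    have h3 : algebraMap R M x ≠ 0 := by
      intro h0
      rw [h0, W.ord_zero] at hW
      exact lt_irrefl _ hW
    rw [W.reg_iff h3] at h2
    omega
  · exact h1

theorem ram_div (h : GCov ℓ κ R M x B ε ι N₀) {W : Place κ M} (hW : IsRam ε ι x W) (z : R)
    (hz : z ≠ 0) : (ℓ : ℤ) ∣ W.ord (algebraMap R M z) := by
  rcases hW with ⟨e, he, hWe⟩ | ⟨hι, hWi⟩
  · obtain ⟨n, hn⟩ := ord_ratF (M := M) h.rat e z hz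
    rw [hn W hWe, ord_at h hWe]
    exact Dvd.dvd.mul_left (dvd_pow_self _ (by omega)) _
  · obtain ⟨n, hn⟩ := ord_ratF_inf (M := M) h.rat z hz
    rw [hn W hWi, ord_at_inf h hWi]
    exact Dvd.dvd.mul_left (by rw [dvd_neg]; exact dvd_pow_self _ (by omega)) _

/-- there is an element of order `ℓ` which fixes a given ramified place -/
theorem ram_stab (h : GCov ℓ κ R M x B ε ι N₀) {W : Place κ M} (hW : IsRam ε ι x W) :
    ∃ c : M ≃ₐ[R] M, c ^ ℓ = 1 ∧ c ≠ 1 ∧ Fixes W c := by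
  classical
  have i0 := h.gal
  have i1 := h.lev.fin
  have i2 := h.lev.gal
  haveI : Normal R N₀ := i2.to_normal
  haveI : Normal R M := i0.to_normal
  obtain ⟨r1, r2, r3⟩ := res h N₀ h.lev.fin le_rfl
  obtain ⟨w, hw⟩ := r1 W
  obtain ⟨g, hg1, hg⟩ := stab_level h.rat N₀ h.lev.card w (fun z hz => by
    have h1 := hw (algebraMap R N₀ z)
    have h2 : ((algebraMap R N₀ z : N₀) : M) = algebraMap R M z := rfl
    rw [← h1, h2]
    exact ram_div h hW z hz) (by
    -- a place above another point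
    have key : ∃ (a : κ) (t : R), 0 < W.ord (algebraMap R M t) ∧
        ∀ W' : Place κ M, 0 < W'.ord (algebraMap R M x - algebraMap κ M a) →
          W'.ord (algebraMap R M t) ≤ 0 := by
      rcases hW with ⟨e, he, hWe⟩ | ⟨hι, hWi⟩
      · refine ⟨e + 1, x - algebraMap κ R e, ?_, ?_⟩
        · rw [map_sub, ← IsScalarTower.algebraMap_apply]
          exact hWe
        · intro W' hW'
          rw [map_sub, ← IsScalarTower.algebraMap_apply]
          have h1 := ord_sub_const hW' (b := e) (by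
            intro h
            exact one_ne_zero (add_eq_left.1 h))
          omega
      · refine ⟨1, x⁻¹, ?_, ?_⟩
        · rw [map_inv₀, W.ord_inv]; omega
        · intro W' hW'
          have h1 := ord_sub_const hW' (b := 0) one_ne_zero
          rw [map_zero, sub_zero] at h1
          rw [map_inv₀, W'.ord_inv, h1]
          simp
    obtain ⟨a, t, ht, ht'⟩ := key
    obtain ⟨W', hW'⟩ := exists_place h a
    obtain ⟨w', hw'⟩ := r1 W'
    refine ⟨w', fun g hg => ?_⟩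
    have h1 := ht' W' hW'
    have h2 := hw' (algebraMap R N₀ t)
    have h3 := hw (algebraMap R N₀ t)
    have h4 : ((algebraMap R N₀ t : N₀) : M) = algebraMap R M t := rfl
    rw [h4] at h2 h3
    rw [h2, ← hg, pl_ord, g.commutes, ← h3] at h1
    omega)
  -- lift to `M`
  have hlift : ∀ z : N₀, (g.liftNormal M) (z : M) = ((g z : N₀) : M) := fun z =>
    AlgEquiv.liftNormal_commutes g M z
  obtain ⟨γ, hγ, hγW⟩ := r3 W (pl W (g.liftNormal M)) (by
    intro z
    rw [pl_ord, hlift, hw, hw, hg])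
  have hγW' : ∀ z, W.ord ((g.liftNormal M) z) = W.ord (γ z) := by
    intro z
    rw [← hγW, pl_ord]
  have hc0 : Fixes W ((g.liftNormal M) * γ⁻¹ : M ≃ₐ[R] M) := by
    intro z
    change W.ord ((g.liftNormal M) (γ⁻¹ z)) = W.ord z
    rw [hγW']
    congr 1
    exact γ.apply_symm_apply z
  have hγinv : ∀ z ∈ N₀, γ⁻¹ z = z := by
    intro z hz
    have h1 := hγ z hz
    change γ.symm z = z
    rw [AlgEquiv.symm_apply_eq, h1]
  have hc0g : ∀ z : N₀, ((g.liftNormal M) * γ⁻¹ : M ≃ₐ[R] M) (z : M) = ((g z : N₀) : M) := by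
    intro z
    change (g.liftNormal M) (γ⁻¹ (z : M)) = _
    rw [hγinv _ z.2, hlift]
  have hc0n : ∀ (n : ℕ) (z : N₀), (((g.liftNormal M) * γ⁻¹ : M ≃ₐ[R] M) ^ n) (z : M) =
      (((g ^ n) z : N₀) : M) := by
    intro n
    induction n with
    | zero => intro z; rfl
    | succ n ih =>
      intro z
      rw [pow_succ, pow_succ]
      change (((g.liftNormal M) * γ⁻¹ : M ≃ₐ[R] M) ^ n)
        (((g.liftNormal M) * γ⁻¹ : M ≃ₐ[R] M) (z : M)) = _
      rw [hc0g, ih]
      rfl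
  obtain ⟨m, hm⟩ := h.lev.card
  have hgm : g ^ (ℓ ^ m) = 1 := by
    rw [← hm, ← IsGalois.card_aut_eq_finrank]
    exact pow_card_eq_one'
  obtain ⟨-, π, hπ, hπ1⟩ := h.loc' W
  obtain ⟨c0, hc0def⟩ : ∃ c0 : M ≃ₐ[R] M, c0 = (g.liftNormal M) * γ⁻¹ := ⟨_, rfl⟩
  rw [← hc0def] at hc0 hc0g hc0n
  have hc0m : c0 ^ (ℓ ^ m) = 1 := by
    refine stab_triv a_stab h.rat W (c0 ^ (ℓ ^ m)) (Fixes.pow hc0 _) hπ1 ?_
    have h1 := hc0n (ℓ ^ m) ⟨π, hπ⟩
    rw [hgm] at h1
    exact h1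
  have hc01 : c0 ≠ 1 := by
    intro h1
    apply hg1
    ext z
    have h2 := hc0g z
    rw [h1] at h2
    exact h2.symm
  obtain ⟨n, hn1, hn2⟩ := exists_order m c0 hc0m hc01
  exact ⟨c0 ^ (ℓ ^ n), hn1, hn2, Fixes.pow hc0 _⟩

end ram

end Pool.Agent.H889.PS
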