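import Pool.Agent.H889.PS.Exf

/-!
# An element of order `ℓ` fixes only one place
-/

set_option autoImplicit false
set_option linter.all false

open Polynomial FF

namespace Pool.Agent.H889.PS

open Pool.Agent.Y157.PS Pool.Agent.Y31.PS

section unq

variable {ℓ : ℕ} [hℓ : Fact ℓ.Prime] {κ R M : Type} [Field κ] [IsAlgClosed κ] [CharZero κ]
  [Field R] [Field M] [Algebra κ R] [Algebra R M] [Algebra κ M] [IsScalarTower κ R M] {x : R}
  {B : Finset κ} {ε : κ → ℕ} {ι : ℕ} {N₀ : IntermediateField R M}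

theorem no_tors (h : GCov ℓ κ R M x B ε ι N₀) {γ : M ≃ₐ[R] M} (hγ : γ ^ ℓ = 1)
    (h1 : ∀ z ∈ N₀, γ z = z) : γ = 1 := by
  by_contra hne
  obtain ⟨W, hW⟩ := exf h γ hγ hne
  obtain ⟨-, π, hπ, -, h2⟩ := above_M h hne hW
  exact h2 (h1 π hπ)

theorem lev_ne_top (h : GCov ℓ κ R M x B ε ι N₀) {N : IntermediateField R M} (hN : Lev ℓ N)
    (hY : N₀ ≤ N) : N ≠ ⊤ := by
  intro htop
  have i0 := h.gal
  have i1 := hN.fin
  have i2 := hN.gal
  subst htop
  have hfin : FiniteDimensional R M := Module.Finite.equiv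
    (IntermediateField.topEquiv (F := R) (E := M)).toLinearEquiv
  obtain ⟨m, hm⟩ := hN.card
  have hm' : Module.finrank R M = ℓ ^ m := by
    rw [← hm]
    exact (IntermediateField.topEquiv (F := R) (E := M)).toLinearEquiv.finrank_eq.symm
  have h1 : Nat.card N₀.fixingSubgroup = Module.finrank N₀ M :=
    IsGalois.card_fixingSubgroup_eq_finrank N₀
  have h2 : Module.finrank N₀ M ≠ 1 := by
    intro h3
    exact h.big (IntermediateField.finrank_eq_one_iff_eq_top.mp h3)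
  have h3 : ℓ ∣ Module.finrank N₀ M := by
    have h4 : Module.finrank N₀ M ∣ ℓ ^ m := by
      rw [← hm', ← Module.finrank_mul_finrank R N₀ M]
      exact dvd_mul_left _ _
    obtain ⟨j, -, hj⟩ := (Nat.dvd_prime_pow hℓ.out).mp h4
    rw [hj] at h2 ⊢
    rcases Nat.eq_zero_or_pos j with h0 | h0
    · exfalso
      rw [h0, pow_zero] at h2
      exact h2 rfl
    · exact dvd_pow_self _ h0.ne'
  rw [← h1] at h3
  have hfin' : Finite N₀.fixingSubgroup := inferInstance
  obtain ⟨g, hg⟩ := exists_prime_orderOf_dvd_card' ℓ h3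
  have hg1 : (g : M ≃ₐ[R] M) ^ ℓ = 1 := by
    have := pow_orderOf_eq_one g
    rw [hg] at this
    rw [← Subgroup.coe_pow, this]
    rfl
  have h5 := no_tors h hg1 (fun z hz => by
    have := (IntermediateField.mem_fixingSubgroup_iff N₀ (g : M ≃ₐ[R] M)).mp g.2
    exact this z hz)
  have h6 : g = 1 := Subtype.ext h5
  rw [h6, orderOf_one] at hg
  exact hℓ.out.one_lt.ne hg

/-- invariant elements have order divisible by `ℓ` at the fixed places -/
theorem keyA (h : GCov ℓ κ R M x B ε ι N₀) {γ : M ≃ₐ[R] M} (hγ : γ ^ ℓ = 1) (hγ1 : γ ≠ 1)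
    {U : Place κ M} (hU : Fixes U γ) {t : M} (ht0 : t ≠ 0) (ht : γ t = t) :
    (ℓ : ℤ) ∣ U.ord t := by
  have i0 := h.gal
  by_contra hnd
  obtain ⟨-, π, -, hπ1, -⟩ := above_M h hγ1 hU
  have hπ0 : π ≠ 0 := by
    rintro rfl
    rw [U.ord_zero] at hπ1
    exact zero_ne_one hπ1
  set P : M := ∏ i ∈ Finset.range ℓ, (γ ^ i) π with hP
  have hPγ : γ P = P := prod_shift γ hγ π hπ0
  have hpow : ∀ n : ℕ, (∏ i ∈ Finset.range n, (γ ^ i) π) ≠ 0 ∧
      U.ord (∏ i ∈ Finset.range n, (γ ^ i) π) = n := by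
    intro n
    induction n with
    | zero => simp [U.ord_one]
    | succ n ih =>
      rw [Finset.prod_range_succ]
      have h1 : (γ ^ n) π ≠ 0 := (_root_.map_ne_zero _).mpr hπ0
      refine ⟨mul_ne_zero ih.1 h1, ?_⟩
      rw [U.ord_mul ih.1 h1, ih.2, fixes_pow hU n, hπ1]
      push_cast
      ring
  obtain ⟨hP0, hP1⟩ := hpow ℓ
  have hcop : IsCoprime (U.ord t) (ℓ : ℤ) := by
    rw [Int.isCoprime_iff_gcd_eq_one, Int.gcd_comm]
    rcases (Nat.dvd_prime hℓ.out).mp (Int.gcd_dvd_natAbs_left (ℓ : ℤ) (U.ord t) |>.trans (by simp))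
      with h1 | h1
    · exact h1
    · exfalso
      apply hnd
      have := Int.gcd_dvd_right (ℓ : ℤ) (U.ord t)
      rw [h1] at this
      exact this
  obtain ⟨a, b, hab⟩ := hcop
  apply hγ1
  refine stab_triv a_stab h.rat U γ hU (π := t ^ a * P ^ b) ?_ ?_
  · rw [U.ord_mul (zpow_ne_zero _ ht0) (zpow_ne_zero _ hP0), U.ord_zpow, U.ord_zpow, hP1]
    linarith
  · rw [map_mul, map_zpow₀, map_zpow₀, ht, hPγ]

/-- the values of an invariant divisor at the fixed places are proportional to those of an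
eigenvector -/
theorem main_lemma (h : GCov ℓ κ R M x B ε ι N₀)
    {γ : M ≃ₐ[R] M} (hγ : γ ^ ℓ = 1) (hγ1 : γ ≠ 1) {ζ : κ} (hζ : IsPrimitiveRoot ζ ℓ)
    {Y : M} (hY0 : Y ≠ 0)
    (hY : γ Y = algebraMap κ M ζ * Y) {N : IntermediateField R M} (hN : Lev ℓ N) [Normal R N]
    (hYN : N₀ ≤ N) (D : Place κ N →₀ ℤ) (hDinv : ∀ w, D (pl w (γ.restrictNormal N)) = D w)
    (hDsum : (ℓ : ℤ) ∣ D.sum (fun _ n => n)) :
    ∃ j : ℤ, ∀ U : Place κ M, Fixes U γ → ∀ w : Place κ N,
      (∀ z : N, U.ord (z : M) = w.ord z) → (ℓ : ℤ) ∣ D w - j * U.ord Y := by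
  have i0 := h.gal
  have i1 := hN.fin
  have i2 := hN.gal
  have i3 : IsFF κ N := h.rat.isFF
  obtain ⟨z, hz0, hz⟩ := a_t1 ℓ κ R N x h.rat hN.card D hDsum
  have hzM0 : (z : M) ≠ 0 := by simpa using hz0
  have hgz : ((γ.restrictNormal N z : N) : M) = γ (z : M) := coe_pow_restrict γ 1 z
  have hγz0 : γ (z : M) ≠ 0 := (_root_.map_ne_zero γ).mpr hzM0
  obtain ⟨v, hv⟩ := h.root (γ (z : M) / z) (div_ne_zero hγz0 hzM0) (by
    intro W
    obtain ⟨w, hw⟩ := (res h N hN.fin hYN).1 W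
    rw [W.ord_div hγz0 hzM0, ← hgz, hw, hw]
    have h1 := hz w
    have h2 := hz (pl w (γ.restrictNormal N))
    rw [pl_ord, hDinv] at h2
    have h3 : w.ord (γ.restrictNormal N z) - w.ord z =
      (w.ord (γ.restrictNormal N z) - D w) - (w.ord z - D w) := by ring
    rw [h3]
    exact dvd_sub h2 h1)
  have hv0 : v ≠ 0 := by
    rintro rfl
    rw [zero_pow hℓ.out.ne_zero] at hv
    exact div_ne_zero hγz0 hzM0 hv.symm
  set P : M := ∏ i ∈ Finset.range ℓ, (γ ^ i) v with hP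
  have hPl : P ^ ℓ = algebraMap κ M 1 := by
    rw [hP, ← Finset.prod_pow]
    have h1 : ∀ i, ((γ ^ i) v) ^ ℓ = γ ((γ ^ i) (z : M)) / (γ ^ i) (z : M) := by
      intro i
      rw [← map_pow, hv, map_div₀]
      congr 1
      rw [← AlgEquiv.mul_apply, ← AlgEquiv.mul_apply, ← pow_succ, ← pow_succ']
    simp only [h1]
    rw [Finset.prod_div_distrib, ← map_prod, prod_shift γ hγ _ hzM0, map_one]
    exact div_self (Finset.prod_ne_zero_iff.mpr fun i _ => (_root_.map_ne_zero _).mpr hzM0)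
  obtain ⟨d, hd, hdl⟩ := root_const hℓ.out.pos hPl
  obtain ⟨a, -, ha⟩ := hζ.eq_pow_of_pow_eq_one hdl
  have hd0 : d ≠ 0 := by
    rintro rfl
    rw [zero_pow hℓ.out.ne_zero] at hdl
    exact zero_ne_one hdl
  obtain ⟨ξ, hξ⟩ := IsAlgClosed.exists_pow_nat_eq d⁻¹ hℓ.out.pos
  have hξ0 : ξ ≠ 0 := by
    rintro rfl
    rw [zero_pow hℓ.out.ne_zero] at hξ
    exact inv_ne_zero hd0 hξ.symm
  have hξM0 : algebraMap κ M ξ ≠ 0 := by rw [_root_.map_ne_zero]; exact hξ0
  have hnorm : ∏ i ∈ Finset.range ℓ, (γ ^ i) (algebraMap κ M ξ * v) = 1 := by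
    have h1 : ∀ i, (γ ^ i) (algebraMap κ M ξ * v) = algebraMap κ M ξ * (γ ^ i) v := by
      intro i
      rw [map_mul, aut_const]
    simp only [h1]
    rw [Finset.prod_mul_distrib, Finset.prod_const, Finset.card_range, ← hP, hd, ← map_pow, hξ,
      ← map_mul, inv_mul_cancel₀ hd0, map_one]
  obtain ⟨t, ht0, ht⟩ := hilbert90 γ hγ hγ1 _ hnorm
  have hζ0 : ζ ≠ 0 := hζ.ne_zero hℓ.out.ne_zero
  have hζM0 : algebraMap κ M ζ ≠ 0 := by rw [_root_.map_ne_zero]; exact hζ0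
  have hfix : γ (z * t ^ ℓ * (Y ^ a)⁻¹) = z * t ^ ℓ * (Y ^ a)⁻¹ := by
    have h1 : γ t = t / (algebraMap κ M ξ * v) := by
      rw [eq_div_iff (mul_ne_zero hξM0 hv0), mul_comm]
      exact ht
    have h2 : γ (z : M) = z * v ^ ℓ := by
      rw [hv, mul_div_cancel₀ _ hzM0]
    have h3 : (algebraMap κ M ξ) ^ ℓ = (algebraMap κ M ζ ^ a)⁻¹ := by
      rw [← map_pow, hξ, ← ha, map_inv₀, map_pow]
    rw [map_mul, map_mul, map_inv₀, map_pow, map_pow, h1, h2, hY, div_pow, mul_pow, mul_pow, h3]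
    field_simp
  refine ⟨a, fun U hU w hw => ?_⟩
  have h1 := keyA h hγ hγ1 hU (mul_ne_zero (mul_ne_zero hzM0 (pow_ne_zero _ ht0))
    (inv_ne_zero (pow_ne_zero _ hY0))) hfix
  rw [U.ord_mul (mul_ne_zero hzM0 (pow_ne_zero _ ht0)) (inv_ne_zero (pow_ne_zero _ hY0)),
    U.ord_mul hzM0 (pow_ne_zero _ ht0), U.ord_inv, U.ord_pow, U.ord_pow, hw] at h1
  have h2 := hz w
  have h3 : D w - a * U.ord Y = (w.ord z + ℓ * U.ord t + -(a * U.ord Y)) - (w.ord z - D w) -
    ℓ * U.ord t := by ring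
  rw [h3]
  exact dvd_sub (dvd_sub h1 h2) (dvd_mul_right _ _)

/-- the pull back of a place to a larger level has degree divisible by `ℓ` -/
theorem pull_div (h : GCov ℓ κ R M x B ε ι N₀) {N N' : IntermediateField R M} (hN : Lev ℓ N)
    (hN' : Lev ℓ N') (hNN : N ≤ N') (hne : N ≠ N') (hY : N₀ ≤ N) (w : Place κ N) :
    ∃ D : Place κ N' →₀ ℤ, (ℓ : ℤ) ∣ D.sum (fun _ n => n) ∧
      ∀ w' : Place κ N', (D w' = 1 ↔ ∀ z : N, w'.ord ⟨z, hNN z.2⟩ = w.ord z) ∧
        (D w' = 0 ∨ D w' = 1) := by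
  classical
  have i0 := h.gal
  have i1 := hN.fin
  have i2 := hN.gal
  have i1' := hN'.fin
  have i2' := hN'.gal
  have i3 : IsFF κ N := h.rat.isFF
  have i3' : IsFF κ N' := h.rat.isFF
  let S : Set (Place κ N') := {w' | ∀ z : N, w'.ord ⟨z, hNN z.2⟩ = w.ord z}
  obtain ⟨t, ht0, ht⟩ := w.surj
  have ht0' : (⟨t, hNN t.2⟩ : N') ≠ 0 := fun h0 => ht0 (Subtype.ext (congrArg (fun z : N' => (z : M)) h0))
  have hSfin : S.Finite := by
    refine (finite_support (k := κ) (K := N') ⟨t, hNN t.2⟩).subset ?_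
    intro w' hw'
    have h1 := hw' t
    rw [ht] at h1
    show w'.ord _ ≠ 0
    rw [h1]
    exact one_ne_zero
  -- an element of order `ℓ` over `N`
  obtain ⟨g, hg1, hgne, hgN⟩ : ∃ g : N' ≃ₐ[R] N', g ^ ℓ = 1 ∧ g ≠ 1 ∧
      ∀ z : N, g ⟨z, hNN z.2⟩ = ⟨z, hNN z.2⟩ := by
    set L : IntermediateField R N' := IntermediateField.restrict hNN with hL
    have h1 : Nat.card L.fixingSubgroup = Module.finrank L N' :=
      IsGalois.card_fixingSubgroup_eq_finrank L
    have h2 : Module.finrank L N' ≠ 1 := by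
      intro h3
      have h4 := IntermediateField.finrank_eq_one_iff_eq_top.mp h3
      apply hne
      apply le_antisymm hNN
      intro z hz
      have h5 : (⟨z, hz⟩ : N') ∈ L := by rw [h4]; trivial
      rwa [hL, IntermediateField.mem_restrict] at h5
    have h3 : ℓ ∣ Module.finrank L N' := by
      obtain ⟨m, hm⟩ := hN'.card
      have h4 : Module.finrank L N' ∣ ℓ ^ m := by
        rw [← hm, ← Module.finrank_mul_finrank R L N']
        exact dvd_mul_left _ _
      obtain ⟨j, -, hj⟩ := (Nat.dvd_prime_pow hℓ.out).mp h4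
      rw [hj] at h2 ⊢
      rcases Nat.eq_zero_or_pos j with h0 | h0
      · exfalso
        rw [h0, pow_zero] at h2
        exact h2 rfl
      · exact dvd_pow_self _ h0.ne'
    rw [← h1] at h3
    obtain ⟨g, hg⟩ := exists_prime_orderOf_dvd_card' ℓ h3
    refine ⟨g, ?_, ?_, ?_⟩
    · have := pow_orderOf_eq_one g
      rw [hg] at this
      rw [← Subgroup.coe_pow, this]
      rfl
    · intro h5
      have h6 : g = 1 := Subtype.ext h5
      rw [h6, orderOf_one] at hg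
      exact hℓ.out.one_lt.ne hg
    · intro z
      have := (IntermediateField.mem_fixingSubgroup_iff L (g : N' ≃ₐ[R] N')).mp g.2
      refine this _ ?_
      rw [hL, IntermediateField.mem_restrict]
      exact z.2
  have hgpow : ∀ (i : ℕ) (z : N), (g ^ i) ⟨z, hNN z.2⟩ = ⟨z, hNN z.2⟩ := by
    intro i z
    induction i with
    | zero => rfl
    | succ i ih => rw [pow_succ, AlgEquiv.mul_apply, hgN, ih]
  have hSg : ∀ w' ∈ S, pl w' g ∈ S := by
    intro w' hw' z
    rw [pl_ord, hgN]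
    exact hw' z
  let f : Function.End S := fun w' => ⟨pl w'.1 g, hSg w'.1 w'.2⟩
  have hf : ∀ n : ℕ, ∀ w' : S, ((f ^ n) w').1 = pl w'.1 (g ^ n) := by
    intro n
    induction n with
    | zero => intro w'; rw [pow_zero, pow_zero, pl_one]; rfl
    | succ n ih =>
      intro w'
      rw [pow_succ]
      show ((f ^ n) (f w')).1 = _
      rw [ih, pow_succ', pl_mul]
  have hf1 : f ^ ℓ ^ 1 = 1 := by
    funext w'
    apply Subtype.ext
    rw [hf, pow_one, hg1, pl_one]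
    rfl
  haveI : Fintype S := hSfin.fintype
  have hcard := Equiv.Perm.card_fixedPoints_modEq hf1
  have hfix : Fintype.card (Function.fixedPoints f) = 0 := by
    rw [Fintype.card_eq_zero_iff]
    constructor
    rintro ⟨⟨w', hw'S⟩, hw'⟩
    have h1 : pl w' g = w' := congrArg Subtype.val hw'
    apply hgne
    obtain ⟨W, hW⟩ := (res h N hN.fin hY).2.1 w
    obtain ⟨π, hπN, hπ0, hπ1⟩ := exists_unif h N hY W
    refine stab_triv a_stab h.rat w' g ((fixes_iff w' g).mpr h1) (π := ⟨π, hNN hπN⟩) ?_ ?_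
    · have h2 := hw'S ⟨π, hπN⟩
      rw [← hW] at h2
      rw [h2]
      exact hπ1
    · exact hgN ⟨π, hπN⟩
  rw [hfix] at hcard
  have hdvd : ℓ ∣ Fintype.card S := (Nat.modEq_zero_iff_dvd).mp hcard
  refine ⟨∑ w' ∈ hSfin.toFinset, Finsupp.single w' 1, ?_, ?_⟩
  · rw [← Finsupp.sum_finsetSum_index (fun _ => rfl) (fun _ _ _ => rfl)]
    simp only [Finsupp.sum_single_index]
    rw [Finset.sum_const, nsmul_eq_mul, mul_one]
    have : hSfin.toFinset.card = Fintype.card S := by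
      rw [Set.Finite.card_toFinset]
    rw [this]
    exact_mod_cast hdvd
  · have hval : ∀ w' : Place κ N', (∑ v ∈ hSfin.toFinset, Finsupp.single v (1 : ℤ)) w' =
        if w' ∈ S then 1 else 0 := by
      intro w'
      rw [Finsupp.finset_sum_apply]
      simp only [Finsupp.single_apply]
      rw [Finset.sum_ite_eq' hSfin.toFinset w' (fun _ => (1 : ℤ))]
      simp
    intro w'
    rw [hval]
    constructor
    · split_ifs with h1
      · exact ⟨fun _ => h1, fun _ => rfl⟩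
      · exact ⟨fun h2 => absurd h2 zero_ne_one, fun h2 => absurd h2 h1⟩
    · split_ifs with h1
      · right; rfl
      · left; rfl

/-- **an element of order `ℓ` fixes only one place** -/
theorem unq (h : GCov ℓ κ R M x B ε ι N₀) (γ : M ≃ₐ[R] M) (hγ : γ ^ ℓ = 1) (hγ1 : γ ≠ 1)
    (W W' : Place κ M) (hW : Fixes W γ) (hW' : Fixes W' γ) : W = W' := by
  classical
  have i0 := h.gal
  by_contra hne
  -- a level where they differ
  obtain ⟨y, hy⟩ : ∃ y, W.ord y ≠ W'.ord y := by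
    by_contra hcon
    push Not at hcon
    apply hne
    ext z
    exact hcon z
  obtain ⟨N1, hyN1, hN1⟩ := h.pow y
  set N : IntermediateField R M := N₀ ⊔ N1 with hNdef
  have hN : Lev ℓ N := lev_sup h.lev hN1
  have hY : N₀ ≤ N := le_sup_left
  have hyN : y ∈ N := (le_sup_right : N1 ≤ N) hyN1
  -- a larger level
  obtain ⟨u, hu⟩ : ∃ u, u ∉ N := by
    by_contra hcon
    push Not at hcon
    exact lev_ne_top h hN hY (eq_top_iff.mpr fun z _ => hcon z)
  obtain ⟨N2, huN2, hN2⟩ := h.pow u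
  set N' : IntermediateField R M := N ⊔ N2 with hN'def
  have hN' : Lev ℓ N' := lev_sup hN hN2
  have hNN : N ≤ N' := le_sup_left
  have hNne : N ≠ N' := by
    intro h0
    apply hu
    rw [h0]
    exact (le_sup_right : N2 ≤ N') huN2
  have i1 := hN.fin
  have i2 := hN.gal
  have i1' := hN'.fin
  have i2' := hN'.gal
  have i4 : Normal R N' := inferInstance
  obtain ⟨w1, hw1⟩ := (res h N hN.fin hY).1 W
  obtain ⟨w2, hw2⟩ := (res h N hN.fin hY).1 W'
  obtain ⟨v1, hv1⟩ := (res h N' hN'.fin (hY.trans hNN)).1 W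
  obtain ⟨v2, hv2⟩ := (res h N' hN'.fin (hY.trans hNN)).1 W'
  have hcoe : ∀ z : N', ((γ.restrictNormal N' z : N') : M) = γ (z : M) := fun z =>
    coe_pow_restrict γ 1 z
  -- eigenvector
  have : NeZero ℓ := ⟨hℓ.out.ne_zero⟩
  obtain ⟨ζ, hζ⟩ := HasEnoughRootsOfUnity.exists_primitiveRoot κ ℓ
  obtain ⟨Y, hY0, hYe⟩ := exists_eigen γ hγ hγ1 (algebraMap κ M ζ)
    (by rw [← map_pow, hζ.pow_eq_one, map_one]) (aut_const γ ζ)
  -- invariance
  have hinv : ∀ (U : Place κ M) (w : Place κ N), Fixes U γ → (∀ z : N, U.ord (z : M) = w.ord z) →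
      ∀ D : Place κ N' →₀ ℤ, (∀ w' : Place κ N', (D w' = 1 ↔
        ∀ z : N, w'.ord ⟨z, hNN z.2⟩ = w.ord z) ∧ (D w' = 0 ∨ D w' = 1)) →
      ∀ w', D (pl w' (γ.restrictNormal N')) = D w' := by
    intro U w hU hUw D hD w'
    have i5 : Normal R N := inferInstance
    have hgN : ∀ z : N, (((γ.restrictNormal N) z : N) : M) = γ (z : M) := fun z =>
      coe_pow_restrict γ 1 z
    have hsurj : ∀ z : N, ∃ z' : N, γ.restrictNormal N z' = z :=
      fun z => (γ.restrictNormal N).surjective z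
    have hw : ∀ z : N, w.ord (γ.restrictNormal N z) = w.ord z := by
      intro z
      rw [← hUw, ← hUw, hgN, hU]
    have hg' : ∀ z : N, γ.restrictNormal N' ⟨z, hNN z.2⟩ =
        ⟨(γ.restrictNormal N z : N), hNN (γ.restrictNormal N z : N).2⟩ := by
      intro z
      apply Subtype.ext
      rw [hcoe]
      exact (hgN z).symm
    have hiff : D (pl w' (γ.restrictNormal N')) = 1 ↔ D w' = 1 := by
      rw [(hD _).1, (hD _).1]
      constructor
      · intro h1 z
        obtain ⟨z', rfl⟩ := hsurj z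
        have := h1 z'
        rw [pl_ord, hg'] at this
        rw [this, hw]
      · intro h1 z
        rw [pl_ord, hg']
        have := h1 (γ.restrictNormal N z)
        rw [this, hw]
    rcases (hD w').2 with h1 | h1
    · rcases (hD (pl w' (γ.restrictNormal N'))).2 with h2 | h2
      · rw [h1, h2]
      · rw [hiff.mp h2] at h1
        exact absurd h1 one_ne_zero
    · rw [h1]
      exact hiff.mpr h1
  obtain ⟨D1, hD1s, hD1⟩ := pull_div h hN hN' hNN hNne hY w1
  obtain ⟨D2, hD2s, hD2⟩ := pull_div h hN hN' hNN hNne hY w2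
  obtain ⟨j1, hj1⟩ := main_lemma h hγ hγ1 hζ hY0 hYe hN' (hY.trans hNN) D1
    (hinv W w1 hW hw1 D1 hD1) hD1s
  obtain ⟨j2, hj2⟩ := main_lemma h hγ hγ1 hζ hY0 hYe hN' (hY.trans hNN) D2
    (hinv W' w2 hW' hw2 D2 hD2) hD2s
  have e11 : D1 v1 = 1 := ((hD1 v1).1).mpr fun z => by rw [← hv1, ← hw1]
  have e22 : D2 v2 = 1 := ((hD2 v2).1).mpr fun z => by rw [← hv2, ← hw2]
  have e12 : D1 v2 = 0 := by
    rcases (hD1 v2).2 with h1 | h1
    · exact h1
    · exfalso
      have := ((hD1 v2).1).mp h1 ⟨y, hyN⟩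
      rw [← hv2, ← hw1] at this
      exact hy this.symm
  have e21 : D2 v1 = 0 := by
    rcases (hD2 v1).2 with h1 | h1
    · exact h1
    · exfalso
      have := ((hD2 v1).1).mp h1 ⟨y, hyN⟩
      rw [← hv1, ← hw2] at this
      exact hy this
  have a11 := hj1 W hW v1 hv1
  have a12 := hj1 W' hW' v2 hv2
  have a21 := hj2 W hW v1 hv1
  have a22 := hj2 W' hW' v2 hv2
  rw [e11] at a11
  rw [e12] at a12
  rw [e21] at a21
  rw [e22] at a22
  have hp : Prime (ℓ : ℤ) := Nat.prime_iff_prime_int.mp hℓ.out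
  have h1l : ¬ (ℓ : ℤ) ∣ 1 := fun h0 => by
    have := Int.natCast_dvd_natCast.mp (by exact_mod_cast h0 : (ℓ : ℤ) ∣ ((1 : ℕ) : ℤ))
    exact hℓ.out.one_lt.ne' (Nat.dvd_one.mp this)
  -- ℓ ∤ ord_W Y from a11, ℓ ∣ j2 * ord_W Y from a21, so ℓ ∣ j2, contradiction with a22
  rw [zero_sub, dvd_neg] at a12 a21
  rcases hp.dvd_or_dvd a21 with h3 | h3
  · apply h1l
    have : (1 : ℤ) = (1 - j2 * W'.ord Y) + j2 * W'.ord Y := by ring
    rw [this]
    exact dvd_add a22 (h3.mul_right _)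
  · apply h1l
    have : (1 : ℤ) = (1 - j1 * W.ord Y) + j1 * W.ord Y := by ring
    rw [this]
    exact dvd_add a11 (h3.mul_left _)

end unq

end Pool.Agent.H889.PS
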