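import Pool.Agent.H889.PS.Iner

/-!
# The weight argument
-/

set_option autoImplicit false
set_option linter.all false

open Polynomial FF

namespace Pool.Agent.H889.PS

open Pool.Agent.Y157.PS
open Pool.Agent.Y748.PS (nu_mem nu_mul nu_one nu_map isU_map rou_eq_one isU_pow
  resEquiv res_residue map_aeval gauss_comap stab gal_const stabG nuG s_inv_apply s_apply_inv dec_inv
  dec_mul dec_nu ine_conj ine_mul fix_inv rou_const isAlg_small exists_orbit lev_of_galois isU_alg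
  nu_alg isU_of_pow isU_one isU_mul eq_of_pow_eq frob_rou)

/-- a semilinear action of `Gal(κ/k)` on `M` which fixes `x` -/
structure GSec (k κ R M : Type) [Field k] [Field κ] [Field R] [Field M] [Algebra k κ] [Algebra κ R]
    [Algebra R M] [Algebra κ M] (x : R) (s : (κ ≃ₐ[k] κ) →* RingAut M) : Prop where
  const : ∀ σ c, s σ (algebraMap κ M c) = algebraMap κ M (σ c)
  fixx : ∀ σ, s σ (algebraMap R M x) = algebraMap R M x
  cont : ∀ z : M, ∃ E : IntermediateField k κ, FiniteDimensional k E ∧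
    ∀ σ ∈ E.fixingSubgroup, s σ z = z

section

variable {κ R M : Type} [Field κ] [Field R] [Field M] [Algebra κ R] [Algebra R M] [Algebra κ M]
  [IsScalarTower κ R M] {x : R}

variable {k : Type} [Field k] [Algebra k κ] {δ : κ} {s : (κ ≃ₐ[k] κ) →* RingAut M}

theorem stabS {V : ValuationSubring κ} {O : ValuationSubring M}
    (hO : Gauss V (algebraMap R M x) O)
    (hu : ∀ O' : ValuationSubring M, Gauss V (algebraMap R M x) O' → O' = O)
    (hs : GSec k κ R M x s) {σ : κ ≃ₐ[k] κ} (hσ : Dec V σ) (z : M) :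
    s σ z ∈ O ↔ z ∈ O :=
  stab hO hu (s σ) (σ : κ ≃+* κ) (fun c => hs.const σ c) (hs.fixx σ) hσ z

theorem nuS {V : ValuationSubring κ} {O : ValuationSubring M}
    (hO : Gauss V (algebraMap R M x) O)
    (hu : ∀ O' : ValuationSubring M, Gauss V (algebraMap R M x) O' → O' = O)
    (hs : GSec k κ R M x s) {σ : κ ≃ₐ[k] κ} (hσ : Dec V σ) (z : M) :
    s σ z ∈ O.nonunits ↔ z ∈ O.nonunits :=
  nu_map (s σ) (fun z => stabS hO hu hs hσ z) z

/-- `γ` and `s(σ)` induce the same automorphism of the residue field -/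
def Rel (O : ValuationSubring M) (s : (κ ≃ₐ[k] κ) →* RingAut M) (σ : κ ≃ₐ[k] κ)
    (γ : M ≃ₐ[R] M) : Prop := ∀ z ∈ O, γ z - s σ z ∈ O.nonunits

theorem Rel.exists {ℓ : ℕ} [Fact ℓ.Prime] [IsAlgClosed κ] [CharZero κ] {B : Finset κ} {ε : κ → ℕ} {ι : ℕ}
    {N₀ : IntermediateField R M} (hC : GCov ℓ κ R M x B ε ι N₀) {V : ValuationSubring κ} {O : ValuationSubring M}
    (hO : Gauss V (algebraMap R M x) O)
    (hu : ∀ O' : ValuationSubring M, Gauss V (algebraMap R M x) O' → O' = O)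
    (hs : GSec k κ R M x s) {σ : κ ≃ₐ[k] κ} (hσ : Ine V σ) :
    ∃ γ : M ≃ₐ[R] M, Rel O s σ γ := by
  have hst : ∀ z, s σ z ∈ O ↔ z ∈ O := stabS hO hu hs hσ.1
  obtain ⟨γ, hγ⟩ := g3 hC V O hO hu (IsLocalRing.ResidueField O)
    (IsLocalRing.residue O) (res_residue O)
    (IsLocalRing.ResidueField.mapEquiv (resEquiv O (s σ) hst))
    (fun c hc => by
      show IsLocalRing.residue O (resEquiv O (s σ) hst ⟨_, hc⟩) = _
      rw [← sub_eq_zero, ← map_sub, (res_residue O).ker]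
      show s σ (algebraMap κ M c) - algebraMap κ M c ∈ O.nonunits
      rw [hs.const, ← map_sub]
      have h1 : c ∈ V := (hO.1 c).1 hc
      have h2 := hσ.2 c h1
      rw [ValuationSubring.mem_nonunits_iff_or] at h2 ⊢
      rcases h2 with h2 | h2
      · left; rw [h2, map_zero]
      · right
        rw [← map_inv₀, hO.1]
        exact h2)
    (fun hx => by
      show IsLocalRing.residue O (resEquiv O (s σ) hst ⟨_, hx⟩) = _
      congr 1
      ext
      exact hs.fixx σ)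
  refine ⟨γ, fun z hz => ?_⟩
  have hγz : γ z ∈ O := (stabG hO hu γ z).2 hz
  have h1 := hγ z hz hγz
  have h2 : IsLocalRing.residue O ⟨γ z, hγz⟩ =
      IsLocalRing.residue O (resEquiv O (s σ) hst ⟨z, hz⟩) := h1
  rw [← sub_eq_zero, ← map_sub, (res_residue O).ker] at h2
  exact h2

theorem Rel.unique {ℓ : ℕ} [Fact ℓ.Prime] [IsAlgClosed κ] [CharZero κ] {B : Finset κ} {ε : κ → ℕ} {ι : ℕ}
    {N₀ : IntermediateField R M} (hC : GCov ℓ κ R M x B ε ι N₀) {V : ValuationSubring κ} {O : ValuationSubring M}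
    (hO : Gauss V (algebraMap R M x) O) (hl : IsU V (ℓ : κ))
    (hu : ∀ O' : ValuationSubring M, Gauss V (algebraMap R M x) O' → O' = O)
    {σ : κ ≃ₐ[k] κ} {γ γ' : M ≃ₐ[R] M} (h : Rel O s σ γ) (h' : Rel O s σ γ') : γ = γ' := by
  have h1 : ∀ z ∈ O, (γ'⁻¹ * γ) z - z ∈ O.nonunits := by
    intro z hz
    have h2 := sub_mem (h z hz) (h' z hz)
    have h3 : γ z - s σ z - (γ' z - s σ z) = γ z - γ' z := by ring
    rw [h3, ← nuG hO hu γ'⁻¹, map_sub] at h2
    have h4 : γ'⁻¹ (γ' z) = z := by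
      rw [← AlgEquiv.mul_apply, inv_mul_cancel, AlgEquiv.one_apply]
    rwa [h4] at h2
  have h2 := (g2 hC V O hO).2 hl
  have h3 : γ'⁻¹ * γ = 1 := by
    ext z
    obtain ⟨N, hzN, hN⟩ := hC.pow z
    exact h2 N hN (γ'⁻¹ * γ) (fun z hz _ => h1 z hz) z hzN
  exact (inv_mul_eq_one.1 h3).symm

theorem Rel.mul {V : ValuationSubring κ} {O : ValuationSubring M}
    (hO : Gauss V (algebraMap R M x) O)
    (hu : ∀ O' : ValuationSubring M, Gauss V (algebraMap R M x) O' → O' = O)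
    (hs : GSec k κ R M x s) {σ σ' : κ ≃ₐ[k] κ} (hσ : Dec V σ) {γ γ' : M ≃ₐ[R] M}
    (h : Rel O s σ γ) (h' : Rel O s σ' γ') : Rel O s (σ * σ') (γ * γ') := by
  intro z hz
  have h1 : γ' z ∈ O := (stabG hO hu γ' z).2 hz
  have h2 := h (γ' z) h1
  have h3 := (nuS hO hu hs hσ _).2 (h' z hz)
  have h4 := add_mem h2 h3
  rw [map_sub] at h4
  rw [map_mul]
  show γ (γ' z) - s σ (s σ' z) ∈ _
  have h5 : γ (γ' z) - s σ (γ' z) + (s σ (γ' z) - s σ (s σ' z)) =
      γ (γ' z) - s σ (s σ' z) := by ring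
  rwa [h5] at h4

/-- `s(φ)` maps `R` to itself -/
theorem sec_R (hR : RatF κ x) (hs : GSec k κ R M x s) (φ : κ ≃ₐ[k] κ) (z : R) :
    ∃ z' : R, s φ (algebraMap R M z) = algebraMap R M z' := by
  have hz : z ∈ IntermediateField.adjoin κ {x} := by rw [hR.gen]; trivial
  induction hz using IntermediateField.adjoin_induction with
  | mem y hy =>
    rw [Set.mem_singleton_iff] at hy
    subst hy
    exact ⟨y, hs.fixx φ⟩
  | algebraMap c =>
    refine ⟨algebraMap κ R (φ c), ?_⟩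
    rw [← IsScalarTower.algebraMap_apply, hs.const, ← IsScalarTower.algebraMap_apply]
  | add a b _ _ ha hb =>
    obtain ⟨a', ha⟩ := ha
    obtain ⟨b', hb⟩ := hb
    exact ⟨a' + b', by rw [map_add, map_add, ha, hb, map_add]⟩
  | inv a _ ha =>
    obtain ⟨a', ha⟩ := ha
    exact ⟨a'⁻¹, by rw [map_inv₀, map_inv₀, ha, map_inv₀]⟩
  | mul a b _ _ ha hb =>
    obtain ⟨a', ha⟩ := ha
    obtain ⟨b', hb⟩ := hb
    exact ⟨a' * b', by rw [map_mul, map_mul, ha, hb, map_mul]⟩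

/-- conjugation by `s(φ)` -/
noncomputable def conj (hR : RatF κ x) (hs : GSec k κ R M x s) (φ : κ ≃ₐ[k] κ)
    (γ : M ≃ₐ[R] M) : M ≃ₐ[R] M :=
  AlgEquiv.ofRingEquiv (f := s φ * (γ : M ≃+* M) * s φ⁻¹) (by
    intro z
    obtain ⟨z', hz'⟩ := sec_R hR hs φ⁻¹ z
    show s φ (γ (s φ⁻¹ (algebraMap R M z))) = _
    rw [hz', AlgEquiv.commutes, ← hz']
    show (s φ * s φ⁻¹) _ = _
    rw [← map_mul, mul_inv_cancel, map_one]
    rfl)

theorem conj_apply (hR : RatF κ x) (hs : GSec k κ R M x s) (φ : κ ≃ₐ[k] κ)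
    (γ : M ≃ₐ[R] M) (z : M) : conj hR hs φ γ z = s φ (γ (s φ⁻¹ z)) := rfl

theorem Rel.conj {V : ValuationSubring κ} {O : ValuationSubring M}
    (hO : Gauss V (algebraMap R M x) O)
    (hu : ∀ O' : ValuationSubring M, Gauss V (algebraMap R M x) O' → O' = O)
    (hR : RatF κ x) (hs : GSec k κ R M x s) {σ φ : κ ≃ₐ[k] κ} (hφ : Dec V φ)
    {γ : M ≃ₐ[R] M} (h : Rel O s σ γ) : Rel O s (φ * σ * φ⁻¹) (conj hR hs φ γ) := by
  intro z hz
  have h1 : s φ⁻¹ z ∈ O := (stabS hO hu hs (dec_inv hφ) z).2 hz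
  have h2 := (nuS hO hu hs hφ _).2 (h _ h1)
  rw [map_sub] at h2
  rw [conj_apply, map_mul, map_mul]
  exact h2

end

section

variable {κ R M : Type} [Field κ] [Field R] [Field M] [Algebra κ R] [Algebra R M] [Algebra κ M]
  [IsScalarTower κ R M] {x : R}
variable {k : Type} [Field k] [Algebra k κ] {δ : κ} {s : (κ ≃ₐ[k] κ) →* RingAut M}

/-- the elements of the Galois group which act like elements of the inertia group -/
def GI (V : ValuationSubring κ) (O : ValuationSubring M) (s : (κ ≃ₐ[k] κ) →* RingAut M) (δ : κ) :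
    Set (M ≃ₐ[R] M) := {γ | ∃ σ : κ ≃ₐ[k] κ, Ine V σ ∧ σ δ = δ ∧ Rel O s σ γ}

/-- the field of the elements whose conjugates are fixed by all these automorphisms -/
def LL (R : Type) [Field R] [Algebra R M] (V : ValuationSubring κ) (O : ValuationSubring M)
    (s : (κ ≃ₐ[k] κ) →* RingAut M) (δ : κ) : IntermediateField R M where
  carrier := {z | ∀ g : M ≃ₐ[R] M, ∀ γ ∈ GI (R := R) V O s δ, γ (g z) = g z}
  mul_mem' := fun ha hb g γ hγ => by rw [map_mul, map_mul, ha g γ hγ, hb g γ hγ]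
  one_mem' := fun g γ hγ => by rw [map_one, map_one]
  add_mem' := fun ha hb g γ hγ => by rw [map_add, map_add, ha g γ hγ, hb g γ hγ]
  zero_mem' := fun g γ hγ => by rw [map_zero, map_zero]
  algebraMap_mem' := fun r g γ hγ => by rw [AlgEquiv.commutes, AlgEquiv.commutes]
  inv_mem' := fun a ha g γ hγ => by rw [map_inv₀, map_inv₀, ha g γ hγ]

theorem mem_LL {V : ValuationSubring κ} {O : ValuationSubring M} {z : M} :
    z ∈ LL R V O s δ ↔ ∀ g : M ≃ₐ[R] M, ∀ γ ∈ GI (R := R) V O s δ, γ (g z) = g z := Iff.rfl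

theorem LL_gal {V : ValuationSubring κ} {O : ValuationSubring M} {z : M}
    (hz : z ∈ LL R V O s δ) (g : M ≃ₐ[R] M) : g z ∈ LL R V O s δ :=
  fun g' γ hγ => hz (g' * g) γ hγ

theorem LL_fix {V : ValuationSubring κ} {O : ValuationSubring M} {z : M}
    (hz : z ∈ LL R V O s δ) {γ : M ≃ₐ[R] M} (hγ : γ ∈ GI (R := R) V O s δ) : γ z = z :=
  hz 1 γ hγ

theorem GI_conj {V : ValuationSubring κ} {O : ValuationSubring M}
    (hO : Gauss V (algebraMap R M x) O)
    (hu : ∀ O' : ValuationSubring M, Gauss V (algebraMap R M x) O' → O' = O)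
    (hR : RatF κ x) (hs : GSec k κ R M x s) {φ : κ ≃ₐ[k] κ} (hφ : Dec V φ) (hφδ : φ δ = δ)
    {γ : M ≃ₐ[R] M} (hγ : γ ∈ GI (R := R) V O s δ) : conj hR hs φ γ ∈ GI (R := R) V O s δ := by
  obtain ⟨σ, h1, h2, h3⟩ := hγ
  refine ⟨φ * σ * φ⁻¹, ine_conj hφ h1, ?_, h3.conj hO hu hR hs hφ⟩
  rw [AlgEquiv.mul_apply, AlgEquiv.mul_apply, fix_inv hφδ, h2, hφδ]

theorem LL_s {V : ValuationSubring κ} {O : ValuationSubring M}
    (hO : Gauss V (algebraMap R M x) O)
    (hu : ∀ O' : ValuationSubring M, Gauss V (algebraMap R M x) O' → O' = O)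
    (hR : RatF κ x) (hs : GSec k κ R M x s) {φ : κ ≃ₐ[k] κ} (hφ : Dec V φ) (hφδ : φ δ = δ)
    {z : M} (hz : z ∈ LL R V O s δ) : s φ z ∈ LL R V O s δ := by
  intro g γ hγ
  have h1 : ∀ (g : M ≃ₐ[R] M) (w : M), g (s φ w) = s φ (conj hR hs φ⁻¹ g w) := by
    intro g w
    rw [conj_apply, inv_inv, s_apply_inv]
  rw [h1, h1]
  congr 1
  exact hz _ _ (GI_conj hO hu hR hs (dec_inv hφ) (fix_inv hφδ) hγ)

/-- a level inside `L`, stable under `s(φ)`, with given elements -/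
theorem exists_level {ℓ : ℕ} [Fact ℓ.Prime] [CharZero κ] {B : Finset κ} {ε : κ → ℕ} {ι : ℕ}
    {N₀ : IntermediateField R M} (hk : Algebra.IsAlgebraic k κ)
    (hC : GCov ℓ κ R M x B ε ι N₀) {V : ValuationSubring κ} {O : ValuationSubring M}
    (hO : Gauss V (algebraMap R M x) O)
    (hu : ∀ O' : ValuationSubring M, Gauss V (algebraMap R M x) O' → O' = O)
    (hs : GSec k κ R M x s) {φ : κ ≃ₐ[k] κ} (hφ : Dec V φ) (hφδ : φ δ = δ)
    {z₁ z₂ : M} (hz₁ : z₁ ∈ LL R V O s δ) (hz₂ : z₂ ∈ LL R V O s δ) :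
    ∃ N : IntermediateField R M, Lev ℓ N ∧ z₁ ∈ N ∧ z₂ ∈ N ∧ N ≤ LL R V O s δ ∧
      ∀ z, s φ z ∈ N ↔ z ∈ N := by
  haveI := hC.gal
  have hR := hC.rat
  haveI : CharZero R := charZero_of_injective_algebraMap (algebraMap κ R).injective
  have hM : Algebra.IsAlgebraic R M := inferInstance
  obtain ⟨T₁, hT₁, hm₁, hs₁⟩ := exists_orbit (k := k) hk hR hM z₁
  obtain ⟨T₂, hT₂, hm₂, hs₂⟩ := exists_orbit (k := k) hk hR hM z₂
  set T : Set M := {w | (w ∈ T₁ ∨ w ∈ T₂) ∧ w ∈ LL R V O s δ} with hT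
  have hTfin : T.Finite := (hT₁.union hT₂).subset fun w hw => hw.1
  have hTgal : ∀ g : M ≃ₐ[R] M, ∀ w ∈ T, g w ∈ T := by
    intro g w hw
    have h1 : ∀ c : k, (g : M ≃+* M) (algebraMap κ M (algebraMap k κ c)) =
      algebraMap κ M (algebraMap k κ c) := fun c => gal_const g _
    have h2 : (g : M ≃+* M) (algebraMap R M x) = algebraMap R M x := g.commutes x
    refine ⟨?_, LL_gal hw.2 g⟩
    rcases hw.1 with h | h
    · exact Or.inl (hs₁ (g : M ≃+* M) h1 h2 w h)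
    · exact Or.inr (hs₂ (g : M ≃+* M) h1 h2 w h)
  have hTs : ∀ φ : κ ≃ₐ[k] κ, Dec V φ → φ δ = δ → ∀ w ∈ T, s φ w ∈ T := by
    intro φ hφ hφδ w hw
    have h1 : ∀ c : k, (s φ) (algebraMap κ M (algebraMap k κ c)) =
      algebraMap κ M (algebraMap k κ c) := fun c => by rw [hs.const, AlgEquiv.commutes]
    have h2 : (s φ) (algebraMap R M x) = algebraMap R M x := hs.fixx φ
    refine ⟨?_, LL_s hO hu hR hs hφ hφδ hw.2⟩
    rcases hw.1 with h | h
    · exact Or.inl (hs₁ (s φ) h1 h2 w h)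
    · exact Or.inr (hs₂ (s φ) h1 h2 w h)
  haveI : Finite T := hTfin
  set N := IntermediateField.adjoin R T with hN
  haveI hfin : FiniteDimensional R N :=
    IntermediateField.finiteDimensional_adjoin fun w _ => (hM.isAlgebraic w).isIntegral
  have hnorm : Normal R N := by
    rw [IntermediateField.normal_iff_forall_map_le']
    intro g
    rw [hN, IntermediateField.adjoin_map, IntermediateField.adjoin_le_iff]
    rintro _ ⟨w, hw, rfl⟩
    exact IntermediateField.subset_adjoin R T (hTgal g w hw)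
  haveI : Algebra.IsSeparable R N := inferInstance
  have hgal : IsGalois R N := ⟨⟩
  have hNs : ∀ φ : κ ≃ₐ[k] κ, Dec V φ → φ δ = δ → ∀ z ∈ N, s φ z ∈ N := by
    intro φ hφ hφδ z hz
    induction hz using IntermediateField.adjoin_induction with
    | mem y hy => exact IntermediateField.subset_adjoin R T (hTs φ hφ hφδ y hy)
    | algebraMap c =>
      obtain ⟨c', hc'⟩ := sec_R hR hs φ c
      rw [hc']
      exact N.algebraMap_mem c'
    | add a b _ _ ha hb => rw [map_add]; exact add_mem ha hb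
    | inv a _ ha => rw [map_inv₀]; exact inv_mem ha
    | mul a b _ _ ha hb => rw [map_mul]; exact mul_mem ha hb
  refine ⟨N, lev_of_galois hC.pow N hfin hgal, ?_, ?_, ?_, fun z => ⟨fun h => ?_, hNs φ hφ hφδ z⟩⟩
  · exact IntermediateField.subset_adjoin R T ⟨Or.inl hm₁, hz₁⟩
  · exact IntermediateField.subset_adjoin R T ⟨Or.inr hm₂, hz₂⟩
  · rw [hN, IntermediateField.adjoin_le_iff]
    exact fun w hw => hw.2
  · have := hNs φ⁻¹ (dec_inv hφ) (fix_inv hφδ) _ h
    rwa [s_inv_apply] at this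


end

end Pool.Agent.H889.PS
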