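import Pool.Agent.H889.PS.W12

/-!
# The weight argument (2)
-/

set_option autoImplicit false
set_option linter.all false

open Polynomial FF

namespace Pool.Agent.H889.PS

open Pool.Agent.Y157.PS
open Pool.Agent.Y748.PS (nu_mem nu_mul nu_one nu_map isU_map rou_eq_one isU_pow
  resEquiv res_residue map_aeval gauss_comap stab gal_const stabG nuG s_inv_apply s_apply_inv dec_inv
  dec_mul dec_nu ine_conj ine_mul fix_inv rou_const isAlg_small exists_orbit lev_of_galois isU_alg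
  nu_alg isU_of_pow isU_one isU_mul eq_of_pow_eq frob_rou)

section

variable {κ R M : Type} [Field κ] [Field R] [Field M] [Algebra κ R] [Algebra R M] [Algebra κ M]
  [IsScalarTower κ R M] {x : R}
variable {k : Type} [Field k] [Algebra k κ] {δ : κ} {s : (κ ≃ₐ[k] κ) →* RingAut M}

/-- the characters of the inertia group attached to an element with an `ℓ ^ n`-th power in `N` -/
theorem chi_exists [IsAlgClosed κ] [CharZero κ] {ℓ : ℕ} [Fact ℓ.Prime]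
    {B : Finset κ} {ε : κ → ℕ} {ι : ℕ}
    {N₀ : IntermediateField R M} (hC : GCov ℓ κ R M x B ε ι N₀)
    {V : ValuationSubring κ} (hl : IsU V (ℓ : κ)) {O : ValuationSubring M}
    (hO : Gauss V (algebraMap R M x) O)
    (hu : ∀ O' : ValuationSubring M, Gauss V (algebraMap R M x) O' → O' = O)
    (hex : ∀ σ : κ ≃ₐ[k] κ, Ine V σ → ∃ γ : M ≃ₐ[R] M, Rel O s σ γ)
    {h : M} (hh : h ≠ 0) {n : ℕ} (hL : h ^ (ℓ ^ n) ∈ LL R V O s δ) :
    ∃ χ : (κ ≃ₐ[k] κ) → κ, ∀ σ, Ine V σ → σ δ = δ → χ σ ^ (ℓ ^ n) = 1 ∧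
      ∀ γ : M ≃ₐ[R] M, Rel O s σ γ → γ h = algebraMap κ M (χ σ) * h := by
  classical
  have h1 : ∀ σ : κ ≃ₐ[k] κ, ∃ c : κ, Ine V σ → σ δ = δ → c ^ (ℓ ^ n) = 1 ∧
      ∀ γ : M ≃ₐ[R] M, Rel O s σ γ → γ h = algebraMap κ M c * h := by
    intro σ
    by_cases hσ : Ine V σ ∧ σ δ = δ
    · obtain ⟨γ, hγ⟩ := hex σ hσ.1
      have h2 : γ (h ^ (ℓ ^ n)) = h ^ (ℓ ^ n) := LL_fix hL ⟨σ, hσ.1, hσ.2, hγ⟩
      have h3 : (γ h / h) ^ (ℓ ^ n) = 1 := by
        rw [div_pow, ← map_pow, h2, div_self (pow_ne_zero _ hh)]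
      obtain ⟨c, hc, hc'⟩ := rou_const (κ := κ) (pow_pos (Fact.out : ℓ.Prime).pos n) h3
      refine ⟨c, fun _ _ => ⟨hc, fun γ' hγ' => ?_⟩⟩
      rw [Rel.unique hC hO hl hu hγ' hγ, hc', div_mul_cancel₀ _ hh]
    · exact ⟨1, fun a b => absurd ⟨a, b⟩ hσ⟩
  choose χ hχ using h1
  exact ⟨χ, hχ⟩

end

section

variable {A k κ R M : Type} [CommRing A] [IsDomain A]
    [IsDiscreteValuationRing A] [Field k] [Field κ] [Algebra A k] [Algebra k κ] [Algebra A κ]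
    [IsScalarTower A k κ] [IsFractionRing A k] [CharZero k] [IsAlgClosure k κ]
    [Finite (IsLocalRing.ResidueField A)] [Field R] [Field M] [Algebra κ R] [Algebra R M]
    [Algebra κ M] [IsScalarTower κ R M]

variable {ℓ : ℕ} [Fact ℓ.Prime] [IsAlgClosed κ] [CharZero κ] {V : ValuationSubring κ}
  {ϖ : A} {δ : κ} {j : ℕ} {x : R} {B : Finset κ} {ε : κ → ℕ} {ι : ℕ}
  {N₀ : IntermediateField R M} {s : (κ ≃ₐ[k] κ) →* RingAut M} {O : ValuationSubring M}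

theorem chi_kum (hB : IB ℓ A k κ V ϖ) (hδϖ : δ ^ (ℓ ^ j) = algebraMap A κ ϖ)
    (hC : GCov ℓ κ R M x B ε ι N₀) (hO : Gauss V (algebraMap R M x) O)
    (hu : ∀ O' : ValuationSubring M, Gauss V (algebraMap R M x) O' → O' = O)
    (hs : GSec k κ R M x s)
    (hex : ∀ σ : κ ≃ₐ[k] κ, Ine V σ → ∃ γ : M ≃ₐ[R] M, Rel O s σ γ)
    {φ : κ ≃ₐ[k] κ} (hφ : Fro V (Nat.card (IsLocalRing.ResidueField A)) φ) (hφδ : φ δ = δ)
    {h : M} (hh : h ≠ 0) {n : ℕ} {χ : (κ ≃ₐ[k] κ) → κ}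
    (hχ : ∀ σ, Ine V σ → σ δ = δ → χ σ ^ (ℓ ^ n) = 1 ∧
      ∀ γ : M ≃ₐ[R] M, Rel O s σ γ → γ h = algebraMap κ M (χ σ) * h)
    {σ : κ ≃ₐ[k] κ} (hσ : Ine V σ) (hσδ : σ δ = δ) :
    χ (φ * σ * φ⁻¹) = χ σ ^ Nat.card (IsLocalRing.ResidueField A) := by
  refine kum hB hδϖ φ hφ hφδ n χ (fun σ h1 h2 => (hχ σ h1 h2).1) ?_ ?_ σ hσ hσδ
  · intro σ σ' h1 h2 h1' h2'
    obtain ⟨γ, hγ⟩ := hex σ h1
    obtain ⟨γ', hγ'⟩ := hex σ' h1'
    have h3 := (hχ (σ * σ') (ine_mul h1 h1') (by rw [AlgEquiv.mul_apply, h2', h2])).2 _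
      (Rel.mul hO hu hs h1.1 hγ hγ')
    rw [AlgEquiv.mul_apply, (hχ σ' h1' h2').2 γ' hγ', map_mul, gal_const, (hχ σ h1 h2).2 γ hγ,
      ← mul_assoc, ← map_mul] at h3
    have h4 := mul_right_cancel₀ hh h3
    have h5 := (algebraMap κ M).injective h4
    rw [← h5, mul_comm]
  · obtain ⟨c, hc0, hc⟩ := (g2 hC V O hO).1 h hh
    obtain ⟨E2, hE2, hE2'⟩ := hs.cont h
    haveI := hE2
    have halg : Algebra.IsAlgebraic k κ := IsAlgClosure.isAlgebraic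
    haveI : FiniteDimensional k (IntermediateField.adjoin k {c}) :=
      IntermediateField.adjoin.finiteDimensional (halg.isAlgebraic c).isIntegral
    refine ⟨IntermediateField.adjoin k {c} ⊔ E2, inferInstance, fun σ hσE h1 h2 => ?_⟩
    rw [IntermediateField.mem_fixingSubgroup_iff] at hσE
    have h3 : σ c = c := hσE c ((le_sup_left : IntermediateField.adjoin k {c} ≤ _)
      (IntermediateField.mem_adjoin_simple_self k c))
    have h4 : s σ h = h := hE2' σ (by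
      rw [IntermediateField.mem_fixingSubgroup_iff]
      exact fun y hy => hσE y ((le_sup_right : E2 ≤ _) hy))
    obtain ⟨γ, hγ⟩ := hex σ h1
    have h5 := hγ _ hc.2.1
    rw [map_div₀, map_div₀, gal_const, hs.const, h3, h4, (hχ σ h1 h2).2 γ hγ] at h5
    have h6 : algebraMap κ M (χ σ) - 1 ∈ O.nonunits := by
      have h7 : algebraMap κ M (χ σ) - 1 = (h / algebraMap κ M c)⁻¹ *
          (algebraMap κ M (χ σ) * h / algebraMap κ M c - h / algebraMap κ M c) := by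
        have hc1 : algebraMap κ M c ≠ 0 := by
          rw [Ne, FaithfulSMul.algebraMap_eq_zero_iff]; exact hc0
        field_simp
      rw [h7]
      exact nu_mul hc.2.2 h5
    have h8 : algebraMap κ M (χ σ) = 1 := by
      refine rou_eq_one (m := ℓ ^ n) ?_ (by rw [← map_pow, (hχ σ h1 h2).1, map_one]) h6
      have := isU_pow (isU_alg hO hB.ell) n
      rw [map_natCast] at this
      rwa [Nat.cast_pow]
    exact (algebraMap κ M).injective (by rw [h8, map_one])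

/-- the weight argument -/
theorem frob_fix (hB : IB ℓ A k κ V ϖ) (hδϖ : δ ^ (ℓ ^ j) = algebraMap A κ ϖ)
    (hC : GCov ℓ κ R M x B ε ι N₀) (hO : Gauss V (algebraMap R M x) O)
    (hu : ∀ O' : ValuationSubring M, Gauss V (algebraMap R M x) O' → O' = O)
    (hs : GSec k κ R M x s)
    (hex : ∀ σ : κ ≃ₐ[k] κ, Ine V σ → ∃ γ : M ≃ₐ[R] M, Rel O s σ γ)
    (hcop : Nat.Coprime (Nat.card (IsLocalRing.ResidueField A)) ℓ)
    {φ : κ ≃ₐ[k] κ} (hφ : Fro V (Nat.card (IsLocalRing.ResidueField A)) φ) (hφδ : φ δ = δ)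
    {h : M} (hh : h ≠ 0) {n : ℕ} (hL : h ^ (ℓ ^ n) ∈ LL R V O s δ)
    {γ : M ≃ₐ[R] M} (hγ : γ ∈ GI (R := R) V O s δ) :
    γ (s φ h / h) = s φ h / h := by
  have hl := hB.ell
  have hR := hC.rat
  have hh2 : s φ h ≠ 0 := by rw [Ne, EmbeddingLike.map_eq_zero_iff]; exact hh
  have hL2 : (s φ h) ^ (ℓ ^ n) ∈ LL R V O s δ := by
    rw [← map_pow]
    exact LL_s hO hu hR hs hφ.1 hφδ hL
  obtain ⟨χ₁, hχ₁⟩ := chi_exists hC hl hO hu hex hh hL
  obtain ⟨χ₂, hχ₂⟩ := chi_exists hC hl hO hu hex hh2 hL2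
  obtain ⟨σ, h1, h2, h3⟩ := hγ
  have hc1 : Ine V (φ * σ * φ⁻¹) := ine_conj hφ.1 h1
  have hc2 : (φ * σ * φ⁻¹) δ = δ := by
    rw [AlgEquiv.mul_apply, AlgEquiv.mul_apply, fix_inv hφδ, h2, hφδ]
  have h4 := (hχ₂ _ hc1 hc2).2 _ (h3.conj hO hu hR hs hφ.1)
  rw [chi_kum hB hδϖ hC hO hu hs hex hφ hφδ hh2 hχ₂ h1 h2, conj_apply, s_inv_apply,
    (hχ₁ σ h1 h2).2 γ h3, map_mul, hs.const, frob_rou hl hφ (hχ₁ σ h1 h2).1] at h4
  have h5 := (algebraMap κ M).injective (mul_right_cancel₀ hh2 h4)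
  have h6 : χ₁ σ = χ₂ σ := eq_of_pow_eq (pow_pos (Fact.out : ℓ.Prime).pos n) (hχ₁ σ h1 h2).1
    (hχ₂ σ h1 h2).1 h5 (Nat.Coprime.pow_right n hcop)
  have h7 : algebraMap κ M (χ₂ σ) ≠ 0 := by
    rw [Ne, FaithfulSMul.algebraMap_eq_zero_iff]
    intro h8
    have := (hχ₂ σ h1 h2).1
    rw [h8, zero_pow (pow_pos (Fact.out : ℓ.Prime).pos n).ne'] at this
    exact zero_ne_one this
  rw [map_div₀, (hχ₁ σ h1 h2).2 γ h3, (hχ₂ σ h1 h2).2 γ h3, h6, mul_div_mul_left _ _ h7]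

end


/-- the facts about the residue field -/
theorem res_facts {ℓ : ℕ} [Fact ℓ.Prime] {A k κ : Type} [CommRing A] [IsDomain A]
    [IsDiscreteValuationRing A] [Field k] [Field κ] [Algebra A k] [Algebra k κ] [Algebra A κ]
    [IsScalarTower A k κ] [IsFractionRing A k] [CharZero k] [IsAlgClosure k κ]
    [Finite (IsLocalRing.ResidueField A)] {V : ValuationSubring κ} {ϖ : A}
    (hB : IB ℓ A k κ V ϖ) {F : Type} [Field F] {r : V →+* F} (hr : Res V r) :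
    ∃ p a : ℕ, p.Prime ∧ CharP F p ∧ 0 < a ∧ Nat.card (IsLocalRing.ResidueField A) = p ^ a ∧
      (∀ c : F, ∃ m : ℕ, 0 < m ∧ c ^ (Nat.card (IsLocalRing.ResidueField A) ^ m) = c) ∧
      Nat.Coprime (Nat.card (IsLocalRing.ResidueField A)) ℓ := by
  haveI : IsAlgClosed κ := IsAlgClosure.isAlgClosed k
  haveI : Algebra.IsAlgebraic k κ := IsAlgClosure.isAlgebraic
  obtain ⟨δ, hδ⟩ := IsAlgClosed.exists_pow_nat_eq (algebraMap A κ ϖ) (Fact.out : ℓ.Prime).pos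
  refine Pool.Agent.Y748.PS.res_facts (δ := δ) (m := 1)
    ⟨hB.lunit, hB.mem, hB.non, hB.irr, ?_, ⟨algebraMap A k ϖ, ?_⟩, ?_⟩ hr
  · intro h
    have h7 : ℓ ∣ 1 := by exact_mod_cast h
    exact (Fact.out : ℓ.Prime).one_lt.ne' (Nat.dvd_one.mp h7)
  · rw [hδ, ← IsScalarTower.algebraMap_apply]
  · rw [hδ, zpow_one, div_self hB.pi0]
    exact Pool.Agent.Y748.PS.isU_one

section base

variable {A k κ R M : Type} [CommRing A] [IsDomain A]
    [IsDiscreteValuationRing A] [Field k] [Field κ] [Algebra A k] [Algebra k κ] [Algebra A κ]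
    [IsScalarTower A k κ] [IsFractionRing A k] [CharZero k] [IsAlgClosure k κ]
    [Finite (IsLocalRing.ResidueField A)] [Field R] [Field M] [Algebra κ R] [Algebra R M]
    [Algebra κ M] [IsScalarTower κ R M] {ℓ : ℕ} [Fact ℓ.Prime] [IsAlgClosed κ] [CharZero κ]
    {V : ValuationSubring κ} {ϖ : A} {δ : κ} {j : ℕ} {x : R} {B : Finset κ} {ε : κ → ℕ} {ι : ℕ}
    {N₀ : IntermediateField R M} {s : (κ ≃ₐ[k] κ) →* RingAut M} {O : ValuationSubring M}

/-- the elements of the inertia group which fix `δ` act trivially on `N₀` -/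
theorem base_triv (hB : IB ℓ A k κ V ϖ) (hδϖ : δ ^ (ℓ ^ j) = algebraMap A κ ϖ)
    (hC : GCov ℓ κ R M x B ε ι N₀) (hj : Module.finrank R N₀ = ℓ ^ j)
    (hO : Gauss V (algebraMap R M x) O)
    (hu : ∀ O' : ValuationSubring M, Gauss V (algebraMap R M x) O' → O' = O)
    (hs : GSec k κ R M x s) {σ : κ ≃ₐ[k] κ} (hσ : Ine V σ) (hσδ : σ δ = δ)
    {γ : M ≃ₐ[R] M} (hγ : Rel O s σ γ) (z : M) (hz : z ∈ N₀) : γ z = z := by
  classical
  have i0 := hC.gal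
  have i1 := hC.lev.fin
  have i2 := hC.lev.gal
  have hl := hB.ell
  have hex : ∀ σ : κ ≃ₐ[k] κ, Ine V σ → ∃ γ : M ≃ₐ[R] M, Rel O s σ γ :=
    fun σ hσ => Rel.exists hC hO hu hs hσ
  let g : (κ ≃ₐ[k] κ) → (M ≃ₐ[R] M) := fun σ => if h : Ine V σ then (hex σ h).choose else 1
  have hg : ∀ σ, Ine V σ → Rel O s σ (g σ) := by
    intro σ h
    have : g σ = (hex σ h).choose := dif_pos h
    rw [this]
    exact (hex σ h).choose_spec
  have hgmul : ∀ σ σ', Ine V σ → Ine V σ' → g (σ * σ') = g σ * g σ' := by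
    intro σ σ' h h'
    exact Rel.unique hC hO hl hu (hg _ (ine_mul h h')) (Rel.mul hO hu hs h.1 (hg σ h) (hg σ' h'))
  have hrn : ∀ (γ : M ≃ₐ[R] M) (z : N₀), ((AlgEquiv.restrictNormalHom N₀ γ z : N₀) : M) = γ z :=
    fun γ z => AlgEquiv.restrictNormal_commutes γ N₀ z
  have hcard : Nat.card (N₀ ≃ₐ[R] N₀) = ℓ ^ j := by rw [IsGalois.card_aut_eq_finrank, hj]
  haveI : Finite (N₀ ≃ₐ[R] N₀) := Nat.finite_of_card_ne_zero (by
    rw [hcard]; exact pow_ne_zero _ (Fact.out : ℓ.Prime).ne_zero)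
  -- witnesses for the nontrivial elements
  have hwit : ∀ h : N₀ ≃ₐ[R] N₀, ∃ w : M, w ∈ O ∧ (h ≠ 1 →
      ∀ γ : M ≃ₐ[R] M, AlgEquiv.restrictNormalHom N₀ γ = h → γ w - w ∉ O.nonunits) := by
    intro h
    by_cases h1 : h = 1
    · exact ⟨1, one_mem _, fun h2 => absurd h1 h2⟩
    by_contra hcon
    push Not at hcon
    apply h1
    have h2 := (g2 hC V O hO).2 hl N₀ hC.lev (h.liftNormal M) (by
      intro w hw hwN
      obtain ⟨-, γ, hγ, h3⟩ := hcon w hw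
      have h4 : (h.liftNormal M) w = γ w := by
        have h5 := hrn γ ⟨w, hwN⟩
        rw [hγ] at h5
        rw [← h5]
        exact AlgEquiv.liftNormal_commutes h M ⟨w, hwN⟩
      rw [h4]
      exact h3)
    ext w
    have h5 := AlgEquiv.liftNormal_commutes h M w
    have h6 := h2 (w : M) w.2
    have h7 : ((h w : N₀) : M) = (h.liftNormal M) (w : M) := h5.symm
    rw [h7, h6]
    rfl
  choose w hwO hw using hwit
  haveI : Fintype (N₀ ≃ₐ[R] N₀) := Fintype.ofFinite _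
  choose Ez hEz hEz' using fun h : N₀ ≃ₐ[R] N₀ => hs.cont (w h)
  haveI : ∀ h, FiniteDimensional k (Ez h) := hEz
  have h1 := hom_triv hB j δ hδϖ (N₀ ≃ₐ[R] N₀) hcard
    (fun σ => AlgEquiv.restrictNormalHom N₀ (g σ)) (fun σ σ' h h' => by
      rw [hgmul σ σ' h h', map_mul])
    ⟨⨆ h : N₀ ≃ₐ[R] N₀, Ez h, IntermediateField.finiteDimensional_iSup_of_finite, by
      intro σ' h1 h2
      by_contra h3
      have h4 := hw _ h3 (g σ') rfl
      apply h4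
      have h5 := hg σ' h2 _ (hwO (AlgEquiv.restrictNormalHom N₀ (g σ')))
      rwa [hEz' (AlgEquiv.restrictNormalHom N₀ (g σ')) σ' (by
        rw [IntermediateField.mem_fixingSubgroup_iff] at h1 ⊢
        intro y hy
        exact h1 y ((le_iSup Ez (AlgEquiv.restrictNormalHom N₀ (g σ'))) hy))] at h5⟩ σ hσ hσδ
  have h2 : g σ = γ := Rel.unique hC hO hl hu (hg σ hσ) hγ
  have h3 := hrn γ ⟨z, hz⟩
  rw [← h2] at h3 ⊢
  have h4 : AlgEquiv.restrictNormalHom N₀ (g σ) = 1 := h1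
  rw [h4] at h3
  exact h3.symm

/-- **the weight argument**: `s(σ)` acts trivially on the residue field for all `σ` in the inertia
group which fix `δ` -/
theorem wgt (hB : IB ℓ A k κ V ϖ) (hδϖ : δ ^ (ℓ ^ j) = algebraMap A κ ϖ)
    (hC : GCov ℓ κ R M x B ε ι N₀) (hj : Module.finrank R N₀ = ℓ ^ j) (hGood : Good V B)
    (F : Type) [Field F] (r : V →+* F) (hr : Res V r) (D : Disc ℓ V r)
    (hs : GSec k κ R M x s) (hO : Gauss V (algebraMap R M x) O)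
    (hu : ∀ O' : ValuationSubring M, Gauss V (algebraMap R M x) O' → O' = O)
    (σ : κ ≃ₐ[k] κ) (hσ : Ine V σ) (hσδ : σ δ = δ) (z : M) (hz : z ∈ O) :
    s σ z - z ∈ O.nonunits := by
  classical
  haveI : CharZero R := charZero_of_injective_algebraMap (algebraMap κ R).injective
  haveI halg : Algebra.IsAlgebraic k κ := IsAlgClosure.isAlgebraic
  have i0 := hC.gal
  have i1 := hC.lev.fin
  have i2 := hC.lev.gal
  have hl := hB.ell
  obtain ⟨E, hεE, hιE⟩ : ∃ E : ℕ, (∀ a, ε a ≤ E) ∧ ι ≤ E := by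
    refine ⟨max ι (B.sup ε), fun a => ?_, le_max_left _ _⟩
    by_cases ha : a ∈ B
    · exact (Finset.le_sup ha).trans (le_max_right _ _)
    · rw [hC.supp a ha]; exact Nat.zero_le _
  obtain ⟨p, a, hp, hchar, ha, hq, hF, hcop⟩ := res_facts hB hr
  haveI : Fact p.Prime := ⟨hp⟩
  obtain ⟨⟨φ, hφ, hφδ⟩, -⟩ := tau hB hδϖ
  have hex : ∀ σ : κ ≃ₐ[k] κ, Ine V σ → ∃ γ : M ≃ₐ[R] M, Rel O s σ γ :=
    fun σ hσ => Rel.exists hC hO hu hs hσ
  haveI : Normal R N₀ := i2.to_normal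
  have hN₀ : N₀ ≤ LL R V O s δ := by
    intro z hz g γ hγ
    obtain ⟨σ, h1, h2, h3⟩ := hγ
    refine base_triv hB hδϖ hC hj hO hu hs h1 h2 h3 (g z) ?_
    have h4 := AlgEquiv.restrictNormal_commutes g N₀ ⟨z, hz⟩
    change ((g.restrictNormal N₀ ⟨z, hz⟩ : N₀) : M) = g z at h4
    rw [← h4]
    exact (g.restrictNormal N₀ ⟨z, hz⟩).2
  obtain ⟨α, hα⟩ := Field.exists_primitive_element R N₀
  have hαle : ∀ N : IntermediateField R M, (α : M) ∈ N → N₀ ≤ N := by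
    intro N hαN w hw
    have h1 : (⟨w, hw⟩ : N₀) ∈ IntermediateField.adjoin R {α} := by rw [hα]; trivial
    have h2 : (IntermediateField.adjoin R {α}).map N₀.val =
        IntermediateField.adjoin R {(α : M)} := by
      rw [IntermediateField.adjoin_map, Set.image_singleton]
      rfl
    have h3 : w ∈ IntermediateField.adjoin R {(α : M)} := by
      rw [← h2]
      exact ⟨_, h1, rfl⟩
    exact (IntermediateField.adjoin_le_iff.2 (by
      rintro _ rfl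
      exact hαN)) h3
  have hroot : ∀ h : M, h ^ ℓ ∈ LL R V O s δ → h ∈ LL R V O s δ := by
    intro h hh
    by_cases h0 : h = 0
    · rw [h0]; exact zero_mem _
    intro g γ hγ
    have h1 : g h ≠ 0 := by rw [Ne, EmbeddingLike.map_eq_zero_iff]; exact h0
    have h2 : (g h) ^ ℓ ∈ LL R V O s δ := by
      rw [← map_pow]; exact LL_gal hh g
    obtain ⟨N, hLev, hm1, hαN, hNL, hNs⟩ := exists_level halg hC hO hu hs hφ.1 hφδ h2 (hN₀ α.2)
    have hYN := hαle N hαN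
    obtain ⟨g0, m0, w, hg0, hg0m, hw, heq⟩ := a_surj ℓ M N.toSubfield (s φ) hNs
      (divs hC N hLev hYN) (fins hC N hLev hYN)
      (fixf hC E hεE hιE F V r hr hGood hl D p (Nat.card (IsLocalRing.ResidueField A)) a ha hq
        hF O hO hu N hLev hYN (s φ) (φ : κ ≃+* κ) (fun c => hs.const φ c) (hs.fixx φ) hNs hφ.1
        hφ.2) (g h) 1 h1 (by rw [pow_one]; exact hm1)
    rw [heq, map_mul, frob_fix hB hδϖ hC hO hu hs hex hcop hφ hφδ hg0 (hNL hg0m) hγ,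
      LL_fix (hNL hw) hγ]
  have hprim : ∃ ζ : R, IsPrimitiveRoot ζ ℓ := by
    haveI : NeZero ℓ := ⟨(Fact.out : ℓ.Prime).ne_zero⟩
    haveI : NeZero (ℓ : κ) := ⟨hl.1⟩
    obtain ⟨ζ, hζ⟩ := HasEnoughRootsOfUnity.exists_primitiveRoot κ ℓ
    exact ⟨algebraMap κ R ζ, hζ.map_of_injective (algebraMap κ R).injective⟩
  have htop := a_prol ℓ R M hprim hC.gal hC.pow (LL R V O s δ) hroot
  obtain ⟨γ, hγ⟩ := hex σ hσ
  have h1 : z ∈ LL R V O s δ := by rw [htop]; trivial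
  have h2 := hγ z hz
  rw [LL_fix h1 ⟨σ, hσ, hσδ, hγ⟩] at h2
  have h3 := neg_mem h2
  rwa [neg_sub] at h3

end base

end Pool.Agent.H889.PS
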